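import Pool.Agent.R988.Tor

/-! Comparison of the resolvent on a torus with the resolvent on the lattice. -/

set_option autoImplicit false
set_option linter.unusedSectionVars false
set_option linter.unusedVariables false

open scoped BigOperators ComplexConjugate
open Set

namespace Pool.Agent.R988.Tor

open Pool.Agent.W788.LD.Spec (S)
open Pool.Agent.H4R2.LO (Zd)
open Pool.Agent.TH794.QE (Rs)

variable {d L : ℕ} [NeZero L]

theorem inj_sum (f : Zd d → ℝ) (hf : ∀ x, 0 ≤ f x) (hs : Summable f) (g : TT d L → Zd d)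
    (hg : Function.Injective g) : ∑ x, f (g x) ≤ ∑' z, f z := by
  classical
  rw [← Finset.sum_image (s := Finset.univ) (f := f) (g := g) (fun a _ b _ h => hg h)]
  exact hs.sum_le_tsum _ fun z _ => hf z

/-- the error at the boundary of the box -/
noncomputable def bd (s : TT d L) (u : Zd d → ℂ) (x : TT d L) : ℂ :=
  ∑ i : Fin d, ((u (em (x - s) + Pi.single i 1) - u (em (pr L (em (x - s) + Pi.single i 1)))) +
    (u (em (x - s) - Pi.single i 1) - u (em (pr L (em (x - s) - Pi.single i 1)))))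

theorem box_eq {V : Zd d → ℝ} {c : Zd d} {e η : ℝ} {u : Zd d → ℂ} (h : Rs d V c e η u)
    (W : TT d L → ℝ) (s : TT d L) (hW : ∀ x, V (em (x - s)) = W x)
    (hc : ∀ i, 0 ≤ c i ∧ c i < L) (x : TT d L) :
    -TS (fun y => u (em (y - s))) x + (W x : ℂ) * u (em (x - s)) -
      ((e : ℂ) + (η : ℂ) * Complex.I) * u (em (x - s)) =
      (if x = s + pr L c then 1 else 0) + bd s u x := by
  have h1 := h.eq (em (x - s))
  rw [hW] at h1
  have h2 : (em (x - s) = c) ↔ (x = s + pr L c) := by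
    constructor
    · intro hh
      rw [← hh, pr_em]
      abel
    · intro hh
      rw [hh, add_sub_cancel_left, em_pr c hc]
  have h3 : (if em (x - s) = c then (1 : ℂ) else 0) = if x = s + pr L c then 1 else 0 := by
    by_cases hx : x = s + pr L c
    · rw [if_pos hx, if_pos (h2.2 hx)]
    · rw [if_neg hx, if_neg fun hh => hx (h2.1 hh)]
  rw [h3] at h1
  rw [← h1]
  have h4 : bd s u x = S u (em (x - s)) - TS (fun y => u (em (y - s))) x := by
    unfold bd TS S
    rw [← Finset.sum_sub_distrib]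
    refine Finset.sum_congr rfl fun i _ => ?_
    have e1 : pr L (em (x - s) + Pi.single i 1) = x + Pi.single i 1 - s := by
      rw [pr_add, pr_em, pr_single]
      abel
    have e2 : pr L (em (x - s) - Pi.single i 1) = x - Pi.single i 1 - s := by
      rw [pr_sub, pr_em, pr_single]
      abel
    rw [e1, e2]
    ring
  rw [h4]
  ring

/-- a point next to the box -/
theorem near (ρ : ℝ) (hρ : 0 ≤ ρ) (c : Zd d) (u : Zd d → ℂ) (i : Fin d) (y : Zd d)
    (hy : ∀ j, j ≠ i → 0 ≤ y j ∧ y j < L) (h1 : -1 ≤ y i) (h2 : y i ≤ L)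
    (hc1 : ρ ≤ c i) (hc2 : ρ + 1 ≤ L - c i) :
    ρ ^ 2 * ‖u y - u (em (pr L y))‖ ^ 2 ≤ 2 * (((y i : ℝ) - c i) ^ 2 * ‖u y‖ ^ 2 +
      (((em (pr L y) : Zd d) i : ℝ) - c i) ^ 2 * ‖u (em (pr L y))‖ ^ 2) := by
  by_cases hin : 0 ≤ y i ∧ y i < L
  · have : em (pr L y) = y := em_pr y fun j => by
      by_cases hj : j = i
      · rw [hj]
        exact hin
      · exact hy j hj
    rw [this, sub_self, norm_zero, zero_pow two_ne_zero, mul_zero]
    positivity
  · have hcase : y i = -1 ∨ y i = L := by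
      by_contra hcon
      push Not at hcon
      apply hin
      constructor
      · omega
      · omega
    have hL : (0 : ℤ) < L := by
      have := NeZero.ne L
      omega
    have hval : (em (pr L y) : Zd d) i = y i % L := by
      unfold em pr
      rw [ZMod.val_intCast]
    have hA : ρ ^ 2 ≤ ((y i : ℝ) - c i) ^ 2 := by
      rcases hcase with h | h
      · rw [h]
        push_cast
        nlinarith
      · rw [h]
        push_cast
        nlinarith
    have hB : ρ ^ 2 ≤ (((em (pr L y) : Zd d) i : ℝ) - c i) ^ 2 := by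
      rw [hval]
      rcases hcase with h | h
      · have : y i % L = L - 1 := by
          rw [h, ← Int.add_emod_right]
          refine Int.emod_eq_of_lt ?_ ?_ <;> omega
        rw [this]
        push_cast
        nlinarith
      · have : y i % L = 0 := by
          rw [h, Int.emod_self]
        rw [this]
        push_cast
        nlinarith
    have h3 : ‖u y - u (em (pr L y))‖ ^ 2 ≤ 2 * (‖u y‖ ^ 2 + ‖u (em (pr L y))‖ ^ 2) := by
      have h4 := norm_sub_le (u y) (u (em (pr L y)))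
      have h5 := pow_le_pow_left₀ (norm_nonneg _) h4 2
      nlinarith [sq_nonneg (‖u y‖ - ‖u (em (pr L y))‖)]
    calc ρ ^ 2 * ‖u y - u (em (pr L y))‖ ^ 2 ≤
        ρ ^ 2 * (2 * (‖u y‖ ^ 2 + ‖u (em (pr L y))‖ ^ 2)) := by gcongr
      _ = 2 * (ρ ^ 2 * ‖u y‖ ^ 2 + ρ ^ 2 * ‖u (em (pr L y))‖ ^ 2) := by ring
      _ ≤ _ := by gcongr

/-- the boundary error is small -/
theorem bd_le (ρ Q : ℝ) (hρ : 0 ≤ ρ) (c : Zd d) (s : TT d L) (u : Zd d → ℂ)
    (hc : ∀ i, ρ ≤ c i ∧ ρ + 1 ≤ L - c i)
    (hs : ∀ i, Summable fun x : Zd d => ((x i : ℝ) - c i) ^ 2 * ‖u x‖ ^ 2)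
    (hQ : ∀ i, ∑' x : Zd d, ((x i : ℝ) - c i) ^ 2 * ‖u x‖ ^ 2 ≤ Q) :
    ρ ^ 2 * ∑ x : TT d L, ‖bd s u x‖ ^ 2 ≤ 16 * d ^ 2 * Q := by
  obtain ⟨D, hD⟩ : ∃ D : Fin d → Zd d → ℝ, D = fun i x => ((x i : ℝ) - c i) ^ 2 * ‖u x‖ ^ 2 :=
    ⟨_, rfl⟩
  have hD0 : ∀ i x, 0 ≤ D i x := fun i x => by
    rw [hD]
    positivity
  have hDs : ∀ i, Summable (D i) := fun i => by
    rw [hD]
    exact hs i
  have hDQ : ∀ i, ∑' x, D i x ≤ Q := fun i => by
    rw [hD]
    exact hQ i
  have hbox : ∀ (x : TT d L) (j : Fin d), 0 ≤ em (x - s) j ∧ em (x - s) j < L :=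
    fun x j => ⟨em_nonneg _ j, em_lt _ j⟩
  have h1 : ∀ (x : TT d L) (i : Fin d), ρ ^ 2 * ‖u (em (x - s) + Pi.single i 1) -
      u (em (pr L (em (x - s) + Pi.single i 1)))‖ ^ 2 ≤ 2 * (D i (em (x - s) + Pi.single i 1) +
        D i (em (pr L (em (x - s) + Pi.single i 1)))) := by
    intro x i
    rw [hD]
    have hb := hbox x i
    refine near ρ hρ c u i _ (fun j hj => ?_) ?_ ?_ (hc i).1 (hc i).2
    · rw [Pi.add_apply, Pi.single_eq_of_ne hj, add_zero]
      exact hbox x j
    · rw [Pi.add_apply, Pi.single_eq_same]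
      omega
    · rw [Pi.add_apply, Pi.single_eq_same]
      omega
  have h2 : ∀ (x : TT d L) (i : Fin d), ρ ^ 2 * ‖u (em (x - s) - Pi.single i 1) -
      u (em (pr L (em (x - s) - Pi.single i 1)))‖ ^ 2 ≤ 2 * (D i (em (x - s) - Pi.single i 1) +
        D i (em (pr L (em (x - s) - Pi.single i 1)))) := by
    intro x i
    rw [hD]
    have hb := hbox x i
    refine near ρ hρ c u i _ (fun j hj => ?_) ?_ ?_ (hc i).1 (hc i).2
    · rw [Pi.sub_apply, Pi.single_eq_of_ne hj, sub_zero]
      exact hbox x j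
    · rw [Pi.sub_apply, Pi.single_eq_same]
      omega
    · rw [Pi.sub_apply, Pi.single_eq_same]
      omega
  have h3 : ∀ x : TT d L, ρ ^ 2 * ‖bd s u x‖ ^ 2 ≤ ∑ i : Fin d, 2 * d *
      (2 * (D i (em (x - s) + Pi.single i 1) + D i (em (pr L (em (x - s) + Pi.single i 1)))) +
       2 * (D i (em (x - s) - Pi.single i 1) + D i (em (pr L (em (x - s) - Pi.single i 1))))) := by
    intro x
    obtain ⟨α, hα⟩ : ∃ α : Fin d → ℂ, α = fun i => u (em (x - s) + Pi.single i 1) -
      u (em (pr L (em (x - s) + Pi.single i 1))) := ⟨_, rfl⟩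
    obtain ⟨β, hβ⟩ : ∃ β : Fin d → ℂ, β = fun i => u (em (x - s) - Pi.single i 1) -
      u (em (pr L (em (x - s) - Pi.single i 1))) := ⟨_, rfl⟩
    have e1 : bd s u x = ∑ i, (α i + β i) := by
      rw [hα, hβ]
      rfl
    have e2 : ‖bd s u x‖ ^ 2 ≤ d * ∑ i, ‖α i + β i‖ ^ 2 := by
      rw [e1]
      calc ‖∑ i, (α i + β i)‖ ^ 2 ≤ (∑ i, ‖α i + β i‖) ^ 2 := by
            gcongr
            exact norm_sum_le _ _
        _ ≤ (Finset.univ : Finset (Fin d)).card * ∑ i, ‖α i + β i‖ ^ 2 :=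
            sq_sum_le_card_mul_sum_sq
        _ = _ := by rw [Finset.card_univ, Fintype.card_fin]
    have e3 : ∀ i, ‖α i + β i‖ ^ 2 ≤ 2 * (‖α i‖ ^ 2 + ‖β i‖ ^ 2) := by
      intro i
      have h5 := pow_le_pow_left₀ (norm_nonneg _) (norm_add_le (α i) (β i)) 2
      nlinarith [sq_nonneg (‖α i‖ - ‖β i‖)]
    calc ρ ^ 2 * ‖bd s u x‖ ^ 2 ≤ ρ ^ 2 * (d * ∑ i, ‖α i + β i‖ ^ 2) := by gcongr
      _ ≤ ρ ^ 2 * (d * ∑ i, 2 * (‖α i‖ ^ 2 + ‖β i‖ ^ 2)) := by
          gcongr with i _
          exact e3 i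
      _ = ∑ i, 2 * d * (ρ ^ 2 * ‖α i‖ ^ 2 + ρ ^ 2 * ‖β i‖ ^ 2) := by
          rw [Finset.mul_sum, Finset.mul_sum]
          exact Finset.sum_congr rfl fun i _ => by ring
      _ ≤ _ := by
          refine Finset.sum_le_sum fun i _ => ?_
          refine mul_le_mul_of_nonneg_left (add_le_add ?_ ?_) (by positivity)
          · rw [hα]
            exact h1 x i
          · rw [hβ]
            exact h2 x i
  have i1 : Function.Injective fun x : TT d L => em (x - s) := fun x y h => by
    have := em_inj h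
    exact sub_left_injective this
  have s1 : ∀ i, ∑ x : TT d L, D i (em (x - s) + Pi.single i 1) ≤ Q := fun i =>
    (inj_sum (D i) (hD0 i) (hDs i) (fun x => em (x - s) + Pi.single i 1)
      (fun x y h => i1 (add_right_cancel h))).trans (hDQ i)
  have s2 : ∀ i, ∑ x : TT d L, D i (em (x - s) - Pi.single i 1) ≤ Q := fun i =>
    (inj_sum (D i) (hD0 i) (hDs i) (fun x => em (x - s) - Pi.single i 1)
      (fun x y h => i1 (sub_left_injective h))).trans (hDQ i)
  have s3 : ∀ i, ∑ x : TT d L, D i (em (pr L (em (x - s) + Pi.single i 1))) ≤ Q := fun i =>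
    (inj_sum (D i) (hD0 i) (hDs i) (fun x => em (pr L (em (x - s) + Pi.single i 1)))
      (fun x y h => by
        have h4 := em_inj h
        simp only [pr_add, pr_em] at h4
        have := add_right_cancel h4
        exact sub_left_injective this)).trans (hDQ i)
  have s4 : ∀ i, ∑ x : TT d L, D i (em (pr L (em (x - s) - Pi.single i 1))) ≤ Q := fun i =>
    (inj_sum (D i) (hD0 i) (hDs i) (fun x => em (pr L (em (x - s) - Pi.single i 1)))
      (fun x y h => by
        have h4 := em_inj h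
        simp only [pr_sub, pr_em] at h4
        have := sub_left_injective h4
        exact sub_left_injective this)).trans (hDQ i)
  rw [Finset.mul_sum]
  calc ∑ x : TT d L, ρ ^ 2 * ‖bd s u x‖ ^ 2 ≤ ∑ x : TT d L, ∑ i : Fin d, 2 * d *
      (2 * (D i (em (x - s) + Pi.single i 1) + D i (em (pr L (em (x - s) + Pi.single i 1)))) +
       2 * (D i (em (x - s) - Pi.single i 1) + D i (em (pr L (em (x - s) - Pi.single i 1))))) :=
        Finset.sum_le_sum fun x _ => h3 x
    _ = ∑ i : Fin d, 2 * d * (2 * (∑ x : TT d L, D i (em (x - s) + Pi.single i 1) +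
          ∑ x : TT d L, D i (em (pr L (em (x - s) + Pi.single i 1)))) +
          2 * (∑ x : TT d L, D i (em (x - s) - Pi.single i 1) +
          ∑ x : TT d L, D i (em (pr L (em (x - s) - Pi.single i 1))))) := by
        rw [Finset.sum_comm]
        refine Finset.sum_congr rfl fun i _ => ?_
        rw [← Finset.mul_sum, Finset.sum_add_distrib, ← Finset.mul_sum, ← Finset.mul_sum,
          Finset.sum_add_distrib, Finset.sum_add_distrib]
    _ ≤ ∑ i : Fin d, 2 * d * (2 * (Q + Q) + 2 * (Q + Q)) := by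
        refine Finset.sum_le_sum fun i _ => ?_
        refine mul_le_mul_of_nonneg_left ?_ (by positivity)
        have := s1 i
        have := s2 i
        have := s3 i
        have := s4 i
        linarith
    _ = _ := by
        rw [Finset.sum_const, Finset.card_univ, Fintype.card_fin, nsmul_eq_mul]
        ring

end Pool.Agent.R988.Tor
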