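import Pool.Agent.R988.Cmp

/-! Comparison of the resolvent on a torus with the resolvent on the lattice: weighted sums. -/

set_option autoImplicit false
set_option linter.unusedSectionVars false
set_option linter.unusedVariables false

open scoped BigOperators ComplexConjugate
open Set

namespace Pool.Agent.R988.Tor

open Pool.Agent.W788.LD.Spec (S)
open Pool.Agent.H4R2.LO (Zd)
open Pool.Agent.TH794.QE (Rs)

variable {d L : ℕ} [NeZero L]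

theorem cmp (hd : 0 < d) {V : Zd d → ℝ} {c : Zd d} {e η : ℝ} {u : Zd d → ℂ}
    (h : Rs d V c e η u) (hη : 0 < η) (hη1 : η ≤ 1)
    (W : TT d L → ℝ) (s : TT d L) (hW : ∀ x, V (em (x - s)) = W x)
    (ρ : ℝ) (hρ : 1 ≤ ρ) (hc : ∀ i, ρ ≤ c i ∧ ρ + 1 ≤ L - c i)
    (g : TT d L → ℂ)
    (hg : ∀ x, -TS g x + (W x : ℂ) * g x - ((e : ℂ) + (η : ℂ) * Complex.I) * g x =
      if x = s + pr L c then 1 else 0)
    (θ : Zd d → ℂ) (hθ : ∀ z, ‖θ z‖ ≤ 1) :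
    ‖∑ x, θ (em (x - s)) * ((‖g x‖ ^ 2 : ℝ) : ℂ) - ∑' z, θ z * ((‖u z‖ ^ 2 : ℝ) : ℂ)‖ ≤
      20 * d * (η⁻¹) ^ 4 / ρ := by
  classical
  have hρ0 : 0 < ρ := by linarith
  have hηi : 0 < η⁻¹ := inv_pos.2 hη
  have hcb : ∀ i, 0 ≤ c i ∧ c i < L := by
    intro i
    have h1 := hc i
    constructor
    · have : (0 : ℝ) ≤ c i := by linarith
      exact_mod_cast this
    · have : (c i : ℝ) < L := by linarith
      exact_mod_cast this
  have hQs := fun i => (rs_qm h hη hη1 i).1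
  have hQ := fun i => (rs_qm h hη hη1 i).2
  have hN := rs_norm h hη hη1 ⟨0, hd⟩
  have i1 : Function.Injective fun x : TT d L => em (x - s) := fun x y h => by
    have := em_inj h
    exact sub_left_injective this
  -- the difference
  have hb := bd_le (L := L) ρ (4 * (η⁻¹) ^ 4) hρ0.le c s u hc hQs hQ
  obtain ⟨v, hv⟩ : ∃ v : TT d L → ℂ, v = fun x => g x - u (em (x - s)) := ⟨_, rfl⟩
  have hveq : ∀ x, -TS v x + (W x : ℂ) * v x - ((e : ℂ) + (η : ℂ) * Complex.I) * v x =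
      -bd s u x := by
    intro x
    have h1 := hg x
    have h2 := box_eq h W s hW hcb x
    have h3 : TS v x = TS g x - TS (fun y => u (em (y - s))) x := by
      unfold TS
      rw [← Finset.sum_sub_distrib, hv]
      exact Finset.sum_congr rfl fun i _ => by ring
    rw [h3]
    have h4 : v x = g x - u (em (x - s)) := by rw [hv]
    rw [h4]
    linear_combination h1 - h2
  have hen := energy W e η hη v (fun x => -bd s u x) hveq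
  simp only [norm_neg] at hen
  have hv2 : ∑ x, ‖v x‖ ^ 2 ≤ (8 * d * (η⁻¹) ^ 3 / ρ) ^ 2 := by
    have h1 : ρ ^ 2 * (η ^ 2 * ∑ x, ‖v x‖ ^ 2) ≤ 16 * d ^ 2 * (4 * (η⁻¹) ^ 4) :=
      (mul_le_mul_of_nonneg_left hen (by positivity)).trans hb
    have h2 : (8 * d * (η⁻¹) ^ 3 / ρ) ^ 2 = (16 * d ^ 2 * (4 * (η⁻¹) ^ 4)) / (ρ ^ 2 * η ^ 2) := by
      field_simp
      ring
    rw [h2, le_div_iff₀ (by positivity)]
    calc (∑ x, ‖v x‖ ^ 2) * (ρ ^ 2 * η ^ 2) = ρ ^ 2 * (η ^ 2 * ∑ x, ‖v x‖ ^ 2) := by ring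
      _ ≤ _ := h1
  have hg2 : ∑ x, ‖g x‖ ^ 2 ≤ (η⁻¹) ^ 2 := by
    have h1 := energy W e η hη g _ hg
    have h2 : ∑ x, ‖(if x = s + pr L c then (1 : ℂ) else 0)‖ ^ 2 = 1 := by
      rw [Finset.sum_eq_single (s + pr L c)]
      · simp
      · intro x _ hx
        simp [hx]
      · intro hx
        exact absurd (Finset.mem_univ _) hx
    rw [h2] at h1
    rw [inv_pow, ← one_div, le_div_iff₀ (by positivity), mul_comm]
    exact h1
  have hu2 : ∑ x : TT d L, ‖u (em (x - s))‖ ^ 2 ≤ (η⁻¹) ^ 2 :=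
    (inj_sum (fun z => ‖u z‖ ^ 2) (fun z => sq_nonneg _) h.sq _ i1).trans hN
  -- first part
  have hA : ‖∑ x, θ (em (x - s)) * ((‖g x‖ ^ 2 : ℝ) : ℂ) -
      ∑ x, θ (em (x - s)) * ((‖u (em (x - s))‖ ^ 2 : ℝ) : ℂ)‖ ≤ 16 * d * (η⁻¹) ^ 4 / ρ := by
    rw [← Finset.sum_sub_distrib]
    have h1 : ∀ x, ‖θ (em (x - s)) * ((‖g x‖ ^ 2 : ℝ) : ℂ) -
        θ (em (x - s)) * ((‖u (em (x - s))‖ ^ 2 : ℝ) : ℂ)‖ ≤
        ‖v x‖ * ‖g x‖ + ‖v x‖ * ‖u (em (x - s))‖ := by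
      intro x
      rw [← mul_sub, norm_mul, ← Complex.ofReal_sub, Complex.norm_real, Real.norm_eq_abs]
      have h2 : |‖g x‖ ^ 2 - ‖u (em (x - s))‖ ^ 2| =
          |‖g x‖ - ‖u (em (x - s))‖| * (‖g x‖ + ‖u (em (x - s))‖) := by
        rw [sq_sub_sq, abs_mul, abs_of_nonneg (by positivity : 0 ≤ ‖g x‖ + ‖u (em (x - s))‖),
          mul_comm]
      have h3 : |‖g x‖ - ‖u (em (x - s))‖| ≤ ‖v x‖ := by
        rw [hv]
        exact abs_norm_sub_norm_le _ _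
      calc ‖θ (em (x - s))‖ * |‖g x‖ ^ 2 - ‖u (em (x - s))‖ ^ 2| ≤
          1 * |‖g x‖ ^ 2 - ‖u (em (x - s))‖ ^ 2| := by
            gcongr
            exact hθ _
        _ = |‖g x‖ - ‖u (em (x - s))‖| * (‖g x‖ + ‖u (em (x - s))‖) := by rw [one_mul, h2]
        _ ≤ ‖v x‖ * (‖g x‖ + ‖u (em (x - s))‖) := by gcongr
        _ = _ := by ring
    have h4 : ∀ f : TT d L → ℂ, ∑ x, ‖f x‖ ^ 2 ≤ (η⁻¹) ^ 2 →
        ∑ x, ‖v x‖ * ‖f x‖ ≤ 8 * d * (η⁻¹) ^ 4 / ρ := by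
      intro f hf
      have h5 : (∑ x, ‖v x‖ * ‖f x‖) ^ 2 ≤ (8 * d * (η⁻¹) ^ 4 / ρ) ^ 2 := by
        calc (∑ x, ‖v x‖ * ‖f x‖) ^ 2 ≤ (∑ x, ‖v x‖ ^ 2) * ∑ x, ‖f x‖ ^ 2 :=
              Finset.sum_mul_sq_le_sq_mul_sq _ _ _
          _ ≤ (8 * d * (η⁻¹) ^ 3 / ρ) ^ 2 * (η⁻¹) ^ 2 := by gcongr
          _ = _ := by ring
      exact (pow_le_pow_iff_left₀ (by positivity) (by positivity) two_ne_zero).1 h5
    calc ‖∑ x, (θ (em (x - s)) * ((‖g x‖ ^ 2 : ℝ) : ℂ) -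
        θ (em (x - s)) * ((‖u (em (x - s))‖ ^ 2 : ℝ) : ℂ))‖ ≤
        ∑ x, (‖v x‖ * ‖g x‖ + ‖v x‖ * ‖u (em (x - s))‖) :=
          (norm_sum_le _ _).trans (Finset.sum_le_sum fun x _ => h1 x)
      _ = ∑ x, ‖v x‖ * ‖g x‖ + ∑ x, ‖v x‖ * ‖u (em (x - s))‖ := Finset.sum_add_distrib
      _ ≤ 8 * d * (η⁻¹) ^ 4 / ρ + 8 * d * (η⁻¹) ^ 4 / ρ :=
          add_le_add (h4 g hg2) (h4 (fun x => u (em (x - s))) hu2)
      _ = _ := by ring
  -- the tail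
  obtain ⟨f, hf⟩ : ∃ f : Zd d → ℂ, f = fun z => θ z * ((‖u z‖ ^ 2 : ℝ) : ℂ) := ⟨_, rfl⟩
  have hfn : ∀ z, ‖f z‖ ≤ ‖u z‖ ^ 2 := by
    intro z
    rw [hf]
    simp only
    rw [norm_mul, Complex.norm_real, Real.norm_eq_abs, abs_of_nonneg (sq_nonneg _)]
    have := hθ z
    nlinarith [sq_nonneg ‖u z‖]
  obtain ⟨R, hR⟩ : ∃ R : Finset (Zd d), R = Finset.univ.image fun x : TT d L => em (x - s) :=
    ⟨_, rfl⟩
  have hRm : ∀ z, z ∉ R → ∃ i, ¬(0 ≤ z i ∧ z i < L) := by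
    intro z hz
    by_contra hcon
    push Not at hcon
    apply hz
    rw [hR, Finset.mem_image]
    refine ⟨pr L z + s, Finset.mem_univ _, ?_⟩
    rw [add_sub_cancel_right, em_pr z hcon]
  obtain ⟨t, ht⟩ : ∃ t : Zd d → ℂ, t = fun z => if z ∈ R then 0 else f z := ⟨_, rfl⟩
  obtain ⟨D, hD⟩ : ∃ D : Zd d → ℝ, D = fun z => (ρ⁻¹) ^ 2 *
      ∑ i, ((z i : ℝ) - c i) ^ 2 * ‖u z‖ ^ 2 := ⟨_, rfl⟩
  have hDs : Summable D := by
    rw [hD]
    refine Summable.mul_left _ ?_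
    exact summable_sum fun i _ => hQs i
  have htD : ∀ z, ‖t z‖ ≤ D z := by
    intro z
    rw [ht, hD]
    simp only
    split_ifs with hz
    · rw [norm_zero]
      positivity
    · obtain ⟨i, hi⟩ := hRm z hz
      have hci := hc i
      have h1 : ρ ^ 2 ≤ ((z i : ℝ) - c i) ^ 2 := by
        have h2 : z i < 0 ∨ (L : ℤ) ≤ z i := by
          by_contra hcon
          push Not at hcon
          exact hi ⟨hcon.1, hcon.2⟩
        rcases h2 with h2 | h2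
        · have h3 : (z i : ℝ) < 0 := by exact_mod_cast h2
          nlinarith
        · have h3 : (L : ℝ) ≤ z i := by exact_mod_cast h2
          nlinarith
      have h4 : ((z i : ℝ) - c i) ^ 2 * ‖u z‖ ^ 2 ≤ ∑ i, ((z i : ℝ) - c i) ^ 2 * ‖u z‖ ^ 2 :=
        Finset.single_le_sum (f := fun i => ((z i : ℝ) - c i) ^ 2 * ‖u z‖ ^ 2)
          (fun i _ => by positivity) (Finset.mem_univ i)
      calc ‖f z‖ ≤ ‖u z‖ ^ 2 := hfn z
        _ = (ρ⁻¹) ^ 2 * (ρ ^ 2 * ‖u z‖ ^ 2) := by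
            field_simp
        _ ≤ (ρ⁻¹) ^ 2 * (((z i : ℝ) - c i) ^ 2 * ‖u z‖ ^ 2) := by gcongr
        _ ≤ _ := by gcongr
  have hts : Summable t := Summable.of_norm_bounded hDs htD
  have hsplit : ∑' z, f z = ∑ x : TT d L, f (em (x - s)) + ∑' z, t z := by
    have h1 : ∀ z, f z = (if z ∈ R then f z else 0) + t z := by
      intro z
      rw [ht]
      simp only
      split_ifs <;> simp
    have h2 : HasSum (fun z => if z ∈ R then f z else 0) (∑ z ∈ R, if z ∈ R then f z else 0) :=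
      hasSum_sum_of_ne_finset_zero fun z hz => if_neg hz
    have h3 : ∑ z ∈ R, (if z ∈ R then f z else 0) = ∑ x : TT d L, f (em (x - s)) := by
      rw [Finset.sum_congr rfl fun z hz => if_pos hz, hR, Finset.sum_image fun a _ b _ h => i1 h]
    rw [tsum_congr h1, h2.summable.tsum_add hts, h2.tsum_eq, h3]
  have hB : ‖∑ x : TT d L, f (em (x - s)) - ∑' z, f z‖ ≤ 4 * d * (η⁻¹) ^ 4 / ρ := by
    rw [hsplit, ← norm_neg]
    have e0 : -(∑ x : TT d L, f (em (x - s)) - (∑ x : TT d L, f (em (x - s)) + ∑' z, t z)) =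
      ∑' z, t z := by ring
    rw [e0]
    have h1 : ∑' z, D z ≤ (ρ⁻¹) ^ 2 * (d * (4 * (η⁻¹) ^ 4)) := by
      rw [hD, tsum_mul_left, Summable.tsum_finsetSum fun i _ => hQs i]
      refine mul_le_mul_of_nonneg_left ?_ (by positivity)
      calc ∑ i : Fin d, ∑' z : Zd d, ((z i : ℝ) - c i) ^ 2 * ‖u z‖ ^ 2 ≤
          ∑ i : Fin d, 4 * (η⁻¹) ^ 4 := Finset.sum_le_sum fun i _ => hQ i
        _ = _ := by
          rw [Finset.sum_const, Finset.card_univ, Fintype.card_fin, nsmul_eq_mul]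
    have hρi : (ρ⁻¹) ^ 2 ≤ ρ⁻¹ := by
      have h2 : ρ⁻¹ ≤ 1 := inv_le_one_of_one_le₀ hρ
      have h3 : 0 < ρ⁻¹ := inv_pos.2 hρ0
      nlinarith
    calc ‖∑' z, t z‖ ≤ ∑' z, D z := tsum_of_norm_bounded hDs.hasSum htD
      _ ≤ (ρ⁻¹) ^ 2 * (d * (4 * (η⁻¹) ^ 4)) := h1
      _ ≤ ρ⁻¹ * (d * (4 * (η⁻¹) ^ 4)) := by gcongr
      _ = _ := by
          rw [div_eq_mul_inv]
          ring
  have hfin : ∑ x, θ (em (x - s)) * ((‖g x‖ ^ 2 : ℝ) : ℂ) - ∑' z, θ z * ((‖u z‖ ^ 2 : ℝ) : ℂ) =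
      (∑ x, θ (em (x - s)) * ((‖g x‖ ^ 2 : ℝ) : ℂ) -
      ∑ x, θ (em (x - s)) * ((‖u (em (x - s))‖ ^ 2 : ℝ) : ℂ)) +
      (∑ x : TT d L, f (em (x - s)) - ∑' z, f z) := by
    rw [hf]
    ring
  rw [hfin]
  refine (norm_add_le _ _).trans ((add_le_add hA hB).trans (le_of_eq ?_))
  ring

end Pool.Agent.R988.Tor
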