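import Pool.Agent.R988.LA
import Pool.Agent.R988.Cmp2

/-! Orthonormal bases of eigenvectors on the torus. -/

set_option autoImplicit false
set_option linter.unusedSectionVars false
set_option linter.unusedVariables false

open scoped BigOperators ComplexConjugate
open Set

namespace Pool.Agent.R988.Tor

open Pool.Agent.R988.LA

section fin

variable {T ι : Type} [Fintype T] [Fintype ι] [DecidableEq T] [DecidableEq ι]

theorem complete (ψ : ι → T → ℂ)
    (ho : ∀ i j, ∑ x, conj (ψ i x) * ψ j x = if i = j then 1 else 0)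
    (hc : Fintype.card ι = Fintype.card T) (x a : T) :
    ∑ j, ψ j x * conj (ψ j a) = if x = a then 1 else 0 := by
  have h1 : (Matrix.of fun (i : ι) (y : T) => conj (ψ i y)) *
      (Matrix.of fun (y : T) (j : ι) => ψ j y) = 1 := by
    ext i j
    rw [Matrix.mul_apply, Matrix.one_apply]
    exact ho i j
  have h2 := (Matrix.mul_eq_one_comm_of_card_eq ι T ℂ hc).1 h1
  have h3 := congrFun (congrFun h2 x) a
  rw [Matrix.mul_apply, Matrix.one_apply] at h3
  exact h3

theorem hs (ψ : ι → T → ℂ)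
    (ho : ∀ i j, ∑ x, conj (ψ i x) * ψ j x = if i = j then 1 else 0) (w : ι → ℂ) :
    ∑ x, ∑ a, ‖K ψ w x a‖ ^ 2 = ∑ j, ‖w j‖ ^ 2 := by
  have h1 : ∀ z : ℂ, ((‖z‖ ^ 2 : ℝ) : ℂ) = z * conj z := by
    intro z
    rw [Complex.mul_conj, Complex.normSq_eq_norm_sq]
  have h2 : ((∑ x, ∑ a, ‖K ψ w x a‖ ^ 2 : ℝ) : ℂ) = ((∑ j, ‖w j‖ ^ 2 : ℝ) : ℂ) := by
    have e0 : ((∑ x, ∑ a, ‖K ψ w x a‖ ^ 2 : ℝ) : ℂ) =
        ∑ x, ∑ a, ((‖K ψ w x a‖ ^ 2 : ℝ) : ℂ) := by
      push_cast
      rfl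
    rw [e0]
    have e1 : ∀ x a, ((‖K ψ w x a‖ ^ 2 : ℝ) : ℂ) =
        ∑ j, ∑ k, w j * conj (w k) * ((conj (ψ k x) * ψ j x) * (conj (ψ j a) * ψ k a)) := by
      intro x a
      rw [h1]
      unfold K
      rw [map_sum, Finset.sum_mul_sum]
      refine Finset.sum_congr rfl fun j _ => Finset.sum_congr rfl fun k _ => ?_
      simp only [map_mul, Complex.conj_conj]
      ring
    simp only [e1]
    have e2 : ∀ x, ∑ a, ∑ j, ∑ k, w j * conj (w k) *
        ((conj (ψ k x) * ψ j x) * (conj (ψ j a) * ψ k a)) =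
        ∑ j, ∑ k, ∑ a, w j * conj (w k) *
          ((conj (ψ k x) * ψ j x) * (conj (ψ j a) * ψ k a)) := by
      intro x
      rw [Finset.sum_comm]
      refine Finset.sum_congr rfl fun j _ => ?_
      rw [Finset.sum_comm]
    simp only [e2]
    rw [Finset.sum_comm]
    rw [Complex.ofReal_sum]
    refine Finset.sum_congr rfl fun j _ => ?_
    rw [Finset.sum_comm]
    have e3 : ∀ k, ∑ x, ∑ a, w j * conj (w k) *
        ((conj (ψ k x) * ψ j x) * (conj (ψ j a) * ψ k a)) =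
        w j * conj (w k) * ((∑ x, conj (ψ k x) * ψ j x) * ∑ a, conj (ψ j a) * ψ k a) := by
      intro k
      rw [Finset.sum_mul_sum, Finset.mul_sum]
      refine Finset.sum_congr rfl fun x _ => ?_
      rw [Finset.mul_sum]
    simp only [e3, ho]
    rw [Finset.sum_eq_single j]
    · simp only [if_true, mul_one]
      rw [h1]
    · intro k _ hk
      rw [if_neg hk]
      ring
    · intro hj
      exact absurd (Finset.mem_univ j) hj
  exact_mod_cast h2

end fin

variable {d L : ℕ} [NeZero L] {ι : Type} [Fintype ι] [DecidableEq ι]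

/-- an orthonormal basis of eigenvectors of `-Δ' + W` on the torus -/
structure EB (W : TT d L → ℝ) (ψ : ι → TT d L → ℂ) (E : ι → ℝ) : Prop where
  ho : ∀ i j, ∑ x, conj (ψ i x) * ψ j x = if i = j then 1 else 0
  hc : Fintype.card ι = Fintype.card (TT d L)
  eq : ∀ j x, -TS (ψ j) x + (W x : ℂ) * ψ j x = (E j : ℂ) * ψ j x

theorem EB.res {W : TT d L → ℝ} {ψ : ι → TT d L → ℂ} {E : ι → ℝ} (h : EB W ψ E) (e η : ℝ)
    (hη : 0 < η) (a x : TT d L) :
    -TS (fun y => G ψ E e η y a) x + (W x : ℂ) * G ψ E e η x a -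
      ((e : ℂ) + (η : ℂ) * Complex.I) * G ψ E e η x a = if x = a then 1 else 0 := by
  obtain ⟨r, hr⟩ : ∃ r : ι → ℂ, r = fun j => 1 / ((E j : ℂ) - (e + η * Complex.I)) := ⟨_, rfl⟩
  have hG : ∀ y, G ψ E e η y a = ∑ j, r j * (ψ j y * conj (ψ j a)) := fun y => by
    rw [hr]
    rfl
  have hT : TS (fun y => G ψ E e η y a) x = ∑ j, r j * (TS (ψ j) x * conj (ψ j a)) := by
    unfold TS
    simp only [hG]
    have e1 : ∀ i : Fin d, ∑ j, r j * (ψ j (x + Pi.single i 1) * conj (ψ j a)) +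
        ∑ j, r j * (ψ j (x - Pi.single i 1) * conj (ψ j a)) =
        ∑ j, r j * ((ψ j (x + Pi.single i 1) + ψ j (x - Pi.single i 1)) * conj (ψ j a)) := by
      intro i
      rw [← Finset.sum_add_distrib]
      exact Finset.sum_congr rfl fun j _ => by ring
    simp only [e1]
    rw [Finset.sum_comm]
    refine Finset.sum_congr rfl fun j _ => ?_
    rw [Finset.sum_mul, Finset.mul_sum]
  rw [hT, hG, ← complete ψ h.ho h.hc x a, ← Finset.sum_neg_distrib, Finset.mul_sum,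
    ← Finset.sum_add_distrib, Finset.mul_sum, ← Finset.sum_sub_distrib]
  refine Finset.sum_congr rfl fun j _ => ?_
  have hz : ((E j : ℂ) - (e + η * Complex.I)) ≠ 0 := by
    intro hh
    have := congrArg Complex.im hh
    simp at this
    exact hη.ne' this
  have h2 : r j * ((E j : ℂ) - (e + η * Complex.I)) = 1 := by
    rw [hr]
    simp only
    rw [one_div, inv_mul_cancel₀ hz]
  have h3 := h.eq j x
  linear_combination (r j * conj (ψ j a)) * h3 + (ψ j x * conj (ψ j a)) * h2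

theorem EB.norm_sum {W : TT d L → ℝ} {ψ : ι → TT d L → ℂ} {E : ι → ℝ} (h : EB W ψ E) (e η : ℝ)
    (hη : 0 < η) : η * ∑ a, ∑ x, ‖G ψ E e η x a‖ ^ 2 = ∑ j, η / ((E j - e) ^ 2 + η ^ 2) := by
  rw [Finset.sum_comm]
  unfold G
  rw [hs ψ h.ho, Finset.mul_sum]
  refine Finset.sum_congr rfl fun j _ => ?_
  have h1 : ‖(1 / ((E j : ℂ) - (e + η * Complex.I)))‖ ^ 2 = 1 / ((E j - e) ^ 2 + η ^ 2) := by
    rw [norm_div, norm_one, div_pow, one_pow, ← Complex.normSq_eq_norm_sq, Complex.normSq_apply]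
    simp
    ring
  rw [h1]
  ring

/-- the number of eigenvalues in a window, from two scales -/
theorem EB.window {W : TT d L → ℝ} {ψ : ι → TT d L → ℂ} {E : ι → ℝ} (h : EB W ψ E) (e w G0 δ : ℝ)
    (hw : 0 < w) (hδ : δ ≤ G0 / 5) (N : ℝ) (hN : 0 ≤ N)
    (h1 : ∑ j, w / ((E j - e) ^ 2 + w ^ 2) ≤ N * (G0 + δ))
    (h2 : N * (G0 - δ) ≤ ∑ j, (w / 8) / ((E j - e) ^ 2 + (w / 8) ^ 2)) :
    G0 / 16 * w * N ≤ ((Finset.univ.filter fun j => |E j - e| ≤ w).card : ℝ) := by
  have h3 : ∀ j, (w / 8) / ((E j - e) ^ 2 + (w / 8) ^ 2) ≤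
      (if |E j - e| ≤ w then 8 / w else 0) + 1 / 4 * (w / ((E j - e) ^ 2 + w ^ 2)) := by
    intro j
    split_ifs with hj
    · have h4 : (w / 8) / ((E j - e) ^ 2 + (w / 8) ^ 2) ≤ 8 / w := by
        rw [div_le_div_iff₀ (by positivity) hw]
        nlinarith [sq_nonneg (E j - e)]
      have h5 : 0 ≤ 1 / 4 * (w / ((E j - e) ^ 2 + w ^ 2)) := by positivity
      linarith
    · rw [zero_add]
      push Not at hj
      have h6 : w ^ 2 ≤ (E j - e) ^ 2 := by
        rw [← sq_abs (E j - e)]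
        exact pow_le_pow_left₀ hw.le hj.le 2
      rw [mul_div_assoc', div_le_div_iff₀ (by positivity) (by positivity)]
      nlinarith [mul_nonneg hw.le (sub_nonneg.2 h6), pow_pos hw 3]
  have h7 : ∑ j, (w / 8) / ((E j - e) ^ 2 + (w / 8) ^ 2) ≤
      ((Finset.univ.filter fun j => |E j - e| ≤ w).card : ℝ) * (8 / w) +
        1 / 4 * (N * (G0 + δ)) := by
    refine (Finset.sum_le_sum fun j _ => h3 j).trans ?_
    rw [Finset.sum_add_distrib, ← Finset.mul_sum, ← Finset.sum_filter, Finset.sum_const,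
      nsmul_eq_mul]
    gcongr
  have h8 : N * (G0 / 2) ≤ ((Finset.univ.filter fun j => |E j - e| ≤ w).card : ℝ) * (8 / w) := by
    have h9 : N * (G0 - δ) - 1 / 4 * (N * (G0 + δ)) = N * (3 / 4 * G0 - 5 / 4 * δ) := by ring
    have h10 : N * (G0 / 2) ≤ N * (3 / 4 * G0 - 5 / 4 * δ) := by
      refine mul_le_mul_of_nonneg_left ?_ hN
      linarith
    linarith
  have h11 := mul_le_mul_of_nonneg_right h8 (by positivity : 0 ≤ w / 8)
  have h12 : ((Finset.univ.filter fun j => |E j - e| ≤ w).card : ℝ) * (8 / w) * (w / 8) =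
      ((Finset.univ.filter fun j => |E j - e| ≤ w).card : ℝ) := by
    field_simp
  rw [h12] at h11
  calc G0 / 16 * w * N = N * (G0 / 2) * (w / 8) := by ring
    _ ≤ _ := h11

end Pool.Agent.R988.Tor
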