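import Pool.Agent.R988.Msd1
import Pool.Agent.TH794.QD.Planch

/-! The second moment of the resolvent at energies away from the spectrum; Plancherel's identity for
the resolvent. -/

set_option autoImplicit false
set_option linter.unusedVariables false
set_option linter.unusedSectionVars false

open scoped BigOperators Topology ENNReal
open MeasureTheory Filter Set

namespace Pool.Agent.R988

open Pool.Agent.H4R2.LO (Zd)
open Pool.Agent.W788.LD.Spec (S)
open Pool.Agent.TH794.QD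
open Pool.Agent.TH794.QE

variable {d : ℕ}

theorem tr_norm (e : Zd d) (u : HS d) : ‖Tr e u‖ = ‖u‖ := by
  have h1 := (hs_sum (Tr e u)).tsum_eq
  have h2 := tr_tsum e u
  have h3 : ∑' x, ‖Tr e u x‖ ^ 2 = ∑' x, ‖u (x + e)‖ ^ 2 := tsum_congr fun x => by rw [Tr_apply]
  rw [h3, h2] at h1
  exact ((pow_left_inj₀ (norm_nonneg _) (norm_nonneg _) two_ne_zero).1 h1).symm

/-- away from the spectrum -/
theorem coer (V : Zd d → ℝ) (e η E w0 D : ℝ) (hw : 0 ≤ w0) (hW : ∀ x, |V x - e - E| ≤ w0)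
    (hE : 2 * d + w0 + D ≤ |E|) (f g : HS d)
    (h : ∀ x, -S (fun y => f y) x + (V x : ℂ) * f x - ((e : ℂ) + (η : ℂ) * Complex.I) * f x = g x) :
    D * ‖f‖ ≤ ‖g‖ := by
  have e1 : ((E : ℂ) - (η : ℂ) * Complex.I) • f = g + ∑ i : Fin d,
      (Tr (Pi.single i 1) f + Tr (-Pi.single i 1) f) - Mu (fun x => V x - e - E) w0 hw hW f := by
    ext x
    have h2 : (g + ∑ i : Fin d, (Tr (Pi.single i 1) f + Tr (-Pi.single i 1) f) -
        Mu (fun x => V x - e - E) w0 hw hW f : HS d) x = g x + S (fun y => f y) x -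
        ((V x - e - E : ℝ) : ℂ) * f x := by
      have h3 : evl x (g + ∑ i : Fin d, (Tr (Pi.single i 1) f + Tr (-Pi.single i 1) f) -
        Mu (fun x => V x - e - E) w0 hw hW f) = g x + S (fun y => f y) x -
        ((V x - e - E : ℝ) : ℂ) * f x := by
        rw [map_sub, map_add, map_sum, evl_apply, evl_apply, Mu_apply]
        unfold S
        congr 2
      exact h3
    rw [h2]
    change ((E : ℂ) - (η : ℂ) * Complex.I) * f x = _
    rw [← h x]
    push_cast
    ring
  have h4 : |E| * ‖f‖ ≤ ‖((E : ℂ) - (η : ℂ) * Complex.I) • f‖ := by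
    rw [norm_smul]
    refine mul_le_mul_of_nonneg_right ?_ (norm_nonneg _)
    have := Complex.abs_re_le_norm ((E : ℂ) - (η : ℂ) * Complex.I)
    simpa using this
  have h5 : ‖∑ i : Fin d, (Tr (Pi.single i 1) f + Tr (-Pi.single i 1) f)‖ ≤ 2 * d * ‖f‖ := by
    refine (norm_sum_le _ _).trans ?_
    have h6 : ∀ i ∈ (Finset.univ : Finset (Fin d)),
        ‖Tr (Pi.single i 1) f + Tr (-Pi.single i 1) f‖ ≤ 2 * ‖f‖ := by
      intro i _
      refine (norm_add_le _ _).trans ?_
      rw [tr_norm, tr_norm]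
      linarith
    refine (Finset.sum_le_sum h6).trans (le_of_eq ?_)
    rw [Finset.sum_const, Finset.card_univ, Fintype.card_fin, nsmul_eq_mul]
    ring
  have h7 : ‖Mu (fun x => V x - e - E) w0 hw hW f‖ ≤ w0 * ‖f‖ := by
    have h8 := (hs_sum (Mu (fun x => V x - e - E) w0 hw hW f)).tsum_eq
    have h9 := (mv_sum (fun x => V x - e - E) w0 hW f).2
    have h10 : ∑' x, ‖Mu (fun x => V x - e - E) w0 hw hW f x‖ ^ 2 =
        ∑' x, ‖(((V x - e - E : ℝ)) : ℂ) * f x‖ ^ 2 := tsum_congr fun x => by rw [Mu_apply]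
    rw [h10] at h8
    rw [h8] at h9
    exact (pow_le_pow_iff_left₀ (norm_nonneg _) (by positivity) two_ne_zero).1 h9
  rw [e1] at h4
  have h11 := h4.trans ((norm_sub_le _ _).trans (add_le_add_left (norm_add_le _ _) _))
  have h12 : (2 * d + w0 + D) * ‖f‖ ≤ |E| * ‖f‖ := mul_le_mul_of_nonneg_right hE (norm_nonneg _)
  nlinarith

/-- the second moment away from the spectrum -/
theorem far {V : Zd d → ℝ} {a : Zd d} {e η : ℝ} {u : Zd d → ℂ} (h : Rs d V a e η u)
    (hη : 0 < η) (hη1 : η ≤ 1) (E w0 D : ℝ) (hw : 0 ≤ w0) (hW : ∀ x, |V x - e - E| ≤ w0)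
    (hD : 0 < D) (hE : 2 * d + w0 + D ≤ |E|) (j : Fin d) :
    ∑' x, ((x j : ℝ) - a j) ^ 2 * ‖u x‖ ^ 2 ≤ 4 / D ^ 4 := by
  obtain ⟨U, hU⟩ : ∃ U : HS d, U = hmk u h.sq := ⟨_, rfl⟩
  have hUx : ∀ x, U x = u x := fun x => by rw [hU, hmk_apply]
  have hs1 : HasSum (fun x : Zd d => ‖if x = a then (1 : ℂ) else 0‖ ^ 2) 1 := by
    have := hasSum_single (f := fun x : Zd d => ‖if x = a then (1 : ℂ) else 0‖ ^ 2) a
      (fun x hx => by simp [hx])
    simpa using this
  obtain ⟨δ, hδ⟩ : ∃ δ : HS d, δ = hmk (fun x => if x = a then (1 : ℂ) else 0) hs1.summable :=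
    ⟨_, rfl⟩
  have hδn : ‖δ‖ ≤ 1 := by
    rw [hδ]
    refine hmk_le _ _ 1 one_pos.le ?_
    rw [hs1.tsum_eq]
    norm_num
  have h1 : D * ‖U‖ ≤ 1 := by
    refine (coer V e η E w0 D hw hW hE U δ fun x => ?_).trans hδn
    have h2 := h.eq x
    have h3 : δ x = if x = a then 1 else 0 := by rw [hδ, hmk_apply]
    rw [h3, ← h2, hUx]
    have h4 : S (fun y => U y) x = S u x := by
      simp only [hUx]
    rw [h4]
  have hq := (Tor.rs_qm h hη hη1 j).1
  have hq' : Summable fun x : Zd d => ‖(((x j : ℝ) - a j : ℝ) : ℂ) * u x‖ ^ 2 := by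
    refine hq.congr fun x => ?_
    rw [norm_mul, mul_pow, Complex.norm_real, Real.norm_eq_abs, sq_abs]
  obtain ⟨F, hF⟩ : ∃ F : HS d, F = hmk (fun x => (((x j : ℝ) - a j : ℝ) : ℂ) * u x) hq' := ⟨_, rfl⟩
  have hFx : ∀ x, F x = (((x j : ℝ) - a j : ℝ) : ℂ) * u x := fun x => by rw [hF, hmk_apply]
  have h5 : D * ‖F‖ ≤ ‖Tr (-Pi.single j 1) U - Tr (Pi.single j 1) U‖ := by
    refine coer V e η E w0 D hw hW hE F _ fun x => ?_
    have h6 : (Tr (-Pi.single j 1) U - Tr (Pi.single j 1) U : HS d) x =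
        u (x - Pi.single j 1) - u (x + Pi.single j 1) := by
      have h7 : evl x (Tr (-Pi.single j 1) U - Tr (Pi.single j 1) U) =
        u (x - Pi.single j 1) - u (x + Pi.single j 1) := by
        rw [map_sub, evl_apply, evl_apply, Tr_apply, Tr_apply, hUx, hUx, ← sub_eq_add_neg]
      exact h7
    rw [h6]
    have h8 : S (fun y => F y) x = (((x j : ℝ) - a j : ℝ) : ℂ) * S u x +
        (u (x + Pi.single j 1) - u (x - Pi.single j 1)) := by
      unfold S
      have h9 : ∀ i : Fin d, F (x + Pi.single i 1) + F (x - Pi.single i 1) =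
          (((x j : ℝ) - a j : ℝ) : ℂ) * (u (x + Pi.single i 1) + u (x - Pi.single i 1)) +
          (if i = j then (u (x + Pi.single j 1) - u (x - Pi.single j 1)) else 0) := by
        intro i
        rw [hFx, hFx]
        by_cases hij : i = j
        · rw [if_pos hij, hij]
          simp only [Pi.add_apply, Pi.sub_apply, Pi.single_eq_same]
          push_cast
          ring
        · rw [if_neg hij]
          simp only [Pi.add_apply, Pi.sub_apply]
          rw [Pi.single_eq_of_ne (fun hh => hij hh.symm)]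
          push_cast
          ring
      rw [Finset.sum_congr rfl fun i _ => h9 i, Finset.sum_add_distrib, ← Finset.mul_sum,
        Finset.sum_ite_eq' Finset.univ j, if_pos (Finset.mem_univ j)]
    rw [h8, hFx]
    have h10 := h.eq x
    have h11 : (((x j : ℝ) - a j : ℝ) : ℂ) * (if x = a then (1 : ℂ) else 0) = 0 := by
      by_cases hx : x = a
      · rw [hx, sub_self]
        simp
      · rw [if_neg hx, mul_zero]
    rw [← h10] at h11
    linear_combination h11
  have h12 : ‖Tr (-Pi.single j 1) U - Tr (Pi.single j 1) U‖ ≤ 2 * ‖U‖ := by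
    refine (norm_sub_le _ _).trans ?_
    rw [tr_norm, tr_norm]
    linarith
  have h13 : D ^ 2 * ‖F‖ ≤ 2 := by
    have := mul_le_mul_of_nonneg_left (h5.trans h12) hD.le
    nlinarith
  have h14 : ∑' x, ((x j : ℝ) - a j) ^ 2 * ‖u x‖ ^ 2 = ‖F‖ ^ 2 := by
    rw [← (hs_sum F).tsum_eq]
    refine tsum_congr fun x => ?_
    rw [hFx, norm_mul, mul_pow, Complex.norm_real, Real.norm_eq_abs, sq_abs]
  rw [h14, le_div_iff₀ (by positivity)]
  have h15 := pow_le_pow_left₀ (by positivity) h13 2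
  calc ‖F‖ ^ 2 * D ^ 4 = (D ^ 2 * ‖F‖) ^ 2 := by ring
    _ ≤ 2 ^ 2 := h15
    _ = 4 := by norm_num

/-! ### Plancherel -/

open FourierTransform in
theorem fouP (h : ℝ → ℂ) (e : ℝ) :
    ∫ s : ℝ, Complex.exp (Complex.I * e * s) * h s = 𝓕 h (-((2 * Real.pi)⁻¹ * e)) := by
  rw [Real.fourier_eq']
  refine integral_congr_ae (Eventually.of_forall fun E => ?_)
  simp only [smul_eq_mul]
  congr 2
  have hpi : (Real.pi : ℂ) ≠ 0 := by exact_mod_cast Real.pi_ne_zero
  simp only [RCLike.inner_apply, conj_trivial]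
  push_cast
  field_simp

theorem scalP (F : ℝ → ℝ≥0∞) (hF : Measurable F) :
    ∫⁻ t : ℝ, F (-((2 * Real.pi)⁻¹ * t)) = ENNReal.ofReal (2 * Real.pi) * ∫⁻ ξ : ℝ, F ξ := by
  have hp : (0 : ℝ) < 2 * Real.pi := by positivity
  have h0 : -(2 * Real.pi)⁻¹ ≠ 0 := by
    have : (2 * Real.pi)⁻¹ ≠ 0 := by positivity
    exact neg_ne_zero.2 this
  have h1 := Real.smul_map_volume_mul_left h0
  have h2 : ∫⁻ ξ : ℝ, F ξ = ENNReal.ofReal (2 * Real.pi)⁻¹ *
      ∫⁻ t : ℝ, F (-(2 * Real.pi)⁻¹ * t) := by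
    conv_lhs => rw [← h1]
    rw [lintegral_smul_measure, lintegral_map hF (measurable_const_mul _), smul_eq_mul,
      abs_neg, abs_of_pos (by positivity)]
  simp only [neg_mul] at h2
  rw [h2, ← mul_assoc, ← ENNReal.ofReal_mul hp.le, mul_inv_cancel₀ hp.ne']
  simp

/-- **Plancherel's identity for the resolvent** -/
theorem planchLa {V : Zd d → ℝ} {a : Zd d} {ψ : ℝ → Zd d → ℂ} (h : Sol d V a ψ) (η : ℝ)
    (hη : 0 < η) (x : Zd d) :
    ∫⁻ e : ℝ, ‖La ψ e η x‖ₑ ^ 2 = ENNReal.ofReal (2 * Real.pi) *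
      ∫⁻ s in Ioi (0 : ℝ), ENNReal.ofReal (Real.exp (-(2 * η) * s) * ‖ψ s x‖ ^ 2) := by
  obtain ⟨f, hf⟩ : ∃ f : ℝ → ℂ, f = (Ioi (0 : ℝ)).indicator
    fun s => ((Real.exp (-η * s) : ℝ) : ℂ) * ψ s x := ⟨_, rfl⟩
  have hcont : Continuous fun s => ((Real.exp (-η * s) : ℝ) : ℂ) * ψ s x :=
    (by fun_prop : Continuous fun s : ℝ => ((Real.exp (-η * s) : ℝ) : ℂ)).mul (h.cont x)
  have hn : ∀ s, ‖((Real.exp (-η * s) : ℝ) : ℂ) * ψ s x‖ ≤ Real.exp (-η * s) := by
    intro s
    rw [norm_mul, Complex.norm_real, Real.norm_of_nonneg (Real.exp_pos _).le]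
    exact mul_le_of_le_one_right (Real.exp_pos _).le (h.le_one s x)
  have hi : Integrable f := by
    rw [hf, integrable_indicator_iff measurableSet_Ioi]
    exact Integrable.mono' (exp_int η hη) hcont.aestronglyMeasurable
      (Eventually.of_forall fun s => hn s)
  have hsq : ∫⁻ s, ‖f s‖ₑ ^ 2 =
      ∫⁻ s in Ioi (0 : ℝ), ENNReal.ofReal (Real.exp (-(2 * η) * s) * ‖ψ s x‖ ^ 2) := by
    rw [← lintegral_indicator measurableSet_Ioi]
    refine lintegral_congr fun s => ?_
    rw [hf]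
    by_cases hs : s ∈ Ioi (0 : ℝ)
    · rw [indicator_of_mem hs, indicator_of_mem hs, ← ofReal_norm, ← ENNReal.ofReal_pow
        (norm_nonneg _), norm_mul, mul_pow, Complex.norm_real,
        Real.norm_of_nonneg (Real.exp_pos _).le, ← Real.exp_nat_mul]
      congr 3
      push_cast
      ring_nf
    · rw [indicator_of_notMem hs, indicator_of_notMem hs]
      simp
  have h2 : MemLp f 2 := by
    refine ⟨hi.1, ?_⟩
    rw [eLpNorm_lt_top_iff_lintegral_rpow_enorm_lt_top (by norm_num) (by norm_num)]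
    have e : ∀ x, ‖f x‖ₑ ^ (2 : ℝ≥0∞).toReal = ‖f x‖ₑ ^ 2 := by
      intro x
      rw [← ENNReal.rpow_natCast]
      norm_num
    simp only [e]
    rw [hsq]
    have h3 : IntegrableOn (fun s => Real.exp (-(2 * η) * s) * ‖ψ s x‖ ^ 2) (Ioi (0 : ℝ)) := by
      refine Integrable.mono' (exp_int (2 * η) (by positivity)) ?_ ?_
      · exact (Continuous.mul (by fun_prop) ((h.cont x).norm.pow 2)).aestronglyMeasurable
      · refine Eventually.of_forall fun s => ?_
        rw [Real.norm_of_nonneg (by positivity)]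
        refine mul_le_of_le_one_right (Real.exp_pos _).le ?_
        exact pow_le_one₀ (norm_nonneg _) (h.le_one s x)
    have h4 : (∫⁻ s in Ioi (0 : ℝ), ENNReal.ofReal (Real.exp (-(2 * η) * s) * ‖ψ s x‖ ^ 2)) =
        ∫⁻ s in Ioi (0 : ℝ), ‖Real.exp (-(2 * η) * s) * ‖ψ s x‖ ^ 2‖ₑ := by
      refine lintegral_congr fun s => ?_
      rw [Real.enorm_eq_ofReal (by positivity)]
    rw [h4]
    exact h3.2
  have hLa : ∀ e : ℝ, La ψ e η x = FourierTransform.fourier f (-((2 * Real.pi)⁻¹ * e)) := by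
    intro e
    rw [← fouP, hf]
    unfold La
    rw [← integral_indicator measurableSet_Ioi]
    refine integral_congr_ae (Eventually.of_forall fun s => ?_)
    simp only
    by_cases hs : s ∈ Ioi (0 : ℝ)
    · rw [indicator_of_mem hs, indicator_of_mem hs]
      unfold ew
      rw [← mul_assoc, Complex.ofReal_exp, ← Complex.exp_add]
      congr 2
      push_cast
      ring
    · rw [indicator_of_notMem hs, indicator_of_notMem hs, mul_zero]
  simp only [hLa]
  have hc : Continuous (FourierTransform.fourier f : ℝ → ℂ) := by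
    exact VectorFourier.fourierIntegral_continuous Real.continuous_fourierChar
      (by exact continuous_inner) hi
  rw [scalP (fun ξ => ‖FourierTransform.fourier f ξ‖ₑ ^ 2) (hc.measurable.enorm.pow_const 2),
    plancherel f hi h2, hsq]

/-- the resolvent is continuous in the energy -/
theorem La_contE {V : Zd d → ℝ} {a : Zd d} {ψ : ℝ → Zd d → ℂ} (h : Sol d V a ψ) (η : ℝ)
    (hη : 0 < η) (x : Zd d) : Continuous fun e : ℝ => La ψ e η x := by
  unfold La
  refine continuous_of_dominated (bound := fun s => Real.exp (-η * s)) ?_ ?_ (exp_int η hη) ?_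
  · intro e
    exact ((ew_cont e η).mul (h.cont x)).aestronglyMeasurable
  · intro e
    refine Eventually.of_forall fun s => ?_
    rw [norm_mul, ew_norm]
    exact mul_le_of_le_one_right (Real.exp_pos _).le (h.le_one s x)
  · refine Eventually.of_forall fun s => ?_
    unfold ew
    fun_prop

end Pool.Agent.R988
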