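import Pool.Agent.R988.Eig
import Pool.Agent.TH794.HK.FinM

/-! Characters of the torus, the Fejer kernel, and the number of localised eigenvectors. -/

set_option autoImplicit false
set_option linter.unusedSectionVars false
set_option linter.unusedVariables false

open scoped BigOperators ComplexConjugate
open Set

namespace Pool.Agent.R988.Tor

open Pool.Agent.R988.LA
open Pool.Agent.H4R2.LO (Zd)
open Pool.Agent.TH794.HK (ph)

variable {d L : ℕ} [NeZero L]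

/-- the characters `exp(2 π i t x_i / L)`, `0 ≤ t ≤ m` -/
noncomputable def Xc (i : Fin d) (m : ℕ) (t : Fin (m + 1)) (x : TT d L) : ℂ :=
  ZMod.stdAddChar (((t : ℕ) : ZMod L) * x i)

theorem xc_pair (i : Fin d) (m : ℕ) (t : Fin (m + 1)) (x a : TT d L) :
    Xc i m t x * conj (Xc i m t a) = ZMod.stdAddChar (((t : ℕ) : ZMod L) * (x i - a i)) := by
  unfold Xc
  rw [← AddChar.map_neg_eq_conj, ← AddChar.map_add_eq_mul]
  congr 1
  ring

theorem xc_quad (i : Fin d) (m : ℕ) (t s : Fin (m + 1)) (x a : TT d L) :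
    (Xc i m t x * conj (Xc i m s x)) * conj (Xc i m t a * conj (Xc i m s a)) =
      ZMod.stdAddChar ((((t : ℤ) - (s : ℤ) : ℤ) : ZMod L) * (x i - a i)) := by
  have e1 : (Xc i m t x * conj (Xc i m s x)) * conj (Xc i m t a * conj (Xc i m s a)) =
      (Xc i m t x * conj (Xc i m t a)) * conj (Xc i m s x * conj (Xc i m s a)) := by
    simp only [map_mul, Complex.conj_conj]
    ring
  rw [e1, xc_pair, xc_pair, ← AddChar.map_neg_eq_conj, ← AddChar.map_add_eq_mul]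
  congr 1
  push_cast
  ring

/-- the character as a plane wave on the lattice -/
theorem char_ph (i : Fin d) (n : ℤ) (c : Zd d) (s x : TT d L) :
    (ZMod.stdAddChar ((n : ZMod L) * (x i - (s + pr L c) i)) : ℂ) =
      ph (Pi.single i (2 * Real.pi * n / L)) (em (x - s) - c) := by
  have e1 : x i - (s + pr L c) i = ((em (x - s) i - c i : ℤ) : ZMod L) := by
    have h := congrFun (pr_em (x - s)) i
    unfold pr at h
    rw [Int.cast_sub, h]
    simp only [Pi.add_apply, Pi.sub_apply, pr]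
    ring
  rw [e1, ← Int.cast_mul, ZMod.stdAddChar_coe]
  unfold ph
  congr 1
  have e2 : ∑ j, (Pi.single i (2 * Real.pi * n / L) : Fin d → ℝ) j *
      (((em (x - s) - c : Zd d) j : ℤ) : ℝ) = 2 * Real.pi * n / L * (em (x - s) i - c i : ℤ) := by
    rw [Finset.sum_eq_single i]
    · rw [Pi.single_eq_same]
      rfl
    · intro j _ hj
      rw [Pi.single_eq_of_ne hj, zero_mul]
    · intro hi
      exact absurd (Finset.mem_univ i) hi
  rw [e2]
  push_cast
  ring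

/-- the Fejer kernel is large near the diagonal -/
theorem F_low (i : Fin d) (m : ℕ) (x a : TT d L) (n : ℤ) (hn : x i - a i = (n : ZMod L)) (R : ℝ)
    (hR : |(n : ℝ)| ≤ R) (hm : 2 * Real.pi * m / L * R ≤ Real.pi / 3) :
    1 / 4 ≤ F (Xc i m) ((m : ℝ) + 1) x a := by
  have hL : (0 : ℝ) < L := by
    exact_mod_cast Nat.pos_of_ne_zero (NeZero.ne L)
  unfold F
  have h1 : ∀ t : Fin (m + 1), 1 / 2 ≤ (Xc i m t x * conj (Xc i m t a)).re := by
    intro t
    rw [xc_pair, hn]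
    have e1 : (((t : ℕ) : ZMod L) * (n : ZMod L)) = (((t : ℕ) : ℤ) * n : ℤ) := by
      push_cast
      rfl
    rw [e1, ZMod.stdAddChar_coe]
    have e2 : 2 * (Real.pi : ℂ) * Complex.I * ((((t : ℕ) : ℤ) * n : ℤ) : ℂ) / (L : ℂ) =
        ((2 * Real.pi * t * n / L : ℝ) : ℂ) * Complex.I := by
      push_cast
      ring
    rw [e2, Complex.exp_ofReal_mul_I_re, ← Real.cos_abs, ← Real.cos_pi_div_three]
    have ht : ((t : ℕ) : ℝ) ≤ m := by
      have := t.2
      exact_mod_cast Nat.lt_succ_iff.1 this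
    have h2 : |2 * Real.pi * t * n / L| ≤ Real.pi / 3 := by
      refine le_trans ?_ hm
      rw [abs_div, abs_mul, abs_mul, abs_of_pos hL, abs_of_pos (by positivity : 0 < 2 * Real.pi),
        abs_of_nonneg (by positivity : (0 : ℝ) ≤ (t : ℕ))]
      rw [div_mul_eq_mul_div]
      gcongr
    exact Real.cos_le_cos_of_nonneg_of_le_pi (abs_nonneg _) (by
      have := Real.pi_pos
      linarith) h2
  have h3 : (1 : ℝ) / 2 ≤ ‖((1 / ((m : ℝ) + 1) : ℝ) : ℂ) * ∑ t, Xc i m t x * conj (Xc i m t a)‖ := by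
    refine le_trans ?_ (Complex.re_le_norm _)
    rw [Complex.re_ofReal_mul, Complex.re_sum]
    have h4 : ∑ t : Fin (m + 1), (1 / 2 : ℝ) ≤ ∑ t, (Xc i m t x * conj (Xc i m t a)).re :=
      Finset.sum_le_sum fun t _ => h1 t
    rw [Finset.sum_const, Finset.card_univ, Fintype.card_fin, nsmul_eq_mul] at h4
    push_cast at h4
    rw [one_div_mul_eq_div, le_div_iff₀ (by positivity)]
    linarith
  nlinarith [norm_nonneg (((1 / ((m : ℝ) + 1) : ℝ) : ℂ) * ∑ t, Xc i m t x * conj (Xc i m t a))]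

/-- the torus distance of two points in a coordinate is realised by an integer -/
theorem diff_int (x a y : ZMod L) : x - a = (((x - y).valMinAbs - (a - y).valMinAbs : ℤ) : ZMod L) := by
  rw [Int.cast_sub, ZMod.coe_valMinAbs, ZMod.coe_valMinAbs]
  ring

/-- a vector with a large mass in a slab -/
theorem slab_low (i : Fin d) (m : ℕ) (ψ : TT d L → ℂ) (y : ZMod L) (ℓ ε : ℝ) (hε : 0 ≤ ε)
    (hm : 2 * Real.pi * m / L * (2 * ℓ) ≤ Real.pi / 3)
    (h : ε ≤ ∑ x : TT d L, if |((x i - y).valMinAbs : ℝ)| ≤ ℓ then ‖ψ x‖ ^ 2 else 0) :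
    ε ^ 2 / 4 ≤ ∑ x, ∑ a, F (Xc i m) ((m : ℝ) + 1) x a * (‖ψ x‖ ^ 2 * ‖ψ a‖ ^ 2) := by
  obtain ⟨f, hf⟩ : ∃ f : TT d L → ℝ, f = fun x =>
    if |((x i - y).valMinAbs : ℝ)| ≤ ℓ then ‖ψ x‖ ^ 2 else 0 := ⟨_, rfl⟩
  have hf0 : ∀ x, 0 ≤ f x := fun x => by
    rw [hf]
    simp only
    split_ifs <;> positivity
  have h1 : ∀ x a, 1 / 4 * (f x * f a) ≤
      F (Xc i m) ((m : ℝ) + 1) x a * (‖ψ x‖ ^ 2 * ‖ψ a‖ ^ 2) := by
    intro x a
    have hF := F_nonneg (T := TT d L) (Xc i m) ((m : ℝ) + 1) x a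
    by_cases hx : |((x i - y).valMinAbs : ℝ)| ≤ ℓ
    · by_cases ha : |((a i - y).valMinAbs : ℝ)| ≤ ℓ
      · have e1 : f x = ‖ψ x‖ ^ 2 := by rw [hf]; exact if_pos hx
        have e2 : f a = ‖ψ a‖ ^ 2 := by rw [hf]; exact if_pos ha
        rw [e1, e2]
        have h2 := F_low i m x a _ (diff_int (x i) (a i) y) (2 * ℓ) (by
          rw [Int.cast_sub]
          refine (abs_sub _ _).trans ?_
          linarith) hm
        gcongr
      · have e2 : f a = 0 := by rw [hf]; exact if_neg ha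
        rw [e2, mul_zero, mul_zero]
        positivity
    · have e2 : f x = 0 := by rw [hf]; exact if_neg hx
      rw [e2, zero_mul, mul_zero]
      positivity
  have h3 : ε ≤ ∑ x, f x := by
    rw [hf]
    exact h
  calc ε ^ 2 / 4 = 1 / 4 * (ε * ε) := by ring
    _ ≤ 1 / 4 * ((∑ x, f x) * ∑ a, f a) := by
        have h4 : 0 ≤ ∑ x, f x := hε.trans h3
        gcongr
    _ = ∑ x, ∑ a, 1 / 4 * (f x * f a) := by
        rw [Finset.sum_mul_sum, Finset.mul_sum]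
        refine Finset.sum_congr rfl fun x _ => ?_
        rw [Finset.mul_sum]
    _ ≤ _ := Finset.sum_le_sum fun x _ => Finset.sum_le_sum fun a _ => h1 x a

variable {ι : Type} [Fintype ι] [DecidableEq ι]

/-- **the number of eigenvectors with a large mass in a slab** -/
theorem EB.count {W : TT d L → ℝ} {ψ : ι → TT d L → ℂ} {E : ι → ℝ} (h : EB W ψ E) (e w : ℝ)
    (hw : 0 < w) (i : Fin d) (m : ℕ) (ℓ ε : ℝ) (hε : 0 ≤ ε)
    (hm : 2 * Real.pi * m / L * (2 * ℓ) ≤ Real.pi / 3) (Tn : ℤ → ℝ) (δ : ℝ)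
    (hT : ∀ (n : ℤ), |n| ≤ m → ∀ a : TT d L,
      ‖(w : ℂ) * ∑ x, (ZMod.stdAddChar ((n : ZMod L) * (x i - a i)) : ℂ) *
        ((‖G ψ E e w x a‖ ^ 2 : ℝ) : ℂ) - (Tn n : ℂ)‖ ≤ δ) :
    (((Finset.univ.filter fun j => |E j - e| ≤ w ∧ ∃ y : ZMod L,
      ε ≤ ∑ x : TT d L, if |((x i - y).valMinAbs : ℝ)| ≤ ℓ then ‖ψ j x‖ ^ 2 else 0).card : ℝ)) *
      ε ^ 2 ≤ 16 * w * (Fintype.card (TT d L)) *
        ((1 / ((m : ℝ) + 1)) ^ 2 * ∑ t : Fin (m + 1), ∑ s : Fin (m + 1),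
          Tn ((t : ℤ) - (s : ℤ)) + δ) := by
  classical
  obtain ⟨N, hN⟩ : ∃ N : ℝ, N = (Fintype.card (TT d L) : ℝ) := ⟨_, rfl⟩
  obtain ⟨A, hA⟩ : ∃ A : ℝ, A = (1 / ((m : ℝ) + 1)) ^ 2 * ∑ t : Fin (m + 1), ∑ s : Fin (m + 1),
          Tn ((t : ℤ) - (s : ℤ)) := ⟨_, rfl⟩
  rw [← hN, ← hA]
  have hmain := LA.main ψ E e w hw (Xc i m) ((m : ℝ) + 1)
  -- upper bound
  have hup : w * (((1 / ((m : ℝ) + 1) : ℝ) : ℂ) ^ 2 * ∑ t : Fin (m + 1), ∑ s : Fin (m + 1),
      ∑ x, ∑ a, (Xc i m t x * conj (Xc i m s x)) *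
        conj (Xc i m t a * conj (Xc i m s a)) * ((‖G ψ E e w x a‖ ^ 2 : ℝ) : ℂ)).re ≤
      N * (A + δ) := by
    have e1 : ∀ t s : Fin (m + 1), (w * ∑ x, ∑ a, (Xc i m t x * conj (Xc i m s x)) *
        conj (Xc i m t a * conj (Xc i m s a)) * ((‖G ψ E e w x a‖ ^ 2 : ℝ) : ℂ)).re ≤
        N * (Tn ((t : ℤ) - (s : ℤ)) + δ) := by
      intro t s
      have ht : |(t : ℤ) - (s : ℤ)| ≤ m := by
        have h1 := t.2
        have h2 := s.2
        rw [abs_le]
        constructor <;> omega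
      rw [Finset.sum_comm, Finset.mul_sum, Complex.re_sum]
      have e2 : ∀ a : TT d L, ((w : ℂ) * ∑ x, (Xc i m t x * conj (Xc i m s x)) *
        conj (Xc i m t a * conj (Xc i m s a)) * ((‖G ψ E e w x a‖ ^ 2 : ℝ) : ℂ)).re ≤
          Tn ((t : ℤ) - (s : ℤ)) + δ := by
        intro a
        have h3 := hT _ ht a
        simp only [xc_quad]
        have h4 := (Complex.re_le_norm _).trans h3
        rw [Complex.sub_re, Complex.ofReal_re] at h4
        linarith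
      refine (Finset.sum_le_sum fun a _ => e2 a).trans (le_of_eq ?_)
      rw [Finset.sum_const, Finset.card_univ, nsmul_eq_mul, hN]
    have e3 : w * (((1 / ((m : ℝ) + 1) : ℝ) : ℂ) ^ 2 * ∑ t : Fin (m + 1), ∑ s : Fin (m + 1),
      ∑ x, ∑ a, (Xc i m t x * conj (Xc i m s x)) *
        conj (Xc i m t a * conj (Xc i m s a)) * ((‖G ψ E e w x a‖ ^ 2 : ℝ) : ℂ)).re =
        (1 / ((m : ℝ) + 1)) ^ 2 * ∑ t : Fin (m + 1), ∑ s : Fin (m + 1),
          ((w : ℂ) * ∑ x, ∑ a, (Xc i m t x * conj (Xc i m s x)) *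
        conj (Xc i m t a * conj (Xc i m s a)) * ((‖G ψ E e w x a‖ ^ 2 : ℝ) : ℂ)).re := by
      rw [← Complex.ofReal_pow, Complex.re_ofReal_mul, Complex.re_sum, mul_left_comm,
        Finset.mul_sum]
      congr 1
      refine Finset.sum_congr rfl fun t _ => ?_
      rw [Complex.re_sum, Finset.mul_sum]
      refine Finset.sum_congr rfl fun s _ => ?_
      rw [Complex.re_ofReal_mul]
    rw [e3]
    calc (1 / ((m : ℝ) + 1)) ^ 2 * ∑ t : Fin (m + 1), ∑ s : Fin (m + 1),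
          ((w : ℂ) * ∑ x, ∑ a, (Xc i m t x * conj (Xc i m s x)) *
        conj (Xc i m t a * conj (Xc i m s a)) * ((‖G ψ E e w x a‖ ^ 2 : ℝ) : ℂ)).re ≤
        (1 / ((m : ℝ) + 1)) ^ 2 * ∑ t : Fin (m + 1), ∑ s : Fin (m + 1),
          N * (Tn ((t : ℤ) - (s : ℤ)) + δ) := by
          refine mul_le_mul_of_nonneg_left ?_ (by positivity)
          exact Finset.sum_le_sum fun t _ => Finset.sum_le_sum fun s _ => e1 t s
      _ = N * (A + δ) := by
          have e4 : ∀ t : Fin (m + 1), ∑ s : Fin (m + 1), N * (Tn ((t : ℤ) - (s : ℤ)) + δ) =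
              N * ∑ s : Fin (m + 1), Tn ((t : ℤ) - (s : ℤ)) + N * (((m : ℝ) + 1) * δ) := by
            intro t
            rw [← Finset.mul_sum, Finset.sum_add_distrib, Finset.sum_const, Finset.card_univ,
              Fintype.card_fin, nsmul_eq_mul, mul_add]
            push_cast
            ring
          simp only [e4]
          rw [Finset.sum_add_distrib, ← Finset.mul_sum, Finset.sum_const, Finset.card_univ,
            Fintype.card_fin, nsmul_eq_mul, hA]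
          push_cast
          field_simp
  -- lower bound
  obtain ⟨J, hJ⟩ : ∃ J : Finset ι, J = Finset.univ.filter fun j => |E j - e| ≤ w ∧ ∃ y : ZMod L,
      ε ≤ ∑ x : TT d L, if |((x i - y).valMinAbs : ℝ)| ≤ ℓ then ‖ψ j x‖ ^ 2 else 0 := ⟨_, rfl⟩
  have hFn : ∀ j, 0 ≤ ∑ x, ∑ a, F (Xc i m) ((m : ℝ) + 1) x a * (‖ψ j x‖ ^ 2 * ‖ψ j a‖ ^ 2) :=
    fun j => Finset.sum_nonneg fun x _ => Finset.sum_nonneg fun a _ =>
      mul_nonneg (F_nonneg (T := TT d L) (Xc i m) _ x a) (by positivity)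
  have hlow : (J.card : ℝ) * ((1 / (4 * w ^ 2)) * (ε ^ 2 / 4)) ≤
      ∑ j, (im E e w j) ^ 2 * ∑ x, ∑ a, F (Xc i m) ((m : ℝ) + 1) x a *
        (‖ψ j x‖ ^ 2 * ‖ψ j a‖ ^ 2) := by
    rw [← nsmul_eq_mul, ← Finset.sum_const]
    refine (Finset.sum_le_sum (f := fun _ => (1 / (4 * w ^ 2)) * (ε ^ 2 / 4))
      (g := fun j => (im E e w j) ^ 2 * ∑ x, ∑ a, F (Xc i m) ((m : ℝ) + 1) x a *
        (‖ψ j x‖ ^ 2 * ‖ψ j a‖ ^ 2)) fun j hj => ?_).trans
      (Finset.sum_le_sum_of_subset_of_nonneg (Finset.subset_univ J) fun j _ _ =>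
        mul_nonneg (sq_nonneg _) (hFn j))
    rw [hJ, Finset.mem_filter] at hj
    obtain ⟨-, hj1, y, hy⟩ := hj
    have h5 := slab_low i m (ψ j) y ℓ ε hε hm hy
    have h6 : 1 / (2 * w) ≤ im E e w j := by
      unfold im
      have h7 : (E j - e) ^ 2 ≤ w ^ 2 := by
        rw [← sq_abs (E j - e)]
        exact pow_le_pow_left₀ (abs_nonneg _) hj1 2
      rw [div_le_div_iff₀ (by positivity) (by positivity)]
      nlinarith
    have h8 : 1 / (4 * w ^ 2) ≤ (im E e w j) ^ 2 := by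
      calc 1 / (4 * w ^ 2) = (1 / (2 * w)) ^ 2 := by
            field_simp
            ring
        _ ≤ _ := by gcongr
    exact mul_le_mul h8 h5 (by positivity) (sq_nonneg _)
  rw [← hJ]
  have h9 : w * ((J.card : ℝ) * ((1 / (4 * w ^ 2)) * (ε ^ 2 / 4))) ≤ N * (A + δ) :=
    (mul_le_mul_of_nonneg_left (hlow.trans hmain) hw.le).trans hup
  have h10 : (J.card : ℝ) * ε ^ 2 = 16 * w * (w * ((J.card : ℝ) *
      ((1 / (4 * w ^ 2)) * (ε ^ 2 / 4)))) := by
    field_simp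
    ring
  rw [h10]
  calc 16 * w * (w * ((J.card : ℝ) * ((1 / (4 * w ^ 2)) * (ε ^ 2 / 4)))) ≤
      16 * w * (N * (A + δ)) := by gcongr
    _ = _ := by ring

end Pool.Agent.R988.Tor
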