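import Pool.Agent.W788.BK.Lat
import Pool.Agent.W788.MFP.Cut

/-! Changing the potential far away. -/

set_option autoImplicit false
set_option linter.unusedSectionVars false

open scoped BigOperators
open MeasureTheory

namespace Pool.Agent.R988.GF

open Pool.Agent.W788.BK Pool.Agent.W788.MFP.Cut
open Pool.Agent.H4R2.LO (Zd)

variable {d : ℕ}

/-- cutting off on the lattice -/
theorem cutz (E τ ℓ : ℝ) (hτ : 0 < τ) (hℓ0 : 0 < ℓ) (hℓ : 2 * d ≤ τ * ℓ)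
    (V V' u f : Zd d → ℝ) (hV : ∀ x, ‖x‖ < 2 * ℓ → V x = V' x)
    (hu : Summable fun x => u x ^ 2) (hfs : Summable fun x => f x ^ 2)
    (heq : ∀ x, ∑ i, (u (x + Pi.single i 1) + u (x - Pi.single i 1)) + V x * u x =
      E * u x + f x) :
    ∃ f' : Zd d → ℝ, (Summable fun x => (φ ℓ x * u x) ^ 2) ∧
      ∑' x, (φ ℓ x * u x) ^ 2 ≤ ∑' x, u x ^ 2 ∧ (Summable fun x => f' x ^ 2) ∧
      ∑' x, f' x ^ 2 ≤ 2 * (τ ^ 2 * ∑' x, u x ^ 2) + 2 * ∑' x, f x ^ 2 ∧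
      ∀ x, ∑ i, (φ ℓ (x + Pi.single i 1) * u (x + Pi.single i 1) +
        φ ℓ (x - Pi.single i 1) * u (x - Pi.single i 1)) + V' x * (φ ℓ x * u x) =
        E * (φ ℓ x * u x) + f' x := by
  have hS0 : 0 ≤ ∑' x, u x ^ 2 := tsum_nonneg fun x => sq_nonneg _
  have hφ1 : ∀ (x : Zd d) (w : ℝ), (φ ℓ x * w) ^ 2 ≤ w ^ 2 := by
    intro x w
    rw [mul_pow]
    exact mul_le_of_le_one_left (sq_nonneg _) (pow_le_one₀ (φ_nonneg _ _) (φ_le_one _ _))
  have hvs : Summable fun x => (φ ℓ x * u x) ^ 2 :=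
    Summable.of_nonneg_of_le (fun x => sq_nonneg _) (fun x => hφ1 x _) hu
  have hfs' : Summable fun x => (φ ℓ x * f x) ^ 2 :=
    Summable.of_nonneg_of_le (fun x => sq_nonneg _) (fun x => hφ1 x _) hfs
  obtain ⟨r, hr⟩ : ∃ r : Zd d → ℝ, r = fun x => ∑ i : Fin d,
    ((φ ℓ (x + Pi.single i 1) - φ ℓ x) * u (x + Pi.single i 1) +
     (φ ℓ (x - Pi.single i 1) - φ ℓ x) * u (x - Pi.single i 1)) := ⟨_, rfl⟩
  have hplus : ∀ i : Fin d, Summable (fun x : Zd d => u (x + Pi.single i 1) ^ 2) ∧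
      ∑' x : Zd d, u (x + Pi.single i 1) ^ 2 = ∑' x, u x ^ 2 := fun i =>
    ⟨(Equiv.addRight (Pi.single i 1 : Zd d)).summable_iff.2 hu,
      (Equiv.addRight (Pi.single i 1 : Zd d)).tsum_eq fun x => u x ^ 2⟩
  have hminus : ∀ i : Fin d, Summable (fun x : Zd d => u (x - Pi.single i 1) ^ 2) ∧
      ∑' x : Zd d, u (x - Pi.single i 1) ^ 2 = ∑' x, u x ^ 2 := fun i =>
    ⟨(Equiv.subRight (Pi.single i 1 : Zd d)).summable_iff.2 hu,
      (Equiv.subRight (Pi.single i 1 : Zd d)).tsum_eq fun x => u x ^ 2⟩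
  have hns := norm_single (d := d)
  have hrb : ∀ x, r x ^ 2 ≤ d * ∑ i : Fin d, (2 * (1 / ℓ) ^ 2 * (u (x + Pi.single i 1) ^ 2 +
        u (x - Pi.single i 1) ^ 2)) := by
    intro x
    rw [hr]
    simp only
    refine sq_sum_le_card_mul_sum_sq.trans ?_
    rw [Finset.card_univ, Fintype.card_fin]
    apply mul_le_mul_of_nonneg_left _ (by positivity)
    refine Finset.sum_le_sum fun i _ => ?_
    have s1 := φ_lip ℓ hℓ0 (x + Pi.single i 1) x (by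
      rw [add_sub_cancel_left]
      exact hns i)
    have s2 := φ_lip ℓ hℓ0 (x - Pi.single i 1) x (by
      rw [sub_sub_cancel_left, norm_neg]
      exact hns i)
    have e0 : ∀ A w : ℝ, |A| ≤ 1 / ℓ → (A * w) ^ 2 ≤ (1 / ℓ) ^ 2 * w ^ 2 := by
      intro A w hA
      rw [mul_pow, ← sq_abs A]
      exact mul_le_mul_of_nonneg_right (pow_le_pow_left₀ (abs_nonneg _) hA 2) (sq_nonneg _)
    have e1 := e0 _ (u (x + Pi.single i 1)) s1
    have e2 := e0 _ (u (x - Pi.single i 1)) s2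
    have e3 : ∀ A B : ℝ, (A + B) ^ 2 ≤ 2 * (A ^ 2 + B ^ 2) := fun A B => add_sq_le
    have e4 := e3 ((φ ℓ (x + Pi.single i 1) - φ ℓ x) * u (x + Pi.single i 1))
      ((φ ℓ (x - Pi.single i 1) - φ ℓ x) * u (x - Pi.single i 1))
    linarith
  have hsi : ∀ i : Fin d, Summable fun x : Zd d => (2 * (1 / ℓ) ^ 2 * (u (x + Pi.single i 1) ^ 2 +
        u (x - Pi.single i 1) ^ 2)) := fun i =>
    (((hplus i).1.add (hminus i).1)).mul_left _
  have hss : Summable fun x : Zd d => (d : ℝ) * ∑ i : Fin d, (2 * (1 / ℓ) ^ 2 *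
      (u (x + Pi.single i 1) ^ 2 + u (x - Pi.single i 1) ^ 2)) :=
    (summable_sum fun i _ => hsi i).mul_left _
  have hrs : Summable fun x => r x ^ 2 :=
    Summable.of_nonneg_of_le (fun x => sq_nonneg _) hrb hss
  have hrt : ∑' x, r x ^ 2 ≤ τ ^ 2 * ∑' x, u x ^ 2 := by
    have h1 : ∑' x, r x ^ 2 ≤ (2 * d / ℓ) ^ 2 * ∑' x, u x ^ 2 := by
      refine (hrs.tsum_le_tsum hrb hss).trans (le_of_eq ?_)
      rw [tsum_mul_left, Summable.tsum_finsetSum fun i _ => hsi i]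
      have h2 : ∀ i : Fin d, ∑' x : Zd d, (2 * (1 / ℓ) ^ 2 * (u (x + Pi.single i 1) ^ 2 +
        u (x - Pi.single i 1) ^ 2)) = 4 * (1 / ℓ) ^ 2 * ∑' x, u x ^ 2 := by
        intro i
        rw [tsum_mul_left, (hplus i).1.tsum_add (hminus i).1, (hplus i).2, (hminus i).2]
        ring
      rw [Finset.sum_congr rfl fun i _ => h2 i, Finset.sum_const, Finset.card_univ,
        Fintype.card_fin, nsmul_eq_mul]
      ring
    have h4 : 2 * d / ℓ ≤ τ := by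
      rw [div_le_iff₀ hℓ0]
      exact hℓ
    refine h1.trans (mul_le_mul_of_nonneg_right ?_ hS0)
    exact pow_le_pow_left₀ (by positivity) h4 2
  have hfb : ∀ x, (r x + φ ℓ x * f x) ^ 2 ≤ 2 * r x ^ 2 + 2 * (φ ℓ x * f x) ^ 2 := fun x => by
    nlinarith [sq_nonneg (r x - φ ℓ x * f x)]
  have hfbs : Summable fun x => 2 * r x ^ 2 + 2 * (φ ℓ x * f x) ^ 2 :=
    (hrs.mul_left 2).add (hfs'.mul_left 2)
  have hf's : Summable fun x => (r x + φ ℓ x * f x) ^ 2 :=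
    Summable.of_nonneg_of_le (fun x => sq_nonneg _) hfb hfbs
  refine ⟨fun x => r x + φ ℓ x * f x, hvs, hvs.tsum_le_tsum (fun x => hφ1 x _) hu, hf's, ?_, ?_⟩
  · refine (hf's.tsum_le_tsum hfb hfbs).trans ?_
    rw [(hrs.mul_left 2).tsum_add (hfs'.mul_left 2), tsum_mul_left, tsum_mul_left]
    have h5 := hfs'.tsum_le_tsum (fun x => hφ1 x (f x)) hfs
    linarith
  · intro x
    have hVx : V' x * (φ ℓ x * u x) = φ ℓ x * (V x * u x) := by
      by_cases hx : ‖x‖ < 2 * ℓ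
      · rw [hV x hx]
        ring
      · push Not at hx
        rw [φ_zero ℓ hℓ0 x hx]
        ring
    have h2 : V x * u x = E * u x + f x -
        ∑ i, (u (x + Pi.single i 1) + u (x - Pi.single i 1)) := by
      rw [← heq x]
      ring
    rw [hVx, h2, hr]
    simp only
    have h3 : ∑ i : Fin d, (φ ℓ (x + Pi.single i 1) * u (x + Pi.single i 1) +
        φ ℓ (x - Pi.single i 1) * u (x - Pi.single i 1)) =
        ∑ i : Fin d, ((φ ℓ (x + Pi.single i 1) - φ ℓ x) * u (x + Pi.single i 1) +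
        (φ ℓ (x - Pi.single i 1) - φ ℓ x) * u (x - Pi.single i 1)) +
        φ ℓ x * ∑ i, (u (x + Pi.single i 1) + u (x - Pi.single i 1)) := by
      rw [Finset.mul_sum, ← Finset.sum_add_distrib]
      exact Finset.sum_congr rfl fun i _ => by ring
    rw [h3]
    ring

/-- local smoothing does not see the potential far away -/
theorem sm1_cut (σ σ' ρ ρ' t g ℓ : ℝ) (ht : 0 < t) (hg : 0 ≤ g) (hℓ0 : 0 < ℓ)
    (hℓ : 2 * d ≤ t * ℓ) (hρρ : ρ' ≤ ρ) (hρℓ : ρ' ≤ ℓ) (ξ ξ' : Zd d → ℝ)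
    (hξ : ∀ x, ‖x‖ < 2 * ℓ → σ * ξ x = σ' * ξ' x) (h : SM1 d σ' ρ t g ξ') :
    SM1 d σ ρ' t (2 * g) ξ := by
  intro E u f hu hf heq a ha
  obtain ⟨f', h1, h2, h3, h4, h5⟩ := cutz E t ℓ ht hℓ0 hℓ (fun x => σ * ξ x) (fun x => σ' * ξ' x)
    u f hξ hu hf heq
  have h6 := h E (fun x => φ ℓ x * u x) f' h1 h3 h5 a (ha.trans hρρ)
  simp only [φ_one ℓ hℓ0 a (ha.trans hρℓ), one_mul] at h6
  have hSu : 0 ≤ ∑' x, u x ^ 2 := tsum_nonneg fun x => sq_nonneg _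
  have hSf : 0 ≤ ∑' x, f x ^ 2 := tsum_nonneg fun x => sq_nonneg _
  refine h6.trans ?_
  have ht' : 0 < t⁻¹ := inv_pos.2 ht
  calc g * (5 * t * ∑' x, (φ ℓ x * u x) ^ 2 + 2 * t⁻¹ * ∑' x, f' x ^ 2) ≤
      g * (5 * t * ∑' x, u x ^ 2 + 2 * t⁻¹ * (2 * (t ^ 2 * ∑' x, u x ^ 2) +
        2 * ∑' x, f x ^ 2)) := by gcongr
    _ = g * (9 * t * ∑' x, u x ^ 2 + 4 * t⁻¹ * ∑' x, f x ^ 2) := by
        have e1 : t⁻¹ * t ^ 2 = t := by field_simp
        have e2 : 2 * t⁻¹ * (2 * (t ^ 2 * ∑' x, u x ^ 2) + 2 * ∑' x, f x ^ 2) =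
          4 * (t⁻¹ * t ^ 2) * ∑' x, u x ^ 2 + 4 * t⁻¹ * ∑' x, f x ^ 2 := by ring
        rw [e2, e1]
        ring
    _ ≤ g * (10 * t * ∑' x, u x ^ 2 + 4 * t⁻¹ * ∑' x, f x ^ 2) := by
        have := mul_nonneg ht.le hSu
        gcongr
        linarith
    _ = _ := by ring

end Pool.Agent.R988.GF
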