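import Mathlib
import Pool.Agent.H4R2.LO.Fin

/-! The clipped Gaussian law. -/

set_option autoImplicit false
set_option linter.unusedSectionVars false

open scoped BigOperators
open MeasureTheory ProbabilityTheory

namespace Pool.Agent.R988.GG

open Pool.Agent.H4R2.LO (Zd)

variable {d : ℕ}

/-- clipping at the level `B`, divided by `B` -/
noncomputable def cl (B s : ℝ) : ℝ := max (-1) (min 1 (s / B))

theorem cl_meas (B : ℝ) : Measurable (cl B) := by
  unfold cl
  fun_prop

theorem cl_abs (B s : ℝ) : |cl B s| ≤ 1 := by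
  unfold cl
  rw [abs_le]
  exact ⟨le_max_left _ _, max_le (by norm_num) (min_le_left _ _)⟩

theorem cl_eq (B s : ℝ) (hB : 0 < B) (hs : |s| ≤ B) : cl B s = s / B := by
  unfold cl
  obtain ⟨h1, h2⟩ := abs_le.1 hs
  have h3 : s / B ≤ 1 := (div_le_one hB).2 h2
  have h4 : -1 ≤ s / B := by
    rw [le_div_iff₀ hB]
    linarith
  rw [min_eq_right h3, max_eq_right h4]

theorem cl_neg (B s : ℝ) : cl B (-s) = -cl B s := by
  unfold cl
  rw [neg_div]
  rcases le_total (s / B) 1 with h1 | h1
  · rcases le_total (-1) (s / B) with h2 | h2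
    · rw [min_eq_right h1, max_eq_right h2, min_eq_right (by linarith), max_eq_right (by linarith)]
    · rw [min_eq_right h1, max_eq_left h2, min_eq_left (by linarith), max_eq_right (by linarith)]
      norm_num
  · rw [min_eq_left h1, min_eq_right (show -(s / B) ≤ 1 by linarith),
      max_eq_left (show -(s / B) ≤ -1 by linarith),
      max_eq_right (show (-1 : ℝ) ≤ 1 by norm_num)]

/-- the law of the clipped Gaussian -/
noncomputable def nu (B : ℝ) : Measure ℝ := (gaussianReal 0 1).map (cl B)

instance (B : ℝ) : IsProbabilityMeasure (nu B) :=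
  Measure.isProbabilityMeasure_map (cl_meas B).aemeasurable

theorem nu_bdd (B : ℝ) : ∀ᵐ s ∂(nu B), |s| ≤ 1 := by
  unfold nu
  rw [ae_map_iff (cl_meas B).aemeasurable (measurableSet_le (by fun_prop) (by fun_prop))]
  exact Filter.Eventually.of_forall fun s => cl_abs B s

theorem nu_mean (B : ℝ) : ∫ s, s ∂(nu B) = 0 := by
  unfold nu
  rw [integral_map (cl_meas B).aemeasurable (by fun_prop)]
  have h1 : ∫ s, cl B s ∂(gaussianReal 0 1) = ∫ s, cl B (-s) ∂(gaussianReal 0 1) := by
    have h2 : (gaussianReal 0 1).map (fun s => -s) = gaussianReal 0 1 := by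
      rw [gaussianReal_map_neg, neg_zero]
    conv_lhs => rw [← h2]
    rw [integral_map measurable_neg.aemeasurable (cl_meas B).aestronglyMeasurable]
  simp only [cl_neg, integral_neg] at h1
  linarith

theorem tail (B : ℝ) (hB : 0 < B) :
    (gaussianReal 0 1).real {t | B < |t|} ≤ 2 * Real.exp (-(B ^ 2 / 2)) := by
  have hint : ∀ t : ℝ, Integrable (fun ω => Real.exp (t * ω)) (gaussianReal 0 1) :=
    fun t => integrable_exp_mul_gaussianReal t
  have hmgf : ∀ t : ℝ, mgf id (gaussianReal 0 1) t = Real.exp (t ^ 2 / 2) := by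
    intro t
    rw [mgf_id_gaussianReal]
    simp
  have h1 : (gaussianReal 0 1).real {t | B ≤ t} ≤ Real.exp (-(B ^ 2 / 2)) := by
    have h := measure_ge_le_exp_mul_mgf (μ := gaussianReal 0 1) (X := id) (t := B) B
      hB.le (hint _)
    rw [hmgf, ← Real.exp_add] at h
    refine le_trans h (le_of_eq ?_)
    congr 1
    ring
  have h2 : (gaussianReal 0 1).real {t | t ≤ -B} ≤ Real.exp (-(B ^ 2 / 2)) := by
    have h := measure_le_le_exp_mul_mgf (μ := gaussianReal 0 1) (X := id) (t := -B)
      (-B) (by linarith) (hint _)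
    rw [hmgf, ← Real.exp_add] at h
    refine le_trans h (le_of_eq ?_)
    congr 1
    ring
  have hsub : {t : ℝ | B < |t|} ⊆ {t | B ≤ t} ∪ {t | t ≤ -B} := by
    intro t ht
    have ht' : B < |t| := ht
    rw [lt_abs] at ht'
    rcases ht' with h | h
    · left
      exact h.le
    · right
      show t ≤ -B
      linarith
  refine (measureReal_mono hsub).trans ((measureReal_union_le _ _).trans ?_)
  linarith

/-- the law of the clipped configuration -/
theorem law (B : ℝ) : (Measure.infinitePi fun _ : Zd d => gaussianReal 0 1).map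
    (fun ξ x => cl B (ξ x)) = Measure.infinitePi fun _ : Zd d => nu B :=
  Measure.infinitePi_map_pi (μ := fun _ : Zd d => gaussianReal 0 1)
    (f := fun _ (s : ℝ) => cl B s) (fun _ => cl_meas B)

/-- the box -/
noncomputable def box (d n : ℕ) : Finset (Zd d) := Finset.Icc (fun _ => -(n : ℤ)) (fun _ => (n : ℤ))

theorem mem_box (n : ℕ) (x : Zd d) (h : ‖x‖ ≤ n) : x ∈ box d n := by
  unfold box
  rw [Finset.mem_Icc, Pi.le_def, Pi.le_def]
  have h1 : ∀ i, |x i| ≤ (n : ℤ) := by
    intro i
    have h2 := (norm_le_pi_norm x i).trans h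
    rw [Int.norm_eq_abs] at h2
    exact_mod_cast h2
  exact ⟨fun i => (abs_le.1 (h1 i)).1, fun i => (abs_le.1 (h1 i)).2⟩

theorem card_box (d n : ℕ) : (box d n).card = (2 * n + 1) ^ d := by
  unfold box
  rw [Pi.card_Icc]
  simp only [Int.card_Icc, Finset.prod_const, Finset.card_univ, Fintype.card_fin]
  congr 1
  omega

/-- the event that the Gaussian variables are at most `B` in the box -/
def ev (d n : ℕ) (B : ℝ) : Set (Zd d → ℝ) := ⋂ x ∈ box d n, {ξ | |ξ x| ≤ B}

theorem ev_meas (n : ℕ) (B : ℝ) : MeasurableSet (ev d n B) := by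
  unfold ev
  exact Finset.measurableSet_biInter _ fun x _ => measurableSet_le (by fun_prop) measurable_const

theorem ev_mem (n : ℕ) (B : ℝ) (ξ : Zd d → ℝ) (hξ : ξ ∈ ev d n B) (x : Zd d) (hx : ‖x‖ ≤ n) :
    |ξ x| ≤ B := by
  unfold ev at hξ
  exact Set.mem_iInter₂.1 hξ x (mem_box n x hx)

theorem ev_prob (n : ℕ) (B : ℝ) (hB : 0 < B) :
    1 - (2 * n + 1 : ℝ) ^ d * (2 * Real.exp (-(B ^ 2 / 2))) ≤
      (Measure.infinitePi fun _ : Zd d => gaussianReal 0 1).real (ev d n B) := by
  have h2 := probReal_add_probReal_compl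
    (μ := Measure.infinitePi fun _ : Zd d => gaussianReal 0 1) (ev_meas (d := d) n B)
  have h3 : (Measure.infinitePi fun _ : Zd d => gaussianReal 0 1).real (ev d n B)ᶜ ≤
      (2 * n + 1 : ℝ) ^ d * (2 * Real.exp (-(B ^ 2 / 2))) := by
    have e1 : (ev d n B)ᶜ = ⋃ x ∈ box d n, {ξ : Zd d → ℝ | |ξ x| ≤ B}ᶜ := by
      unfold ev
      simp only [Set.compl_iInter]
    rw [e1]
    refine (measureReal_biUnion_finset_le _ _).trans ?_
    have h4 : ∀ x ∈ box d n, (Measure.infinitePi fun _ : Zd d => gaussianReal 0 1).real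
        {ξ : Zd d → ℝ | |ξ x| ≤ B}ᶜ ≤ 2 * Real.exp (-(B ^ 2 / 2)) := by
      intro x _
      have h5 : (Measure.infinitePi fun _ : Zd d => gaussianReal 0 1).map
          (fun ξ : Zd d → ℝ => ξ x) = gaussianReal 0 1 :=
        Measure.infinitePi_map_eval (fun _ : Zd d => gaussianReal 0 1) x
      have h6 : (Measure.infinitePi fun _ : Zd d => gaussianReal 0 1).real
          {ξ : Zd d → ℝ | |ξ x| ≤ B}ᶜ = (gaussianReal 0 1).real {t | B < |t|} := by
        conv_rhs => rw [← h5]
        rw [map_measureReal_apply (measurable_pi_apply x)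
          (measurableSet_lt measurable_const (by fun_prop))]
        congr 1
        ext ξ
        simp
      rw [h6]
      exact tail B hB
    refine (Finset.sum_le_sum h4).trans (le_of_eq ?_)
    rw [Finset.sum_const, card_box, nsmul_eq_mul]
    push_cast
    ring
  linarith

end Pool.Agent.R988.GG
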