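import Pool.Agent.R988.TV
import Pool.Agent.R988.GG

/-! Existence of the evolution for an arbitrary real potential on the lattice. -/

set_option autoImplicit false
set_option linter.unusedSectionVars false
set_option linter.unusedVariables false

open scoped BigOperators ComplexConjugate InnerProductSpace Topology ENNReal
open Set MeasureTheory Filter

namespace Pool.Agent.R988.Tor

open Pool.Agent.H4R2.LO (Zd)
open Pool.Agent.TH794.QD (Sol exists_sol)
open Pool.Agent.W788.LD.Spec (S)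
open Pool.Agent.W788.MFP.Cut (φ φ_nonneg φ_le_one φ_one φ_zero φ_lip norm_single)

variable {d : ℕ}

/-- the torus potential sees only a box -/
theorem box_dist {n : ℕ} (x : TT d (2 * n + 1 + 1)) : ‖(em x : Zd d) - mid d n‖ ≤ n + 1 := by
  rw [pi_norm_le_iff_of_nonneg (by positivity)]
  intro i
  have h1 := em_nonneg x i
  have h2 := em_lt x i
  rw [Int.norm_eq_abs]
  have h3 : |em x i - (n : ℤ)| ≤ n + 1 := by
    rw [abs_le]
    push_cast at h2
    constructor <;> omega
  have h4 : (em x - mid d n : Zd d) i = em x i - (n : ℤ) := rfl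
  rw [h4]
  exact_mod_cast h3

/-- potentials which agree near the starting point have close solutions -/
theorem loc_cmp {V V' : Zd d → ℝ} {c : Zd d} {ψ ψ' : ℝ → Zd d → ℂ} (h : Sol d V c ψ)
    (h' : Sol d V' c ψ') (n : ℕ) (hn : 1 ≤ n) (hV : ∀ x, ‖x - c‖ ≤ n + 1 → V x = V' x)
    (t : ℝ) (ht : 0 ≤ t) (x : Zd d) (hx : ‖x - c‖ ≤ (n : ℝ) / 2) :
    ‖ψ t x - ψ' t x‖ ≤ 8 * d / n * t := by
  have hn' : (1 : ℝ) ≤ n := by exact_mod_cast hn
  have hn0 : (0 : ℝ) < n := by linarith
  have e1 : c - (c - mid d n) = mid d n := by abel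
  have h1 := sol_shift h (c - mid d n)
  have h1' := sol_shift h' (c - mid d n)
  rw [e1] at h1 h1'
  obtain ⟨W, hW⟩ : ∃ W : TT d (2 * n + 1 + 1) → ℝ, W = fun x => V (em x + (c - mid d n)) :=
    ⟨_, rfl⟩
  have hW1 : ∀ x : TT d (2 * n + 1 + 1), (fun x => V (x + (c - mid d n))) (em (x - 0)) = W x := by
    intro x
    rw [hW, sub_zero]
  have hW2 : ∀ x : TT d (2 * n + 1 + 1),
      (fun x => V' (x + (c - mid d n))) (em (x - 0)) = W x := by
    intro x
    rw [hW, sub_zero]
    simp only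
    refine (hV _ ?_).symm
    have e2 : em x + (c - mid d n) - c = em x - mid d n := by abel
    rw [e2]
    exact box_dist x
  have hc : ∀ i : Fin d, (n : ℝ) ≤ (mid d n i : ℤ) ∧
      (n : ℝ) + 1 ≤ ((2 * n + 1 + 1 : ℕ) : ℝ) - (mid d n i : ℤ) := by
    intro i
    unfold mid
    push_cast
    constructor
    · exact le_rfl
    · linarith
  obtain ⟨g, hg⟩ : ∃ g, g = tg W (0 + pr (2 * n + 1 + 1) (mid d n)) := ⟨_, rfl⟩
  have hgs : TSol W (0 + pr (2 * n + 1 + 1) (mid d n)) g := by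
    rw [hg]
    exact tsol_tg _ _
  have b1 := hcut_cmp h1 W 0 hW1 (n : ℝ) hn' hc g hgs t ht
  have b2 := hcut_cmp h1' W 0 hW2 (n : ℝ) hn' hc g hgs t ht
  obtain ⟨z, hz⟩ : ∃ z, z = x - (c - mid d n) := ⟨_, rfl⟩
  have hzx : z + (c - mid d n) = x := by rw [hz]; abel
  have hzc : z - mid d n = x - c := by rw [hz]; abel
  have hzb : ∀ j, 0 ≤ z j ∧ z j < ((2 * n + 1 + 1 : ℕ) : ℤ) := by
    intro j
    have hzn : ‖z - mid d n‖ ≤ (n : ℝ) / 2 := by
      rw [hzc]
      exact hx
    have h3 := (norm_le_pi_norm (z - mid d n) j).trans hzn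
    rw [Int.norm_eq_abs] at h3
    have h4 : |(((z - mid d n) j : ℤ) : ℝ)| ≤ n := by linarith
    have h5 : |z j - (n : ℤ)| ≤ n := by exact_mod_cast h4
    rw [abs_le] at h5
    push_cast
    constructor <;> omega
  have hem : em (pr (2 * n + 1 + 1) z) = z := em_pr z hzb
  have hcut : ∀ u : Zd d → ℂ, hcut (n : ℝ) (mid d n) (0 : TT d (2 * n + 1 + 1)) u
      (pr (2 * n + 1 + 1) z) = u z := by
    intro u
    unfold hcut
    rw [sub_zero, hem, φ_one ((n : ℝ) / 2) (by positivity) _ (by rw [hzc]; exact hx)]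
    simp
  have hsing : ∀ f : TT d (2 * n + 1 + 1) → ℂ, ∑ x, ‖f x‖ ^ 2 ≤ (4 * d / n * t) ^ 2 →
      ∀ x, ‖f x‖ ≤ 4 * d / n * t := by
    intro f hf x
    have h3 : ‖f x‖ ^ 2 ≤ (4 * d / n * t) ^ 2 :=
      (Finset.single_le_sum (f := fun x => ‖f x‖ ^ 2) (fun _ _ => sq_nonneg _)
        (Finset.mem_univ x)).trans hf
    exact (pow_le_pow_iff_left₀ (norm_nonneg _) (by positivity) two_ne_zero).1 h3
  have c1 := hsing _ b1 (pr (2 * n + 1 + 1) z)
  have c2 := hsing _ b2 (pr (2 * n + 1 + 1) z)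
  rw [hcut] at c1 c2
  simp only [hzx] at c1 c2
  calc ‖ψ t x - ψ' t x‖ = ‖(g t (pr (2 * n + 1 + 1) z) - ψ' t x) -
        (g t (pr (2 * n + 1 + 1) z) - ψ t x)‖ := by
        congr 1
        ring
    _ ≤ _ := norm_sub_le _ _
    _ ≤ 4 * d / n * t + 4 * d / n * t := add_le_add c2 c1
    _ = _ := by ring

/-- the solution is unique for positive times -/
theorem sol_unique {V : Zd d → ℝ} {c : Zd d} {ψ ψ' : ℝ → Zd d → ℂ} (h : Sol d V c ψ)
    (h' : Sol d V c ψ') (t : ℝ) (ht : 0 ≤ t) (x : Zd d) : ψ t x = ψ' t x := by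
  have h1 : Tendsto (fun n : ℕ => 8 * (d : ℝ) / n * t) atTop (𝓝 (0 * t)) :=
    (tendsto_const_div_atTop_nhds_zero_nat (8 * (d : ℝ))).mul_const t
  rw [zero_mul] at h1
  have h2 : ‖ψ t x - ψ' t x‖ ≤ 0 := by
    refine ge_of_tendsto h1 ?_
    obtain ⟨m, hm⟩ := exists_nat_ge (2 * ‖x - c‖)
    filter_upwards [eventually_ge_atTop 1, eventually_ge_atTop m] with n hn hnm
    have hnm' : (m : ℝ) ≤ n := by exact_mod_cast hnm
    exact loc_cmp h h' n hn (fun _ _ => rfl) t ht x (by linarith)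
  exact sub_eq_zero.1 (norm_le_zero_iff.1 h2)

/-- time reversal -/
theorem sol_rev {V : Zd d → ℝ} {c : Zd d} {ψ : ℝ → Zd d → ℂ} (h : Sol d V c ψ) :
    Sol d V c fun t x => conj (ψ (-t) x) := by
  refine ⟨fun x => ?_, fun s x => ?_, fun s => ?_⟩
  · rw [neg_zero, h.init]
    split_ifs <;> simp
  · have h1 := h.ode (-s) x
    have h2 : HasDerivAt (fun s => ψ (-s) x)
        (-(-Complex.I * (-S (ψ (-s)) x + (V x : ℂ) * ψ (-s) x))) s := by
      have h3 := h1.scomp s (hasDerivAt_neg s)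
      refine h3.congr_deriv ?_
      simp
    have h4 := h2.star
    refine h4.congr_deriv ?_
    have h5 : S (fun x => conj (ψ (-s) x)) x = conj (S (ψ (-s)) x) := by
      unfold S
      rw [map_sum]
      refine Finset.sum_congr rfl fun i _ => ?_
      rw [map_add]
    change conj (-(-Complex.I * (-S (ψ (-s)) x + (V x : ℂ) * ψ (-s) x))) = _
    rw [h5]
    simp only [map_neg, map_mul, map_add, Complex.conj_I, Complex.conj_ofReal]
    ring
  · have h1 := h.norm (-s)
    refine h1.congr_fun fun x => ?_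
    simp only [RCLike.norm_conj]

/-- close solutions, all times -/
theorem loc_cmp' {V V' : Zd d → ℝ} {c : Zd d} {ψ ψ' : ℝ → Zd d → ℂ} (h : Sol d V c ψ)
    (h' : Sol d V' c ψ') (n : ℕ) (hn : 1 ≤ n) (hV : ∀ x, ‖x - c‖ ≤ n + 1 → V x = V' x)
    (t : ℝ) (x : Zd d) (hx : ‖x - c‖ ≤ (n : ℝ) / 2) :
    ‖ψ t x - ψ' t x‖ ≤ 8 * d / n * |t| := by
  rcases le_total 0 t with ht | ht
  · rw [abs_of_nonneg ht]
    exact loc_cmp h h' n hn hV t ht x hx
  · rw [abs_of_nonpos ht]
    have h1 := loc_cmp (sol_rev h) (sol_rev h') n hn hV (-t) (by linarith) x hx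
    rw [neg_neg, ← map_sub, RCLike.norm_conj] at h1
    exact h1

/-- tightness -/
theorem tight {V : Zd d → ℝ} {c : Zd d} {ψ : ℝ → Zd d → ℂ} (h : Sol d V c ψ) (n : ℕ)
    (hn : 1 ≤ n) (t : ℝ) (ht : 0 ≤ t) :
    1 - 16 * d / n * t ≤ ∑ z ∈ Pool.Agent.R988.GG.box d (n + 1), ‖ψ t (z + c)‖ ^ 2 := by
  have hn' : (1 : ℝ) ≤ n := by exact_mod_cast hn
  have e1 : c - (c - mid d n) = mid d n := by abel
  have h1 := sol_shift h (c - mid d n)
  rw [e1] at h1
  have hc : ∀ i : Fin d, (n : ℝ) ≤ (mid d n i : ℤ) ∧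
      (n : ℝ) + 1 ≤ ((2 * n + 1 + 1 : ℕ) : ℝ) - (mid d n i : ℤ) := by
    intro i
    unfold mid
    push_cast
    constructor
    · exact le_rfl
    · linarith
  obtain ⟨θ, hθ⟩ : ∃ θ : Zd d → ℝ, θ = fun z => if ‖z - mid d n‖ ≤ n + 1 then 1 else 0 := ⟨_, rfl⟩
  have hθ1 : ∀ z, |θ z| ≤ 1 := fun z => by
    rw [hθ]
    simp only
    split_ifs <;> simp
  have h2 := cmpT h1 (fun x => V (em x + (c - mid d n))) 0 (fun x => by rw [sub_zero]) (n : ℝ) hn'
    hc (tg (fun x => V (em x + (c - mid d n))) (0 + pr (2 * n + 1 + 1) (mid d n)))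
    (tsol_tg _ _) t ht θ hθ1
  have h3 : ∑ x : TT d (2 * n + 1 + 1), θ (em (x - 0)) *
      ‖tg (fun x => V (em x + (c - mid d n))) (0 + pr (2 * n + 1 + 1) (mid d n)) t x‖ ^ 2 = 1 := by
    rw [← (tsol_tg (fun x : TT d (2 * n + 1 + 1) => V (em x + (c - mid d n)))
      (0 + pr (2 * n + 1 + 1) (mid d n))).norm t]
    refine Finset.sum_congr rfl fun x _ => ?_
    rw [hθ]
    simp only
    rw [if_pos (by rw [sub_zero]; exact box_dist x), one_mul]
  rw [h3] at h2
  have h4 := (abs_le.1 h2).2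
  have h5 : ∑' z, θ z * ‖ψ t (z + (c - mid d n))‖ ^ 2 ≤
      ∑ z ∈ Pool.Agent.R988.GG.box d (n + 1), ‖ψ t (z + c)‖ ^ 2 := by
    have h6 := (Equiv.addRight (mid d n)).tsum_eq fun z => θ z * ‖ψ t (z + (c - mid d n))‖ ^ 2
    rw [← h6]
    have h7 : ∀ z : Zd d, θ ((Equiv.addRight (mid d n)) z) *
        ‖ψ t ((Equiv.addRight (mid d n)) z + (c - mid d n))‖ ^ 2 =
        (if ‖z‖ ≤ n + 1 then 1 else 0) * ‖ψ t (z + c)‖ ^ 2 := by
      intro z
      have e2 : (Equiv.addRight (mid d n)) z = z + mid d n := rfl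
      rw [e2, hθ]
      simp only [add_sub_cancel_right]
      congr 4
      abel
    rw [tsum_congr h7]
    rw [tsum_eq_sum (s := Pool.Agent.R988.GG.box d (n + 1)) fun z hz => by
      rw [if_neg fun hh => hz (Pool.Agent.R988.GG.mem_box (n + 1) z (by push_cast; exact hh)),
        zero_mul]]
    refine Finset.sum_le_sum fun z _ => ?_
    split_ifs
    · rw [one_mul]
    · rw [zero_mul]
      positivity
  linarith

/-- **existence of the evolution for every real potential** -/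
theorem exists_solU (V : Zd d → ℝ) (c : Zd d) : ∃ ψ : ℝ → Zd d → ℂ, Sol d V c ψ := by
  obtain ⟨Vn, hVn⟩ : ∃ Vn : ℕ → Zd d → ℝ, Vn = fun (n : ℕ) x =>
    if ‖x - c‖ ≤ (n : ℝ) then V x else 0 := ⟨_, rfl⟩
  have hex : ∀ n, ∃ ψ : ℝ → Zd d → ℂ, Sol d (Vn n) c ψ := by
    intro n
    refine exists_sol (Vn n) (∑ y ∈ Pool.Agent.R988.GG.box d n, |V (y + c)|) (fun x => ?_) c
    rw [hVn]
    simp only
    split_ifs with hx
    · have h1 := Finset.single_le_sum (f := fun y => |V (y + c)|) (fun _ _ => abs_nonneg _)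
        (Pool.Agent.R988.GG.mem_box n (x - c) hx)
      simp only [sub_add_cancel] at h1
      exact h1
    · rw [abs_zero]
      positivity
  choose ψ hψ using hex
  have hagree : ∀ N m n : ℕ, N + 1 ≤ m → N + 1 ≤ n → ∀ x, ‖x - c‖ ≤ N + 1 → Vn m x = Vn n x := by
    intro N m n hm hn x hx
    have hm' : (N : ℝ) + 1 ≤ m := by exact_mod_cast hm
    have hn' : (N : ℝ) + 1 ≤ n := by exact_mod_cast hn
    rw [hVn]
    simp only
    rw [if_pos (hx.trans hm'), if_pos (hx.trans hn')]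
  have hcau : ∀ N m n : ℕ, 1 ≤ N → N + 1 ≤ m → N + 1 ≤ n → ∀ t x, ‖x - c‖ ≤ (N : ℝ) / 2 →
      ‖ψ m t x - ψ n t x‖ ≤ 8 * d / N * |t| := fun N m n hN hm hn t x hx =>
    loc_cmp' (hψ m) (hψ n) N hN (hagree N m n hm hn) t x hx
  have hlim0 : ∀ t : ℝ, Tendsto (fun N : ℕ => 8 * (d : ℝ) / N * |t|) atTop (𝓝 0) := by
    intro t
    have h1 := (tendsto_const_div_atTop_nhds_zero_nat (8 * (d : ℝ))).mul_const |t|
    rwa [zero_mul] at h1
  have hconv : ∀ t x, ∃ g : ℂ, Tendsto (fun n => ψ n t x) atTop (𝓝 g) := by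
    intro t x
    refine cauchySeq_tendsto_of_complete ?_
    rw [Metric.cauchySeq_iff]
    intro ε hε
    obtain ⟨m, hm⟩ := exists_nat_ge (2 * ‖x - c‖)
    obtain ⟨N, h1, h2, h3⟩ := (((hlim0 t).eventually (gt_mem_nhds hε)).and
      ((eventually_ge_atTop 1).and (eventually_ge_atTop m))).exists
    have h3' : (m : ℝ) ≤ N := by exact_mod_cast h3
    refine ⟨N + 1, fun p hp q hq => ?_⟩
    rw [dist_eq_norm]
    exact lt_of_le_of_lt (hcau N p q h2 hp hq t x (by linarith)) h1
  choose g hg using hconv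
  have hbd : ∀ N n : ℕ, 1 ≤ N → N + 1 ≤ n → ∀ t x, ‖x - c‖ ≤ (N : ℝ) / 2 →
      ‖ψ n t x - g t x‖ ≤ 8 * d / N * |t| := by
    intro N n hN hn t x hx
    have h1 : Tendsto (fun m => ‖ψ n t x - ψ m t x‖) atTop (𝓝 ‖ψ n t x - g t x‖) :=
      ((hg t x).const_sub _).norm
    refine le_of_tendsto h1 ?_
    filter_upwards [eventually_ge_atTop (N + 1)] with m hm
    exact hcau N n m hN hn hm t x hx
  refine ⟨g, fun x => ?_, fun s x => ?_, ?_⟩
  · refine tendsto_nhds_unique (hg 0 x) ?_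
    simp only [(hψ _).init]
    exact tendsto_const_nhds
  · -- the equation
    obtain ⟨T, hT⟩ : ∃ T, T = |s| + 1 := ⟨_, rfl⟩
    have hT0 : 0 < T := by rw [hT]; positivity
    have hs : s ∈ Ioo (-T) T := by
      rw [mem_Ioo, ← abs_lt, hT]
      linarith
    refine hasDerivAt_of_tendstoUniformlyOn (s := Ioo (-T) T) (l := atTop)
      (f := fun n s => ψ n s x)
      (f' := fun n s => -Complex.I * (-S (ψ n s) x + (Vn n x : ℂ) * ψ n s x))
      (g' := fun s => -Complex.I * (-S (g s) x + (V x : ℂ) * g s x)) isOpen_Ioo ?_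
      (Eventually.of_forall fun n y _ => (hψ n).ode y x) (fun y _ => hg y x) hs
    rw [Metric.tendstoUniformlyOn_iff]
    intro ε hε
    obtain ⟨m, hm⟩ := exists_nat_ge (2 * (‖x - c‖ + 1))
    have h1 : Tendsto (fun N : ℕ => (2 * d + |V x|) * (8 * (d : ℝ) / N * T)) atTop (𝓝 0) := by
      have h2 := ((tendsto_const_div_atTop_nhds_zero_nat (8 * (d : ℝ))).mul_const T).const_mul
        (2 * d + |V x|)
      rwa [zero_mul, mul_zero] at h2
    obtain ⟨N, h2, h3, h4⟩ := ((h1.eventually (gt_mem_nhds hε)).and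
      ((eventually_ge_atTop 1).and (eventually_ge_atTop m))).exists
    have h4' : (m : ℝ) ≤ N := by exact_mod_cast h4
    filter_upwards [eventually_ge_atTop (N + 1)] with n hn y hy
    have hy' : |y| ≤ T := (abs_lt.2 hy).le
    have hn' : (N : ℝ) + 1 ≤ n := by exact_mod_cast hn
    have hVx : Vn n x = V x := by
      rw [hVn]
      simp only
      rw [if_pos]
      have : 0 ≤ ‖x - c‖ := norm_nonneg _
      linarith
    have hE : ∀ z : Zd d, ‖z - c‖ ≤ ‖x - c‖ + 1 → ‖g y z - ψ n y z‖ ≤ 8 * d / N * T := by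
      intro z hz
      rw [norm_sub_rev]
      refine (hbd N n h3 hn y z (by linarith)).trans ?_
      gcongr
    rw [dist_eq_norm, hVx]
    have e1 : -Complex.I * (-S (g y) x + (V x : ℂ) * g y x) -
        -Complex.I * (-S (ψ n y) x + (V x : ℂ) * ψ n y x) =
        -Complex.I * (-(∑ i : Fin d, ((g y (x + Pi.single i 1) - ψ n y (x + Pi.single i 1)) +
          (g y (x - Pi.single i 1) - ψ n y (x - Pi.single i 1)))) +
          (V x : ℂ) * (g y x - ψ n y x)) := by
      have e2 : ∑ i : Fin d, ((g y (x + Pi.single i 1) - ψ n y (x + Pi.single i 1)) +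
          (g y (x - Pi.single i 1) - ψ n y (x - Pi.single i 1))) = S (g y) x - S (ψ n y) x := by
        unfold S
        rw [← Finset.sum_sub_distrib]
        exact Finset.sum_congr rfl fun i _ => by ring
      rw [e2]
      ring
    rw [e1, norm_mul, norm_neg, Complex.norm_I, one_mul]
    refine lt_of_le_of_lt ?_ h2
    refine (norm_add_le _ _).trans ?_
    rw [norm_neg, norm_mul, Complex.norm_real, Real.norm_eq_abs, add_mul]
    refine add_le_add ?_ ?_
    · refine (norm_sum_le _ _).trans ?_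
      have h5 : ∀ i ∈ (Finset.univ : Finset (Fin d)),
          ‖(g y (x + Pi.single i 1) - ψ n y (x + Pi.single i 1)) +
          (g y (x - Pi.single i 1) - ψ n y (x - Pi.single i 1))‖ ≤ 2 * (8 * d / N * T) := by
        intro i _
        refine (norm_add_le _ _).trans ?_
        have a1 := hE (x + Pi.single i 1) (by
          have e3 : x + Pi.single i 1 - c = (x - c) + Pi.single i 1 := by abel
          rw [e3]
          exact (norm_add_le _ _).trans (add_le_add_right (norm_single i) _))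
        have a2 := hE (x - Pi.single i 1) (by
          have e3 : x - Pi.single i 1 - c = (x - c) - Pi.single i 1 := by abel
          rw [e3]
          exact (norm_sub_le _ _).trans (add_le_add_right (norm_single i) _))
        linarith
      refine (Finset.sum_le_sum h5).trans (le_of_eq ?_)
      rw [Finset.sum_const, Finset.card_univ, Fintype.card_fin, nsmul_eq_mul]
      ring
    · exact mul_le_mul_of_nonneg_left (hE x (by linarith)) (abs_nonneg _)
  · -- the norm
    have hpos : ∀ s : ℝ, 0 ≤ s → HasSum (fun x => ‖g s x‖ ^ 2) 1 := by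
      intro s hs
      have hfin : ∀ u : Finset (Zd d), Tendsto (fun n => ∑ x ∈ u, ‖ψ n s x‖ ^ 2) atTop
          (𝓝 (∑ x ∈ u, ‖g s x‖ ^ 2)) := fun u =>
        tendsto_finset_sum _ fun x _ => ((hg s x).norm.pow 2)
      have hup : ∀ u : Finset (Zd d), ∑ x ∈ u, ‖g s x‖ ^ 2 ≤ 1 := by
        intro u
        refine le_of_tendsto (hfin u) (Eventually.of_forall fun n => ?_)
        rw [← ((hψ n).norm s).tsum_eq]
        exact ((hψ n).norm s).summable.sum_le_tsum u fun x _ => sq_nonneg _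
      have hsum : Summable fun x => ‖g s x‖ ^ 2 :=
        summable_of_sum_le (fun x => sq_nonneg _) hup
      have hle : ∑' x, ‖g s x‖ ^ 2 ≤ 1 := hsum.tsum_le_of_sum_le hup
      have hge : 1 ≤ ∑' x, ‖g s x‖ ^ 2 := by
        have h1 : Tendsto (fun N : ℕ => 1 - 16 * (d : ℝ) / N * s) atTop (𝓝 (1 - 0 * s)) :=
          ((tendsto_const_div_atTop_nhds_zero_nat (16 * (d : ℝ))).mul_const s).const_sub 1
        rw [zero_mul, sub_zero] at h1
        refine le_of_tendsto h1 ?_
        filter_upwards [eventually_ge_atTop 1] with N hN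
        obtain ⟨u, hu⟩ : ∃ u : Finset (Zd d),
          u = (Pool.Agent.R988.GG.box d (N + 1)).map (Equiv.addRight c).toEmbedding := ⟨_, rfl⟩
        have h2 : ∀ f : Zd d → ℝ, ∑ z ∈ u, f z =
            ∑ z ∈ Pool.Agent.R988.GG.box d (N + 1), f (z + c) := by
          intro f
          rw [hu, Finset.sum_map]
          rfl
        have h3 : 1 - 16 * d / N * s ≤ ∑ x ∈ u, ‖g s x‖ ^ 2 := by
          refine ge_of_tendsto (hfin u) (Eventually.of_forall fun n => ?_)
          rw [h2]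
          exact tight (hψ n) N hN s hs
        exact h3.trans (hsum.sum_le_tsum u fun x _ => sq_nonneg _)
      rw [← le_antisymm hle hge]
      exact hsum.hasSum
    intro s
    rcases le_total 0 s with hs | hs
    · exact hpos s hs
    · have h1 : ∀ x, g s x = conj (g (-s) x) := by
        intro x
        refine tendsto_nhds_unique (hg s x) ?_
        have h2 := (Complex.continuous_conj.tendsto _).comp (hg (-s) x)
        refine h2.congr fun n => ?_
        have h3 := sol_unique (sol_rev (hψ n)) (hψ n) (-s) (by linarith) x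
        simp only [neg_neg] at h3
        simp only [Function.comp]
        rw [← h3, Complex.conj_conj]
      have h4 := hpos (-s) (by linarith)
      refine h4.congr_fun fun x => ?_
      rw [h1 x, RCLike.norm_conj]

end Pool.Agent.R988.Tor
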