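import Pool.Agent.R988.GV3
import Pool.Agent.R988.GV4

/-! Spreading at one scale, for laws of small variance. -/

set_option autoImplicit false
set_option linter.unusedSectionVars false
set_option linter.unusedVariables false

open scoped BigOperators ComplexConjugate InnerProductSpace Topology ENNReal
open Set MeasureTheory Filter

namespace Pool.Agent.R988.Tor

open Pool.Agent.H4R2.LO (Zd)
open Pool.Agent.TH794.QD (Sol exp_int exp_val La La_sum La_eq)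
open Pool.Agent.TH794.QE (Rs RegE)
open Pool.Agent.TH794.HK (ph Tg ph_norm)

variable {d : ℕ}

/-- **the averaged position distribution stays spread out at all times** -/
theorem S1v (d : ℕ) (hd : 2 ≤ d) (ε : ℝ) (hε : 0 < ε) :
    ∃ (m : ℕ) (c0 : ℝ), 0 < c0 ∧ c0 ≤ 1 ∧ ∀ c : ℝ, 0 < c → c ≤ c0 →
    ∀ (μ : Measure ℝ) (_ : IsProbabilityMeasure μ), (∀ᵐ s ∂μ, |s| ≤ c) → ∫ s, s ∂μ = 0 →
    ∀ s2 : ℝ, ∫ s, s ^ 2 ∂μ = s2 → c ^ (1 / 8000 : ℝ) * c ^ 2 ≤ s2 →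
    ∃ Λ : ℕ, 0 < Λ ∧ c ^ (-(167 / 83) : ℝ) * (24 * (m + 1)) ≤ Λ ∧
    ∀ f : ℝ → ℝ, Measurable f → (∀ s, |s| ≤ c → f s = 2 * d + s) →
    ∀ Ψ : (Zd d → ℝ) → Zd d → ℝ → Zd d → ℂ, (∀ ω a, Sol d (fun x => f (ω x)) a (Ψ ω a)) →
    ∀ i : Fin d,
      ∫ ω, ∑' z : Zd d, fw i m Λ z * pb (c ^ (83 / 41 : ℝ)) (Ψ ω 0) z
        ∂(Measure.infinitePi fun _ : Zd d => μ) ≤ 9 / 20 * ε := by
  have hd0 : (0 : ℝ) < d := by exact_mod_cast (by omega : 0 < d)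
  have hpi := Real.pi_gt_three
  have hpi0 := Real.pi_pos
  obtain ⟨γ0, γ1, h⟩ := Pool.Agent.R988.GV.basev d hd
  obtain ⟨κ, hκ, hκ1, hκε⟩ : ∃ κ : ℝ, 0 < κ ∧ κ ≤ 1 ∧
      6 * 10 ^ d * Real.Gamma (1 / 2) * (2 * κ) ^ (1 / 2 : ℝ) ≤ ε / 10 := by
    obtain ⟨t0, h1, h2, h3⟩ := ev_extract
      (ev1 (60 * 10 ^ d * Real.Gamma (1 / 2) * 2 ^ (1 / 2 : ℝ) / ε) (1 / 2) (by norm_num))
    refine ⟨t0, h1, h2, ?_⟩
    have h4 := h3 t0 h1 le_rfl
    rw [div_mul_eq_mul_div, div_le_one hε] at h4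
    rw [Real.mul_rpow (by norm_num) h1.le]
    have h5 : 6 * 10 ^ d * Real.Gamma (1 / 2) * (2 ^ (1 / 2 : ℝ) * t0 ^ (1 / 2 : ℝ)) =
        (60 * 10 ^ d * Real.Gamma (1 / 2) * 2 ^ (1 / 2 : ℝ) * t0 ^ (1 / 2 : ℝ)) / 10 := by ring
    rw [h5]
    linarith
  obtain ⟨h1, ⟨m1, hm1, hlow⟩, h3⟩ := h κ hκ hκ1
  obtain ⟨C0, hC0, hup⟩ := Pool.Agent.R988.up d hd κ hκ hκ1
  obtain ⟨hγi, hmass⟩ := Pool.Agent.R988.mass d hd κ hκ hκ1 γ0 fun E hE => (h1 E hE).1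
  obtain ⟨X0, hX0⟩ : ∃ X0, X0 = 20 * d * C0 ^ 3 / (m1 * ε) := ⟨_, rfl⟩
  have hX : 0 < X0 := by rw [hX0]; positivity
  obtain ⟨m, hm⟩ := exists_nat_ge (60 * d * (C0 + 1) / ε)
  obtain ⟨K, hK⟩ : ∃ K, K = 4 * (m : ℝ) ^ 2 * X0 := ⟨_, rfl⟩
  have hK0 : 0 ≤ K := by rw [hK]; positivity
  obtain ⟨c1, hc1, hgood⟩ := h3 K hK0
  obtain ⟨c2, hc2, hc21, hnum⟩ := ev_extract ((ev1 (80 * d / ε) (1 / 200) (by norm_num)).and
    ((ev1 (10 / ε) (1 / 101) (by norm_num)).and ((ev1 X0 (165 / 41)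
    (by norm_num)).and (ev1 (24 * (m + 1) * Real.sqrt X0) (1 / 6806) (by norm_num)))))
  refine ⟨m, min c1 c2, lt_min hc1 hc2, (min_le_right _ _).trans hc21,
    fun c hc hcc μ hμ hμb hM s2 hs2 hvs => ?_⟩
  obtain ⟨n1, n2, n3, n4⟩ := hnum c hc (hcc.trans (min_le_right _ _))
  have hc1' : c ≤ 1 := hcc.trans ((min_le_right _ _).trans hc21)
  obtain ⟨G, hG, hP, hω⟩ := hgood c hc (hcc.trans (min_le_left _ _)) μ hμ hμb hM s2 hs2 hvs
  have hpos : ∀ p : ℝ, 0 < c ^ p := fun p => Real.rpow_pos_of_pos hc p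
  have hadd : ∀ p q : ℝ, c ^ p * c ^ q = c ^ (p + q) := fun p q => (Real.rpow_add hc p q).symm
  obtain ⟨η0, hη0⟩ : ∃ η0, η0 = c ^ (83 / 41 : ℝ) := ⟨_, rfl⟩
  have hη0p : 0 < η0 := by rw [hη0]; exact hpos _
  have hs20 : 0 < s2 := lt_of_lt_of_le (by
    have := hpos (1 / 8000)
    positivity) hvs
  have hs2c : s2 ≤ c ^ 2 := by
    rw [← hs2]
    have h1 : ∫ s, s ^ 2 ∂μ ≤ ∫ _s, c ^ 2 ∂μ := by
      apply integral_mono_of_nonneg (Filter.Eventually.of_forall fun s => sq_nonneg _)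
        (integrable_const _)
      filter_upwards [hμb] with s hs
      rw [← sq_abs s]
      exact pow_le_pow_left₀ (abs_nonneg _) hs 2
    rw [integral_const, probReal_univ, one_smul] at h1
    exact h1
  have hw : η0 * s2 ≤ c ^ (165 / 41 : ℝ) := by
    have e1 : c ^ (165 / 41 : ℝ) = c ^ (83 / 41 : ℝ) * c ^ 2 := by
      rw [← Real.rpow_natCast c 2, hadd]
      norm_num
    rw [hη0, e1]
    have := hpos (83 / 41)
    gcongr
  obtain ⟨r0, hr0⟩ : ∃ r0, r0 = Real.sqrt (X0 * (η0 * s2)) := ⟨_, rfl⟩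
  have hr0p : 0 < r0 := by rw [hr0]; exact Real.sqrt_pos.2 (by positivity)
  have hr0s : r0 ^ 2 = X0 * (η0 * s2) := by rw [hr0, Real.sq_sqrt (by positivity)]
  have hr01 : r0 ≤ 1 := by
    have h4 : r0 ^ 2 ≤ 1 ^ 2 := by
      rw [hr0s, one_pow]
      calc X0 * (η0 * s2) ≤ X0 * c ^ (165 / 41 : ℝ) := by gcongr
        _ ≤ 1 := n3
    exact (pow_le_pow_iff_left₀ hr0p.le zero_le_one two_ne_zero).1 h4
  have hr02 : r0 ≤ Real.sqrt X0 * c ^ (165 / 82 : ℝ) := by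
    have h4 : r0 ^ 2 ≤ (Real.sqrt X0 * c ^ (165 / 82 : ℝ)) ^ 2 := by
      have e1 : (c ^ (165 / 82 : ℝ)) ^ 2 = c ^ (165 / 41 : ℝ) := by
        rw [sq, hadd]
        norm_num
      rw [hr0s, mul_pow, Real.sq_sqrt hX.le, e1]
      gcongr
    exact (pow_le_pow_iff_left₀ hr0p.le (by
      have := hpos (165 / 82)
      positivity) two_ne_zero).1 h4
  obtain ⟨x, hx⟩ : ∃ x, x = 2 * Real.pi / r0 := ⟨_, rfl⟩
  have hx2 : 2 ≤ x := by
    rw [hx, le_div_iff₀ hr0p]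
    nlinarith
  obtain ⟨Λ, hΛd⟩ : ∃ Λ : ℕ, Λ = ⌊x⌋₊ := ⟨_, rfl⟩
  have hΛx : (Λ : ℝ) ≤ x := by
    rw [hΛd]
    exact Nat.floor_le (by linarith)
  have hxΛ : x / 2 ≤ Λ := by
    have := Nat.lt_floor_add_one x
    rw [← hΛd] at this
    linarith
  have hΛ0 : (0 : ℝ) < Λ := by linarith
  have hΛ : 0 < Λ := by exact_mod_cast hΛ0
  have hrx : r0 * x = 2 * Real.pi := by
    rw [hx]
    field_simp
  have hΛ1 : X0 * (η0 * s2) ≤ (2 * Real.pi / Λ) ^ 2 := by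
    rw [← hr0s]
    refine pow_le_pow_left₀ hr0p.le ?_ 2
    rw [le_div_iff₀ hΛ0, ← hrx]
    gcongr
  have hΛ2 : (2 * Real.pi * m / Λ) ^ 2 ≤ K * (η0 * s2) := by
    have e1 : K * (η0 * s2) = (2 * m * r0) ^ 2 := by
      rw [hK, mul_pow, mul_pow, hr0s]
      ring
    rw [e1]
    refine pow_le_pow_left₀ (by positivity) ?_ 2
    rw [div_le_iff₀ hΛ0]
    calc 2 * Real.pi * m = 2 * m * r0 * (x / 2) := by
          rw [← hrx]
          ring
      _ ≤ 2 * m * r0 * Λ := by gcongr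
  have hrad : c ^ (-(167 / 83) : ℝ) * (24 * (m + 1)) ≤ Λ := by
    refine le_trans ?_ hxΛ
    have h4 : c ^ (-(167 / 83) : ℝ) * (24 * (m + 1)) * r0 ≤ 1 := by
      have e1 : c ^ (-(167 / 83) : ℝ) * c ^ (165 / 82 : ℝ) = c ^ (1 / 6806 : ℝ) := by
        rw [hadd]
        norm_num
      calc c ^ (-(167 / 83) : ℝ) * (24 * (m + 1)) * r0 ≤
          c ^ (-(167 / 83) : ℝ) * (24 * (m + 1)) *
            (Real.sqrt X0 * c ^ (165 / 82 : ℝ)) := by
            have := hpos (-(167 / 83))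
            gcongr
        _ = 24 * (m + 1) * Real.sqrt X0 * (c ^ (-(167 / 83) : ℝ) *
            c ^ (165 / 82 : ℝ)) := by ring
        _ ≤ 1 := by
            rw [e1]
            exact n4
    rw [hx, le_div_iff₀ (by norm_num : (0 : ℝ) < 2), le_div_iff₀ hr0p]
    linarith
  refine ⟨Λ, hΛ, hrad, fun f hf hfb Ψ hΨ i => ?_⟩
  rw [← hη0]
  -- the smallness parameters
  obtain ⟨δ, hδ⟩ : ∃ δ, δ = c ^ (1 / 200 : ℝ) := ⟨_, rfl⟩
  have hδ0 : 0 < δ := by rw [hδ]; exact hpos _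
  have hδ1 : δ ≤ 1 := by rw [hδ]; exact Real.rpow_le_one hc.le hc1' (by norm_num)
  rw [← hδ] at n1 hω
  obtain ⟨M, hMd⟩ : ∃ M, M = (C0 + δ) * (3 / ((m : ℝ) + 1)) + (C0 ^ 3 / (X0 * m1) + δ) := ⟨_, rfl⟩
  have hM0 : 0 ≤ M := by rw [hMd]; positivity
  have hMb : 4 * d * (M + δ) / Real.pi ≤ ε / 4 := by
    have q1 : 4 * d * (M + δ) / Real.pi ≤ 2 * d * (M + δ) := by
      rw [div_le_iff₀ hpi0]
      have : 0 ≤ 2 * d * (M + δ) := by positivity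
      nlinarith
    have q2 : 2 * d * ((C0 + δ) * (3 / ((m : ℝ) + 1))) ≤ ε / 10 := by
      have q3 : 60 * d * (C0 + 1) ≤ ε * (m + 1) := by
        rw [div_le_iff₀ hε] at hm
        linarith
      have e1 : 2 * d * ((C0 + δ) * (3 / ((m : ℝ) + 1))) = 6 * d * (C0 + δ) / (m + 1) := by
        field_simp
        ring
      rw [e1, div_le_iff₀ (by positivity)]
      have : 6 * d * (C0 + δ) ≤ 6 * d * (C0 + 1) := by gcongr
      linarith
    have q4 : 2 * d * (C0 ^ 3 / (X0 * m1)) = ε / 10 := by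
      rw [hX0]
      field_simp
      norm_num
    have q5 : 4 * d * δ ≤ ε / 20 := by
      rw [div_mul_eq_mul_div, div_le_one hε] at n1
      linarith
    have q6 : 2 * d * (M + δ) = 2 * d * ((C0 + δ) * (3 / ((m : ℝ) + 1))) +
        2 * d * (C0 ^ 3 / (X0 * m1)) + 4 * d * δ := by
      rw [hMd]
      ring
    linarith
  -- the good event
  obtain ⟨sh, hsh⟩ : ∃ sh, sh = 2 * (d : ℝ) := ⟨_, rfl⟩
  obtain ⟨b1, b2, b3, b4, b5⟩ := bulk_shift (d := d) κ sh γ0 hγi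
  have hF : ∀ ω ∈ G, ∑' z, fw i m Λ z * pb η0 (Ψ ω 0) z ≤ ε / 10 + ε / 4 := by
    intro ω hωG
    obtain ⟨hωb, hprof⟩ := hω ω hωG
    have hS := hΨ ω 0
    have hpot : (fun x => f (ω x)) = fun x => 2 * (d : ℝ) + ω x := by
      funext x
      exact hfb _ (hωb x)
    rw [hpot] at hS
    have hen : ∀ e ∈ {e : ℝ | sh - e ∈ Pool.Agent.R988.CK d κ},
        (γ0 (sh - e)).im - δ ≤ η0 * ∑' x : Zd d, ‖La (Ψ ω 0) e η0 x‖ ^ 2 ∧
        η0 * ∑' x : Zd d, fw i m Λ x * ‖La (Ψ ω 0) e η0 x‖ ^ 2 ≤ M := by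
      intro e he
      obtain ⟨r1, r2⟩ := Pool.Agent.R988.CK_reg hd hκ he
      obtain ⟨-, -, -, r3⟩ := h1 (sh - e) r1
      have r4 := hlow (sh - e) r1 r2
      have r5 : (γ0 (sh - e)).im ≤ C0 := (Complex.im_le_norm _).trans (hup (sh - e) _ r1
        (h1 (sh - e) r1).1)
      rw [hMd]
      refine enl hS η0 e hη0p γ0 γ1 s2 (sh - e) δ K C0 m1 X0 hs20 hK0 r5 r4 r3 hm1 hδ0.le i m Λ hΛ
        hX hΛ1 hΛ2 fun p hp => ?_
      have r6 := hprof 0 (by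
        rw [norm_zero]
        exact (Real.exp_pos _).le) e (by rw [hsh] at r1 r2; exact ⟨r1, r2⟩) η0 (by
        rw [hη0]
        exact Real.rpow_le_rpow_of_exponent_ge hc hc1' (by norm_num)) (by
        rw [hη0]
        exact Real.rpow_le_rpow_of_exponent_ge hc hc1' (by norm_num))
        (fun x => Complex.I * La (Ψ ω 0) e η0 x) ⟨La_sum hS e η0 hη0p, La_eq hS e η0 hη0p⟩ p
        hp
      rw [← hsh] at r6
      exact r6
    have h9 := split hS η0 hη0p (fw i m Λ) (fw_nonneg i m Λ) (fw_le i m Λ) _ b1 (4 * d) b2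
      (b3 hκ.le) (fun e => (γ0 (sh - e)).im) b4 (ε / 10) δ M hδ0.le hM0 (by
        rw [b5]
        refine le_trans ?_ hmass
        gcongr) (fun e he => (hen e he).1) (fun e he => (hen e he).2)
    linarith
  have hfwa : ∀ z, |fw i m Λ z| ≤ 1 := fun z => by
    rw [abs_of_nonneg (fw_nonneg i m Λ z)]
    exact fw_le i m Λ z
  obtain ⟨P, hPd⟩ : ∃ P, P = Measure.infinitePi fun _ : Zd d => μ := ⟨_, rfl⟩
  rw [← hPd]
  have hPp : IsProbabilityMeasure P := by rw [hPd]; infer_instance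
  have hint : ∀ (θ : Zd d → ℝ), (∀ z, |θ z| ≤ 1) → ∀ η : ℝ, 0 < η →
      Integrable (fun ω => ∑' z, θ z * pb η (Ψ ω 0) z) P := fun θ hθ η hη =>
    Integrable.of_bound (C := 1) (S_meas f hf Ψ hΨ η hη θ hθ 0).aestronglyMeasurable
      (Eventually.of_forall fun ω => by
        rw [Real.norm_eq_abs]
        exact pb_abs (hΨ _ _) η hη _ hθ)
  have hE0 : ∫ ω, ∑' z, fw i m Λ z * pb η0 (Ψ ω 0) z ∂P ≤ 9 / 20 * ε := by
    have h10 : ∀ ω, ∑' z, fw i m Λ z * pb η0 (Ψ ω 0) z ≤ (ε / 10 + ε / 4) +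
        Gᶜ.indicator (fun _ => (1 : ℝ)) ω := by
      intro ω
      by_cases hωG : ω ∈ G
      · rw [indicator_of_notMem (by simpa using hωG), add_zero]
        exact hF ω hωG
      · rw [indicator_of_mem (by simpa using hωG)]
        have := (abs_le.1 (pb_abs (hΨ ω 0) η0 hη0p _ hfwa)).2
        linarith
    have h11 := integral_mono (hint _ hfwa η0 hη0p)
      ((integrable_const (ε / 10 + ε / 4)).add ((integrable_const (1 : ℝ)).indicator hG.compl)) h10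
    refine h11.trans ?_
    have h12 : ∫ ω, ((ε / 10 + ε / 4) + Gᶜ.indicator (fun _ => (1 : ℝ)) ω) ∂P =
        (ε / 10 + ε / 4) + P.real Gᶜ := by
      rw [integral_add (integrable_const _) ((integrable_const (1 : ℝ)).indicator hG.compl),
        integral_const, probReal_univ, one_smul, integral_indicator_const _ hG.compl,
        smul_eq_mul, mul_one]
    change ∫ ω, ((ε / 10 + ε / 4) + Gᶜ.indicator (fun _ => (1 : ℝ)) ω) ∂P ≤ _
    rw [h12]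
    have h13 : P.real Gᶜ ≤ Real.exp (-c ^ (-(1 / 101) : ℝ)) := by
      rw [measureReal_compl hG, probReal_univ]
      rw [← hPd] at hP
      linarith
    have h14 : Real.exp (-c ^ (-(1 / 101) : ℝ)) ≤ ε / 10 := by
      refine exp_small _ _ (hpos _) ?_
      rw [Real.rpow_neg hc.le, one_div, inv_inv]
      rw [div_mul_eq_mul_div, div_le_one hε] at n2
      linarith
    linarith
  exact hE0

end Pool.Agent.R988.Tor
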