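import Pool.Agent.R988.GV5

/-! Gaussian disorder: spreading at all times. -/

set_option autoImplicit false
set_option linter.unusedSectionVars false
set_option linter.unusedVariables false

open scoped BigOperators ComplexConjugate InnerProductSpace Topology ENNReal
open Set MeasureTheory Filter ProbabilityTheory

namespace Pool.Agent.R988.Tor

open Pool.Agent.H4R2.LO (Zd)
open Pool.Agent.TH794.QD (Sol exists_sol)
open Pool.Agent.R988.GG (cl cl_meas cl_abs cl_eq nu nu_mean ev ev_meas ev_mem ev_prob box mem_box)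

variable {d : ℕ}

/-- all evolutions -/
noncomputable def ev0 (V : Zd d → ℝ) (c : Zd d) : ℝ → Zd d → ℂ := Classical.choose (exists_solU V c)

theorem ev0_sol (V : Zd d → ℝ) (c : Zd d) : Sol d V c (ev0 V c) :=
  Classical.choose_spec (exists_solU V c)

theorem Qn_congr (η : ℝ) (θ : Zd d → ℝ) (n : ℕ) (V V' : Zd d → ℝ)
    (h : ∀ x, ‖x‖ ≤ n + 1 → V x = V' x) : Qn η θ 0 n V = Qn η θ 0 n V' := by
  unfold Qn
  have h1 : (fun x : TT d (2 * n + 1 + 1) => V (em x - mid d n + 0)) =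
      fun x => V' (em x - mid d n + 0) := by
    funext x
    rw [add_zero]
    exact h _ (box_dist x)
  rw [h1]

/-- potentials agreeing in a box have close averages -/
theorem pb_close {V V' : Zd d → ℝ} {ψ ψ' : ℝ → Zd d → ℂ} (h : Sol d V 0 ψ) (h' : Sol d V' 0 ψ')
    (η : ℝ) (hη : 0 < η) (θ : Zd d → ℝ) (hθ : ∀ z, |θ z| ≤ 1) (n : ℕ) (hn : 1 ≤ n)
    (hV : ∀ x, ‖x‖ ≤ n + 1 → V x = V' x) :
    |∑' z, θ z * pb η ψ z - ∑' z, θ z * pb η ψ' z| ≤ 64 * d / n / η := by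
  have h1 := Qn_cmp h η hη θ hθ n hn
  have h2 := Qn_cmp h' η hη θ hθ n hn
  rw [Qn_congr η θ n V V' hV] at h1
  have e1 : ∑' z, θ z * pb η ψ z - ∑' z, θ z * pb η ψ' z =
      (Qn η θ 0 n V' - ∑' z, θ z * pb η ψ' z) - (Qn η θ 0 n V' - ∑' z, θ z * pb η ψ z) := by ring
  rw [e1]
  refine (abs_sub _ _).trans ((add_le_add h2 h1).trans (le_of_eq ?_))
  ring

/-! ### the clipped law -/

/-- the law of `-c cl_B(ξ)` -/
noncomputable def mc (B c : ℝ) : Measure ℝ := (gaussianReal 0 1).map fun s => -(c * cl B s)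

theorem mcm (B c : ℝ) : Measurable fun s => -(c * cl B s) := ((cl_meas B).const_mul c).neg

instance (B c : ℝ) : IsProbabilityMeasure (mc B c) :=
  Measure.isProbabilityMeasure_map (mcm B c).aemeasurable

theorem mc_bdd (B c : ℝ) (hc : 0 ≤ c) : ∀ᵐ s ∂(mc B c), |s| ≤ c := by
  unfold mc
  rw [ae_map_iff (mcm B c).aemeasurable (measurableSet_le (by fun_prop) (by fun_prop))]
  refine Filter.Eventually.of_forall fun s => ?_
  rw [abs_neg, abs_mul, abs_of_nonneg hc]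
  exact mul_le_of_le_one_right hc (cl_abs B s)

theorem mc_mean (B c : ℝ) : ∫ s, s ∂(mc B c) = 0 := by
  unfold mc
  rw [integral_map (mcm B c).aemeasurable (by fun_prop)]
  have h1 := nu_mean B
  unfold nu at h1
  rw [integral_map (cl_meas B).aemeasurable (by fun_prop)] at h1
  rw [integral_neg, integral_const_mul, h1, mul_zero, neg_zero]

theorem mc_var (B c : ℝ) : ∫ s, s ^ 2 ∂(mc B c) = c ^ 2 * ∫ s, (cl B s) ^ 2 ∂(gaussianReal 0 1) := by
  unfold mc
  rw [integral_map (mcm B c).aemeasurable (by fun_prop), ← integral_const_mul]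
  refine integral_congr_ae (Eventually.of_forall fun s => ?_)
  simp only
  ring

/-- a lower bound for the variance of the clipped law -/
theorem v0_pos : 0 < ∫ s, (cl 1 s) ^ 2 ∂(gaussianReal 0 1) := by
  have hi : Integrable (fun s => (cl 1 s) ^ 2) (gaussianReal 0 1) :=
    Integrable.of_bound (C := 1) ((cl_meas 1).pow_const 2).aestronglyMeasurable
      (Eventually.of_forall fun s => by
        rw [Real.norm_of_nonneg (sq_nonneg _), ← sq_abs]
        exact pow_le_one₀ (abs_nonneg _) (cl_abs 1 s))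
  rw [integral_pos_iff_support_of_nonneg (fun s => sq_nonneg _) hi]
  have h1 : Ioi (0 : ℝ) ⊆ Function.support fun s => (cl 1 s) ^ 2 := by
    intro s hs
    have hs0 : (0 : ℝ) < s := hs
    rw [Function.mem_support]
    unfold cl
    have h2 : 0 < min 1 (s / 1) := lt_min one_pos (by simpa using hs0)
    rw [max_eq_right (by linarith)]
    positivity
  refine lt_of_lt_of_le ?_ (measure_mono h1)
  have h3 : (gaussianReal 0 1) (Ioi (0 : ℝ)) ≠ 0 := by
    intro h0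
    have h4 : volume (Ioi (0 : ℝ)) = 0 :=
      (gaussianReal_absolutelyContinuous' 0 (by norm_num)) h0
    rw [Real.volume_Ioi] at h4
    exact ENNReal.top_ne_zero h4
  exact pos_iff_ne_zero.2 h3

theorem cl_low (B s : ℝ) (hB : 1 ≤ B) : (cl 1 s) ^ 2 ≤ B ^ 2 * (cl B s) ^ 2 := by
  have hB0 : 0 < B := by linarith
  have key : ∀ s : ℝ, 0 ≤ s → (cl 1 s) ^ 2 ≤ B ^ 2 * (cl B s) ^ 2 := by
    intro s hs
    rw [← mul_pow]
    have h1 : 0 ≤ cl 1 s := by
      unfold cl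
      exact le_max_of_le_right (le_min zero_le_one (by positivity))
    refine pow_le_pow_left₀ h1 ?_ 2
    unfold cl
    have h2 : 0 ≤ min 1 (s / B) := le_min zero_le_one (by positivity)
    have h3 : 0 ≤ min 1 (s / 1) := le_min zero_le_one (by positivity)
    rw [max_eq_right (by linarith), max_eq_right (by linarith)]
    rcases le_total 1 (s / B) with h4 | h4
    · rw [min_eq_left h4, mul_one]
      exact (min_le_left _ _).trans hB
    · rw [min_eq_right h4, mul_div_cancel₀ _ hB0.ne']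
      exact (min_le_right _ _).trans (by rw [div_one])
  rcases le_total 0 s with h | h
  · exact key s h
  · have h1 := key (-s) (by linarith)
    rw [Pool.Agent.R988.GG.cl_neg, Pool.Agent.R988.GG.cl_neg, neg_sq, neg_sq] at h1
    exact h1

theorem var_low (B : ℝ) (hB : 1 ≤ B) : (∫ s, (cl 1 s) ^ 2 ∂(gaussianReal 0 1)) / B ^ 2 ≤
    ∫ s, (cl B s) ^ 2 ∂(gaussianReal 0 1) := by
  have hB0 : 0 < B := by linarith
  have hi : ∀ B : ℝ, Integrable (fun s => (cl B s) ^ 2) (gaussianReal 0 1) := fun B =>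
    Integrable.of_bound (C := 1) ((cl_meas B).pow_const 2).aestronglyMeasurable
      (Eventually.of_forall fun s => by
        rw [Real.norm_of_nonneg (sq_nonneg _), ← sq_abs]
        exact pow_le_one₀ (abs_nonneg _) (cl_abs B s))
  rw [div_le_iff₀ (by positivity), mul_comm, ← integral_const_mul]
  exact integral_mono (hi 1) ((hi B).const_mul _) fun s => cl_low B s hB

/-- **from the clipped law to the Gaussian law, at one scale** -/
theorem transG (σ B : ℝ) (hσ : 0 < σ) (hB : 0 < B) (n : ℕ) (hn : 1 ≤ n) (θ : Zd d → ℝ)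
    (hθ : ∀ z, |θ z| ≤ 1) (η : ℝ) (hη : 0 < η) :
    |∫ ξ, ∑' z, θ z * pb η (ev0 (fun x => 2 * (d : ℝ) - σ * ξ x) 0) z
        ∂(Measure.infinitePi fun _ : Zd d => gaussianReal 0 1) -
      ∫ ω, ∑' z, θ z * pb η (ev0 (fun x => 2 * (d : ℝ) + cb (σ * B) (ω x)) 0) z
        ∂(Measure.infinitePi fun _ : Zd d => mc B (σ * B))| ≤
      64 * d / n / η + 2 * (1 - (Measure.infinitePi fun _ : Zd d => gaussianReal 0 1).real
        (ev d (n + 1) B)) := by
  obtain ⟨P, hP⟩ : ∃ P, P = Measure.infinitePi fun _ : Zd d => gaussianReal 0 1 := ⟨_, rfl⟩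
  have hPp : IsProbabilityMeasure P := by rw [hP]; infer_instance
  have hfg : Measurable fun s : ℝ => 2 * (d : ℝ) - σ * s := by fun_prop
  have hf1 : Measurable fun s : ℝ => 2 * (d : ℝ) + cb (σ * B) s :=
    measurable_const.add (cb_meas _)
  have m1 : Measurable fun ξ : Zd d → ℝ =>
      ∑' z, θ z * pb η (ev0 (fun x => 2 * (d : ℝ) - σ * ξ x) 0) z :=
    S_meas (fun s : ℝ => 2 * (d : ℝ) - σ * s) hfg
      (fun ξ c => ev0 (fun x => 2 * (d : ℝ) - σ * ξ x) c) (fun ξ c => ev0_sol _ c) η hη θ hθ 0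
  have m2 : Measurable fun ω : Zd d → ℝ =>
      ∑' z, θ z * pb η (ev0 (fun x => 2 * (d : ℝ) + cb (σ * B) (ω x)) 0) z :=
    S_meas (fun s : ℝ => 2 * (d : ℝ) + cb (σ * B) s) hf1
      (fun ξ c => ev0 (fun x => 2 * (d : ℝ) + cb (σ * B) (ξ x)) c) (fun ξ c => ev0_sol _ c)
      η hη θ hθ 0
  have hlaw : P.map (fun (ξ : Zd d → ℝ) x => -(σ * B * cl B (ξ x))) =
      Measure.infinitePi fun _ : Zd d => mc B (σ * B) := by
    rw [hP]
    exact Measure.infinitePi_map_pi (μ := fun _ : Zd d => gaussianReal 0 1)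
      (f := fun _ (s : ℝ) => -(σ * B * cl B s)) (fun _ => mcm B (σ * B))
  have hTm : Measurable (fun (ξ : Zd d → ℝ) x => -(σ * B * cl B (ξ x))) :=
    measurable_pi_lambda _ fun x => (mcm B (σ * B)).comp (measurable_pi_apply x)
  have e1 : ∫ ω, ∑' z, θ z * pb η (ev0 (fun x => 2 * (d : ℝ) + cb (σ * B) (ω x)) 0) z
        ∂(Measure.infinitePi fun _ : Zd d => mc B (σ * B)) =
      ∫ ξ, ∑' z, θ z * pb η (ev0 (fun x => 2 * (d : ℝ) +
        cb (σ * B) (-(σ * B * cl B (ξ x)))) 0) z ∂P := by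
    rw [← hlaw, integral_map hTm.aemeasurable m2.aestronglyMeasurable]
  rw [e1, ← hP]
  have hb : ∀ (f : Zd d → ℝ), |∑' z, θ z * pb η (ev0 f 0) z| ≤ 1 := fun f =>
    pb_abs (ev0_sol f 0) η hη θ hθ
  have i1 : Integrable (fun ξ : Zd d → ℝ =>
      ∑' z, θ z * pb η (ev0 (fun x => 2 * (d : ℝ) - σ * ξ x) 0) z) P :=
    Integrable.of_bound (C := 1) m1.aestronglyMeasurable (Eventually.of_forall fun ξ => by
      rw [Real.norm_eq_abs]
      exact hb _)
  have i2 : Integrable (fun ξ : Zd d → ℝ =>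
      ∑' z, θ z * pb η (ev0 (fun x => 2 * (d : ℝ) +
        cb (σ * B) (-(σ * B * cl B (ξ x)))) 0) z) P :=
    Integrable.of_bound (C := 1) (m2.comp hTm).aestronglyMeasurable
      (Eventually.of_forall fun ξ => by
        rw [Real.norm_eq_abs]
        exact hb _)
  rw [← integral_sub i1 i2, ← Real.norm_eq_abs]
  have hEm := ev_meas (d := d) (n + 1) B
  have hpt : ∀ ξ : Zd d → ℝ, ‖∑' z, θ z * pb η (ev0 (fun x => 2 * (d : ℝ) - σ * ξ x) 0) z -
      ∑' z, θ z * pb η (ev0 (fun x => 2 * (d : ℝ) +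
        cb (σ * B) (-(σ * B * cl B (ξ x)))) 0) z‖ ≤
      64 * d / n / η + (ev d (n + 1) B)ᶜ.indicator (fun _ => (2 : ℝ)) ξ := by
    intro ξ
    rw [Real.norm_eq_abs]
    by_cases hξ : ξ ∈ ev d (n + 1) B
    · rw [indicator_of_notMem (by simpa using hξ), add_zero]
      refine pb_close (ev0_sol _ 0) (ev0_sol _ 0) η hη θ hθ n hn fun x hx => ?_
      have h1 := ev_mem (n + 1) B ξ hξ x (by push_cast; exact hx)
      rw [cl_eq B _ hB h1]
      have h2 : -(σ * B * (ξ x / B)) = -(σ * ξ x) := by field_simp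
      rw [h2, cb_eq]
      · ring
      · rw [abs_neg, abs_mul, abs_of_pos hσ]
        gcongr
    · rw [indicator_of_mem (by simpa using hξ)]
      have h1 := hb (fun x => 2 * (d : ℝ) - σ * ξ x)
      have h2 := hb (fun x => 2 * (d : ℝ) + cb (σ * B) (-(σ * B * cl B (ξ x))))
      have h3 := abs_sub (∑' z, θ z * pb η (ev0 (fun x => 2 * (d : ℝ) - σ * ξ x) 0) z)
        (∑' z, θ z * pb η (ev0 (fun x => 2 * (d : ℝ) +
        cb (σ * B) (-(σ * B * cl B (ξ x)))) 0) z)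
      have h4 : 0 ≤ 64 * (d : ℝ) / n / η := by positivity
      linarith
  have hii : Integrable (fun ξ : Zd d → ℝ => 64 * (d : ℝ) / n / η +
      (ev d (n + 1) B)ᶜ.indicator (fun _ => (2 : ℝ)) ξ) P :=
    (integrable_const _).add ((integrable_const (2 : ℝ)).indicator hEm.compl)
  refine (norm_integral_le_of_norm_le hii (Eventually.of_forall hpt)).trans (le_of_eq ?_)
  rw [integral_add (integrable_const _) ((integrable_const (2 : ℝ)).indicator hEm.compl),
    integral_const, probReal_univ, one_smul, integral_indicator_const _ hEm.compl,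
    measureReal_compl hEm, probReal_univ, smul_eq_mul]
  ring

/-- a numerical bound -/
theorem exp_pow_small (d : ℕ) (ε : ℝ) (hε : 0 < ε) : ∀ᶠ σ : ℝ in 𝓝[>] 0,
    (2 * ((⌈σ ^ (-3 : ℝ)⌉₊ + 1 : ℕ) : ℝ) + 1) ^ d *
      (2 * Real.exp (-((σ ^ (-(1 / 17000) : ℝ)) ^ 2 / 2))) ≤ ε := by
  obtain ⟨k, hk⟩ : ∃ k : ℕ, k = 8500 * (3 * d + 1) := ⟨_, rfl⟩
  have hmem : Set.Ioc (0 : ℝ) 1 ∈ 𝓝[>] (0 : ℝ) := Ioc_mem_nhdsGT one_pos
  filter_upwards [hmem, ev1 (7 ^ d * 2 * (k.factorial * 2 ^ k) / ε) 1 one_pos] with σ hσ h1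
  obtain ⟨hσ0, hσ1⟩ := hσ
  have hpos : ∀ p : ℝ, 0 < σ ^ p := fun p => Real.rpow_pos_of_pos hσ0 p
  have h3 : (1 : ℝ) ≤ σ ^ (-3 : ℝ) := Real.one_le_rpow_of_pos_of_le_one_of_nonpos hσ0 hσ1 (by norm_num)
  have h4 : 2 * ((⌈σ ^ (-3 : ℝ)⌉₊ + 1 : ℕ) : ℝ) + 1 ≤ 7 * σ ^ (-3 : ℝ) := by
    have h5 := Nat.ceil_lt_add_one (hpos (-3)).le
    push_cast
    linarith
  have h6 : Real.exp (-((σ ^ (-(1 / 17000) : ℝ)) ^ 2 / 2)) ≤
      k.factorial * 2 ^ k * σ ^ ((3 * d + 1 : ℕ) : ℝ) := by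
    have e1 : (σ ^ (-(1 / 17000) : ℝ)) ^ 2 = σ ^ (-(1 / 8500) : ℝ) := by
      rw [← Real.rpow_natCast (σ ^ (-(1 / 17000) : ℝ)) 2, ← Real.rpow_mul hσ0.le]
      norm_num
    rw [e1]
    have hy := hpos (-(1 / 8500))
    have h7 := Real.pow_div_factorial_le_exp (σ ^ (-(1 / 8500) : ℝ) / 2) (by positivity) k
    have e2 : (σ ^ (-(1 / 8500) : ℝ) / 2) ^ k = σ ^ (-((3 * d + 1 : ℕ) : ℝ)) / 2 ^ k := by
      rw [div_pow, ← Real.rpow_natCast (σ ^ (-(1 / 8500) : ℝ)) k, ← Real.rpow_mul hσ0.le, hk]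
      congr 2
      push_cast
      ring
    rw [e2] at h7
    rw [Real.exp_neg, inv_le_comm₀ (Real.exp_pos _) (by
      have := hpos ((3 * d + 1 : ℕ) : ℝ)
      positivity)]
    refine le_trans (le_of_eq ?_) h7
    rw [Real.rpow_neg hσ0.le]
    have := (hpos ((3 * d + 1 : ℕ) : ℝ)).ne'
    field_simp
  have h8 : (7 * σ ^ (-3 : ℝ)) ^ d * σ ^ ((3 * d + 1 : ℕ) : ℝ) = 7 ^ d * σ := by
    rw [mul_pow, ← Real.rpow_natCast (σ ^ (-3 : ℝ)) d, ← Real.rpow_mul hσ0.le, mul_assoc,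
      ← Real.rpow_add hσ0]
    have e3 : (-3 : ℝ) * d + ((3 * d + 1 : ℕ) : ℝ) = 1 := by
      push_cast
      ring
    rw [e3, Real.rpow_one]
  have h9 := mul_le_mul_of_nonneg_left h1 hε.le
  calc (2 * ((⌈σ ^ (-3 : ℝ)⌉₊ + 1 : ℕ) : ℝ) + 1) ^ d *
      (2 * Real.exp (-((σ ^ (-(1 / 17000) : ℝ)) ^ 2 / 2))) ≤
      (7 * σ ^ (-3 : ℝ)) ^ d * (2 * (k.factorial * 2 ^ k * σ ^ ((3 * d + 1 : ℕ) : ℝ))) := by
        gcongr
    _ = 2 * (k.factorial * 2 ^ k) * ((7 * σ ^ (-3 : ℝ)) ^ d * σ ^ ((3 * d + 1 : ℕ) : ℝ)) := by ring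
    _ = ε * (7 ^ d * 2 * (k.factorial * 2 ^ k) / ε * σ ^ (1 : ℝ)) := by
        rw [h8, Real.rpow_one]
        field_simp
    _ ≤ ε := by linarith

end Pool.Agent.R988.Tor
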