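import Pool.Agent.R988.GV6

/-! Gaussian disorder: spreading at all times, the theorem. -/

set_option autoImplicit false
set_option linter.unusedSectionVars false
set_option linter.unusedVariables false

open scoped BigOperators ComplexConjugate InnerProductSpace Topology ENNReal
open Set MeasureTheory Filter ProbabilityTheory

namespace Pool.Agent.R988.Tor

open Pool.Agent.H4R2.LO (Zd)
open Pool.Agent.TH794.QD (Sol exists_sol)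
open Pool.Agent.R988.GG (cl cl_meas cl_abs cl_eq nu nu_mean ev ev_meas ev_mem ev_prob box mem_box)

variable {d : ℕ}

/-- the numerical relations between the Gaussian coupling and the clipped coupling -/
theorem numG (d : ℕ) (ε c0 : ℝ) (hε : 0 < ε) (hc0 : 0 < c0) : ∀ᶠ σ : ℝ in 𝓝[>] 0,
    σ ≤ 1 ∧ 0 < σ ^ (-(1 / 17000) : ℝ) ∧ 1 ≤ σ ^ (-(1 / 17000) : ℝ) ∧
    σ * σ ^ (-(1 / 17000) : ℝ) = σ ^ (16999 / 17000 : ℝ) ∧
    σ ^ (16999 / 17000 : ℝ) ≤ c0 ∧ σ ≤ σ ^ (16999 / 17000 : ℝ) ∧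
    (σ ^ (16999 / 17000 : ℝ)) ^ (1 / 8000 : ℝ) * (σ ^ (16999 / 17000 : ℝ)) ^ 2 ≤
      (σ ^ (16999 / 17000 : ℝ)) ^ 2 *
        ∫ s, (cl (σ ^ (-(1 / 17000) : ℝ)) s) ^ 2 ∂(gaussianReal 0 1) ∧
    64 * d / (⌈σ ^ (-3 : ℝ)⌉₊ : ℝ) / (σ ^ (16999 / 17000 : ℝ)) ^ (83 / 41 : ℝ) ≤ ε / 40 ∧
    1 - (Measure.infinitePi fun _ : Zd d => gaussianReal 0 1).real
      (ev d (⌈σ ^ (-3 : ℝ)⌉₊ + 1) (σ ^ (-(1 / 17000) : ℝ))) ≤ ε / 80 ∧
    σ ^ (83 / 41 : ℝ) ≤ (σ ^ (16999 / 17000 : ℝ)) ^ (83 / 41 : ℝ) ∧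
    σ ^ (-(169 / 84) : ℝ) ≤ (σ ^ (16999 / 17000 : ℝ)) ^ (-(167 / 83) : ℝ) := by
  obtain ⟨v0, hv0⟩ : ∃ v0, v0 = ∫ s, (cl 1 s) ^ 2 ∂(gaussianReal 0 1) := ⟨_, rfl⟩
  have hv0p : 0 < v0 := by
    rw [hv0]
    exact v0_pos
  have hmem : Set.Ioc (0 : ℝ) 1 ∈ 𝓝[>] (0 : ℝ) := Ioc_mem_nhdsGT one_pos
  filter_upwards [hmem, ev1 (1 / c0) (16999 / 17000) (by norm_num),
    ev1 (1 / v0) (999 / 136000000) (by norm_num), ev1 (2560 * d / ε) (40 / 41) (by norm_num),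
    exp_pow_small d (ε / 80) (by positivity)] with σ hσ n1 n2 n3 n4
  obtain ⟨hσ0, hσ1⟩ := hσ
  have hpos : ∀ p : ℝ, 0 < σ ^ p := fun p => Real.rpow_pos_of_pos hσ0 p
  have hadd : ∀ p q : ℝ, σ ^ p * σ ^ q = σ ^ (p + q) := fun p q => (Real.rpow_add hσ0 p q).symm
  have hmul : ∀ p q : ℝ, (σ ^ p) ^ q = σ ^ (p * q) := fun p q => (Real.rpow_mul hσ0.le p q).symm
  have hmono : ∀ p q : ℝ, q ≤ p → σ ^ p ≤ σ ^ q := fun p q h =>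
    Real.rpow_le_rpow_of_exponent_ge hσ0 hσ1 h
  have hB1 : 1 ≤ σ ^ (-(1 / 17000) : ℝ) :=
    Real.one_le_rpow_of_pos_of_le_one_of_nonpos hσ0 hσ1 (by norm_num)
  have hσc : σ ≤ σ ^ (16999 / 17000 : ℝ) := by
    have := hmono 1 (16999 / 17000) (by norm_num)
    rwa [Real.rpow_one] at this
  have hη : σ ^ (83 / 41 : ℝ) ≤ (σ ^ (16999 / 17000 : ℝ)) ^ (83 / 41 : ℝ) := by
    rw [hmul]
    exact hmono _ _ (by norm_num)
  refine ⟨hσ1, hpos _, hB1, ?_, ?_, hσc, ?_, ?_, ?_, hη, ?_⟩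
  · nth_rewrite 1 [← Real.rpow_one σ]
    rw [hadd]
    norm_num
  · rw [div_mul_eq_mul_div, one_mul, div_le_one hc0] at n1
    exact n1
  · have h1 := var_low (σ ^ (-(1 / 17000) : ℝ)) hB1
    rw [← hv0] at h1
    have h2 : (σ ^ (16999 / 17000 : ℝ)) ^ (1 / 8000 : ℝ) ≤ v0 / (σ ^ (-(1 / 17000) : ℝ)) ^ 2 := by
      rw [le_div_iff₀ (by positivity), ← Real.rpow_natCast (σ ^ (-(1 / 17000) : ℝ)) 2, hmul, hmul,
        hadd]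
      rw [div_mul_eq_mul_div, one_mul, div_le_one hv0p] at n2
      refine le_trans (le_of_eq ?_) n2
      congr 1
      norm_num
    rw [mul_comm]
    exact mul_le_mul_of_nonneg_left (h2.trans h1) (sq_nonneg _)
  · have h3 := Nat.le_ceil (σ ^ (-3 : ℝ))
    have h4 := hpos (-3)
    have h5 : 0 < (⌈σ ^ (-3 : ℝ)⌉₊ : ℝ) := by linarith
    calc 64 * d / (⌈σ ^ (-3 : ℝ)⌉₊ : ℝ) / (σ ^ (16999 / 17000 : ℝ)) ^ (83 / 41 : ℝ) ≤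
        64 * d / σ ^ (-3 : ℝ) / σ ^ (83 / 41 : ℝ) := by
          have := hpos (83 / 41)
          gcongr
      _ = 64 * d * σ ^ (40 / 41 : ℝ) := by
          rw [div_div, hadd, div_eq_mul_inv, ← Real.rpow_neg hσ0.le]
          congr 2
          norm_num
      _ = ε / 40 * (2560 * d / ε * σ ^ (40 / 41 : ℝ)) := by
          field_simp
          ring
      _ ≤ ε / 40 * 1 := by gcongr
      _ = _ := mul_one _
  · have h6 := ev_prob (d := d) (⌈σ ^ (-3 : ℝ)⌉₊ + 1) (σ ^ (-(1 / 17000) : ℝ)) (hpos _)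
    linarith
  · rw [hmul]
    exact hmono _ _ (by norm_num)

/-- **Gaussian disorder: the averaged position distribution stays spread out at all times** -/
theorem S1G (d : ℕ) (hd : 2 ≤ d) (ε : ℝ) (hε : 0 < ε) : ∃ σ0 : ℝ, 0 < σ0 ∧ σ0 ≤ 1 ∧
    ∀ σ : ℝ, 0 < σ → σ ≤ σ0 → ∀ (i : Fin d) (η : ℝ), 0 < η → η ≤ σ ^ (83 / 41 : ℝ) →
      ∫ ξ, ∑' z : Zd d, (if |(z i : ℝ)| ≤ σ ^ (-(169 / 84) : ℝ) then (1 : ℝ) else 0) *
        pb η (ev0 (fun x => 2 * (d : ℝ) - σ * ξ x) 0) z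
        ∂(Measure.infinitePi fun _ : Zd d => gaussianReal 0 1) ≤ ε := by
  obtain ⟨m, c0, hc0, hc01, h⟩ := S1v d hd ε hε
  obtain ⟨σ0, hσ0, hσ01, hnum⟩ := ev_extract (numG d ε c0 hε hc0)
  refine ⟨σ0, hσ0, hσ01, fun σ hσ hσσ i η hη hηη => ?_⟩
  obtain ⟨q1, hB0, hB1, hcB, hcc, hσc, hvar, hN, hev, hη83, hrad84⟩ := hnum σ hσ hσσ
  obtain ⟨B, hB⟩ : ∃ B, B = σ ^ (-(1 / 17000) : ℝ) := ⟨_, rfl⟩
  obtain ⟨c, hc⟩ : ∃ c, c = σ ^ (16999 / 17000 : ℝ) := ⟨_, rfl⟩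
  rw [← hB] at hB0 hB1 hcB hvar hev
  rw [← hc] at hcB hcc hσc hvar hN hη83 hrad84
  have hc0' : 0 < c := by rw [hc]; exact Real.rpow_pos_of_pos hσ _
  obtain ⟨n, hn⟩ : ∃ n : ℕ, n = ⌈σ ^ (-3 : ℝ)⌉₊ := ⟨_, rfl⟩
  rw [← hn] at hN hev
  have hn1 : 1 ≤ n := by
    rw [hn]
    exact Nat.one_le_iff_ne_zero.2 (Nat.ceil_pos.2 (Real.rpow_pos_of_pos hσ _)).ne'
  obtain ⟨Λ, hΛ, hrad, hval⟩ := h c hc0' hcc (mc B c) inferInstance (mc_bdd B c hc0'.le)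
    (mc_mean B c) _ (mc_var B c) hvar
  have hv := hval (fun s => 2 * (d : ℝ) + cb c s) (measurable_const.add (cb_meas c))
    (fun s hs => by rw [cb_eq c s hs]) (fun ω a => ev0 (fun x => 2 * (d : ℝ) + cb c (ω x)) a)
    (fun ω a => ev0_sol _ a) i
  obtain ⟨η0, hη0⟩ : ∃ η0, η0 = c ^ (83 / 41 : ℝ) := ⟨_, rfl⟩
  rw [← hη0] at hN hη83 hv
  have hη0p : 0 < η0 := by rw [hη0]; exact Real.rpow_pos_of_pos hc0' _
  have hfwa : ∀ z, |fw i m Λ z| ≤ 1 := fun z => by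
    rw [abs_of_nonneg (fw_nonneg i m Λ z)]
    exact fw_le i m Λ z
  have htr := transG (d := d) σ B hσ hB0 n hn1 (fw i m Λ) hfwa η0 hη0p
  rw [hcB] at htr
  have htr' := (abs_le.1 htr).2
  have hmono := fw_mono (d := d) (gaussianReal 0 1) (fun s : ℝ => 2 * (d : ℝ) - σ * s)
    (by fun_prop) (fun ξ a => ev0 (fun x => 2 * (d : ℝ) - σ * ξ x) a) (fun ξ a => ev0_sol _ a)
    i m Λ hΛ η η0 hη (hηη.trans hη83)
  obtain ⟨P, hPd⟩ : ∃ P, P = Measure.infinitePi fun _ : Zd d => gaussianReal 0 1 := ⟨_, rfl⟩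
  have hPp : IsProbabilityMeasure P := by rw [hPd]; infer_instance
  rw [← hPd] at hmono htr' hev ⊢
  have hint : ∀ (θ : Zd d → ℝ), (∀ z, |θ z| ≤ 1) → ∀ η : ℝ, 0 < η →
      Integrable (fun ξ : Zd d → ℝ =>
        ∑' z, θ z * pb η (ev0 (fun x => 2 * (d : ℝ) - σ * ξ x) 0) z) P := fun θ hθ η hη =>
    Integrable.of_bound (C := 1) (S_meas (fun s : ℝ => 2 * (d : ℝ) - σ * s) (by fun_prop)
      (fun ξ c => ev0 (fun x => 2 * (d : ℝ) - σ * ξ x) c) (fun ξ c => ev0_sol _ c)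
      η hη θ hθ 0).aestronglyMeasurable
      (Eventually.of_forall fun ξ => by
        rw [Real.norm_eq_abs]
        exact pb_abs (ev0_sol _ 0) η hη _ hθ)
  have hθ : ∀ z : Zd d, |(if |(z i : ℝ)| ≤ σ ^ (-(169 / 84) : ℝ) then (1 : ℝ) else 0)| ≤ 1 := by
    intro z
    split_ifs <;> simp
  have hfin : ∀ ξ : Zd d → ℝ,
      ∑' z : Zd d, (if |(z i : ℝ)| ≤ σ ^ (-(169 / 84) : ℝ) then (1 : ℝ) else 0) *
        pb η (ev0 (fun x => 2 * (d : ℝ) - σ * ξ x) 0) z ≤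
      2 * ∑' z, fw i m Λ z * pb η (ev0 (fun x => 2 * (d : ℝ) - σ * ξ x) 0) z := by
    intro ξ
    rw [← tsum_mul_left]
    refine Summable.tsum_le_tsum (fun z => ?_) (pb_sum (ev0_sol _ 0) η hη _ hθ).2.summable
      ((pb_sum (ev0_sol _ 0) η hη _ hfwa).2.summable.mul_left 2)
    have hp0 := pb_nonneg η hη (ev0 (fun x => 2 * (d : ℝ) - σ * ξ x) 0) z
    rw [← mul_assoc]
    refine mul_le_mul_of_nonneg_right ?_ hp0
    split_ifs with hz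
    · have := fw_half i m Λ hΛ z (le_trans (by
        have := hz.trans hrad84
        gcongr) hrad)
      linarith
    · have := fw_nonneg i m Λ z
      linarith
  have h15 := integral_mono (hint _ hθ η hη) ((hint _ hfwa η hη).const_mul 2) hfin
  refine h15.trans ?_
  rw [integral_const_mul]
  linarith

theorem S1Gw (d : ℕ) (hd : 2 ≤ d) (ε : ℝ) (hε : 0 < ε) : ∃ σ0 : ℝ, 0 < σ0 ∧ σ0 ≤ 1 ∧
    ∀ σ : ℝ, 0 < σ → σ ≤ σ0 →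
    ∀ ψ : (Zd d → ℝ) → ℝ → Zd d → ℂ,
      (∀ᵐ ξ ∂(Measure.infinitePi fun _ : Zd d => gaussianReal 0 1),
      Sol d (fun x => 2 * (d : ℝ) - σ * ξ x) 0 (ψ ξ)) →
    ∀ (i : Fin d) (η : ℝ), 0 < η → η ≤ σ ^ (83 / 41 : ℝ) →
      AEMeasurable (fun ξ => ∑' z : Zd d,
        (if |(z i : ℝ)| ≤ σ ^ (-(169 / 84) : ℝ) then (1 : ℝ) else 0) * pb η (ψ ξ) z)
        (Measure.infinitePi fun _ : Zd d => gaussianReal 0 1) ∧
      ∫ ξ, ∑' z : Zd d, (if |(z i : ℝ)| ≤ σ ^ (-(169 / 84) : ℝ) then (1 : ℝ) else 0) *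
        pb η (ψ ξ) z ∂(Measure.infinitePi fun _ : Zd d => gaussianReal 0 1) ≤ ε := by
  obtain ⟨σ0, hσ0, hσ01, h⟩ := S1G d hd ε hε
  refine ⟨σ0, hσ0, hσ01, fun σ hσ hσσ ψ hψ i η hη hηη => ?_⟩
  have hθ : ∀ z : Zd d, |(if |(z i : ℝ)| ≤ σ ^ (-(169 / 84) : ℝ) then (1 : ℝ) else 0)| ≤ 1 := by
    intro z
    split_ifs <;> simp
  have h3 := S_meas (fun s : ℝ => 2 * (d : ℝ) - σ * s) (by fun_prop)
    (fun ξ c => ev0 (fun x => 2 * (d : ℝ) - σ * ξ x) c) (fun ξ c => ev0_sol _ c) η hη _ hθ 0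
  have h4 : (fun ξ => ∑' z : Zd d, (if |(z i : ℝ)| ≤ σ ^ (-(169 / 84) : ℝ) then (1 : ℝ) else 0) *
      pb η (ψ ξ) z) =ᵐ[Measure.infinitePi fun _ : Zd d => gaussianReal 0 1]
      fun ξ => ∑' z : Zd d, (if |(z i : ℝ)| ≤ σ ^ (-(169 / 84) : ℝ) then (1 : ℝ) else 0) *
      pb η (ev0 (fun x => 2 * (d : ℝ) - σ * ξ x) 0) z := by
    filter_upwards [hψ] with ξ hξ
    exact pb_unique hξ (ev0_sol _ 0) η hη _ hθ
  refine ⟨⟨_, h3, h4⟩, ?_⟩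
  rw [integral_congr_ae h4]
  exact h σ hσ hσσ i η hη hηη

end Pool.Agent.R988.Tor
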