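import Pool.Agent.R988.Msd2

/-! The mean square displacement, `d ≥ 3`. -/

set_option autoImplicit false
set_option linter.unusedVariables false
set_option linter.unusedSectionVars false

open scoped BigOperators Topology ENNReal
open MeasureTheory Filter Set

namespace Pool.Agent.R988

open Pool.Agent.H4R2.LO (Zd)
open Pool.Agent.TH794.QD
open Pool.Agent.TH794.QE
open Pool.Agent.R988.Tor (ev1 ev_extract)

/-- the profile function -/
noncomputable def Pf (d : ℕ) (u E : ℝ) : ℝ :=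
  (GF (F1 d) (E : ℂ)).im / (u + (GF (F0 d) (E : ℂ)).im)

theorem hol_cont (F : ℝ → ℂ) (C : ℝ) (h : ∀ z z' : ℂ, 0 ≤ z.im → 0 ≤ z'.im →
    ‖GF F z - GF F z'‖ ≤ C * ‖z - z'‖ ^ (1 / 8 : ℝ)) : Continuous fun E : ℝ => (GF F (E : ℂ)).im := by
  have h1 : Continuous fun E : ℝ => GF F (E : ℂ) := by
    rw [continuous_iff_continuousAt]
    intro E
    unfold ContinuousAt
    rw [tendsto_iff_norm_sub_tendsto_zero]
    have h2 : Tendsto (fun E' : ℝ => C * ‖(E' : ℂ) - (E : ℂ)‖ ^ (1 / 8 : ℝ)) (𝓝 E) (𝓝 0) := by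
      have h3 : Continuous fun E' : ℝ => C * ‖(E' : ℂ) - (E : ℂ)‖ ^ (1 / 8 : ℝ) := by
        refine continuous_const.mul ?_
        refine Continuous.rpow_const (by fun_prop) fun x => Or.inr (by norm_num)
      have h4 := h3.tendsto E
      simp only [sub_self, norm_zero] at h4
      rw [Real.zero_rpow (by norm_num), mul_zero] at h4
      exact h4
    refine squeeze_zero (fun _ => norm_nonneg _) (fun E' => ?_) h2
    exact h _ _ (by simp) (by simp)
  exact Complex.continuous_im.comp h1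

theorem Pf_cont (d : ℕ) (hd : 3 ≤ d) (u : ℝ) (hu : 0 < u) : Continuous (Pf d u) := by
  unfold Pf
  refine Continuous.div (hol_cont _ _ (hol1 Pool.Agent.W918.BK.Osc.osc d hd))
    (continuous_const.add (hol_cont _ _ (hol0 Pool.Agent.W918.BK.Osc.osc d hd))) fun E => ?_
  have h1 := GF_im Pool.Agent.W918.BK.Osc.osc d hd (E : ℂ) (by simp)
  have : 0 < u + (GF (F0 d) (E : ℂ)).im := by linarith [h1.1, h1.2]
  exact this.ne'

theorem Pf_bd (d : ℕ) (hd : 3 ≤ d) (u E : ℝ) (hu : 0 < u) : 0 ≤ Pf d u E ∧ Pf d u E ≤ 1 := by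
  have h1 := GF_im Pool.Agent.W918.BK.Osc.osc d hd (E : ℂ) (by simp)
  have h2 : 0 < u + (GF (F0 d) (E : ℂ)).im := by linarith [h1.1, h1.2]
  unfold Pf
  refine ⟨div_nonneg h1.1 h2.le, (div_le_one h2).2 ?_⟩
  linarith [h1.2]

theorem Pf_out (d : ℕ) (hd : 3 ≤ d) (u E : ℝ) (hE : 2 * (d : ℝ) < |E|) : Pf d u E = 0 := by
  unfold Pf
  rw [g1_out hd E hE, zero_div]

theorem Pf_int (d : ℕ) (hd : 3 ≤ d) (u : ℝ) (hu : 0 < u) : Integrable (Pf d u) ∧
    ∫ E, Pf d u E = ∫ E in (-(2 * (d : ℝ)))..(2 * d), Pf d u E := by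
  have hd0 : (0 : ℝ) ≤ d := Nat.cast_nonneg d
  have h1 : Pf d u = (Set.Icc (-(2 * (d : ℝ))) (2 * d)).indicator (Pf d u) := by
    funext E
    by_cases hE : E ∈ Set.Icc (-(2 * (d : ℝ))) (2 * d)
    · rw [indicator_of_mem hE]
    · rw [indicator_of_notMem hE]
      refine Pf_out d hd u E ?_
      by_contra hcon
      exact hE (abs_le.1 (not_lt.1 hcon))
  have h2 : IntegrableOn (Pf d u) (Set.Icc (-(2 * (d : ℝ))) (2 * d)) :=
    (Pf_cont d hd u hu).continuousOn.integrableOn_Icc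
  constructor
  · rw [h1]
    exact (integrable_indicator_iff measurableSet_Icc).2 h2
  · conv_lhs => rw [h1]
    rw [integral_indicator measurableSet_Icc, intervalIntegral.integral_of_le (by linarith),
      integral_Icc_eq_integral_Ioc]

/-- **the mean square displacement** -/
theorem msd3 (d : ℕ) (hd : 3 ≤ d) (b v : ℝ) (hb : 0 < b) (hv : 0 < v) :
    ∃ lam0 : ℝ, 0 < lam0 ∧ lam0 ≤ 1 ∧
    ∀ lam : ℝ, 0 < lam → lam ≤ lam0 →
    ∀ (μ : Measure ℝ), IsProbabilityMeasure μ → (∀ᵐ s ∂μ, |s| ≤ b) →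
    ∀ M V : ℝ, ∫ s, s ∂μ = M → ∫ s, (s - M) ^ 2 ∂μ = V → v ≤ V →
      ∃ G : Set (Zd d → ℝ), MeasurableSet G ∧
        1 - Real.exp (-lam ^ (-(1 / 102) : ℝ)) ≤
          (Measure.infinitePi fun _ : Zd d => μ).real G ∧
        ∀ ω ∈ G, (∀ x, |ω x| ≤ b) ∧
          ∀ a : Zd d, ‖a‖ ≤ Real.exp (lam ^ (-(1 / 102) : ℝ)) →
          ∀ ψ : ℝ → Zd d → ℂ, Sol d (fun x => 2 * d + lam * ω x) a ψ →
          ∀ η : ℝ, lam ^ (83 / 41 : ℝ) ≤ η → η ≤ lam ^ 2 * V → ∀ j : Fin d,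
            (Summable fun x : Zd d => ((x j : ℝ) - a j) ^ 2 *
              (2 * η * ∫ s in Ioi (0 : ℝ), Real.exp (-(2 * η) * s) * ‖ψ s x‖ ^ 2)) ∧
            |Real.pi * η * (lam ^ 2 * V) * (∑' x : Zd d, ((x j : ℝ) - a j) ^ 2 *
              (2 * η * ∫ s in Ioi (0 : ℝ), Real.exp (-(2 * η) * s) * ‖ψ s x‖ ^ 2)) -
              2 * ∫ E in (-(2 * (d : ℝ)))..(2 * d), Pf d (η / (lam ^ 2 * V)) E| ≤
              6 * d * lam ^ (1 / 301 : ℝ) + 13 * Real.pi * (η ^ 2 * (lam ^ 2 * V)) := by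
  have hd3 : (3 : ℝ) ≤ d := by exact_mod_cast hd
  obtain ⟨γ0, γ1, h⟩ := msd1 d (by omega)
  obtain ⟨h1, -, h3⟩ := h 1 one_pos le_rfl
  have hreg : ∀ E : ℝ, |E| ≤ 3 * d → RegE d 1 E := fun E hE => Or.inr ⟨hd, hE⟩
  have hg0 : ∀ E : ℝ, |E| ≤ 3 * d → γ0 E = GF (F0 d) (E : ℂ) := fun E hE =>
    tendsto_nhds_unique (h1 E (hreg E hE)).1 (lim3 _ _ (hol0 Pool.Agent.W918.BK.Osc.osc d hd) E)
  have hg1 : ∀ E : ℝ, |E| ≤ 3 * d → γ1 E = GF (F1 d) (E : ℂ) := fun E hE =>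
    tendsto_nhds_unique (h1 E (hreg E hE)).2.1 (lim3 _ _ (hol1 Pool.Agent.W918.BK.Osc.osc d hd) E)
  obtain ⟨l0, hl0, hl1, h4⟩ := h3 b v hb hv
  obtain ⟨l1, hl1', hl11, hnum⟩ := ev_extract ((ev1 (4 * b) 1 one_pos).and
    (ev1 (4 * b ^ 2) 2 (by norm_num)))
  refine ⟨min l0 l1, lt_min hl0 hl1', (min_le_left _ _).trans hl1,
    fun lam hlam hle μ hμ hμb M V hM hV hvV => ?_⟩
  obtain ⟨G, hG, hP, hL⟩ := h4 lam hlam (hle.trans (min_le_left _ _)) μ hμ hμb M V hM hV hvV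
  obtain ⟨n1, n2⟩ := hnum lam hlam (hle.trans (min_le_right _ _))
  rw [Real.rpow_one] at n1
  have hMb : |M| ≤ b := by
    rw [← hM, ← Real.norm_eq_abs]
    refine (norm_integral_le_of_norm_le_const (C := b) ?_).trans (le_of_eq ?_)
    · filter_upwards [hμb] with s hs
      exact hs
    · rw [probReal_univ, mul_one]
  have hV0 : 0 < V := hv.trans_le hvV
  have hV4 : V ≤ 4 * b ^ 2 := by
    rw [← hV]
    have h5 : ∀ᵐ s ∂μ, ‖(s - M) ^ 2‖ ≤ 4 * b ^ 2 := by
      filter_upwards [hμb] with s hs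
      rw [Real.norm_eq_abs, abs_of_nonneg (sq_nonneg _)]
      have h6 : |s - M| ≤ 2 * b := (abs_sub _ _).trans (by linarith)
      rw [← sq_abs]
      calc |s - M| ^ 2 ≤ (2 * b) ^ 2 := by gcongr
        _ = _ := by ring
    have h7 := norm_integral_le_of_norm_le_const h5
    rw [probReal_univ, mul_one, Real.norm_eq_abs] at h7
    exact (le_abs_self _).trans h7
  refine ⟨G, hG, hP, fun ω hω => ?_⟩
  obtain ⟨hωb, hL'⟩ := hL ω hω
  refine ⟨hωb, fun a ha ψ hψ η hη1 hη2 j => ?_⟩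
  obtain ⟨s2, hs2⟩ : ∃ s2, s2 = lam ^ 2 * V := ⟨_, rfl⟩
  rw [← hs2] at hη2 ⊢
  have hs20 : 0 < s2 := by rw [hs2]; positivity
  have hη0 : 0 < η := lt_of_lt_of_le (Real.rpow_pos_of_pos hlam _) hη1
  have hs21 : s2 ≤ 1 := by
    rw [hs2]
    have h8 : lam ^ (2 : ℝ) = lam ^ 2 := by
      rw [← Real.rpow_natCast]
      norm_num
    rw [h8] at n2
    calc lam ^ 2 * V ≤ lam ^ 2 * (4 * b ^ 2) := by gcongr
      _ = 4 * b ^ 2 * lam ^ 2 := by ring
      _ ≤ 1 := n2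
  have hη11 : η ≤ 1 := hη2.trans hs21
  obtain ⟨u0, hu0⟩ : ∃ u0, u0 = η / s2 := ⟨_, rfl⟩
  have hu0p : 0 < u0 := by rw [hu0]; positivity
  rw [← hu0]
  obtain ⟨c, hc⟩ : ∃ c, c = 2 * (d : ℝ) + lam * M := ⟨_, rfl⟩
  obtain ⟨q, hq⟩ : ∃ q : ℝ → ℝ, q = fun e =>
    ∑' x : Zd d, ((x j : ℝ) - a j) ^ 2 * ‖Complex.I * La ψ e η x‖ ^ 2 := ⟨_, rfl⟩
  have hq0 : ∀ e, 0 ≤ q e := fun e => by
    rw [hq]
    exact tsum_nonneg fun x => by positivity
  have hR : ∀ e, Rs d (fun x => 2 * d + lam * ω x) a e η (fun x => Complex.I * La ψ e η x) :=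
    fun e => ⟨La_sum hψ e η hη0, La_eq hψ e η hη0⟩
  have hlamp : (0 : ℝ) < lam ^ (1 / 301 : ℝ) := Real.rpow_pos_of_pos hlam _
  have hlam1 : lam ^ (1 / 301 : ℝ) ≤ 1 :=
    Real.rpow_le_one hlam.le (hle.trans ((min_le_left _ _).trans hl1)) (by norm_num)
  -- the law inside
  have hin : ∀ e, |c - e| ≤ 3 * d → |η ^ 2 * s2 * q e - 2 * Pf d u0 (c - e)| ≤
      lam ^ (1 / 301 : ℝ) := by
    intro e he
    have h5 := (hL' a ha e (by rw [← hc]; exact hreg _ he) η hη1 (by rw [← hs2]; exact hη2) _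
      (hR e) j).2
    rw [← hc, ← hs2, ← hu0, hg0 _ he, hg1 _ he] at h5
    rw [hq]
    exact h5
  -- the bound outside
  have hout : ∀ e, 3 * (d : ℝ) < |c - e| → q e ≤ 13 * (1 + (c - e) ^ 2)⁻¹ := by
    intro e he
    have h9 : (9 : ℝ) < |c - e| := by linarith
    have h5 := far (hR e) hη0 hη11 (c - e) (2 * b * lam) (|c - e| / 4) (by positivity)
      (fun x => by
        have e1 : 2 * (d : ℝ) + lam * ω x - e - (c - e) = lam * (ω x - M) := by
          rw [hc]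
          ring
        rw [e1, abs_mul, abs_of_pos hlam]
        have h6 : |ω x - M| ≤ 2 * b := (abs_sub _ _).trans (by linarith [hωb x])
        nlinarith) (by positivity) (by linarith) j
    rw [hq]
    refine h5.trans ?_
    obtain ⟨t, ht⟩ : ∃ t, t = |c - e| := ⟨_, rfl⟩
    have e2 : (c - e) ^ 2 = t ^ 2 := by rw [ht, sq_abs]
    rw [e2, ← ht]
    rw [← ht] at h9
    have ht2 : 81 ≤ t ^ 2 := by nlinarith
    rw [← div_eq_mul_inv, div_le_div_iff₀ (by positivity) (by positivity)]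
    nlinarith [mul_nonneg (sub_nonneg.2 ht2) (sub_nonneg.2 ht2)]
  -- domination
  obtain ⟨R, hRd⟩ : ∃ R : Set ℝ, R = {e | |c - e| ≤ 3 * d} := ⟨_, rfl⟩
  have hRI : R = Set.Icc (c - 3 * d) (c + 3 * d) := by
    rw [hRd]
    ext e
    rw [Set.mem_ofPred_eq, Set.mem_Icc, abs_le]
    constructor
    · rintro ⟨h5, h6⟩
      constructor <;> linarith
    · rintro ⟨h5, h6⟩
      constructor <;> linarith
  have hRm : MeasurableSet R := by rw [hRI]; exact measurableSet_Icc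
  have hcauchy : Integrable fun e : ℝ => (1 + (c - e) ^ 2)⁻¹ :=
    integrable_inv_one_add_sq.comp_sub_left c
  have hRint : Integrable (R.indicator fun _ => (1 : ℝ)) := by
    rw [integrable_indicator_iff hRm, hRI]
    exact integrableOn_const (by simp)
  obtain ⟨g, hg⟩ : ∃ g : ℝ → ℝ, g = fun e => 3 / (η ^ 2 * s2) * R.indicator (fun _ => (1 : ℝ)) e +
    13 * (1 + (c - e) ^ 2)⁻¹ := ⟨_, rfl⟩
  have hgi : Integrable g := by
    rw [hg]
    exact (hRint.const_mul _).add (hcauchy.const_mul _)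
  have hηs : 0 < η ^ 2 * s2 := by positivity
  have hqg : ∀ e, q e ≤ g e := by
    intro e
    rw [hg]
    simp only
    by_cases he : e ∈ R
    · rw [indicator_of_mem he, mul_one]
      have he' : |c - e| ≤ 3 * d := by
        rw [hRd] at he
        exact he
      have h5 := (abs_le.1 (hin e he')).2
      have h6 := (Pf_bd d hd u0 (c - e) hu0p).2
      have h7 : η ^ 2 * s2 * q e ≤ 3 := by linarith
      have h8 : q e ≤ 3 / (η ^ 2 * s2) := by
        rw [le_div_iff₀ hηs]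
        linarith
      have h10 : 0 ≤ 13 * (1 + (c - e) ^ 2)⁻¹ := by positivity
      linarith
    · rw [indicator_of_notMem he, mul_zero, zero_add]
      refine hout e ?_
      rw [hRd] at he
      exact not_le.1 he
  obtain ⟨hqi, hsum⟩ := msdsum hψ η hη0 hη11 j g hgi (fun e => by
    have := hqg e
    rw [hq] at this
    exact this)
  have hqi' : Integrable q := by rw [hq]; exact hqi
  refine ⟨hsum.summable, ?_⟩
  rw [hsum.tsum_eq]
  have e3 : (∫ e, ∑' x : Zd d, ((x j : ℝ) - a j) ^ 2 * ‖Complex.I * La ψ e η x‖ ^ 2) = ∫ e, q e := by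
    rw [hq]
  rw [e3]
  have e4 : Real.pi * η * s2 * (η / Real.pi * ∫ e, q e) = ∫ e, η ^ 2 * s2 * q e := by
    rw [integral_const_mul]
    have := Real.pi_ne_zero
    field_simp
  obtain ⟨hPi, hPint⟩ := Pf_int d hd u0 hu0p
  have e5 : 2 * ∫ E in (-(2 * (d : ℝ)))..(2 * d), Pf d u0 E = ∫ e, 2 * Pf d u0 (c - e) := by
    rw [← hPint, integral_const_mul, integral_sub_left_eq_self (Pf d u0) volume c]
  rw [e4, e5, ← integral_sub (hqi'.const_mul _) ((hPi.comp_sub_left c).const_mul 2)]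
  have hbd : ∀ e, ‖η ^ 2 * s2 * q e - 2 * Pf d u0 (c - e)‖ ≤
      lam ^ (1 / 301 : ℝ) * R.indicator (fun _ => (1 : ℝ)) e +
        13 * (η ^ 2 * s2) * (1 + (c - e) ^ 2)⁻¹ := by
    intro e
    rw [Real.norm_eq_abs]
    by_cases he : e ∈ R
    · rw [indicator_of_mem he, mul_one]
      have he' : |c - e| ≤ 3 * d := by
        rw [hRd] at he
        exact he
      have h5 := hin e he'
      have h10 : 0 ≤ 13 * (η ^ 2 * s2) * (1 + (c - e) ^ 2)⁻¹ := by positivity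
      linarith
    · rw [indicator_of_notMem he, mul_zero, zero_add]
      have he' : 3 * (d : ℝ) < |c - e| := by
        rw [hRd] at he
        exact not_le.1 he
      rw [Pf_out d hd u0 (c - e) (by linarith), mul_zero, sub_zero,
        abs_of_nonneg (mul_nonneg hηs.le (hq0 e))]
      calc η ^ 2 * s2 * q e ≤ η ^ 2 * s2 * (13 * (1 + (c - e) ^ 2)⁻¹) :=
            mul_le_mul_of_nonneg_left (hout e he') hηs.le
        _ = _ := by ring
  have hbi : Integrable fun e => lam ^ (1 / 301 : ℝ) * R.indicator (fun _ => (1 : ℝ)) e +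
        13 * (η ^ 2 * s2) * (1 + (c - e) ^ 2)⁻¹ := (hRint.const_mul _).add (hcauchy.const_mul _)
  have h11 := norm_integral_le_of_norm_le hbi (Eventually.of_forall hbd)
  rw [Real.norm_eq_abs] at h11
  refine h11.trans (le_of_eq ?_)
  rw [integral_add (hRint.const_mul _) (hcauchy.const_mul _), integral_const_mul,
    integral_const_mul, integral_indicator hRm, integral_sub_left_eq_self
    (fun e : ℝ => (1 + e ^ 2)⁻¹) volume c, integral_univ_inv_one_add_sq, hRI,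
    setIntegral_const, smul_eq_mul, mul_one, Real.volume_real_Icc_of_le (by linarith)]
  ring

end Pool.Agent.R988
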