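import Pool.Agent.R988.TI

/-! The position at an exponential time: the lattice as the limit of tori. -/

set_option autoImplicit false
set_option linter.unusedSectionVars false
set_option linter.unusedVariables false

open scoped BigOperators ComplexConjugate InnerProductSpace Topology ENNReal
open Set MeasureTheory Filter

namespace Pool.Agent.R988.Tor

open Pool.Agent.H4R2.LO (Zd)
open Pool.Agent.TH794.QD (Sol exp_int exp_val)
open Pool.Agent.W788.LD.Spec (S)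

variable {d : ℕ}

/-- the probability to find the particle at `z` at the exponential time of mean `1/(2η)` -/
noncomputable def pb (η : ℝ) (ψ : ℝ → Zd d → ℂ) (z : Zd d) : ℝ :=
  2 * η * ∫ t in Ioi (0 : ℝ), Real.exp (-(2 * η) * t) * ‖ψ t z‖ ^ 2

theorem lat_sum {V : Zd d → ℝ} {c : Zd d} {ψ : ℝ → Zd d → ℂ} (h : Sol d V c ψ) (θ : Zd d → ℝ)
    (hθ : ∀ z, |θ z| ≤ 1) (t : ℝ) : (Summable fun z => θ z * ‖ψ t z‖ ^ 2) ∧
      |∑' z, θ z * ‖ψ t z‖ ^ 2| ≤ 1 := by
  have h1 := h.norm t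
  have hb : ∀ z, ‖θ z * ‖ψ t z‖ ^ 2‖ ≤ ‖ψ t z‖ ^ 2 := by
    intro z
    rw [norm_mul, Real.norm_eq_abs, Real.norm_of_nonneg (sq_nonneg _)]
    exact mul_le_of_le_one_left (sq_nonneg _) (hθ z)
  exact ⟨Summable.of_norm_bounded h1.summable hb, tsum_of_norm_bounded h1 hb⟩

theorem lat_meas {V : Zd d → ℝ} {c : Zd d} {ψ : ℝ → Zd d → ℂ} (h : Sol d V c ψ) (θ : Zd d → ℝ)
    (hθ : ∀ z, |θ z| ≤ 1) : Measurable fun t => ∑' z, θ z * ‖ψ t z‖ ^ 2 := by
  have h1 : ∀ t, ∑' z, θ z * ‖ψ t z‖ ^ 2 =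
      (∑' z, ENNReal.ofReal ((θ z + 1) * ‖ψ t z‖ ^ 2)).toReal - 1 := by
    intro t
    have h2 : ∀ z, 0 ≤ (θ z + 1) * ‖ψ t z‖ ^ 2 := fun z => by
      have := (abs_le.1 (hθ z)).1
      exact mul_nonneg (by linarith) (sq_nonneg _)
    have h3 : Summable fun z => (θ z + 1) * ‖ψ t z‖ ^ 2 := by
      refine ((lat_sum h θ hθ t).1.add (h.norm t).summable).congr fun z => ?_
      ring
    rw [← ENNReal.ofReal_tsum_of_nonneg h2 h3, ENNReal.toReal_ofReal (tsum_nonneg h2)]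
    have h4 : ∀ z, (θ z + 1) * ‖ψ t z‖ ^ 2 = θ z * ‖ψ t z‖ ^ 2 + ‖ψ t z‖ ^ 2 := fun z => by ring
    rw [tsum_congr h4, (lat_sum h θ hθ t).1.tsum_add (h.norm t).summable, (h.norm t).tsum_eq]
    ring
  simp only [h1]
  refine Measurable.sub_const (Measurable.ennreal_toReal ?_) 1
  exact Measurable.ennreal_tsum fun z =>
    (continuous_const.mul ((h.cont z).norm.pow 2)).measurable.ennreal_ofReal

theorem pb_int {V : Zd d → ℝ} {c : Zd d} {ψ : ℝ → Zd d → ℂ} (h : Sol d V c ψ) (η : ℝ)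
    (hη : 0 < η) (z : Zd d) :
    IntegrableOn (fun t => Real.exp (-(2 * η) * t) * ‖ψ t z‖ ^ 2) (Ioi (0 : ℝ)) := by
  refine Integrable.mono' (exp_int (2 * η) (by positivity)) ?_ ?_
  · exact (Continuous.mul (by fun_prop) ((h.cont z).norm.pow 2)).aestronglyMeasurable
  · refine Filter.Eventually.of_forall fun t => ?_
    rw [norm_mul, Real.norm_of_nonneg (Real.exp_pos _).le, Real.norm_of_nonneg (sq_nonneg _)]
    exact mul_le_of_le_one_right (Real.exp_pos _).le (pow_le_one₀ (norm_nonneg _) (h.le_one t z))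

theorem pb_nonneg (η : ℝ) (hη : 0 < η) (ψ : ℝ → Zd d → ℂ) (z : Zd d) : 0 ≤ pb η ψ z := by
  unfold pb
  refine mul_nonneg (by positivity) (integral_nonneg fun t => by positivity)

theorem pb_sum {V : Zd d → ℝ} {c : Zd d} {ψ : ℝ → Zd d → ℂ} (h : Sol d V c ψ) (η : ℝ)
    (hη : 0 < η) (θ : Zd d → ℝ) (hθ : ∀ z, |θ z| ≤ 1) :
    IntegrableOn (fun t => Real.exp (-(2 * η) * t) * ∑' z, θ z * ‖ψ t z‖ ^ 2) (Ioi (0 : ℝ)) ∧
    HasSum (fun z => θ z * pb η ψ z)
      (2 * η * ∫ t in Ioi (0 : ℝ), Real.exp (-(2 * η) * t) * ∑' z, θ z * ‖ψ t z‖ ^ 2) := by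
  have h0 := exp_int (2 * η) (by positivity)
  have hI : IntegrableOn (fun t => Real.exp (-(2 * η) * t) * ∑' z, θ z * ‖ψ t z‖ ^ 2)
      (Ioi (0 : ℝ)) := by
    refine Integrable.mono' h0 ?_ (Filter.Eventually.of_forall fun t => ?_)
    · exact ((by fun_prop : Measurable fun t : ℝ => Real.exp (-(2 * η) * t)).mul
        (lat_meas h θ hθ)).aestronglyMeasurable
    · rw [norm_mul, Real.norm_of_nonneg (Real.exp_pos _).le]
      exact mul_le_of_le_one_right (Real.exp_pos _).le (lat_sum h θ hθ t).2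
  refine ⟨hI, ?_⟩
  have hF : ∀ z, IntegrableOn (fun t => Real.exp (-(2 * η) * t) * (θ z * ‖ψ t z‖ ^ 2))
      (Ioi (0 : ℝ)) := by
    intro z
    refine ((pb_int h η hη z).const_mul (θ z)).congr (Filter.Eventually.of_forall fun t => ?_)
    simp only
    ring
  have hS : Summable fun z => ∫ t in Ioi (0 : ℝ),
      ‖Real.exp (-(2 * η) * t) * (θ z * ‖ψ t z‖ ^ 2)‖ := by
    refine summable_of_sum_le (c := (2 * η)⁻¹) (fun z => integral_nonneg fun t => norm_nonneg _)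
      fun u => ?_
    rw [← integral_finsetSum _ fun z _ => (hF z).norm, ← exp_val (2 * η) (by positivity)]
    refine integral_mono (integrable_finsetSum _ fun z _ => (hF z).norm) h0 fun t => ?_
    simp only
    have h2 : ∀ z, ‖Real.exp (-(2 * η) * t) * (θ z * ‖ψ t z‖ ^ 2)‖ ≤
        Real.exp (-(2 * η) * t) * ‖ψ t z‖ ^ 2 := by
      intro z
      rw [norm_mul, norm_mul, Real.norm_of_nonneg (Real.exp_pos _).le,
        Real.norm_of_nonneg (sq_nonneg _), Real.norm_eq_abs]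
      refine mul_le_mul_of_nonneg_left ?_ (Real.exp_pos _).le
      exact mul_le_of_le_one_left (sq_nonneg _) (hθ z)
    refine (Finset.sum_le_sum fun z _ => h2 z).trans ?_
    rw [← Finset.mul_sum]
    refine mul_le_of_le_one_right (Real.exp_pos _).le ?_
    have h3 := (h.norm t).summable.sum_le_tsum u fun z _ => sq_nonneg _
    rwa [(h.norm t).tsum_eq] at h3
  have h4 := hasSum_integral_of_summable_integral_norm hF hS
  have h5 := h4.mul_left (2 * η)
  have h6 : ∀ t : ℝ, ∑' z, Real.exp (-(2 * η) * t) * (θ z * ‖ψ t z‖ ^ 2) =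
      Real.exp (-(2 * η) * t) * ∑' z, θ z * ‖ψ t z‖ ^ 2 := fun t => tsum_mul_left
  simp only [h6] at h5
  have h7 : (fun z => θ z * pb η ψ z) = fun z =>
      2 * η * ∫ t in Ioi (0 : ℝ), Real.exp (-(2 * η) * t) * (θ z * ‖ψ t z‖ ^ 2) := by
    funext z
    unfold pb
    have h8 : ∀ t : ℝ, Real.exp (-(2 * η) * t) * (θ z * ‖ψ t z‖ ^ 2) =
        θ z * (Real.exp (-(2 * η) * t) * ‖ψ t z‖ ^ 2) := fun t => by ring
    simp only [h8]
    rw [integral_const_mul]
    ring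
  rw [h7]
  exact h5

theorem texp_int (η : ℝ) (hη : 0 < η) :
    IntegrableOn (fun t => Real.exp (-(2 * η) * t) * t) (Ioi (0 : ℝ)) ∧
    2 * η * ∫ t in Ioi (0 : ℝ), Real.exp (-(2 * η) * t) * t ≤ 2 / η := by
  have h0 := exp_int η hη
  have hb : ∀ t ∈ Ioi (0 : ℝ), ‖Real.exp (-(2 * η) * t) * t‖ ≤ η⁻¹ * Real.exp (-η * t) := by
    intro t ht
    have ht0 : 0 < t := ht
    rw [Real.norm_of_nonneg (by positivity)]
    have h1 : η * t ≤ Real.exp (η * t) := by
      have := Real.add_one_le_exp (η * t)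
      linarith
    calc Real.exp (-(2 * η) * t) * t = η⁻¹ * (Real.exp (-(2 * η) * t) * (η * t)) := by
          field_simp
      _ ≤ η⁻¹ * (Real.exp (-(2 * η) * t) * Real.exp (η * t)) := by gcongr
      _ = _ := by
          rw [← Real.exp_add]
          congr 2
          ring
  have hI : IntegrableOn (fun t => Real.exp (-(2 * η) * t) * t) (Ioi (0 : ℝ)) := by
    refine Integrable.mono' (h0.const_mul η⁻¹) ?_ ?_
    · exact (by fun_prop : Continuous fun t : ℝ => Real.exp (-(2 * η) * t) * t).aestronglyMeasurable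
    · exact (ae_restrict_mem measurableSet_Ioi).mono hb
  refine ⟨hI, ?_⟩
  have h1 : ∫ t in Ioi (0 : ℝ), Real.exp (-(2 * η) * t) * t ≤
      ∫ t in Ioi (0 : ℝ), η⁻¹ * Real.exp (-η * t) := by
    refine setIntegral_mono_on hI (h0.const_mul η⁻¹) measurableSet_Ioi fun t ht => ?_
    exact (le_abs_self _).trans (hb t ht)
  rw [integral_const_mul, exp_val η hη] at h1
  calc 2 * η * _ ≤ 2 * η * (η⁻¹ * η⁻¹) := by gcongr
    _ = 2 / η := by field_simp

variable {L : ℕ} [NeZero L]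

/-- **comparison of the time averages** -/
theorem cmpQ {V : Zd d → ℝ} {c : Zd d} {ψ : ℝ → Zd d → ℂ} (h : Sol d V c ψ)
    (W : TT d L → ℝ) (s : TT d L) (hW : ∀ x, V (em (x - s)) = W x)
    (ρ : ℝ) (hρ : 1 ≤ ρ) (hc : ∀ i, ρ ≤ c i ∧ ρ + 1 ≤ L - c i)
    (g : ℝ → TT d L → ℂ) (hg : TSol W (s + pr L c) g) (η : ℝ) (hη : 0 < η)
    (θ : Zd d → ℝ) (hθ : ∀ z, |θ z| ≤ 1) :
    |TQ η (fun x => θ (em (x - s))) g - ∑' z, θ z * pb η ψ z| ≤ 32 * d / ρ / η := by
  obtain ⟨hI, hH⟩ := pb_sum h η hη θ hθ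
  have hJ := (TQ_int hg η hη (fun x => θ (em (x - s))) fun x => hθ _).1
  have hρ0 : 0 < ρ := by linarith
  rw [hH.tsum_eq]
  unfold TQ
  rw [← mul_sub, ← integral_sub hJ hI, abs_mul, abs_of_pos (by positivity : 0 < 2 * η)]
  obtain ⟨h1, h2⟩ := texp_int η hη
  have h3 : |∫ t in Ioi (0 : ℝ), (Real.exp (-(2 * η) * t) * ∑ x, θ (em (x - s)) * ‖g t x‖ ^ 2 -
      Real.exp (-(2 * η) * t) * ∑' z, θ z * ‖ψ t z‖ ^ 2)| ≤
      ∫ t in Ioi (0 : ℝ), 16 * d / ρ * (Real.exp (-(2 * η) * t) * t) := by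
    rw [← Real.norm_eq_abs]
    refine norm_integral_le_of_norm_le (h1.const_mul _) ?_
    refine (ae_restrict_mem measurableSet_Ioi).mono fun t ht => ?_
    rw [← mul_sub, norm_mul, Real.norm_of_nonneg (Real.exp_pos _).le, Real.norm_eq_abs]
    have h4 := cmpT h W s hW ρ hρ hc g hg t (le_of_lt ht) θ hθ
    calc Real.exp (-(2 * η) * t) * _ ≤ Real.exp (-(2 * η) * t) * (16 * d / ρ * t) := by gcongr
      _ = _ := by ring
  rw [integral_const_mul] at h3
  calc 2 * η * _ ≤ 2 * η * (16 * d / ρ * ∫ t in Ioi (0 : ℝ), Real.exp (-(2 * η) * t) * t) := by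
        gcongr
    _ = 16 * d / ρ * (2 * η * ∫ t in Ioi (0 : ℝ), Real.exp (-(2 * η) * t) * t) := by ring
    _ ≤ 16 * d / ρ * (2 / η) := by gcongr
    _ = _ := by ring

/-- translation of a solution -/
theorem sol_shift {V : Zd d → ℝ} {c : Zd d} {ψ : ℝ → Zd d → ℂ} (h : Sol d V c ψ) (w : Zd d) :
    Sol d (fun x => V (x + w)) (c - w) fun t x => ψ t (x + w) := by
  refine ⟨fun x => ?_, fun s x => ?_, fun s => ?_⟩
  · rw [h.init]
    by_cases hx : x + w = c
    · rw [if_pos hx, if_pos (by rw [← hx]; abel)]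
    · rw [if_neg hx, if_neg fun hh => hx (by rw [hh]; abel)]
  · have h1 := h.ode s (x + w)
    refine h1.congr_deriv ?_
    have h2 : S (fun y => ψ s (y + w)) x = S (ψ s) (x + w) := by
      unfold S
      refine Finset.sum_congr rfl fun i _ => ?_
      congr 2
      · abel
      · abel
    rw [h2]
  · exact (Equiv.addRight w).hasSum_iff.2 (h.norm s)

/-- the centre of the box -/
def mid (d n : ℕ) : Zd d := fun _ => (n : ℤ)

/-- the approximation by a torus of side `2 n + 2` -/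
noncomputable def Qn (η : ℝ) (θ : Zd d → ℝ) (c : Zd d) (n : ℕ) (V : Zd d → ℝ) : ℝ :=
  TQ (d := d) (L := 2 * n + 1 + 1) η (fun x => θ (em x - mid d n + c))
    (tg (fun x => V (em x - mid d n + c)) (pr _ (mid d n)))

theorem Qn_meas (η : ℝ) (θ : Zd d → ℝ) (c : Zd d) (n : ℕ) : Measurable (Qn η θ c n) := by
  have h1 := (TQ_meas (d := d) (L := 2 * n + 1 + 1) η (fun x => θ (em x - mid d n + c))
    (pr _ (mid d n))).measurable
  have h2 : Measurable fun (V : Zd d → ℝ) (x : TT d (2 * n + 1 + 1)) =>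
      V (em x - mid d n + c) := measurable_pi_lambda _ fun x => measurable_pi_apply _
  exact h1.comp h2

theorem Qn_cmp {V : Zd d → ℝ} {c : Zd d} {ψ : ℝ → Zd d → ℂ} (h : Sol d V c ψ) (η : ℝ)
    (hη : 0 < η) (θ : Zd d → ℝ) (hθ : ∀ z, |θ z| ≤ 1) (n : ℕ) (hn : 1 ≤ n) :
    |Qn η θ c n V - ∑' z, θ z * pb η ψ z| ≤ 32 * d / n / η := by
  have h1 := sol_shift h (c - mid d n)
  have e1 : c - (c - mid d n) = mid d n := by abel
  rw [e1] at h1
  have hn' : (1 : ℝ) ≤ n := by exact_mod_cast hn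
  have h2 := cmpQ (L := 2 * n + 1 + 1) h1 (fun x => V (em x - mid d n + c)) 0 (fun x => by
      rw [sub_zero]
      congr 1
      abel) (n : ℝ) hn' (fun i => by
      unfold mid
      push_cast
      constructor
      · exact le_rfl
      · linarith) (tg (fun x => V (em x - mid d n + c)) (pr _ (mid d n))) (by
      rw [zero_add]
      exact tsol_tg _ _) η hη (fun z => θ (z + (c - mid d n))) fun z => hθ _
  have e2 : (fun x : TT d (2 * n + 1 + 1) => θ (em (x - 0) + (c - mid d n))) =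
      fun x => θ (em x - mid d n + c) := by
    funext x
    rw [sub_zero]
    congr 1
    abel
  have e3 : ∑' z, θ (z + (c - mid d n)) * pb η (fun t x => ψ t (x + (c - mid d n))) z =
      ∑' z, θ z * pb η ψ z :=
    (Equiv.addRight (c - mid d n)).tsum_eq fun z => θ z * pb η ψ z
  rw [e2, e3] at h2
  exact h2

theorem Qn_lim {V : Zd d → ℝ} {c : Zd d} {ψ : ℝ → Zd d → ℂ} (h : Sol d V c ψ) (η : ℝ)
    (hη : 0 < η) (θ : Zd d → ℝ) (hθ : ∀ z, |θ z| ≤ 1) :
    Tendsto (fun n => Qn η θ c n V) atTop (𝓝 (∑' z, θ z * pb η ψ z)) := by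
  rw [tendsto_iff_norm_sub_tendsto_zero]
  refine squeeze_zero' (g := fun n : ℕ => 32 * (d : ℝ) / n / η)
    (Eventually.of_forall fun n => norm_nonneg _) ?_ ?_
  · refine (eventually_ge_atTop 1).mono fun n hn => ?_
    rw [Real.norm_eq_abs]
    exact Qn_cmp h η hη θ hθ n hn
  have h1 : Tendsto (fun n : ℕ => 32 * d / (n : ℝ)) atTop (𝓝 0) :=
    tendsto_const_div_atTop_nhds_zero_nat (32 * (d : ℝ))
  have h2 := h1.div_const η
  rwa [zero_div] at h2

/-- the time averages do not depend on the choice of the solution -/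
theorem pb_unique {V : Zd d → ℝ} {c : Zd d} {ψ ψ' : ℝ → Zd d → ℂ} (h : Sol d V c ψ)
    (h' : Sol d V c ψ') (η : ℝ) (hη : 0 < η) (θ : Zd d → ℝ) (hθ : ∀ z, |θ z| ≤ 1) :
    ∑' z, θ z * pb η ψ z = ∑' z, θ z * pb η ψ' z :=
  tendsto_nhds_unique (Qn_lim h η hη θ hθ) (Qn_lim h' η hη θ hθ)

theorem pb_abs {V : Zd d → ℝ} {c : Zd d} {ψ : ℝ → Zd d → ℂ} (h : Sol d V c ψ) (η : ℝ)
    (hη : 0 < η) (θ : Zd d → ℝ) (hθ : ∀ z, |θ z| ≤ 1) : |∑' z, θ z * pb η ψ z| ≤ 1 := by
  refine le_of_tendsto ((continuous_abs.tendsto _).comp (Qn_lim h η hη θ hθ))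
    (Eventually.of_forall fun n => ?_)
  exact (TQ_int (tsol_tg _ _) η hη _ fun x => hθ _).2

end Pool.Agent.R988.Tor
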