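import Pool.Agent.R988.GW2
import Pool.Agent.R988.Msd3
import Pool.Agent.R988.TJ

/-! The mean square displacement, `d ≥ 3`, for laws of small variance. -/

set_option autoImplicit false
set_option linter.unusedVariables false
set_option linter.unusedSectionVars false

open scoped BigOperators Topology ENNReal
open MeasureTheory Filter Set

namespace Pool.Agent.R988.GV

open Pool.Agent.R988
open Pool.Agent.H4R2.LO (Zd)
open Pool.Agent.TH794.QD (Sol La La_sum La_eq GF F0 F1)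
open Pool.Agent.TH794.QE (Rs QM Pg)
open Pool.Agent.R988.Tor (ev1 ev_extract)

/-- **the mean square displacement, laws on `[-c, c]`** -/
theorem msd3v (d : ℕ) (hd : 3 ≤ d) :
    ∃ c0 : ℝ, 0 < c0 ∧ c0 ≤ 1 ∧ ∀ c : ℝ, 0 < c → c ≤ c0 →
    ∀ (μ : Measure ℝ), IsProbabilityMeasure μ → (∀ᵐ s ∂μ, |s| ≤ c) → ∫ s, s ∂μ = 0 →
    ∀ s2 : ℝ, ∫ s, s ^ 2 ∂μ = s2 → c ^ (1 / 8000 : ℝ) * c ^ 2 ≤ s2 →
      ∃ G : Set (Zd d → ℝ), MeasurableSet G ∧
        1 - Real.exp (-c ^ (-(1 / 101) : ℝ)) ≤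
          (Measure.infinitePi fun _ : Zd d => μ).real G ∧
        ∀ ω ∈ G, (∀ x, |ω x| ≤ c) ∧
          ∀ ψ : ℝ → Zd d → ℂ, Sol d (fun x => 2 * d + ω x) 0 ψ →
          ∀ η : ℝ, c ^ (81 / 40 : ℝ) ≤ η → η ≤ s2 → ∀ j : Fin d,
            (Summable fun x : Zd d => (x j : ℝ) ^ 2 * Tor.pb η ψ x) ∧
            η ^ 2 * ∑' x : Zd d, (x j : ℝ) ^ 2 * Tor.pb η ψ x ≤ 20 * d * (η / s2) := by
  have hd3 : (3 : ℝ) ≤ d := by exact_mod_cast hd
  obtain ⟨c1, hc1, h4⟩ := finFv Pool.Agent.W193.BK.ES.es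
    (Pool.Agent.W261.BK.third Pool.Agent.W540.BK.fac)
    (Pool.Agent.W240.BK.fluct (Pool.Agent.W240.BK.var Pool.Agent.W193.BK.ES.es))
    Pool.Agent.W475.BK.inv Pool.Agent.W975.BK.sup
    (Pool.Agent.W465.BK.qb (Pool.Agent.W240.BK.two Pool.Agent.W918.BK.Osc.osc))
    Pool.Agent.W475.BK.low Pool.Agent.W790.BK.ADM.adm Pool.Agent.W540.BK.fac
    Pool.Agent.W918.BK.Osc.osc d hd
  refine ⟨min c1 (1 / 2), lt_min hc1 (by norm_num), (min_le_right _ _).trans (by norm_num),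
    fun c hc hle μ hμ hμb hM s2 hs2 hvar => ?_⟩
  have hcc : c ≤ 1 / 2 := hle.trans (min_le_right _ _)
  obtain ⟨G, hG, hP, hL⟩ := h4 c hc (hle.trans (min_le_left _ _)) μ hμ hμb hM s2 hs2 hvar
  have hs20 : 0 < s2 := lt_of_lt_of_le (by positivity) hvar
  have hs21 : s2 ≤ 1 := by
    rw [← hs2]
    have h1 : ∫ s, s ^ 2 ∂μ ≤ ∫ _s, (1 : ℝ) ∂μ := by
      apply integral_mono_of_nonneg (Filter.Eventually.of_forall fun s => sq_nonneg _)
        (integrable_const _)
      filter_upwards [hμb] with s hs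
      rw [← sq_abs]
      exact pow_le_one₀ (abs_nonneg _) (hs.trans (by linarith))
    rw [integral_const, probReal_univ, one_smul] at h1
    exact h1
  refine ⟨G, hG, hP, fun ω hω => ?_⟩
  obtain ⟨hωb, hL'⟩ := hL ω hω
  refine ⟨hωb, fun ψ hψ η hη1 hη2 j => ?_⟩
  have hη0 : 0 < η := lt_of_lt_of_le (Real.rpow_pos_of_pos hc _) hη1
  have hη11 : η ≤ 1 := hη2.trans hs21
  obtain ⟨u0, hu0⟩ : ∃ u0, u0 = η / s2 := ⟨_, rfl⟩
  have hu0p : 0 < u0 := by rw [hu0]; positivity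
  obtain ⟨q, hq⟩ : ∃ q : ℝ → ℝ, q = fun e =>
    ∑' x : Zd d, ((x j : ℝ) - (0 : Zd d) j) ^ 2 * ‖Complex.I * La ψ e η x‖ ^ 2 := ⟨_, rfl⟩
  have hq0 : ∀ e, 0 ≤ q e := fun e => by
    rw [hq]
    exact tsum_nonneg fun x => by positivity
  have hR : ∀ e, Rs d (fun x => 2 * d + ω x) 0 e η (fun x => Complex.I * La ψ e η x) :=
    fun e => ⟨La_sum hψ e η hη0, La_eq hψ e η hη0⟩
  obtain ⟨K, hK⟩ : ∃ K, K = 2 * (d : ℝ) := ⟨_, rfl⟩
  -- the law inside
  have hin : ∀ e, |K - e| ≤ 3 * d → η ^ 2 * s2 * q e ≤ 3 := by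
    intro e he
    rw [hK] at he
    have h5 := (hL' 0 (by
      rw [norm_zero]
      exact (Real.exp_pos _).le) e he η hη1 hη2 _ (hR e) j).2
    have h6 : |η ^ 2 * s2 * q e - 2 * Pf d u0 (2 * d - e)| ≤ c ^ (1 / 300 : ℝ) := by
      rw [hq, hu0]
      exact h5
    have h7 := (abs_le.1 h6).2
    have h8 := (Pf_bd d hd u0 (2 * d - e) hu0p).2
    have h9 : c ^ (1 / 300 : ℝ) ≤ 1 := Real.rpow_le_one hc.le (by linarith) (by norm_num)
    linarith
  -- the bound outside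
  have hout : ∀ e, 3 * (d : ℝ) < |K - e| → q e ≤ 13 * (1 + (K - e) ^ 2)⁻¹ := by
    intro e he
    have h9 : (9 : ℝ) < |K - e| := by linarith
    have h5 := far (hR e) hη0 hη11 (K - e) c (|K - e| / 4) hc.le
      (fun x => by
        have e1 : 2 * (d : ℝ) + ω x - e - (K - e) = ω x := by
          rw [hK]
          ring
        rw [e1]
        exact hωb x) (by positivity) (by linarith) j
    rw [hq]
    refine h5.trans ?_
    obtain ⟨t, ht⟩ : ∃ t, t = |K - e| := ⟨_, rfl⟩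
    have e2 : (K - e) ^ 2 = t ^ 2 := by rw [ht, sq_abs]
    rw [e2, ← ht]
    rw [← ht] at h9
    have ht2 : 81 ≤ t ^ 2 := by nlinarith
    rw [← div_eq_mul_inv, div_le_div_iff₀ (by positivity) (by positivity)]
    nlinarith [mul_nonneg (sub_nonneg.2 ht2) (sub_nonneg.2 ht2)]
  -- domination
  obtain ⟨R, hRd⟩ : ∃ R : Set ℝ, R = {e | |K - e| ≤ 3 * d} := ⟨_, rfl⟩
  have hRI : R = Set.Icc (K - 3 * d) (K + 3 * d) := by
    rw [hRd]
    ext e
    rw [Set.mem_ofPred_eq, Set.mem_Icc, abs_le]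
    constructor
    · rintro ⟨h5, h6⟩
      constructor <;> linarith
    · rintro ⟨h5, h6⟩
      constructor <;> linarith
  have hRm : MeasurableSet R := by rw [hRI]; exact measurableSet_Icc
  have hcauchy : Integrable fun e : ℝ => (1 + (K - e) ^ 2)⁻¹ :=
    integrable_inv_one_add_sq.comp_sub_left K
  have hRint : Integrable (R.indicator fun _ => (1 : ℝ)) := by
    rw [integrable_indicator_iff hRm, hRI]
    exact integrableOn_const (by simp)
  obtain ⟨g, hg⟩ : ∃ g : ℝ → ℝ, g = fun e => 3 / (η ^ 2 * s2) * R.indicator (fun _ => (1 : ℝ)) e +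
    13 * (1 + (K - e) ^ 2)⁻¹ := ⟨_, rfl⟩
  have hgi : Integrable g := by
    rw [hg]
    exact (hRint.const_mul _).add (hcauchy.const_mul _)
  have hηs : 0 < η ^ 2 * s2 := by positivity
  have hqg : ∀ e, q e ≤ g e := by
    intro e
    rw [hg]
    simp only
    by_cases he : e ∈ R
    · rw [indicator_of_mem he, mul_one]
      have he' : |K - e| ≤ 3 * d := by
        rw [hRd] at he
        exact he
      have h7 := hin e he'
      have h8 : q e ≤ 3 / (η ^ 2 * s2) := by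
        rw [le_div_iff₀ hηs]
        linarith
      have h10 : 0 ≤ 13 * (1 + (K - e) ^ 2)⁻¹ := by positivity
      linarith
    · rw [indicator_of_notMem he, mul_zero, zero_add]
      refine hout e ?_
      rw [hRd] at he
      exact not_le.1 he
  obtain ⟨hqi, hsum⟩ := msdsum hψ η hη0 hη11 j g hgi (fun e => by
    have := hqg e
    rw [hq] at this
    exact this)
  have hqi' : Integrable q := by rw [hq]; exact hqi
  simp only [Pi.zero_apply, Int.cast_zero, sub_zero] at hsum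
  have hsum' : HasSum (fun x : Zd d => (x j : ℝ) ^ 2 * Tor.pb η ψ x)
      (η / Real.pi * ∫ e, q e) := by
    rw [hq]
    simp only [Pi.zero_apply, Int.cast_zero, sub_zero]
    exact hsum
  refine ⟨hsum'.summable, ?_⟩
  rw [hsum'.tsum_eq]
  have h11 : ∫ e, q e ≤ ∫ e, g e := integral_mono hqi' hgi hqg
  have h12 : ∫ e, g e = 3 / (η ^ 2 * s2) * (6 * d) + 13 * Real.pi := by
    rw [hg, integral_add (hRint.const_mul _) (hcauchy.const_mul _), integral_const_mul,
      integral_const_mul, integral_indicator hRm, integral_sub_left_eq_self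
      (fun e : ℝ => (1 + e ^ 2)⁻¹) volume K, integral_univ_inv_one_add_sq, hRI,
      setIntegral_const, smul_eq_mul, mul_one, Real.volume_real_Icc_of_le (by linarith)]
    ring
  rw [h12] at h11
  have hpi := Real.pi_gt_three
  have hpi0 := Real.pi_pos
  have h13 : η ^ 2 * (η / Real.pi * ∫ e, q e) ≤
      η ^ 2 * (η / Real.pi * (3 / (η ^ 2 * s2) * (6 * d) + 13 * Real.pi)) := by gcongr
  refine h13.trans ?_
  have h14 : η ^ 2 * (η / Real.pi * (3 / (η ^ 2 * s2) * (6 * d) + 13 * Real.pi)) =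
      (18 * d / Real.pi) * (η / s2) + 13 * η ^ 2 * η := by
    field_simp
    ring
  rw [h14]
  have h15 : 18 * d / Real.pi ≤ 6 * d := by
    rw [div_le_iff₀ hpi0]
    nlinarith
  have h16 : η ^ 2 * η ≤ η / s2 := by
    rw [le_div_iff₀ hs20]
    have h17 : η ^ 2 ≤ 1 := pow_le_one₀ hη0.le hη11
    calc η ^ 2 * η * s2 ≤ 1 * η * 1 := by gcongr
      _ = η := by ring
  calc (18 * d / Real.pi) * (η / s2) + 13 * η ^ 2 * η ≤ 6 * d * (η / s2) + 13 * (η / s2) := by
        have h18 : 0 ≤ η / s2 := by positivity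
        have h19 := mul_le_mul_of_nonneg_right h15 h18
        linarith
    _ ≤ 20 * d * (η / s2) := by
        have h18 : 0 ≤ η / s2 := by positivity
        nlinarith

end Pool.Agent.R988.GV
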