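import Pool.Agent.R988.TM
import Pool.Agent.TH794.QE.FinA

/-! Exponential moments of the averaged position, for an arbitrary real potential. -/

set_option autoImplicit false
set_option linter.unusedSectionVars false
set_option linter.unusedVariables false

open scoped BigOperators ComplexConjugate InnerProductSpace Topology ENNReal
open Set MeasureTheory Filter

namespace Pool.Agent.R988.Tor

open Pool.Agent.H4R2.LO (Zd)
open Pool.Agent.TH794.QD (Sol La La_sum La_eq)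
open Pool.Agent.TH794.QE (Rs)
open Pool.Agent.W788.LD.Spec (S)

variable {d : ℕ}

/-- the weighted mass of the resolvent -/
theorem wid {V : Zd d → ℝ} {a : Zd d} {e η : ℝ} {u : Zd d → ℂ} (h : Rs d V a e η u)
    (w : Zd d → ℝ) (W : ℝ) (hw0 : ∀ x, 0 ≤ w x) (hwW : ∀ x, w x ≤ W) :
    η * ∑' x, w x * ‖u x‖ ^ 2 = w a * (u a).im -
      ∑ j, ∑' x, (w x - w (x + Pi.single j 1)) * (conj (u x) * u (x + Pi.single j 1)).im := by
  have hW0 : 0 ≤ W := (hw0 0).trans (hwW 0)
  have hs := h.sq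
  have hsj : ∀ j : Fin d, Summable fun x : Zd d => ‖u (x + Pi.single j 1)‖ ^ 2 := fun j =>
    (Equiv.addRight (Pi.single j 1 : Zd d)).summable_iff.2 hs
  have hsj' : ∀ j : Fin d, Summable fun x : Zd d => ‖u (x - Pi.single j 1)‖ ^ 2 := fun j =>
    (Equiv.subRight (Pi.single j 1 : Zd d)).summable_iff.2 hs
  have hcb : ∀ x y : Zd d, |(conj (u x) * u y).im| ≤ (‖u x‖ ^ 2 + ‖u y‖ ^ 2) / 2 := by
    intro x y
    refine (Complex.abs_im_le_norm _).trans ?_
    rw [norm_mul, RCLike.norm_conj]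
    nlinarith [sq_nonneg (‖u x‖ - ‖u y‖)]
  have hc1 : ∀ j : Fin d, Summable fun x : Zd d =>
      w x * (conj (u x) * u (x + Pi.single j 1)).im := by
    intro j
    refine Summable.of_norm_bounded ((hs.add (hsj j)).mul_left (W / 2)) fun x => ?_
    rw [norm_mul, Real.norm_of_nonneg (hw0 x), Real.norm_eq_abs]
    calc w x * |(conj (u x) * u (x + Pi.single j 1)).im| ≤
        W * ((‖u x‖ ^ 2 + ‖u (x + Pi.single j 1)‖ ^ 2) / 2) := by
          have := hw0 x
          have := hwW x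
          gcongr
          exact hcb _ _
      _ = _ := by ring
  have hc2 : ∀ j : Fin d, Summable fun x : Zd d =>
      w x * (conj (u x) * u (x - Pi.single j 1)).im := by
    intro j
    refine Summable.of_norm_bounded ((hs.add (hsj' j)).mul_left (W / 2)) fun x => ?_
    rw [norm_mul, Real.norm_of_nonneg (hw0 x), Real.norm_eq_abs]
    calc w x * |(conj (u x) * u (x - Pi.single j 1)).im| ≤
        W * ((‖u x‖ ^ 2 + ‖u (x - Pi.single j 1)‖ ^ 2) / 2) := by
          have := hw0 x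
          have := hwW x
          gcongr
          exact hcb _ _
      _ = _ := by ring
  have hc3 : ∀ j : Fin d, Summable fun x : Zd d =>
      w (x + Pi.single j 1) * (conj (u x) * u (x + Pi.single j 1)).im := by
    intro j
    refine Summable.of_norm_bounded ((hs.add (hsj j)).mul_left (W / 2)) fun x => ?_
    rw [norm_mul, Real.norm_of_nonneg (hw0 _), Real.norm_eq_abs]
    calc w (x + Pi.single j 1) * |(conj (u x) * u (x + Pi.single j 1)).im| ≤
        W * ((‖u x‖ ^ 2 + ‖u (x + Pi.single j 1)‖ ^ 2) / 2) := by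
          have := hw0 (x + Pi.single j 1)
          have := hwW (x + Pi.single j 1)
          gcongr
          exact hcb _ _
      _ = _ := by ring
  -- the equation at one site
  have hpt : ∀ x, η * (w x * ‖u x‖ ^ 2) = (if x = a then w a * (u a).im else 0) -
      ∑ j : Fin d, (w x * (conj (u x) * u (x + Pi.single j 1)).im +
        w x * (conj (u x) * u (x - Pi.single j 1)).im) := by
    intro x
    have h1 := h.eq x
    have h2 : (conj (u x) * (-S u x + (V x : ℂ) * u x -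
        ((e : ℂ) + (η : ℂ) * Complex.I) * u x)).im =
        -(conj (u x) * S u x).im - η * ‖u x‖ ^ 2 := by
      have e1 : conj (u x) * (-S u x + (V x : ℂ) * u x - ((e : ℂ) + (η : ℂ) * Complex.I) * u x) =
          -(conj (u x) * S u x) + ((V x - e : ℝ) : ℂ) * (conj (u x) * u x) -
          ((η : ℝ) : ℂ) * Complex.I * (conj (u x) * u x) := by
        push_cast
        ring
      have e2 : conj (u x) * u x = ((‖u x‖ ^ 2 : ℝ) : ℂ) := by
        rw [mul_comm, Complex.mul_conj, Complex.normSq_eq_norm_sq]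
      rw [e1, e2]
      simp only [Complex.sub_im, Complex.add_im, Complex.neg_im]
      rw [← Complex.ofReal_mul, Complex.ofReal_im, mul_right_comm, ← Complex.ofReal_mul,
        Complex.im_ofReal_mul, Complex.I_im, mul_one, add_zero]
    rw [h1] at h2
    have h3 : (conj (u x) * S u x).im = ∑ j : Fin d, ((conj (u x) * u (x + Pi.single j 1)).im +
        (conj (u x) * u (x - Pi.single j 1)).im) := by
      unfold S
      rw [Finset.mul_sum, Complex.im_sum]
      refine Finset.sum_congr rfl fun j _ => ?_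
      rw [mul_add, Complex.add_im]
    have h4 : ∑ j : Fin d, (w x * (conj (u x) * u (x + Pi.single j 1)).im +
        w x * (conj (u x) * u (x - Pi.single j 1)).im) = w x * (conj (u x) * S u x).im := by
      rw [h3, Finset.mul_sum]
      refine Finset.sum_congr rfl fun j _ => ?_
      rw [mul_add]
    rw [h4]
    by_cases hx : x = a
    · rw [if_pos hx, mul_one, Complex.conj_im] at h2
      rw [if_pos hx, ← hx]
      have h5 : w x * (-(u x).im) = w x * (-(conj (u x) * S u x).im - η * ‖u x‖ ^ 2) := by rw [h2]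
      linarith
    · rw [if_neg hx, mul_zero, Complex.zero_im] at h2
      rw [if_neg hx]
      have h5 : w x * 0 = w x * (-(conj (u x) * S u x).im - η * ‖u x‖ ^ 2) := by rw [h2]
      linarith
  rw [← tsum_mul_left, tsum_congr hpt]
  have hfs : Summable fun x : Zd d => ∑ j : Fin d,
      (w x * (conj (u x) * u (x + Pi.single j 1)).im +
        w x * (conj (u x) * u (x - Pi.single j 1)).im) :=
    summable_sum fun j _ => (hc1 j).add (hc2 j)
  have hda : HasSum (fun x : Zd d => if x = a then w a * (u a).im else 0) (w a * (u a).im) :=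
    hasSum_ite_eq a _
  rw [(hda.summable).tsum_sub hfs, hda.tsum_eq, Summable.tsum_finsetSum fun j _ =>
    (hc1 j).add (hc2 j)]
  congr 1
  refine Finset.sum_congr rfl fun j _ => ?_
  rw [(hc1 j).tsum_add (hc2 j)]
  have h6 : ∑' x : Zd d, w x * (conj (u x) * u (x - Pi.single j 1)).im =
      ∑' x : Zd d, -(w (x + Pi.single j 1) * (conj (u x) * u (x + Pi.single j 1)).im) := by
    rw [← (Equiv.addRight (Pi.single j 1 : Zd d)).tsum_eq]
    refine tsum_congr fun x => ?_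
    simp only [Equiv.coe_addRight, add_sub_cancel_right]
    have h7 : (conj (u (x + Pi.single j 1)) * u x).im =
        -(conj (u x) * u (x + Pi.single j 1)).im := by
      rw [← Complex.conj_im, map_mul, Complex.conj_conj, mul_comm]
    rw [h7]
    ring
  rw [h6, ← (hc1 j).tsum_add (hc3 j).neg]
  refine tsum_congr fun x => ?_
  ring

theorem wid1 {V : Zd d → ℝ} {a : Zd d} {e η : ℝ} {u : Zd d → ℂ} (h : Rs d V a e η u) :
    η * ∑' x, ‖u x‖ ^ 2 = (u a).im := by
  have h1 := wid h (fun _ => 1) 1 (fun _ => zero_le_one) fun _ => le_rfl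
  simp only [one_mul, sub_self, zero_mul, tsum_zero, Finset.sum_const_zero, sub_zero] at h1
  exact h1

theorem wres {V : Zd d → ℝ} {a : Zd d} {e η : ℝ} {u : Zd d → ℂ} (h : Rs d V a e η u)
    (w : Zd d → ℝ) (W : ℝ) (hw0 : ∀ x, 0 ≤ w x) (hwW : ∀ x, w x ≤ W) (κ : Fin d → ℝ)
    (hκ : ∀ j, 0 ≤ κ j)
    (hw : ∀ j x, |w x - w (x + Pi.single j 1)| ≤ κ j * min (w x) (w (x + Pi.single j 1)))
    (hκη : 2 * ∑ j, κ j ≤ η) (hη : 0 < η) :
    ∑' x, w x * ‖u x‖ ^ 2 ≤ 2 * w a * ∑' x, ‖u x‖ ^ 2 := by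
  have h1 := wid h w W hw0 hwW
  have h2 := wid1 h
  have hs := h.sq
  have hsj : ∀ j : Fin d, Summable fun x : Zd d => ‖u (x + Pi.single j 1)‖ ^ 2 := fun j =>
    (Equiv.addRight (Pi.single j 1 : Zd d)).summable_iff.2 hs
  have hws : Summable fun x => w x * ‖u x‖ ^ 2 := by
    refine Summable.of_norm_bounded (hs.mul_left W) fun x => ?_
    rw [norm_mul, Real.norm_of_nonneg (hw0 x), Real.norm_of_nonneg (sq_nonneg _)]
    exact mul_le_mul_of_nonneg_right (hwW x) (sq_nonneg _)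
  have hwsj : ∀ j : Fin d, Summable fun x : Zd d =>
      w (x + Pi.single j 1) * ‖u (x + Pi.single j 1)‖ ^ 2 := fun j =>
    (Equiv.addRight (Pi.single j 1 : Zd d)).summable_iff.2 hws
  obtain ⟨A, hA⟩ : ∃ A, A = ∑' x, w x * ‖u x‖ ^ 2 := ⟨_, rfl⟩
  have hA0 : 0 ≤ A := by
    rw [hA]
    exact tsum_nonneg fun x => mul_nonneg (hw0 x) (sq_nonneg _)
  have h3 : ∀ j : Fin d, -(κ j * A) ≤ ∑' x, (w x - w (x + Pi.single j 1)) *
      (conj (u x) * u (x + Pi.single j 1)).im := by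
    intro j
    have h4 : ∀ x : Zd d, ‖(w x - w (x + Pi.single j 1)) *
        (conj (u x) * u (x + Pi.single j 1)).im‖ ≤
        κ j / 2 * (w x * ‖u x‖ ^ 2) +
          κ j / 2 * (w (x + Pi.single j 1) * ‖u (x + Pi.single j 1)‖ ^ 2) := by
      intro x
      rw [norm_mul, Real.norm_eq_abs, Real.norm_eq_abs]
      have h5 : |(conj (u x) * u (x + Pi.single j 1)).im| ≤
          (‖u x‖ ^ 2 + ‖u (x + Pi.single j 1)‖ ^ 2) / 2 := by
        refine (Complex.abs_im_le_norm _).trans ?_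
        rw [norm_mul, RCLike.norm_conj]
        nlinarith [sq_nonneg (‖u x‖ - ‖u (x + Pi.single j 1)‖)]
      obtain ⟨m, hm⟩ : ∃ m, m = min (w x) (w (x + Pi.single j 1)) := ⟨_, rfl⟩
      have h6 := hw j x
      rw [← hm] at h6
      have h7 : m ≤ w x := by rw [hm]; exact min_le_left _ _
      have h8 : m ≤ w (x + Pi.single j 1) := by rw [hm]; exact min_le_right _ _
      have h9 : 0 ≤ m := by rw [hm]; exact le_min (hw0 _) (hw0 _)
      have h10 := hκ j
      calc |w x - w (x + Pi.single j 1)| * |(conj (u x) * u (x + Pi.single j 1)).im| ≤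
          (κ j * m) * ((‖u x‖ ^ 2 + ‖u (x + Pi.single j 1)‖ ^ 2) / 2) := by gcongr
        _ = κ j / 2 * (m * ‖u x‖ ^ 2) + κ j / 2 * (m * ‖u (x + Pi.single j 1)‖ ^ 2) := by ring
        _ ≤ _ := by gcongr
    have h5 : Summable fun x : Zd d => κ j / 2 * (w x * ‖u x‖ ^ 2) +
          κ j / 2 * (w (x + Pi.single j 1) * ‖u (x + Pi.single j 1)‖ ^ 2) :=
      (hws.mul_left _).add ((hwsj j).mul_left _)
    have h6 := tsum_of_norm_bounded h5.hasSum h4
    rw [(hws.mul_left _).tsum_add ((hwsj j).mul_left _), tsum_mul_left, tsum_mul_left] at h6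
    have h7 : ∑' x : Zd d, w (x + Pi.single j 1) * ‖u (x + Pi.single j 1)‖ ^ 2 = A := by
      rw [hA]
      exact (Equiv.addRight (Pi.single j 1 : Zd d)).tsum_eq fun x => w x * ‖u x‖ ^ 2
    rw [h7, ← hA, Real.norm_eq_abs] at h6
    have h8 := (abs_le.1 h6).1
    linarith
  have h4 : -((∑ j, κ j) * A) ≤ ∑ j, ∑' x, (w x - w (x + Pi.single j 1)) *
      (conj (u x) * u (x + Pi.single j 1)).im := by
    rw [Finset.sum_mul, ← Finset.sum_neg_distrib]
    exact Finset.sum_le_sum fun j _ => h3 j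
  rw [← hA] at h1 ⊢
  rw [← h2] at h1
  obtain ⟨Bm, hBm⟩ : ∃ Bm, Bm = ∑' x, ‖u x‖ ^ 2 := ⟨_, rfl⟩
  rw [← hBm] at h1 ⊢
  have h5 : 2 * (∑ j, κ j) * A ≤ η * A := mul_le_mul_of_nonneg_right hκη hA0
  have h6 : η * A ≤ η * (2 * w a * Bm) := by linarith
  exact le_of_mul_le_mul_left h6 hη

/-- the weight -/
noncomputable def ew (i : Fin d) (α : ℝ) (R : ℕ) (x : Zd d) : ℝ :=
  Real.exp (α * min |(x i : ℝ)| R)

theorem ew_le (i : Fin d) (α : ℝ) (hα : 0 ≤ α) (R : ℕ) (x : Zd d) :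
    ew i α R x ≤ Real.exp (α * R) := by
  unfold ew
  refine Real.exp_le_exp.2 (mul_le_mul_of_nonneg_left (min_le_right _ _) hα)

theorem ew_dif (i : Fin d) (α : ℝ) (hα : 0 ≤ α) (R : ℕ) (j : Fin d) (x : Zd d) :
    |ew i α R x - ew i α R (x + Pi.single j 1)| ≤
      (if j = i then Real.exp α - 1 else 0) *
        min (ew i α R x) (ew i α R (x + Pi.single j 1)) := by
  by_cases hj : j = i
  · rw [if_pos hj, hj]
    have key : ∀ s t : ℝ, |s - t| ≤ 1 → s ≤ t →
        |Real.exp (α * s) - Real.exp (α * t)| ≤ (Real.exp α - 1) *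
          min (Real.exp (α * s)) (Real.exp (α * t)) := by
      intro s t hst hle
      have h1 : Real.exp (α * s) ≤ Real.exp (α * t) :=
        Real.exp_le_exp.2 (mul_le_mul_of_nonneg_left hle hα)
      rw [min_eq_left h1, abs_sub_comm, abs_of_nonneg (by linarith)]
      have h2 : Real.exp (α * t) ≤ Real.exp α * Real.exp (α * s) := by
        rw [← Real.exp_add]
        refine Real.exp_le_exp.2 ?_
        have h3 := (abs_le.1 hst).1
        nlinarith
      linarith
    have hm : |min |(x i : ℝ)| (R : ℝ) - min |((x + Pi.single i 1 : Zd d) i : ℝ)| (R : ℝ)| ≤ 1 := by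
      refine (abs_min_sub_min_le_max _ _ _ _).trans ?_
      rw [sub_self, abs_zero]
      refine max_le ?_ zero_le_one
      refine (abs_abs_sub_abs_le _ _).trans ?_
      rw [Pi.add_apply, Pi.single_eq_same]
      push_cast
      rw [sub_add_cancel_left, abs_neg, abs_one]
    unfold ew
    rcases le_total (min |(x i : ℝ)| (R : ℝ)) (min |((x + Pi.single i 1 : Zd d) i : ℝ)| (R : ℝ))
      with h | h
    · exact key _ _ hm h
    · rw [abs_sub_comm] at hm
      have h5 := key _ _ hm h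
      rw [abs_sub_comm, min_comm (Real.exp _)] at h5
      exact h5
  · rw [if_neg hj, zero_mul]
    unfold ew
    rw [Pi.add_apply, Pi.single_eq_of_ne (fun h => hj h.symm), add_zero, sub_self, abs_zero]

/-- **exponential moments of the averaged position, for every real potential** -/
theorem exmom {V : Zd d → ℝ} {ψ : ℝ → Zd d → ℂ} (h : Sol d V 0 ψ) (η : ℝ) (hη : 0 < η)
    (hη1 : η ≤ 1) (i : Fin d) :
    (Summable fun x : Zd d => Real.exp (η / 4 * |(x i : ℝ)|) * pb η ψ x) ∧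
    ∑' x : Zd d, Real.exp (η / 4 * |(x i : ℝ)|) * pb η ψ x ≤ 2 := by
  have hpi := Real.pi_pos
  obtain ⟨α, hα⟩ : ∃ α, α = η / 4 := ⟨_, rfl⟩
  rw [← hα]
  have hα0 : 0 ≤ α := by rw [hα]; positivity
  have hα1 : α ≤ 1 / 4 := by rw [hα]; linarith
  have hexp : 2 * (Real.exp α - 1) ≤ η := by
    have h1 : Real.exp α ≤ 1 / (1 - α) :=
      Real.exp_bound_div_one_sub_of_interval hα0 (by linarith)
    have h2 : 1 / (1 - α) ≤ 1 + 2 * α := by
      rw [div_le_iff₀ (by linarith)]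
      nlinarith
    have h3 : 4 * α = η := by rw [hα]; ring
    linarith
  obtain ⟨i1, e1⟩ := plw h η hη (fun _ => 1) (fun _ => zero_le_one) fun _ => le_rfl
  simp only [one_mul] at i1 e1
  rw [(pb_one h η hη).tsum_eq] at e1
  have hR : ∀ e, Rs d V 0 e η (fun x => Complex.I * La ψ e η x) := fun e =>
    ⟨La_sum h e η hη, La_eq h e η hη⟩
  have hn : ∀ e x, ‖Complex.I * La ψ e η x‖ ^ 2 = ‖La ψ e η x‖ ^ 2 := fun e x => by
    rw [norm_mul, Complex.norm_I, one_mul]
  have hκ0 : ∀ j : Fin d, 0 ≤ (if j = i then Real.exp α - 1 else 0) := fun j => by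
    split_ifs
    · have := Real.one_le_exp hα0
      linarith
    · exact le_rfl
  have hκs : 2 * ∑ j : Fin d, (if j = i then Real.exp α - 1 else 0) ≤ η := by
    rw [Finset.sum_ite_eq' Finset.univ i, if_pos (Finset.mem_univ i)]
    exact hexp
  have hRR : ∀ R : ℕ, ∑' x : Zd d, ew i α R x * pb η ψ x ≤ 2 := by
    intro R
    obtain ⟨K, hK⟩ : ∃ K, K = Real.exp (α * R) := ⟨_, rfl⟩
    have hK0 : 0 < K := by rw [hK]; exact Real.exp_pos _
    have hw0 : ∀ x : Zd d, 0 ≤ ew i α R x := fun x => (Real.exp_pos _).le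
    have hwK : ∀ x : Zd d, ew i α R x ≤ K := fun x => by rw [hK]; exact ew_le i α hα0 R x
    obtain ⟨i2, e2⟩ := plw h η hη (fun x => ew i α R x / K) (fun x => div_nonneg (hw0 x) hK0.le)
      fun x => (div_le_one hK0).2 (hwK x)
    have h3 : ∀ e, ∑' x : Zd d, ew i α R x / K * ‖La ψ e η x‖ ^ 2 ≤
        2 / K * ∑' x : Zd d, ‖La ψ e η x‖ ^ 2 := by
      intro e
      have h4 := wres (hR e) (ew i α R) K hw0 hwK _ hκ0 (fun j x => ew_dif i α hα0 R j x) hκs hη
      simp only [hn] at h4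
      have h5 : ew i α R (0 : Zd d) = 1 := by
        unfold ew
        simp
      rw [h5, mul_one] at h4
      have h6 : ∀ x : Zd d, ew i α R x / K * ‖La ψ e η x‖ ^ 2 =
          1 / K * (ew i α R x * ‖La ψ e η x‖ ^ 2) := fun x => by ring
      rw [tsum_congr h6, tsum_mul_left]
      calc 1 / K * ∑' x : Zd d, ew i α R x * ‖La ψ e η x‖ ^ 2 ≤
          1 / K * (2 * ∑' x : Zd d, ‖La ψ e η x‖ ^ 2) := by gcongr
        _ = _ := by ring
    have h7 : ∑' x : Zd d, ew i α R x / K * pb η ψ x ≤ 2 / K := by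
      rw [e2]
      have h8 := integral_mono i2 (i1.const_mul (2 / K)) h3
      rw [integral_const_mul] at h8
      calc η / Real.pi * ∫ e, ∑' x : Zd d, ew i α R x / K * ‖La ψ e η x‖ ^ 2 ≤
          η / Real.pi * (2 / K * ∫ e, ∑' x : Zd d, ‖La ψ e η x‖ ^ 2) := by gcongr
        _ = 2 / K * (η / Real.pi * ∫ e, ∑' x : Zd d, ‖La ψ e η x‖ ^ 2) := by ring
        _ = 2 / K := by rw [← e1, mul_one]
    have h9 : ∀ x : Zd d, ew i α R x / K * pb η ψ x = 1 / K * (ew i α R x * pb η ψ x) :=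
      fun x => by ring
    rw [tsum_congr h9, tsum_mul_left, one_div, inv_mul_le_iff₀ hK0] at h7
    refine h7.trans (le_of_eq ?_)
    field_simp
  have hf0 : ∀ x : Zd d, 0 ≤ Real.exp (α * |(x i : ℝ)|) * pb η ψ x := fun x =>
    mul_nonneg (Real.exp_pos _).le (pb_nonneg η hη _ _)
  have key : ∀ s : Finset (Zd d), ∑ x ∈ s, Real.exp (α * |(x i : ℝ)|) * pb η ψ x ≤ 2 := by
    intro s
    obtain ⟨R, hRs⟩ : ∃ R : ℕ, ∀ x ∈ s, |(x i : ℝ)| ≤ R := by
      refine ⟨∑ x ∈ s, (x i).natAbs, fun x hx => ?_⟩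
      have h1 := Finset.single_le_sum (f := fun x : Zd d => (x i).natAbs)
        (fun _ _ => Nat.zero_le _) hx
      have h2 : |(x i : ℝ)| = ((x i).natAbs : ℝ) := by
        rw [Nat.cast_natAbs]
        push_cast
        rfl
      rw [h2]
      exact_mod_cast h1
    refine le_trans ?_ (hRR R)
    have h3 : ∀ x ∈ s, Real.exp (α * |(x i : ℝ)|) * pb η ψ x = ew i α R x * pb η ψ x := by
      intro x hx
      unfold ew
      rw [min_eq_left (hRs x hx)]
    rw [Finset.sum_congr rfl h3]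
    have h4 : Summable fun x : Zd d => ew i α R x * pb η ψ x := by
      refine Summable.of_norm_bounded ((pb_one h η hη).summable.mul_left (Real.exp (α * R)))
        fun x => ?_
      rw [norm_mul, Real.norm_of_nonneg (pb_nonneg η hη _ _),
        Real.norm_of_nonneg (show 0 ≤ ew i α R x from (Real.exp_pos _).le)]
      exact mul_le_mul_of_nonneg_right (ew_le i α hα0 R x) (pb_nonneg η hη _ _)
    exact h4.sum_le_tsum s fun x _ => mul_nonneg (Real.exp_pos _).le (pb_nonneg η hη _ _)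
  have hsum := summable_of_sum_le hf0 key
  exact ⟨hsum, hsum.tsum_le_of_sum_le key⟩

/-- **the ballistic bound, for every real potential** -/
theorem msdU {V : Zd d → ℝ} {ψ : ℝ → Zd d → ℂ} (h : Sol d V 0 ψ) (η : ℝ) (hη : 0 < η)
    (hη1 : η ≤ 1) (i : Fin d) :
    (Summable fun x : Zd d => (x i : ℝ) ^ 2 * pb η ψ x) ∧
    η ^ 2 * ∑' x : Zd d, (x i : ℝ) ^ 2 * pb η ψ x ≤ 64 := by
  obtain ⟨h1, h2⟩ := exmom h η hη hη1 i
  have h3 : ∀ x : Zd d, (x i : ℝ) ^ 2 * pb η ψ x ≤
      32 / η ^ 2 * (Real.exp (η / 4 * |(x i : ℝ)|) * pb η ψ x) := by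
    intro x
    rw [← mul_assoc]
    refine mul_le_mul_of_nonneg_right ?_ (pb_nonneg η hη _ _)
    have h4 := Real.pow_div_factorial_le_exp (η / 4 * |(x i : ℝ)|) (by positivity) 2
    have h5 : (η / 4 * |(x i : ℝ)|) ^ 2 / (Nat.factorial 2 : ℝ) = η ^ 2 / 32 * (x i : ℝ) ^ 2 := by
      rw [mul_pow, sq_abs]
      norm_num [Nat.factorial]
      ring
    rw [h5] at h4
    calc (x i : ℝ) ^ 2 = 32 / η ^ 2 * (η ^ 2 / 32 * (x i : ℝ) ^ 2) := by field_simp
      _ ≤ _ := by gcongr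
  have h0 : ∀ x : Zd d, 0 ≤ (x i : ℝ) ^ 2 * pb η ψ x := fun x =>
    mul_nonneg (sq_nonneg _) (pb_nonneg η hη _ _)
  have h4 : Summable fun x : Zd d => (x i : ℝ) ^ 2 * pb η ψ x :=
    Summable.of_nonneg_of_le h0 h3 (h1.mul_left _)
  refine ⟨h4, ?_⟩
  have h5 := Summable.tsum_le_tsum h3 h4 (h1.mul_left _)
  rw [tsum_mul_left] at h5
  calc η ^ 2 * ∑' x : Zd d, (x i : ℝ) ^ 2 * pb η ψ x ≤ η ^ 2 * (32 / η ^ 2 *
        ∑' x : Zd d, Real.exp (η / 4 * |(x i : ℝ)|) * pb η ψ x) := by gcongr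
    _ ≤ η ^ 2 * (32 / η ^ 2 * 2) := by gcongr
    _ = 64 := by
        field_simp
        norm_num

/-- **the tail of the second moment** -/
theorem msd_tail {V : Zd d → ℝ} {ψ : ℝ → Zd d → ℂ} (h : Sol d V 0 ψ) (η : ℝ) (hη : 0 < η)
    (hη1 : η ≤ 1) (i : Fin d) (r : ℝ) (hr : 0 < r) :
    (Summable fun x : Zd d => (if |(x i : ℝ)| ≤ r then 0 else (x i : ℝ) ^ 2) * pb η ψ x) ∧
    ∑' x : Zd d, (if |(x i : ℝ)| ≤ r then 0 else (x i : ℝ) ^ 2) * pb η ψ x ≤
      12288 / (η ^ 4 * r ^ 2) := by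
  obtain ⟨h1, h2⟩ := exmom h η hη hη1 i
  have h3 : ∀ x : Zd d, (if |(x i : ℝ)| ≤ r then 0 else (x i : ℝ) ^ 2) * pb η ψ x ≤
      6144 / (η ^ 4 * r ^ 2) * (Real.exp (η / 4 * |(x i : ℝ)|) * pb η ψ x) := by
    intro x
    rw [← mul_assoc]
    refine mul_le_mul_of_nonneg_right ?_ (pb_nonneg η hη _ _)
    split_ifs with hx
    · positivity
    · have h4 := Real.pow_div_factorial_le_exp (η / 4 * |(x i : ℝ)|) (by positivity) 4
      have h6 : |(x i : ℝ)| ^ 4 = (x i : ℝ) ^ 2 * (x i : ℝ) ^ 2 := by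
        rw [← sq_abs (x i : ℝ)]
        ring
      have h5 : (η / 4 * |(x i : ℝ)|) ^ 4 / (Nat.factorial 4 : ℝ) =
          η ^ 4 / 6144 * ((x i : ℝ) ^ 2 * (x i : ℝ) ^ 2) := by
        rw [mul_pow, h6]
        norm_num [Nat.factorial]
        ring
      rw [h5] at h4
      have h7 : r ^ 2 ≤ (x i : ℝ) ^ 2 := by
        rw [← sq_abs (x i : ℝ)]
        exact pow_le_pow_left₀ hr.le (not_le.1 hx).le 2
      calc (x i : ℝ) ^ 2 = 6144 / (η ^ 4 * r ^ 2) * (η ^ 4 / 6144 * ((x i : ℝ) ^ 2 * r ^ 2)) := by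
            field_simp
        _ ≤ 6144 / (η ^ 4 * r ^ 2) * (η ^ 4 / 6144 * ((x i : ℝ) ^ 2 * (x i : ℝ) ^ 2)) := by gcongr
        _ ≤ _ := by gcongr
  have h0 : ∀ x : Zd d, 0 ≤ (if |(x i : ℝ)| ≤ r then 0 else (x i : ℝ) ^ 2) * pb η ψ x := fun x => by
    refine mul_nonneg ?_ (pb_nonneg η hη _ _)
    split_ifs
    · exact le_rfl
    · exact sq_nonneg _
  have h4 : Summable fun x : Zd d => (if |(x i : ℝ)| ≤ r then 0 else (x i : ℝ) ^ 2) * pb η ψ x :=
    Summable.of_nonneg_of_le h0 h3 (h1.mul_left _)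
  refine ⟨h4, ?_⟩
  have h5 := Summable.tsum_le_tsum h3 h4 (h1.mul_left _)
  rw [tsum_mul_left] at h5
  calc ∑' x : Zd d, (if |(x i : ℝ)| ≤ r then 0 else (x i : ℝ) ^ 2) * pb η ψ x ≤
      6144 / (η ^ 4 * r ^ 2) * ∑' x : Zd d, Real.exp (η / 4 * |(x i : ℝ)|) * pb η ψ x := h5
    _ ≤ 6144 / (η ^ 4 * r ^ 2) * 2 := by gcongr
    _ = _ := by ring

end Pool.Agent.R988.Tor
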