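import Pool.Agent.R988.GW3
import Pool.Agent.R988.GW4
import Pool.Agent.R988.GV7

/-! Gaussian disorder: the second moment at all times. -/

set_option autoImplicit false
set_option linter.unusedSectionVars false
set_option linter.unusedVariables false

open scoped BigOperators ComplexConjugate InnerProductSpace Topology ENNReal
open Set MeasureTheory Filter ProbabilityTheory

namespace Pool.Agent.R988.Tor

open Pool.Agent.H4R2.LO (Zd)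
open Pool.Agent.TH794.QD (Sol exists_sol)
open Pool.Agent.R988.GG (cl cl_meas cl_abs cl_eq nu nu_mean ev ev_meas ev_mem ev_prob box mem_box)
open Pool.Agent.R988.GV (msd3v)

variable {d : ℕ}

section main

variable {d : ℕ} (μ : Measure ℝ) [IsProbabilityMeasure μ] (f : ℝ → ℝ) (hf : Measurable f)
  (Ψ : (Zd d → ℝ) → Zd d → ℝ → Zd d → ℂ) (hΨ : ∀ ω c, Sol d (fun x => f (ω x)) c (Ψ ω c))

include hf hΨ

/-- **from a good event at one scale to all later times, unbounded laws** -/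
theorem fromGoodU (i : Fin d) (η η0 : ℝ) (hη : 0 < η) (hηη : η ≤ η0) (hη1 : η0 ≤ 1)
    (G : Set (Zd d → ℝ)) (hG : MeasurableSet G) (p β : ℝ)
    (hp : 1 - p ≤ (Measure.infinitePi fun _ : Zd d => μ).real G) (hβ : 0 ≤ β)
    (hgood : ∀ ω ∈ G, η0 ^ 2 * ∑' z : Zd d, (z i : ℝ) ^ 2 * pb η0 (Ψ ω 0) z ≤ β) :
    ∫⁻ ω, ∑' z : Zd d, ENNReal.ofReal ((z i : ℝ) ^ 2 * pb η (Ψ ω 0) z)
      ∂(Measure.infinitePi fun _ : Zd d => μ) ≤ ENNReal.ofReal ((β + 64 * p) / η ^ 2) := by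
  have hη0 : 0 < η0 := hη.trans_le hηη
  obtain ⟨P, hP⟩ : ∃ P, P = Measure.infinitePi fun _ : Zd d => μ := ⟨_, rfl⟩
  have hPp : IsProbabilityMeasure P := by rw [hP]; infer_instance
  have hPc : P.real Gᶜ ≤ p := by
    rw [measureReal_compl hG, probReal_univ]
    rw [← hP] at hp
    linarith
  have hp0 : 0 ≤ p := measureReal_nonneg.trans hPc
  have hbal : ∀ ω, (Summable fun x : Zd d => (x i : ℝ) ^ 2 * pb η0 (Ψ ω 0) x) ∧
      η0 ^ 2 * ∑' x : Zd d, (x i : ℝ) ^ 2 * pb η0 (Ψ ω 0) x ≤ 64 := fun ω =>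
    msdU (hΨ ω 0) η0 hη0 hη1 i
  have h1 : ∀ ω, ∑' z : Zd d, ENNReal.ofReal ((z i : ℝ) ^ 2 * pb η0 (Ψ ω 0) z) ≤
      ENNReal.ofReal (β / η0 ^ 2) +
        Gᶜ.indicator (fun _ => ENNReal.ofReal (64 / η0 ^ 2)) ω := by
    intro ω
    obtain ⟨s1, s2⟩ := hbal ω
    rw [← ENNReal.ofReal_tsum_of_nonneg (fun z => mul_nonneg (sq_nonneg _)
      (pb_nonneg η0 hη0 _ _)) s1]
    by_cases hω : ω ∈ G
    · rw [indicator_of_notMem (by simpa using hω), add_zero]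
      refine ENNReal.ofReal_le_ofReal ?_
      rw [le_div_iff₀ (by positivity)]
      have := hgood ω hω
      linarith
    · rw [indicator_of_mem (by simpa using hω)]
      refine le_trans (ENNReal.ofReal_le_ofReal ?_) le_add_self
      rw [le_div_iff₀ (by positivity)]
      linarith
  have h2 : ∫⁻ ω, ∑' z : Zd d, ENNReal.ofReal ((z i : ℝ) ^ 2 * pb η0 (Ψ ω 0) z) ∂P ≤
      ENNReal.ofReal ((β + 64 * p) / η0 ^ 2) := by
    refine (lintegral_mono h1).trans ?_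
    rw [lintegral_add_left measurable_const, lintegral_const, measure_univ, mul_one,
      lintegral_indicator_const hG.compl]
    have h3 : P Gᶜ = ENNReal.ofReal (P.real Gᶜ) := (ofReal_measureReal).symm
    rw [h3, ← ENNReal.ofReal_mul (by positivity), ← ENNReal.ofReal_add (by positivity)
      (by positivity)]
    refine ENNReal.ofReal_le_ofReal ?_
    rw [div_mul_eq_mul_div, ← add_div]
    gcongr
  rw [hP, msd_lint μ f hf Ψ hΨ η0 hη0 i] at h2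
  have hm0 : ∀ η, 0 < η → ∀ z : Zd d, 0 ≤ (z i : ℝ) ^ 2 *
      ∫ ω, pb η (Ψ ω 0) z ∂(Measure.infinitePi fun _ : Zd d => μ) := fun η hη z =>
    mul_nonneg (sq_nonneg _) (integral_nonneg fun ω => pb_nonneg η hη _ _)
  have h4 : Summable fun z : Zd d => (z i : ℝ) ^ 2 *
      ∫ ω, pb η0 (Ψ ω 0) z ∂(Measure.infinitePi fun _ : Zd d => μ) := by
    have h5 := ENNReal.summable_toReal (ne_top_of_le_ne_top ENNReal.ofReal_ne_top h2)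
    refine h5.congr fun z => ?_
    rw [ENNReal.toReal_ofReal (hm0 η0 hη0 z)]
  rw [← ENNReal.ofReal_tsum_of_nonneg (hm0 η0 hη0) h4] at h2
  have hb0 : 0 ≤ (β + 64 * p) / η0 ^ 2 := by positivity
  have h6 := (ENNReal.ofReal_le_ofReal_iff hb0).1 h2
  obtain ⟨h7, h8⟩ := msd_mono μ f hf Ψ hΨ i η η0 hη hηη h4
  rw [msd_lint μ f hf Ψ hΨ η hη i, ← ENNReal.ofReal_tsum_of_nonneg (hm0 η hη) h7]
  refine ENNReal.ofReal_le_ofReal ?_
  rw [le_div_iff₀ (by positivity)]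
  rw [le_div_iff₀ (by positivity)] at h6
  linarith

end main

/-- the second moments for two potentials which agree in a box -/
theorem msd_close {V V' : Zd d → ℝ} {ψ ψ' : ℝ → Zd d → ℂ} (h : Sol d V 0 ψ) (h' : Sol d V' 0 ψ')
    (η : ℝ) (hη : 0 < η) (hη1 : η ≤ 1) (n : ℕ) (hn : 1 ≤ n)
    (hV : ∀ x, ‖x‖ ≤ n + 1 → V x = V' x) (i : Fin d) (r : ℝ) (hr : 0 < r) :
    ∑' z : Zd d, (z i : ℝ) ^ 2 * pb η ψ z ≤ ∑' z : Zd d, (z i : ℝ) ^ 2 * pb η ψ' z +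
      r ^ 2 * (64 * d / n / η) + 12288 / (η ^ 4 * r ^ 2) := by
  obtain ⟨θ, hθd⟩ : ∃ θ : Zd d → ℝ, θ = fun z => if |(z i : ℝ)| ≤ r then (z i : ℝ) ^ 2 / r ^ 2
    else 0 := ⟨_, rfl⟩
  have hθ : ∀ z, |θ z| ≤ 1 := by
    intro z
    rw [hθd]
    simp only
    split_ifs with hz
    · rw [abs_of_nonneg (by positivity), div_le_one (by positivity), ← sq_abs (z i : ℝ)]
      exact pow_le_pow_left₀ (abs_nonneg _) hz 2
    · rw [abs_zero]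
      exact zero_le_one
  obtain ⟨t1, t2⟩ := msd_tail h η hη hη1 i r hr
  have h1 := (abs_le.1 (pb_close h h' η hη θ hθ n hn hV)).2
  have hs := (pb_sum h η hη θ hθ).2.summable
  have hs' := (pb_sum h' η hη θ hθ).2.summable
  have e1 : ∀ z : Zd d, (z i : ℝ) ^ 2 * pb η ψ z = r ^ 2 * (θ z * pb η ψ z) +
      (if |(z i : ℝ)| ≤ r then 0 else (z i : ℝ) ^ 2) * pb η ψ z := by
    intro z
    rw [hθd]
    simp only
    split_ifs
    · field_simp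
      ring
    · ring
  rw [tsum_congr e1, (hs.mul_left _).tsum_add t1, tsum_mul_left]
  have h2 : r ^ 2 * ∑' z, θ z * pb η ψ' z ≤ ∑' z : Zd d, (z i : ℝ) ^ 2 * pb η ψ' z := by
    rw [← tsum_mul_left]
    refine Summable.tsum_le_tsum (fun z => ?_) (hs'.mul_left _) (msdU h' η hη hη1 i).1
    rw [← mul_assoc]
    refine mul_le_mul_of_nonneg_right ?_ (pb_nonneg η hη _ _)
    rw [hθd]
    simp only
    split_ifs
    · exact le_of_eq (by field_simp)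
    · rw [mul_zero]
      positivity
  have h3 : r ^ 2 * ∑' z, θ z * pb η ψ z ≤ r ^ 2 * (∑' z, θ z * pb η ψ' z + 64 * d / n / η) :=
    mul_le_mul_of_nonneg_left (by linarith) (sq_nonneg _)
  rw [mul_add] at h3
  linarith

/-- stretched exponentials are smaller than powers -/
theorem ev_exp (a b K k : ℝ) (ha : 0 < a) (hb : 0 < b) : ∀ᶠ σ : ℝ in 𝓝[>] 0,
    K * Real.exp (-(b * σ ^ (-a))) ≤ σ ^ k := by
  have h1 : Tendsto (fun σ : ℝ => σ ^ (-a)) (𝓝[>] 0) atTop := tendsto_rpow_neg_nhdsGT_zero (by linarith)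
  have h2 := (tendsto_rpow_mul_exp_neg_mul_atTop_nhds_zero (k / a) b hb).comp h1
  have h3 := h2.const_mul K
  rw [mul_zero] at h3
  filter_upwards [h3.eventually (ge_mem_nhds one_pos), self_mem_nhdsWithin] with σ h4 hσ
  have hσ0 : (0 : ℝ) < σ := hσ
  simp only [Function.comp_apply] at h4
  have e1 : (σ ^ (-a)) ^ (k / a) = (σ ^ k)⁻¹ := by
    rw [← Real.rpow_mul hσ0.le, ← Real.rpow_neg hσ0.le]
    congr 1
    field_simp
  have hp : 0 < σ ^ k := Real.rpow_pos_of_pos hσ0 k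
  rw [e1] at h4
  have h5 := mul_le_mul_of_nonneg_left h4 hp.le
  calc K * Real.exp (-(b * σ ^ (-a))) =
      σ ^ k * (K * ((σ ^ k)⁻¹ * Real.exp (-b * σ ^ (-a)))) := by
        rw [neg_mul]
        field_simp
    _ ≤ σ ^ k * 1 := h5
    _ = _ := mul_one _

/-- the numerical relations between the Gaussian coupling and the clipped coupling -/
theorem numH (d : ℕ) (hd : 3 ≤ d) (c0 : ℝ) (hc0 : 0 < c0) : ∀ᶠ σ : ℝ in 𝓝[>] 0,
    σ ≤ 1 ∧ 0 < σ ^ (-(1 / 17000) : ℝ) ∧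
    σ * σ ^ (-(1 / 17000) : ℝ) = σ ^ (16999 / 17000 : ℝ) ∧
    σ ^ (16999 / 17000 : ℝ) ≤ c0 ∧ σ ^ (16999 / 17000 : ℝ) ≤ 1 ∧
    (σ ^ (16999 / 17000 : ℝ)) ^ (1 / 8000 : ℝ) * (σ ^ (16999 / 17000 : ℝ)) ^ 2 ≤
      (σ ^ (16999 / 17000 : ℝ)) ^ 2 *
        ∫ s, (cl (σ ^ (-(1 / 17000) : ℝ)) s) ^ 2 ∂(gaussianReal 0 1) ∧
    σ ^ (83 / 41 : ℝ) ≤ (σ ^ (16999 / 17000 : ℝ)) ^ (83 / 41 : ℝ) ∧
    (σ ^ (16999 / 17000 : ℝ)) ^ (83 / 41 : ℝ) ≤ σ ^ (1 / 42 : ℝ) *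
      ((σ ^ (16999 / 17000 : ℝ)) ^ (1 / 8000 : ℝ) * (σ ^ (16999 / 17000 : ℝ)) ^ 2) ∧
    (σ ^ (-6 : ℝ)) ^ 2 * (64 * d / (⌈σ ^ (-20 : ℝ)⌉₊ : ℝ)) ≤ 1 / 4 * σ ^ (1 / 42 : ℝ) ∧
    12288 / (σ ^ (166 / 41 : ℝ) * (σ ^ (-6 : ℝ)) ^ 2) ≤ 1 / 4 * σ ^ (1 / 42 : ℝ) ∧
    64 * Real.exp (-(σ ^ (16999 / 17000 : ℝ)) ^ (-(1 / 101) : ℝ)) ≤ 1 / 4 * σ ^ (1 / 42 : ℝ) ∧
    64 * (1 - (Measure.infinitePi fun _ : Zd d => gaussianReal 0 1).real
      (ev d (⌈σ ^ (-20 : ℝ)⌉₊ + 1) (σ ^ (-(1 / 17000) : ℝ)))) ≤ 1 / 4 * σ ^ (1 / 42 : ℝ) := by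
  obtain ⟨v0, hv0⟩ : ∃ v0, v0 = ∫ s, (cl 1 s) ^ 2 ∂(gaussianReal 0 1) := ⟨_, rfl⟩
  have hv0p : 0 < v0 := by
    rw [hv0]
    exact v0_pos
  have hmem : Set.Ioc (0 : ℝ) 1 ∈ 𝓝[>] (0 : ℝ) := Ioc_mem_nhdsGT one_pos
  filter_upwards [hmem, ev1 (1 / c0) (16999 / 17000) (by norm_num),
    ev1 (1 / v0) (999 / 136000000) (by norm_num), ev1 (256 * d) (8 - 1 / 42) (by norm_num),
    ev1 49152 (12 - 166 / 41 - 1 / 42) (by norm_num),
    ev_exp (16999 / 17000 / 101) 1 256 (1 / 42) (by norm_num) (by norm_num),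
    ev_exp (1 / 8500) (1 / 2) (512 * 7 ^ d) (1 / 42 + 20 * d) (by norm_num) (by norm_num)]
    with σ hσ n1 n2 n3 n4 n5 n6
  obtain ⟨hσ0, hσ1⟩ := hσ
  have hpos : ∀ p : ℝ, 0 < σ ^ p := fun p => Real.rpow_pos_of_pos hσ0 p
  have hadd : ∀ p q : ℝ, σ ^ p * σ ^ q = σ ^ (p + q) := fun p q => (Real.rpow_add hσ0 p q).symm
  have hmul : ∀ p q : ℝ, (σ ^ p) ^ q = σ ^ (p * q) := fun p q => (Real.rpow_mul hσ0.le p q).symm
  have hsq : ∀ p : ℝ, (σ ^ p) ^ 2 = σ ^ (p * 2) := fun p => by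
    rw [← Real.rpow_natCast (σ ^ p) 2, hmul]
    norm_num
  have hmono : ∀ p q : ℝ, q ≤ p → σ ^ p ≤ σ ^ q := fun p q h =>
    Real.rpow_le_rpow_of_exponent_ge hσ0 hσ1 h
  have hB1 : 1 ≤ σ ^ (-(1 / 17000) : ℝ) :=
    Real.one_le_rpow_of_pos_of_le_one_of_nonpos hσ0 hσ1 (by norm_num)
  refine ⟨hσ1, hpos _, ?_, ?_, ?_, ?_, ?_, ?_, ?_, ?_, ?_, ?_⟩
  · nth_rewrite 1 [← Real.rpow_one σ]
    rw [hadd]
    norm_num
  · rw [div_mul_eq_mul_div, one_mul, div_le_one hc0] at n1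
    exact n1
  · exact Real.rpow_le_one hσ0.le hσ1 (by norm_num)
  · have h1 := var_low (σ ^ (-(1 / 17000) : ℝ)) hB1
    rw [← hv0] at h1
    have h2 : (σ ^ (16999 / 17000 : ℝ)) ^ (1 / 8000 : ℝ) ≤ v0 / (σ ^ (-(1 / 17000) : ℝ)) ^ 2 := by
      rw [le_div_iff₀ (by positivity), hsq, hmul, hadd]
      rw [div_mul_eq_mul_div, one_mul, div_le_one hv0p] at n2
      refine le_trans (le_of_eq ?_) n2
      congr 1
      norm_num
    rw [mul_comm]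
    exact mul_le_mul_of_nonneg_left (h2.trans h1) (sq_nonneg _)
  · rw [hmul]
    exact hmono _ _ (by norm_num)
  · rw [hmul, hmul, hsq, hadd, hadd]
    exact hmono _ _ (by norm_num)
  · have h3 := Nat.le_ceil (σ ^ (-20 : ℝ))
    have h4 := hpos (-20)
    have h5 : 0 < (⌈σ ^ (-20 : ℝ)⌉₊ : ℝ) := by linarith
    calc (σ ^ (-6 : ℝ)) ^ 2 * (64 * d / (⌈σ ^ (-20 : ℝ)⌉₊ : ℝ)) ≤
        (σ ^ (-6 : ℝ)) ^ 2 * (64 * d / σ ^ (-20 : ℝ)) := by gcongr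
      _ = 1 / 4 * ((256 * d * σ ^ (8 - 1 / 42 : ℝ)) * σ ^ (1 / 42 : ℝ)) := by
          have e1 : σ ^ (8 - 1 / 42 : ℝ) * σ ^ (1 / 42 : ℝ) = σ ^ (8 : ℝ) := by
            rw [hadd]
            norm_num
          have e2 : (σ ^ (-6 : ℝ)) ^ 2 * (σ ^ (-20 : ℝ))⁻¹ = σ ^ (8 : ℝ) := by
            rw [hsq, ← Real.rpow_neg hσ0.le, hadd]
            norm_num
          rw [mul_assoc (256 * (d : ℝ)), e1, div_eq_mul_inv, ← e2]
          ring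
      _ ≤ 1 / 4 * (1 * σ ^ (1 / 42 : ℝ)) := by
          have := hpos (1 / 42)
          gcongr
      _ = _ := by rw [one_mul]
  · have e1 : σ ^ (166 / 41 : ℝ) * (σ ^ (-6 : ℝ)) ^ 2 = σ ^ (-(12 - 166 / 41) : ℝ) := by
      rw [hsq, hadd]
      norm_num
    rw [e1, Real.rpow_neg hσ0.le, div_inv_eq_mul]
    have e2 : σ ^ (12 - 166 / 41 : ℝ) = σ ^ (12 - 166 / 41 - 1 / 42 : ℝ) * σ ^ (1 / 42 : ℝ) := by
      rw [hadd]
      norm_num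
    rw [e2]
    have h5 := mul_le_mul_of_nonneg_right n4 (hpos (1 / 42)).le
    linarith
  · rw [hmul]
    have e1 : (16999 / 17000 : ℝ) * -(1 / 101) = -(16999 / 17000 / 101) := by ring
    rw [e1]
    rw [one_mul] at n5
    linarith
  · have h6 := ev_prob (d := d) (⌈σ ^ (-20 : ℝ)⌉₊ + 1) (σ ^ (-(1 / 17000) : ℝ)) (hpos _)
    have h3 : (1 : ℝ) ≤ σ ^ (-20 : ℝ) :=
      Real.one_le_rpow_of_pos_of_le_one_of_nonpos hσ0 hσ1 (by norm_num)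
    have h4 : 2 * ((⌈σ ^ (-20 : ℝ)⌉₊ + 1 : ℕ) : ℝ) + 1 ≤ 7 * σ ^ (-20 : ℝ) := by
      have h5 := Nat.ceil_lt_add_one (hpos (-20)).le
      push_cast
      linarith
    have h7 : (2 * ((⌈σ ^ (-20 : ℝ)⌉₊ + 1 : ℕ) : ℝ) + 1) ^ d *
        (2 * Real.exp (-((σ ^ (-(1 / 17000) : ℝ)) ^ 2 / 2))) ≤
        (7 * σ ^ (-20 : ℝ)) ^ d * (2 * Real.exp (-((σ ^ (-(1 / 17000) : ℝ)) ^ 2 / 2))) := by
      gcongr
    have e1 : (σ ^ (-(1 / 17000) : ℝ)) ^ 2 / 2 = 1 / 2 * σ ^ (-(1 / 8500) : ℝ) := by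
      rw [hsq]
      have e2 : (-(1 / 17000) : ℝ) * 2 = -(1 / 8500) := by norm_num
      rw [e2]
      ring
    have e3 : (7 * σ ^ (-20 : ℝ)) ^ d = 7 ^ d * σ ^ (-(20 * d) : ℝ) := by
      rw [mul_pow, ← Real.rpow_natCast (σ ^ (-20 : ℝ)) d, hmul]
      congr 2
      ring
    rw [e1] at h6 h7
    rw [e3] at h7
    have h8 := mul_le_mul_of_nonneg_left n6 (hpos (-(20 * d))).le
    rw [hadd] at h8
    have e4 : (-(20 * d : ℝ)) + (1 / 42 + 20 * d) = 1 / 42 := by ring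
    rw [e4] at h8
    have h9 : σ ^ (-(20 * d) : ℝ) * (512 * 7 ^ d * Real.exp (-(1 / 2 * σ ^ (-(1 / 8500) : ℝ)))) =
        256 * (7 ^ d * σ ^ (-(20 * d) : ℝ) *
          (2 * Real.exp (-(1 / 2 * σ ^ (-(1 / 8500) : ℝ))))) := by ring
    rw [h9] at h8
    push_cast at h6 h7 h8 ⊢
    linarith

/-- **Gaussian disorder: no ballistic motion at any time, with a rate** -/
theorem S2G (d : ℕ) (hd : 3 ≤ d) : ∃ σ0 : ℝ, 0 < σ0 ∧ σ0 ≤ 1 ∧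
    ∀ σ : ℝ, 0 < σ → σ ≤ σ0 → ∀ (i : Fin d) (η : ℝ), 0 < η → η ≤ σ ^ (83 / 41 : ℝ) →
      ∫⁻ ξ, ∑' z : Zd d, ENNReal.ofReal ((z i : ℝ) ^ 2 *
        pb η (ev0 (fun x => 2 * (d : ℝ) - σ * ξ x) 0) z)
        ∂(Measure.infinitePi fun _ : Zd d => gaussianReal 0 1) ≤
        ENNReal.ofReal (21 * d * σ ^ (1 / 42 : ℝ) / η ^ 2) := by
  have hd1 : (1 : ℝ) ≤ d := by exact_mod_cast (by omega : 1 ≤ d)
  obtain ⟨c0, hc0, hc01, h⟩ := msd3v d hd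
  obtain ⟨σ0, hσ0, hσ01, hnum⟩ := ev_extract (numH d hd c0 hc0)
  refine ⟨σ0, hσ0, hσ01, fun σ hσ hσσ i η hη hηη => ?_⟩
  obtain ⟨q1, hB0, hcB, hcc, hc1, hvar, hη83, hrat, m1, m2, m3, m4⟩ := hnum σ hσ hσσ
  have hpos : ∀ p : ℝ, 0 < σ ^ p := fun p => Real.rpow_pos_of_pos hσ p
  have h42 := hpos (1 / 42)
  obtain ⟨B, hB⟩ : ∃ B, B = σ ^ (-(1 / 17000) : ℝ) := ⟨_, rfl⟩
  obtain ⟨c, hc⟩ : ∃ c, c = σ ^ (16999 / 17000 : ℝ) := ⟨_, rfl⟩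
  rw [← hB] at hB0 hcB hvar m4
  rw [← hc] at hcB hcc hc1 hvar hη83 hrat m3
  have hc0' : 0 < c := by rw [hc]; exact hpos _
  obtain ⟨n, hn⟩ : ∃ n : ℕ, n = ⌈σ ^ (-20 : ℝ)⌉₊ := ⟨_, rfl⟩
  rw [← hn] at m1 m4
  have hn1 : 1 ≤ n := by
    rw [hn]
    exact Nat.one_le_iff_ne_zero.2 (Nat.ceil_pos.2 (hpos _)).ne'
  obtain ⟨r, hr⟩ : ∃ r, r = σ ^ (-6 : ℝ) := ⟨_, rfl⟩
  rw [← hr] at m1 m2
  have hr0 : 0 < r := by rw [hr]; exact hpos _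
  obtain ⟨s2, hs2⟩ : ∃ s2, s2 = c ^ 2 * ∫ s, (cl B s) ^ 2 ∂(gaussianReal 0 1) := ⟨_, rfl⟩
  rw [← hs2] at hvar
  have hs20 : 0 < s2 := lt_of_lt_of_le (by positivity) hvar
  obtain ⟨G, hG, hP, hL⟩ := h c hc0' hcc (mc B c) inferInstance (mc_bdd B c hc0'.le)
    (mc_mean B c) s2 (by rw [mc_var B c, hs2]) hvar
  obtain ⟨η0, hη0⟩ : ∃ η0, η0 = c ^ (83 / 41 : ℝ) := ⟨_, rfl⟩
  rw [← hη0] at hη83 hrat
  have hη0p : 0 < η0 := by rw [hη0]; exact Real.rpow_pos_of_pos hc0' _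
  have hη01 : η0 ≤ 1 := by rw [hη0]; exact Real.rpow_le_one hc0'.le hc1 (by norm_num)
  have hη0l : c ^ (81 / 40 : ℝ) ≤ η0 := by
    rw [hη0]
    exact Real.rpow_le_rpow_of_exponent_ge hc0' hc1 (by norm_num)
  have h421 : σ ^ (1 / 42 : ℝ) ≤ 1 := Real.rpow_le_one hσ.le q1 (by norm_num)
  have hrat2 : η0 ≤ σ ^ (1 / 42 : ℝ) * s2 :=
    hrat.trans (mul_le_mul_of_nonneg_left hvar h42.le)
  have hη0s : η0 ≤ s2 := hrat2.trans (mul_le_of_le_one_left hs20.le h421)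
  have hrat3 : η0 / s2 ≤ σ ^ (1 / 42 : ℝ) := by
    rw [div_le_iff₀ hs20]
    exact hrat2
  -- the event
  have hTm : Measurable (fun (ξ : Zd d → ℝ) x => -(c * cl B (ξ x))) :=
    measurable_pi_lambda _ fun x => (mcm B c).comp (measurable_pi_apply x)
  have hlaw : (Measure.infinitePi fun _ : Zd d => gaussianReal 0 1).map
      (fun (ξ : Zd d → ℝ) x => -(c * cl B (ξ x))) =
      Measure.infinitePi fun _ : Zd d => mc B c :=
    Measure.infinitePi_map_pi (μ := fun _ : Zd d => gaussianReal 0 1)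
      (f := fun _ (s : ℝ) => -(c * cl B s)) (fun _ => mcm B c)
  have hEm := ev_meas (d := d) (n + 1) B
  obtain ⟨A, hA⟩ : ∃ A : Set (Zd d → ℝ), A = (fun (ξ : Zd d → ℝ) x => -(c * cl B (ξ x))) ⁻¹' G :=
    ⟨_, rfl⟩
  have hAm : MeasurableSet A := by rw [hA]; exact hTm hG
  obtain ⟨P, hPd⟩ : ∃ P, P = Measure.infinitePi fun _ : Zd d => gaussianReal 0 1 := ⟨_, rfl⟩
  have hPp : IsProbabilityMeasure P := by rw [hPd]; infer_instance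
  have hPA : 1 - Real.exp (-c ^ (-(1 / 101) : ℝ)) ≤ P.real A := by
    rw [← hlaw, map_measureReal_apply hTm hG] at hP
    rw [hA, hPd]
    exact hP
  obtain ⟨p, hp⟩ : ∃ p, p = Real.exp (-c ^ (-(1 / 101) : ℝ)) + (1 - P.real (ev d (n + 1) B)) :=
    ⟨_, rfl⟩
  have hpG : 1 - p ≤ (Measure.infinitePi fun _ : Zd d => gaussianReal 0 1).real
      (A ∩ ev d (n + 1) B) := by
    rw [← hPd]
    have h5 : P.real (A ∩ ev d (n + 1) B)ᶜ ≤ P.real Aᶜ + P.real (ev d (n + 1) B)ᶜ := by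
      rw [compl_inter]
      exact measureReal_union_le _ _
    rw [measureReal_compl (hAm.inter hEm), measureReal_compl hAm, measureReal_compl hEm,
      probReal_univ] at h5
    rw [hp]
    linarith
  have hβ : ∀ ξ ∈ A ∩ ev d (n + 1) B, η0 ^ 2 * ∑' z : Zd d, (z i : ℝ) ^ 2 *
      pb η0 (ev0 (fun x => 2 * (d : ℝ) - σ * ξ x) 0) z ≤
      20 * d * σ ^ (1 / 42 : ℝ) + 1 / 4 * σ ^ (1 / 42 : ℝ) + 1 / 4 * σ ^ (1 / 42 : ℝ) := by
    intro ξ hξ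
    obtain ⟨hξA, hξe⟩ := hξ
    rw [hA] at hξA
    obtain ⟨-, hL2⟩ := hL _ hξA
    obtain ⟨-, g2⟩ := hL2 (ev0 (fun x => 2 * (d : ℝ) + -(c * cl B (ξ x))) 0) (ev0_sol _ 0) η0 hη0l
      hη0s i
    have h1 := msd_close (ev0_sol (fun x => 2 * (d : ℝ) - σ * ξ x) 0)
      (ev0_sol (fun x => 2 * (d : ℝ) + -(c * cl B (ξ x))) 0) η0 hη0p hη01 n hn1 (fun x hx => by
        have h1 := ev_mem (n + 1) B ξ hξe x (by push_cast; exact hx)
        rw [cl_eq B _ hB0 h1, ← hcB]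
        field_simp
        ring) i r hr0
    have h2 := mul_le_mul_of_nonneg_left h1 (sq_nonneg η0)
    refine h2.trans ?_
    rw [mul_add, mul_add]
    have h3 : η0 ^ 2 * (r ^ 2 * (64 * d / n / η0)) ≤ 1 / 4 * σ ^ (1 / 42 : ℝ) := by
      have e1 : η0 ^ 2 * (r ^ 2 * (64 * d / n / η0)) = η0 * (r ^ 2 * (64 * d / n)) := by
        field_simp
      rw [e1]
      exact (mul_le_of_le_one_left (by positivity) hη01).trans m1
    have h4 : η0 ^ 2 * (12288 / (η0 ^ 4 * r ^ 2)) ≤ 1 / 4 * σ ^ (1 / 42 : ℝ) := by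
      refine le_trans ?_ m2
      have e1 : η0 ^ 2 * (12288 / (η0 ^ 4 * r ^ 2)) = 12288 / (η0 ^ 2 * r ^ 2) := by
        field_simp
      have e2 : σ ^ (166 / 41 : ℝ) ≤ η0 ^ 2 := by
        have e3 : σ ^ (166 / 41 : ℝ) = (σ ^ (83 / 41 : ℝ)) ^ 2 := by
          rw [← Real.rpow_natCast (σ ^ (83 / 41 : ℝ)) 2, ← Real.rpow_mul hσ.le]
          norm_num
        rw [e3]
        exact pow_le_pow_left₀ (hpos _).le hη83 2
      rw [e1]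
      have := hpos (166 / 41)
      gcongr
    have h5 : 20 * d * (η0 / s2) ≤ 20 * d * σ ^ (1 / 42 : ℝ) := by gcongr
    linarith
  refine (fromGoodU (d := d) (gaussianReal 0 1) (fun s : ℝ => 2 * (d : ℝ) - σ * s)
    (by fun_prop) (fun ξ a => ev0 (fun x => 2 * (d : ℝ) - σ * ξ x) a) (fun ξ a => ev0_sol _ a)
    i η η0 hη (hηη.trans hη83) hη01 (A ∩ ev d (n + 1) B) (hAm.inter hEm) p _ hpG
    (by positivity) hβ).trans (ENNReal.ofReal_le_ofReal ?_)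
  rw [← hPd] at m4
  have h6 : 64 * p ≤ 1 / 4 * σ ^ (1 / 42 : ℝ) + 1 / 4 * σ ^ (1 / 42 : ℝ) := by
    rw [hp]
    linarith
  gcongr
  nlinarith

/-- the same for solutions given almost surely -/
theorem S2Gw (d : ℕ) (hd : 3 ≤ d) : ∃ σ0 : ℝ, 0 < σ0 ∧ σ0 ≤ 1 ∧
    ∀ σ : ℝ, 0 < σ → σ ≤ σ0 →
    ∀ ψ : (Zd d → ℝ) → ℝ → Zd d → ℂ,
      (∀ᵐ ξ ∂(Measure.infinitePi fun _ : Zd d => gaussianReal 0 1),
      Sol d (fun x => 2 * (d : ℝ) - σ * ξ x) 0 (ψ ξ)) →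
    ∀ (i : Fin d) (η : ℝ), 0 < η → η ≤ σ ^ (83 / 41 : ℝ) →
      ∫⁻ ξ, ∑' z : Zd d, ENNReal.ofReal ((z i : ℝ) ^ 2 * pb η (ψ ξ) z)
        ∂(Measure.infinitePi fun _ : Zd d => gaussianReal 0 1) ≤
        ENNReal.ofReal (21 * d * σ ^ (1 / 42 : ℝ) / η ^ 2) := by
  obtain ⟨σ0, hσ0, hσ01, h⟩ := S2G d hd
  refine ⟨σ0, hσ0, hσ01, fun σ hσ hσσ ψ hψ i η hη hηη => ?_⟩
  have h4 : (fun ξ => ∑' z : Zd d, ENNReal.ofReal ((z i : ℝ) ^ 2 * pb η (ψ ξ) z))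
      =ᵐ[Measure.infinitePi fun _ : Zd d => gaussianReal 0 1]
      fun ξ => ∑' z : Zd d, ENNReal.ofReal ((z i : ℝ) ^ 2 *
        pb η (ev0 (fun x => 2 * (d : ℝ) - σ * ξ x) 0) z) := by
    filter_upwards [hψ] with ξ hξ
    exact tsum_congr fun z => by rw [pb_eq hξ (ev0_sol _ 0) η hη z]
  rw [lintegral_congr_ae h4]
  exact h σ hσ hσσ i η hη hηη

end Pool.Agent.R988.Tor
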