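import Mathlib

/-! Linear algebra of an orthonormal basis of eigenvectors on a finite set: the averaged resolvent
against a positive definite kernel bounds the averaged eigenvectors. -/

set_option autoImplicit false
set_option linter.unusedSectionVars false
set_option linter.unusedVariables false

open scoped BigOperators ComplexConjugate

namespace Pool.Agent.R988.LA

variable {T ι : Type} [Fintype T] [Fintype ι]

/-- the kernel `∑ w_j ψ_j(x) conj ψ_j(a)` -/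
noncomputable def K (ψ : ι → T → ℂ) (w : ι → ℂ) (x a : T) : ℂ :=
  ∑ j, w j * (ψ j x * conj (ψ j a))

theorem psd (ψ : ι → T → ℂ) (w : ι → ℝ) (hw : ∀ j, 0 ≤ w j) (X : T → ℂ) :
    ∑ j, (w j) ^ 2 * ‖∑ x, X x * ((‖ψ j x‖ ^ 2 : ℝ) : ℂ)‖ ^ 2 ≤
      (∑ x, ∑ a, X x * conj (X a) * ((‖K ψ (fun j => (w j : ℂ)) x a‖ ^ 2 : ℝ) : ℂ)).re := by
  have h1 : ∀ z : ℂ, ((‖z‖ ^ 2 : ℝ) : ℂ) = z * conj z := by
    intro z
    rw [Complex.mul_conj, Complex.normSq_eq_norm_sq]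
  obtain ⟨M, hM⟩ : ∃ M : ι → ι → ℂ, M = fun j k => ∑ x, X x * (ψ j x * conj (ψ k x)) := ⟨_, rfl⟩
  have h2 : ∑ x, ∑ a, X x * conj (X a) * ((‖K ψ (fun j => (w j : ℂ)) x a‖ ^ 2 : ℝ) : ℂ) =
      ∑ j, ∑ k, ((w j * w k * ‖M j k‖ ^ 2 : ℝ) : ℂ) := by
    have e1 : ∀ x a, X x * conj (X a) * ((‖K ψ (fun j => (w j : ℂ)) x a‖ ^ 2 : ℝ) : ℂ) =
        ∑ j, ∑ k, (w j : ℂ) * (w k : ℂ) * ((X x * (ψ j x * conj (ψ k x))) *
          (conj (X a) * (conj (ψ j a) * ψ k a))) := by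
      intro x a
      rw [h1]
      unfold K
      rw [map_sum, Finset.sum_mul_sum, Finset.mul_sum]
      refine Finset.sum_congr rfl fun j _ => ?_
      rw [Finset.mul_sum]
      refine Finset.sum_congr rfl fun k _ => ?_
      simp only [map_mul, Complex.conj_conj, Complex.conj_ofReal]
      ring
    simp only [e1]
    have e2 : ∀ x, ∑ a, ∑ j, ∑ k, (w j : ℂ) * (w k : ℂ) * ((X x * (ψ j x * conj (ψ k x))) *
          (conj (X a) * (conj (ψ j a) * ψ k a))) =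
        ∑ j, ∑ k, ∑ a, (w j : ℂ) * (w k : ℂ) * ((X x * (ψ j x * conj (ψ k x))) *
          (conj (X a) * (conj (ψ j a) * ψ k a))) := by
      intro x
      rw [Finset.sum_comm]
      refine Finset.sum_congr rfl fun j _ => ?_
      rw [Finset.sum_comm]
    simp only [e2]
    rw [Finset.sum_comm]
    refine Finset.sum_congr rfl fun j _ => ?_
    rw [Finset.sum_comm]
    refine Finset.sum_congr rfl fun k _ => ?_
    have e3 : ∀ x, ∑ a, (w j : ℂ) * (w k : ℂ) * ((X x * (ψ j x * conj (ψ k x))) *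
          (conj (X a) * (conj (ψ j a) * ψ k a))) =
        (w j : ℂ) * (w k : ℂ) * ((X x * (ψ j x * conj (ψ k x))) *
          ∑ a, (conj (X a) * (conj (ψ j a) * ψ k a))) := by
      intro x
      rw [Finset.mul_sum, Finset.mul_sum]
    simp only [e3]
    rw [← Finset.mul_sum, ← Finset.sum_mul]
    have e4 : ∑ a, (conj (X a) * (conj (ψ j a) * ψ k a)) = conj (M j k) := by
      rw [hM]
      simp only [map_sum, map_mul, Complex.conj_conj]
    have e5 : ∑ x, X x * (ψ j x * conj (ψ k x)) = M j k := by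
      rw [hM]
    rw [e4, e5, ← h1]
    push_cast
    ring
  rw [h2]
  simp only [← Complex.ofReal_sum, Complex.ofReal_re]
  refine Finset.sum_le_sum fun j _ => ?_
  have e6 : (w j) ^ 2 * ‖∑ x, X x * ((‖ψ j x‖ ^ 2 : ℝ) : ℂ)‖ ^ 2 =
      w j * w j * ‖M j j‖ ^ 2 := by
    have : M j j = ∑ x, X x * ((‖ψ j x‖ ^ 2 : ℝ) : ℂ) := by
      rw [hM]
      refine Finset.sum_congr rfl fun x _ => ?_
      rw [h1]
    rw [this]
    ring
  rw [e6]
  exact Finset.single_le_sum (f := fun k => w j * w k * ‖M j k‖ ^ 2)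
    (fun k _ => mul_nonneg (mul_nonneg (hw j) (hw k)) (sq_nonneg _)) (Finset.mem_univ j)

/-- the kernel of the resolvent -/
noncomputable def G (ψ : ι → T → ℂ) (E : ι → ℝ) (e η : ℝ) (x a : T) : ℂ :=
  K ψ (fun j => 1 / ((E j : ℂ) - (e + η * Complex.I))) x a

/-- `Im (1/(E_j - e - iη))` -/
noncomputable def im (E : ι → ℝ) (e η : ℝ) (j : ι) : ℝ := η / ((E j - e) ^ 2 + η ^ 2)

theorem im_kernel (ψ : ι → T → ℂ) (E : ι → ℝ) (e η : ℝ) (hη : 0 < η) (x a : T) :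
    G ψ E e η x a - conj (G ψ E e η a x) =
      2 * Complex.I * K ψ (fun j => ((im E e η j : ℝ) : ℂ)) x a := by
  unfold G K
  rw [map_sum, ← Finset.sum_sub_distrib, Finset.mul_sum]
  refine Finset.sum_congr rfl fun j _ => ?_
  have hz : ((E j : ℂ) - (e + η * Complex.I)) ≠ 0 := by
    intro h
    have := congrArg Complex.im h
    simp at this
    exact hη.ne' this
  have hz' : ((E j : ℂ) - (e - η * Complex.I)) ≠ 0 := by
    intro h
    have := congrArg Complex.im h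
    simp at this
    exact hη.ne' this
  have e1 : conj (1 / ((E j : ℂ) - (e + η * Complex.I))) = 1 / ((E j : ℂ) - (e - η * Complex.I)) := by
    rw [map_div₀, map_sub, map_add, map_mul, map_one, Complex.conj_ofReal, Complex.conj_ofReal,
      Complex.conj_ofReal, Complex.conj_I]
    congr 2
    ring
  have e2 : 1 / ((E j : ℂ) - (e + η * Complex.I)) - 1 / ((E j : ℂ) - (e - η * Complex.I)) =
      2 * Complex.I * ((im E e η j : ℝ) : ℂ) := by
    unfold im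
    have h3 : ((E j - e) ^ 2 + η ^ 2 : ℝ) ≠ 0 := by positivity
    have h4 : (((E j : ℂ) - e) ^ 2 + (η : ℂ) ^ 2) ≠ 0 := by
      exact_mod_cast h3
    have h5 : ((E j : ℂ) - (e + η * Complex.I)) * ((E j : ℂ) - (e - η * Complex.I)) =
        ((E j : ℂ) - e) ^ 2 + (η : ℂ) ^ 2 := by
      ring_nf
      rw [Complex.I_sq]
      ring
    rw [div_sub_div _ _ hz hz', h5]
    push_cast
    rw [← mul_div_assoc]
    congr 1
    ring
  rw [map_mul, e1, map_mul, Complex.conj_conj]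
  linear_combination (ψ j x * conj (ψ j a)) * e2

/-- the imaginary part is bounded by the resolvent in the mean over a symmetric kernel -/
theorem im_le (ψ : ι → T → ℂ) (E : ι → ℝ) (e η : ℝ) (hη : 0 < η) (F : T → T → ℝ)
    (hF : ∀ x a, 0 ≤ F x a) (hs : ∀ x a, F x a = F a x) :
    ∑ x, ∑ a, F x a * ‖K ψ (fun j => ((im E e η j : ℝ) : ℂ)) x a‖ ^ 2 ≤
      ∑ x, ∑ a, F x a * ‖G ψ E e η x a‖ ^ 2 := by
  have h1 : ∀ x a, ‖K ψ (fun j => ((im E e η j : ℝ) : ℂ)) x a‖ ^ 2 ≤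
      (‖G ψ E e η x a‖ ^ 2 + ‖G ψ E e η a x‖ ^ 2) / 2 := by
    intro x a
    have h2 := im_kernel ψ E e η hη x a
    have h3 : 2 * ‖K ψ (fun j => ((im E e η j : ℝ) : ℂ)) x a‖ ≤
        ‖G ψ E e η x a‖ + ‖G ψ E e η a x‖ := by
      have h4 : ‖G ψ E e η x a - conj (G ψ E e η a x)‖ ≤ ‖G ψ E e η x a‖ + ‖G ψ E e η a x‖ := by
        refine (norm_sub_le _ _).trans ?_
        rw [RCLike.norm_conj]
      rw [h2, norm_mul, norm_mul, Complex.norm_I, mul_one] at h4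
      simpa using h4
    nlinarith [norm_nonneg (K ψ (fun j => ((im E e η j : ℝ) : ℂ)) x a),
      sq_nonneg (‖G ψ E e η x a‖ - ‖G ψ E e η a x‖), norm_nonneg (G ψ E e η x a),
      norm_nonneg (G ψ E e η a x)]
  have h5 : ∑ x, ∑ a, F x a * ‖G ψ E e η a x‖ ^ 2 = ∑ x, ∑ a, F x a * ‖G ψ E e η x a‖ ^ 2 := by
    rw [Finset.sum_comm]
    refine Finset.sum_congr rfl fun x _ => Finset.sum_congr rfl fun a _ => ?_
    rw [hs]
  calc ∑ x, ∑ a, F x a * ‖K ψ (fun j => ((im E e η j : ℝ) : ℂ)) x a‖ ^ 2 ≤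
      ∑ x, ∑ a, (F x a * ‖G ψ E e η x a‖ ^ 2 / 2 + F x a * ‖G ψ E e η a x‖ ^ 2 / 2) := by
        refine Finset.sum_le_sum fun x _ => Finset.sum_le_sum fun a _ => ?_
        have := mul_le_mul_of_nonneg_left (h1 x a) (hF x a)
        linarith
    _ = (∑ x, ∑ a, F x a * ‖G ψ E e η x a‖ ^ 2) / 2 +
        (∑ x, ∑ a, F x a * ‖G ψ E e η a x‖ ^ 2) / 2 := by
        simp only [Finset.sum_add_distrib, Finset.sum_div]
    _ = _ := by
        rw [h5]
        ring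

/-- the kernel `|1/n ∑ X_t(x) conj X_t(a)|²` -/
noncomputable def F {τ : Type} [Fintype τ] (X : τ → T → ℂ) (n : ℝ) (x a : T) : ℝ :=
  ‖(1 / n : ℝ) * ∑ t, X t x * conj (X t a)‖ ^ 2

theorem F_nonneg {τ : Type} [Fintype τ] (X : τ → T → ℂ) (n : ℝ) (x a : T) : 0 ≤ F X n x a :=
  sq_nonneg _

theorem F_symm {τ : Type} [Fintype τ] (X : τ → T → ℂ) (n : ℝ) (x a : T) : F X n x a = F X n a x := by
  unfold F
  have : ((1 / n : ℝ) : ℂ) * ∑ t, X t x * conj (X t a) =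
      conj (((1 / n : ℝ) : ℂ) * ∑ t, X t a * conj (X t x)) := by
    rw [map_mul, Complex.conj_ofReal, map_sum]
    congr 1
    refine Finset.sum_congr rfl fun t _ => ?_
    rw [map_mul, Complex.conj_conj]
    ring
  rw [this, RCLike.norm_conj]

theorem F_eq {τ : Type} [Fintype τ] (X : τ → T → ℂ) (n : ℝ) (x a : T) :
    ((F X n x a : ℝ) : ℂ) = ((1 / n : ℝ) : ℂ) ^ 2 * ∑ t, ∑ s, (X t x * conj (X s x)) *
      conj (X t a * conj (X s a)) := by
  unfold F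
  have h1 : ∀ z : ℂ, ((‖z‖ ^ 2 : ℝ) : ℂ) = z * conj z := by
    intro z
    rw [Complex.mul_conj, Complex.normSq_eq_norm_sq]
  rw [h1, map_mul, Complex.conj_ofReal, map_sum]
  have e1 : (((1 / n : ℝ) : ℂ) * ∑ t, X t x * conj (X t a)) *
      (((1 / n : ℝ) : ℂ) * ∑ t, conj (X t x * conj (X t a))) =
      ((1 / n : ℝ) : ℂ) ^ 2 * ((∑ t, X t x * conj (X t a)) * ∑ t, conj (X t x * conj (X t a))) := by
    ring
  rw [e1, Finset.sum_mul_sum]
  congr 1
  refine Finset.sum_congr rfl fun t _ => Finset.sum_congr rfl fun s _ => ?_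
  simp only [map_mul, Complex.conj_conj]
  ring

/-- **the averaged resolvent bounds the averaged eigenvectors** -/
theorem main {τ : Type} [Fintype τ] (ψ : ι → T → ℂ) (E : ι → ℝ) (e η : ℝ) (hη : 0 < η)
    (X : τ → T → ℂ) (n : ℝ) :
    ∑ j, (im E e η j) ^ 2 * ∑ x, ∑ a, F X n x a * (‖ψ j x‖ ^ 2 * ‖ψ j a‖ ^ 2) ≤
      (((1 / n : ℝ) : ℂ) ^ 2 * ∑ t, ∑ s, ∑ x, ∑ a, (X t x * conj (X s x)) *
        conj (X t a * conj (X s a)) * ((‖G ψ E e η x a‖ ^ 2 : ℝ) : ℂ)).re := by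
  have hsw : ∀ f : T → T → ℝ, ((∑ x, ∑ a, F X n x a * f x a : ℝ) : ℂ) =
      ((1 / n : ℝ) : ℂ) ^ 2 * ∑ t, ∑ s, ∑ x, ∑ a, (X t x * conj (X s x)) *
        conj (X t a * conj (X s a)) * ((f x a : ℝ) : ℂ) := by
    intro f
    push_cast
    have e1 : ∀ x a, ((F X n x a : ℝ) : ℂ) * ((f x a : ℝ) : ℂ) =
        ((1 / n : ℝ) : ℂ) ^ 2 * ∑ t, ∑ s, (X t x * conj (X s x)) *
          conj (X t a * conj (X s a)) * ((f x a : ℝ) : ℂ) := by
      intro x a
      rw [F_eq, mul_assoc, Finset.sum_mul]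
      congr 1
      refine Finset.sum_congr rfl fun t _ => ?_
      rw [Finset.sum_mul]
    simp only [e1, ← Finset.mul_sum]
    push_cast
    congr 1
    have e2 : ∀ x, ∑ a, ∑ t, ∑ s, (X t x * conj (X s x)) *
          conj (X t a * conj (X s a)) * ((f x a : ℝ) : ℂ) =
        ∑ t, ∑ s, ∑ a, (X t x * conj (X s x)) *
          conj (X t a * conj (X s a)) * ((f x a : ℝ) : ℂ) := by
      intro x
      rw [Finset.sum_comm]
      refine Finset.sum_congr rfl fun j _ => ?_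
      rw [Finset.sum_comm]
    simp only [e2]
    rw [Finset.sum_comm]
    refine Finset.sum_congr rfl fun j _ => ?_
    rw [Finset.sum_comm]
  rw [← hsw fun x a => ‖G ψ E e η x a‖ ^ 2, Complex.ofReal_re]
  refine le_trans ?_ (im_le ψ E e η hη (F X n) (F_nonneg X n) (F_symm X n))
  have h1 : ∀ f : T → T → ℝ, ∑ x, ∑ a, F X n x a * f x a =
      (1 / n) ^ 2 * ∑ t, ∑ s, (∑ x, ∑ a, (X t x * conj (X s x)) *
        conj (X t a * conj (X s a)) * ((f x a : ℝ) : ℂ)).re := by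
    intro f
    have h := congrArg Complex.re (hsw f)
    rw [Complex.ofReal_re] at h
    rw [h, ← Complex.ofReal_pow, Complex.re_ofReal_mul, Complex.re_sum]
    congr 1
    refine Finset.sum_congr rfl fun t _ => ?_
    rw [Complex.re_sum]
  rw [h1 fun x a => ‖K ψ (fun j => ((im E e η j : ℝ) : ℂ)) x a‖ ^ 2]
  have h2 : ∀ j, ∑ x, ∑ a, F X n x a * (‖ψ j x‖ ^ 2 * ‖ψ j a‖ ^ 2) =
      (1 / n) ^ 2 * ∑ t, ∑ s, ‖∑ x, (X t x * conj (X s x)) * ((‖ψ j x‖ ^ 2 : ℝ) : ℂ)‖ ^ 2 := by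
    intro j
    rw [h1 fun x a => ‖ψ j x‖ ^ 2 * ‖ψ j a‖ ^ 2]
    congr 1
    refine Finset.sum_congr rfl fun t _ => Finset.sum_congr rfl fun s _ => ?_
    have h3 : ∑ x, ∑ a, (X t x * conj (X s x)) *
        conj (X t a * conj (X s a)) * ((‖ψ j x‖ ^ 2 * ‖ψ j a‖ ^ 2 : ℝ) : ℂ) =
        (∑ x, (X t x * conj (X s x)) * ((‖ψ j x‖ ^ 2 : ℝ) : ℂ)) *
          conj (∑ x, (X t x * conj (X s x)) * ((‖ψ j x‖ ^ 2 : ℝ) : ℂ)) := by
      rw [map_sum, Finset.sum_mul_sum]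
      refine Finset.sum_congr rfl fun x _ => Finset.sum_congr rfl fun a _ => ?_
      simp only [map_mul, Complex.conj_ofReal, Complex.conj_conj]
      push_cast
      ring
    rw [h3, Complex.mul_conj, Complex.ofReal_re, Complex.normSq_eq_norm_sq]
  have h4 : ∑ j, (im E e η j) ^ 2 * ∑ x, ∑ a, F X n x a * (‖ψ j x‖ ^ 2 * ‖ψ j a‖ ^ 2) =
      (1 / n) ^ 2 * ∑ t, ∑ s, ∑ j, (im E e η j) ^ 2 *
        ‖∑ x, (X t x * conj (X s x)) * ((‖ψ j x‖ ^ 2 : ℝ) : ℂ)‖ ^ 2 := by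
    simp only [h2]
    rw [Finset.mul_sum]
    have e1 : ∀ j, (im E e η j) ^ 2 * ((1 / n) ^ 2 * ∑ t, ∑ s,
        ‖∑ x, (X t x * conj (X s x)) * ((‖ψ j x‖ ^ 2 : ℝ) : ℂ)‖ ^ 2) =
        ∑ t, ∑ s, (1 / n) ^ 2 * ((im E e η j) ^ 2 *
          ‖∑ x, (X t x * conj (X s x)) * ((‖ψ j x‖ ^ 2 : ℝ) : ℂ)‖ ^ 2) := by
      intro j
      simp only [Finset.mul_sum]
      refine Finset.sum_congr rfl fun t _ => Finset.sum_congr rfl fun s _ => ?_
      ring
    simp only [e1]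
    rw [Finset.sum_comm]
    refine Finset.sum_congr rfl fun t _ => ?_
    rw [Finset.sum_comm, Finset.mul_sum]
    refine Finset.sum_congr rfl fun s _ => ?_
    rw [Finset.mul_sum]
  rw [h4]
  refine mul_le_mul_of_nonneg_left ?_ (sq_nonneg _)
  refine Finset.sum_le_sum fun t _ => Finset.sum_le_sum fun s _ => ?_
  exact psd ψ (im E e η) (fun j => by unfold im; positivity) fun x => X t x * conj (X s x)

end Pool.Agent.R988.LA
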