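import Pool.Agent.R988.Tor

/-! Permutations of the sites preserve the law of the potential; cyclic shifts of a box. -/

set_option autoImplicit false
set_option linter.unusedVariables false
set_option linter.unusedSectionVars false

open scoped BigOperators Topology
open MeasureTheory Filter Set

namespace Pool.Agent.R988.Tor

open Pool.Agent.H4R2.LO (Zd)

theorem perm_meas {d : ℕ} (σ : Zd d ≃ Zd d) :
    Measurable fun (ω : Zd d → ℝ) (x : Zd d) => ω (σ x) :=
  measurable_pi_lambda _ fun x => measurable_pi_apply _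

theorem perm_law {d : ℕ} (μ : Measure ℝ) [IsProbabilityMeasure μ] (σ : Zd d ≃ Zd d) :
    (Measure.infinitePi fun _ : Zd d => μ).map (fun (ω : Zd d → ℝ) (x : Zd d) => ω (σ x)) =
      Measure.infinitePi fun _ : Zd d => μ := by
  have h := Measure.infinitePi_map_piCongrLeft (fun _ : Zd d => μ) σ.symm
  have e : (fun (ω : Zd d → ℝ) (x : Zd d) => ω (σ x)) =
      (MeasurableEquiv.piCongrLeft (fun _ : Zd d => ℝ) σ.symm) := by
    funext ω x
    obtain ⟨y, rfl⟩ : ∃ y, x = σ.symm y := ⟨σ x, (σ.symm_apply_apply x).symm⟩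
    rw [MeasurableEquiv.coe_piCongrLeft, Equiv.piCongrLeft_apply_apply, σ.apply_symm_apply]
  rw [e]
  exact h

variable {d L : ℕ} [NeZero L]

open Classical in
/-- the cyclic shift of the box, the identity outside the box -/
noncomputable def cyc (s : TT d L) (z : Zd d) : Zd d :=
  if ∀ i, 0 ≤ z i ∧ z i < L then em (pr L z + s) else z

theorem cyc_in (s : TT d L) (z : Zd d) (h : ∀ i, 0 ≤ z i ∧ z i < L) :
    cyc s z = em (pr L z + s) := if_pos h

theorem cyc_out (s : TT d L) (z : Zd d) (h : ¬ ∀ i, 0 ≤ z i ∧ z i < L) : cyc s z = z := if_neg h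

theorem em_box (x : TT d L) : ∀ i, 0 ≤ em x i ∧ em x i < L := fun i => ⟨em_nonneg x i, em_lt x i⟩

theorem cyc_cyc (s t : TT d L) (h : s + t = 0) (z : Zd d) : cyc t (cyc s z) = z := by
  by_cases hz : ∀ i, 0 ≤ z i ∧ z i < L
  · rw [cyc_in s z hz, cyc_in t _ (em_box _), pr_em, add_assoc, h, add_zero, em_pr z hz]
  · rw [cyc_out s z hz, cyc_out t z hz]

/-- the cyclic shift as a permutation -/
noncomputable def cycE (s : TT d L) : Zd d ≃ Zd d where
  toFun := cyc s
  invFun := cyc (-s)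
  left_inv z := cyc_cyc s (-s) (add_neg_cancel s) z
  right_inv z := cyc_cyc (-s) s (neg_add_cancel s) z

theorem cycE_em (s x : TT d L) : cycE s (em (x - s)) = em x := by
  change cyc s (em (x - s)) = em x
  rw [cyc_in s _ (em_box _), pr_em, sub_add_cancel]

/-- the union bound over all boxes of side at most `N` and all shifts -/
theorem union {d : ℕ} (μ : Measure ℝ) [IsProbabilityMeasure μ] (G : Set (Zd d → ℝ))
    (hG : MeasurableSet G) (δ : ℝ) (hδ : 0 ≤ δ)
    (hP : 1 - δ ≤ (Measure.infinitePi fun _ : Zd d => μ).real G) (N : ℕ) :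
    ∃ G' : Set (Zd d → ℝ), MeasurableSet G' ∧
      1 - ((N : ℝ) + 1) ^ (d + 1) * δ ≤ (Measure.infinitePi fun _ : Zd d => μ).real G' ∧
      ∀ ω ∈ G', ω ∈ G ∧ ∀ (L : ℕ) [NeZero L], L ≤ N → ∀ s : TT d L,
        (fun x => ω (cycE s x)) ∈ G := by
  obtain ⟨P, hPd⟩ : ∃ P, P = Measure.infinitePi fun _ : Zd d => μ := ⟨_, rfl⟩
  rw [← hPd] at hP ⊢
  have hPp : IsProbabilityMeasure P := by rw [hPd]; infer_instance
  obtain ⟨A, hA⟩ : ∃ A : (Σ n : Fin N, TT d (n + 1)) → Set (Zd d → ℝ), A = fun p =>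
      (fun (ω : Zd d → ℝ) (x : Zd d) => ω (cycE p.2 x)) ⁻¹' G := ⟨_, rfl⟩
  have hAm : ∀ p, MeasurableSet (A p) := fun p => by
    rw [hA]
    exact hG.preimage (perm_meas _)
  have hAP : ∀ p, P.real (A p)ᶜ ≤ δ := fun p => by
    rw [measureReal_compl (hAm p), probReal_univ]
    have h1 : P.real (A p) = P.real G := by
      rw [hA, Measure.real, Measure.real]
      congr 1
      have h2 := perm_law μ (cycE p.2)
      rw [← hPd] at h2
      conv_rhs => rw [← h2]
      rw [Measure.map_apply (perm_meas _) hG]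
    rw [h1]
    linarith
  have hGc : P.real Gᶜ ≤ δ := by
    rw [measureReal_compl hG, probReal_univ]
    linarith
  refine ⟨G ∩ ⋂ p, A p, hG.inter (MeasurableSet.iInter hAm), ?_, ?_⟩
  · have h1 : P.real (G ∩ ⋂ p, A p)ᶜ ≤ δ + (N : ℝ) * ((N : ℝ) ^ d) * δ := by
      rw [Set.compl_inter, Set.compl_iInter]
      refine (measureReal_union_le _ _).trans (add_le_add hGc ?_)
      refine (measureReal_iUnion_fintype_le _).trans ?_
      refine (Finset.sum_le_sum fun p _ => hAP p).trans ?_
      rw [Finset.sum_const, nsmul_eq_mul, Finset.card_univ]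
      refine mul_le_mul_of_nonneg_right ?_ hδ
      rw [Fintype.card_sigma]
      push_cast
      calc ∑ n : Fin N, (Fintype.card (TT d ((n : ℕ) + 1)) : ℝ) ≤ ∑ n : Fin N, (N : ℝ) ^ d := by
            refine Finset.sum_le_sum fun n _ => ?_
            rw [Fintype.card_fun, ZMod.card, Fintype.card_fin]
            push_cast
            have : ((n : ℕ) : ℝ) + 1 ≤ N := by
              exact_mod_cast n.2
            gcongr
        _ = _ := by
            rw [Finset.sum_const, Finset.card_univ, Fintype.card_fin, nsmul_eq_mul]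
    have h2 := measureReal_compl (μ := P) (hG.inter (MeasurableSet.iInter hAm))
    rw [probReal_univ] at h2
    have h3 : δ + (N : ℝ) * ((N : ℝ) ^ d) * δ ≤ ((N : ℝ) + 1) ^ (d + 1) * δ := by
      have h4 : (1 : ℝ) + N * N ^ d ≤ ((N : ℝ) + 1) ^ (d + 1) := by
        have h5 : (1 : ℝ) ≤ ((N : ℝ) + 1) ^ d := one_le_pow₀ (by
          have : (0 : ℝ) ≤ N := Nat.cast_nonneg N
          linarith)
        have h6 : (N : ℝ) ^ d ≤ ((N : ℝ) + 1) ^ d := by
          gcongr
          linarith
        rw [pow_succ]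
        have h7 : (N : ℝ) * (N : ℝ) ^ d ≤ ((N : ℝ) + 1) ^ d * N := by
          rw [mul_comm]
          gcongr
        linarith
      calc δ + (N : ℝ) * ((N : ℝ) ^ d) * δ = (1 + N * N ^ d) * δ := by ring
        _ ≤ _ := by gcongr
    linarith
  · intro ω hω
    refine ⟨hω.1, fun L _ hL s => ?_⟩
    obtain ⟨n, rfl⟩ : ∃ n, L = n + 1 := ⟨L - 1, by
      have := NeZero.ne L
      omega⟩
    have h1 := Set.mem_iInter.1 hω.2 ⟨⟨n, by omega⟩, s⟩
    rw [hA] at h1
    exact h1

end Pool.Agent.R988.Tor
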