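import Pool.Agent.R988.Base

/-! Upper bound for the boundary values of the free resolvent; permutations of the sites. -/

set_option autoImplicit false
set_option linter.unusedVariables false

open scoped BigOperators Topology
open MeasureTheory Filter Set

namespace Pool.Agent.R988

open Pool.Agent.H4R2.LO (Zd)
open Pool.Agent.TH794.QD
open Pool.Agent.TH794.QE
open Pool.Agent.TH794.HK

theorem GF_le_one {F : ℝ → ℂ} (h : BAmp F) (E : ℝ) : ‖GF F ((E : ℂ) + Complex.I)‖ ≤ 1 := by
  unfold GF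
  rw [norm_mul, Complex.norm_I, one_mul, ← integral_exp_neg_Ioi_zero]
  have hint : IntegrableOn (fun s : ℝ => Real.exp (-s)) (Ioi 0) := by
    have := integrableOn_exp_mul_Ioi (a := -1) (by norm_num) 0
    simpa using this
  refine norm_integral_le_of_norm_le hint ?_
  rw [ae_restrict_iff' measurableSet_Ioi]
  refine Eventually.of_forall fun s hs => ?_
  rw [norm_mul, Complex.norm_exp]
  have e1 : (Complex.I * ((E : ℂ) + Complex.I) * (s : ℂ)).re = -s := by
    simp
  rw [e1]
  calc ‖F s‖ * Real.exp (-s) ≤ 1 * Real.exp (-s) :=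
        mul_le_mul_of_nonneg_right (h.one s) (Real.exp_pos _).le
    _ = _ := one_mul _

/-- the boundary values of the free resolvent are bounded on the regular energies -/
theorem up (d : ℕ) (hd : 2 ≤ d) (κ : ℝ) (hκ : 0 < κ) (hκ1 : κ ≤ 1) : ∃ C : ℝ, 0 < C ∧
    ∀ (E : ℝ) (γ : ℂ), RegE d κ E →
      Tendsto (fun t : ℝ => GF (F0 d) ((E : ℂ) + (t : ℂ) * Complex.I)) (𝓝[>] 0) (𝓝 γ) →
      ‖γ‖ ≤ C := by
  obtain ⟨C, hC, h⟩ : ∃ C : ℝ, 0 ≤ C ∧ ∀ (E t : ℝ), RegE d κ E → 0 < t → t ≤ 1 →
      ‖GF (F0 d) ((E : ℂ) + (t : ℂ) * Complex.I) - GF (F0 d) ((E : ℂ) + Complex.I)‖ ≤ C := by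
    by_cases h2 : d = 2
    · subst h2
      have hCH := Pool.Agent.TH311.LL2D.CH_ge κ
      refine ⟨2 * Pool.Agent.TH311.LL2D.CH κ * 1, by linarith, fun E t hE ht ht1 => ?_⟩
      have hB : Pool.Agent.TH311.LL2D.Bu κ E := by
        rcases hE with h | h
        · exact h.2
        · exact absurd h.1 (by norm_num)
      have h1 := holS0 κ hκ hκ1 ((E : ℂ) + (t : ℂ) * Complex.I) ((E : ℂ) + Complex.I)
        (by simpa using hB) (by simpa using hB) (by simpa using ht) (by simpa using ht1)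
        (by simp) (by simp)
      refine h1.trans ?_
      refine mul_le_mul_of_nonneg_left ?_ (by linarith)
      refine Real.rpow_le_one (norm_nonneg _) ?_ (by norm_num)
      have e1 : ((E : ℂ) + (t : ℂ) * Complex.I) - ((E : ℂ) + Complex.I) =
          ((t - 1 : ℝ) : ℂ) * Complex.I := by
        push_cast
        ring
      rw [e1, norm_mul, Complex.norm_I, mul_one, Complex.norm_real, Real.norm_eq_abs, abs_le]
      constructor <;> linarith
    · have hd3 : 3 ≤ d := by omega
      refine ⟨Pool.Agent.TH794.QD.CH d * 1, by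
        rw [mul_one]
        exact CH_nonneg d, fun E t hE ht ht1 => ?_⟩
      have h1 := hol0 Pool.Agent.W918.BK.Osc.osc d hd3 ((E : ℂ) + (t : ℂ) * Complex.I)
        ((E : ℂ) + Complex.I) (by simpa using ht.le) (by simp)
      refine h1.trans ?_
      refine mul_le_mul_of_nonneg_left ?_ (CH_nonneg d)
      refine Real.rpow_le_one (norm_nonneg _) ?_ (by norm_num)
      have e1 : ((E : ℂ) + (t : ℂ) * Complex.I) - ((E : ℂ) + Complex.I) =
          ((t - 1 : ℝ) : ℂ) * Complex.I := by
        push_cast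
        ring
      rw [e1, norm_mul, Complex.norm_I, mul_one, Complex.norm_real, Real.norm_eq_abs, abs_le]
      constructor <;> linarith
  refine ⟨C + 1, by linarith, fun E γ hE hγ => ?_⟩
  refine le_of_tendsto hγ.norm ?_
  have hmem : Set.Ioc (0 : ℝ) 1 ∈ 𝓝[>] (0 : ℝ) := Ioc_mem_nhdsGT one_pos
  filter_upwards [hmem] with t ht
  have h1 := h E t hE ht.1 ht.2
  have h2 := GF_le_one (bamp0 d) E
  calc ‖GF (F0 d) ((E : ℂ) + (t : ℂ) * Complex.I)‖ =
      ‖(GF (F0 d) ((E : ℂ) + (t : ℂ) * Complex.I) - GF (F0 d) ((E : ℂ) + Complex.I)) +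
        GF (F0 d) ((E : ℂ) + Complex.I)‖ := by
        congr 1
        ring
    _ ≤ _ := norm_add_le _ _
    _ ≤ C + 1 := add_le_add h1 h2

end Pool.Agent.R988
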