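import Pool.Agent.R988.Fej
import Pool.Agent.R988.Perm
import Pool.Agent.R988.Up

/-! The law of the resolvent on the torus; the averaged profile. -/

set_option autoImplicit false
set_option linter.unusedSectionVars false
set_option linter.unusedVariables false

open scoped BigOperators ComplexConjugate
open Set

namespace Pool.Agent.R988.Tor

open Pool.Agent.R988.LA
open Pool.Agent.H4R2.LO (Zd)
open Pool.Agent.TH794.HK (ph Tg)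
open Pool.Agent.TH794.QE (Rs rs_exists)

variable {d L : ℕ} [NeZero L] {ι : Type} [Fintype ι] [DecidableEq ι]

theorem torus_law (hd : 0 < d) {ω : Zd d → ℝ} (lam b : ℝ) (hlam : 0 < lam)
    (hω : ∀ x, |ω x| ≤ b) (c : Zd d) (ρ : ℝ) (hρ : 1 ≤ ρ) (hc : ∀ i, ρ ≤ c i ∧ ρ + 1 ≤ L - c i)
    (e η : ℝ) (hη : 0 < η) (hη1 : η ≤ 1) (T : (Fin d → ℝ) → ℝ) (P : (Fin d → ℝ) → Prop) (δ1 : ℝ)
    (hlaw : ∀ (s : TT d L) (u : Zd d → ℂ), Rs d (fun x => 2 * d + lam * ω (cycE s x)) c e η u →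
      ∀ p : Fin d → ℝ, P p → ‖((η : ℝ) : ℂ) * ∑' x, ph p (x - c) * ((‖u x‖ ^ 2 : ℝ) : ℂ) -
        ((T p : ℝ) : ℂ)‖ ≤ δ1)
    {ψ : ι → TT d L → ℂ} {E : ι → ℝ} (h : EB (fun x => 2 * d + lam * ω (em x)) ψ E)
    (a : TT d L) (p : Fin d → ℝ) (hp : P p) (χ : TT d L → ℂ)
    (hχ : ∀ x, χ x = ph p (em (x - (a - pr L c)) - c)) :
    ‖(η : ℂ) * ∑ x, χ x * ((‖G ψ E e η x a‖ ^ 2 : ℝ) : ℂ) - ((T p : ℝ) : ℂ)‖ ≤
      δ1 + 20 * d * (η⁻¹) ^ 3 / ρ := by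
  obtain ⟨s, hs⟩ : ∃ s : TT d L, s = a - pr L c := ⟨_, rfl⟩
  rw [← hs] at hχ
  have ha : s + pr L c = a := by rw [hs]; abel
  obtain ⟨u, hu⟩ := rs_exists (fun x => 2 * (d : ℝ) + lam * ω (cycE s x))
    (2 * d + lam * b) (fun x => by
      refine (abs_add_le _ _).trans ?_
      rw [abs_of_nonneg (by positivity : (0 : ℝ) ≤ 2 * d), abs_mul, abs_of_pos hlam]
      have := mul_le_mul_of_nonneg_left (hω (cycE s x)) hlam.le
      linarith) c e η hη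
  have h1 := hlaw s u hu p hp
  have h2 := cmp hd hu hη hη1 (fun x => 2 * d + lam * ω (em x)) s
    (fun x => by simp only [cycE_em]) ρ hρ hc (fun x => G ψ E e η x a)
    (fun x => by
      rw [ha]
      exact h.res e η hη a x) (fun z => ph p (z - c))
    (fun z => by rw [Pool.Agent.TH794.HK.ph_norm])
  have h3 : ∑ x, χ x * ((‖G ψ E e η x a‖ ^ 2 : ℝ) : ℂ) =
      ∑ x, ph p (em (x - s) - c) * ((‖G ψ E e η x a‖ ^ 2 : ℝ) : ℂ) :=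
    Finset.sum_congr rfl fun x _ => by rw [hχ]
  rw [h3]
  have h4 : (η : ℂ) * ∑ x, ph p (em (x - s) - c) * ((‖G ψ E e η x a‖ ^ 2 : ℝ) : ℂ) -
      ((T p : ℝ) : ℂ) = (((η : ℝ) : ℂ) * ∑' x, ph p (x - c) * ((‖u x‖ ^ 2 : ℝ) : ℂ) -
        ((T p : ℝ) : ℂ)) + (η : ℂ) * (∑ x, ph p (em (x - s) - c) *
          ((‖G ψ E e η x a‖ ^ 2 : ℝ) : ℂ) - ∑' x, ph p (x - c) * ((‖u x‖ ^ 2 : ℝ) : ℂ)) := by
    ring
  rw [h4]
  refine (norm_add_le _ _).trans (add_le_add h1 ?_)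
  rw [norm_mul, Complex.norm_real, Real.norm_eq_abs, abs_of_pos hη]
  calc η * ‖∑ x, ph p (em (x - s) - c) *
          ((‖G ψ E e η x a‖ ^ 2 : ℝ) : ℂ) - ∑' x, ph p (x - c) * ((‖u x‖ ^ 2 : ℝ) : ℂ)‖ ≤
      η * (20 * d * (η⁻¹) ^ 4 / ρ) := by gcongr
    _ = _ := by
      field_simp

/-- the number of indices near a given one -/
theorem near_card (m : ℕ) (t : Fin (m + 1)) (R : ℝ) (hR : 0 ≤ R) :
    ((Finset.univ.filter fun s : Fin (m + 1) =>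
      |(((t : ℤ) - (s : ℤ) : ℤ) : ℝ)| < R).card : ℝ) ≤ 2 * R + 1 := by
  have h1 : (Finset.univ.filter fun s : Fin (m + 1) => |(((t : ℤ) - (s : ℤ) : ℤ) : ℝ)| < R).card ≤
      (Finset.Icc ((t : ℤ) - ⌊R⌋) ((t : ℤ) + ⌊R⌋)).card := by
    refine Finset.card_le_card_of_injOn (fun s : Fin (m + 1) => ((s : ℕ) : ℤ)) ?_ ?_
    · intro s hs
      rw [Finset.mem_coe, Finset.mem_filter] at hs
      rw [Finset.mem_coe, Finset.mem_Icc]
      have h2 := abs_lt.1 hs.2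
      have h3 : (t : ℤ) - (s : ℤ) ≤ ⌊R⌋ := Int.le_floor.2 h2.2.le
      have h4 : (s : ℤ) - (t : ℤ) ≤ ⌊R⌋ := Int.le_floor.2 (by
        push_cast at h2 ⊢
        linarith [h2.1])
      beta_reduce
      constructor <;> omega
    · intro s _ s' _ hss
      simp only [Nat.cast_inj] at hss
      exact Fin.ext hss
  have h5 : ((Finset.Icc ((t : ℤ) - ⌊R⌋) ((t : ℤ) + ⌊R⌋)).card : ℝ) ≤ 2 * R + 1 := by
    rw [Int.card_Icc]
    have h6 : (t : ℤ) + ⌊R⌋ + 1 - ((t : ℤ) - ⌊R⌋) = 2 * ⌊R⌋ + 1 := by ring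
    rw [h6]
    have h7 : 0 ≤ ⌊R⌋ := Int.floor_nonneg.2 hR
    have h8 : (((2 * ⌊R⌋ + 1).toNat : ℕ) : ℝ) = ((2 * ⌊R⌋ + 1 : ℤ) : ℝ) := by
      exact_mod_cast Int.toNat_of_nonneg (by omega : 0 ≤ 2 * ⌊R⌋ + 1)
    rw [h8]
    push_cast
    have := Int.floor_le R
    linarith
  exact le_trans (by exact_mod_cast h1) h5

/-- the average of the profile -/
theorem avg_le (m : ℕ) (Tn : ℤ → ℝ) (C R ζ : ℝ) (hR : 0 ≤ R) (hC : 0 ≤ C) (hζ : 0 ≤ ζ)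
    (h1 : ∀ n : ℤ, |n| ≤ m → Tn n ≤ C) (h2 : ∀ n : ℤ, |n| ≤ m → R ≤ |(n : ℝ)| → Tn n ≤ ζ) :
    (1 / ((m : ℝ) + 1)) ^ 2 * ∑ t : Fin (m + 1), ∑ s : Fin (m + 1), Tn ((t : ℤ) - (s : ℤ)) ≤
      C * ((2 * R + 1) / (m + 1)) + ζ := by
  have h3 : ∀ t s : Fin (m + 1), Tn ((t : ℤ) - (s : ℤ)) ≤
      (if |(((t : ℤ) - (s : ℤ) : ℤ) : ℝ)| < R then C else 0) + ζ := by
    intro t s
    have ht : |(t : ℤ) - (s : ℤ)| ≤ m := by
      have h1 := t.2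
      have h2 := s.2
      rw [abs_le]
      constructor <;> omega
    split_ifs with h
    · have := h1 _ ht
      linarith
    · rw [zero_add]
      exact h2 _ ht (not_lt.1 h)
  have h4 : ∀ t : Fin (m + 1), ∑ s : Fin (m + 1), Tn ((t : ℤ) - (s : ℤ)) ≤
      C * (2 * R + 1) + (m + 1) * ζ := by
    intro t
    refine (Finset.sum_le_sum fun s _ => h3 t s).trans ?_
    rw [Finset.sum_add_distrib, ← Finset.sum_filter, Finset.sum_const, Finset.sum_const,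
      nsmul_eq_mul, nsmul_eq_mul, Finset.card_univ, Fintype.card_fin]
    push_cast
    have := mul_le_mul_of_nonneg_right (near_card m t R hR) hC
    push_cast at this
    linarith
  calc (1 / ((m : ℝ) + 1)) ^ 2 * ∑ t : Fin (m + 1), ∑ s : Fin (m + 1), Tn ((t : ℤ) - (s : ℤ)) ≤
      (1 / ((m : ℝ) + 1)) ^ 2 * ∑ t : Fin (m + 1), (C * (2 * R + 1) + (m + 1) * ζ) := by
        gcongr with t _
        exact h4 t
    _ = _ := by
        rw [Finset.sum_const, nsmul_eq_mul, Finset.card_univ, Fintype.card_fin]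
        push_cast
        field_simp

/-- the profile is small at large momenta -/
theorem Tg_small (γ0 γ1 : ℝ → ℂ) (w s2 E C0 m1 Y : ℝ) (p : Fin d → ℝ) (hm1 : 0 < m1)
    (h0 : (γ0 E).im ≤ C0) (h1 : m1 ≤ (γ1 E).im) (h10 : (γ1 E).im ≤ (γ0 E).im) (hY : 0 < Y)
    (hp : Y ≤ (∑ i, p i ^ 2) / (w * s2)) : Tg γ0 γ1 w s2 E p ≤ C0 ^ 3 / (Y * m1) := by
  have hG0 : 0 < (γ0 E).im := by linarith
  have hC0 : 0 < C0 := by linarith
  unfold Tg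
  obtain ⟨g, hg⟩ : ∃ g, g = (γ0 E).im := ⟨_, rfl⟩
  obtain ⟨q, hq⟩ : ∃ q, q = (γ1 E).im := ⟨_, rfl⟩
  obtain ⟨r, hr⟩ : ∃ r, r = (∑ i, p i ^ 2) / (w * s2) := ⟨_, rfl⟩
  rw [← hg] at h0 h10 hG0
  rw [← hq] at h1 h10
  rw [← hr] at hp
  rw [← hg, ← hq, ← hr]
  have h2 : 0 < r := by linarith
  have h3 : 0 < q := by linarith
  calc g / (1 + r * (q / g ^ 2)) ≤ g / (r * (q / g ^ 2)) := by
        gcongr
        linarith
    _ = g ^ 3 / (r * q) := by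
        field_simp
    _ ≤ C0 ^ 3 / (Y * m1) := by gcongr

theorem Tg_le (γ0 γ1 : ℝ → ℂ) (w s2 E C0 : ℝ) (p : Fin d → ℝ) (hw : 0 < w) (hs : 0 < s2)
    (h0 : (γ0 E).im ≤ C0) (h1 : 0 < (γ1 E).im) (h10 : (γ1 E).im ≤ (γ0 E).im) :
    Tg γ0 γ1 w s2 E p ≤ C0 := by
  unfold Tg
  have hG0 : 0 < (γ0 E).im := by linarith
  refine le_trans (div_le_self hG0.le ?_) h0
  have : 0 ≤ (∑ i, p i ^ 2) / (w * s2) * ((γ1 E).im / (γ0 E).im ^ 2) := by positivity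
  linarith

theorem Tg_zero (γ0 γ1 : ℝ → ℂ) (w s2 E : ℝ) : Tg γ0 γ1 w s2 E (0 : Fin d → ℝ) = (γ0 E).im := by
  unfold Tg
  simp

end Pool.Agent.R988.Tor
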