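import Pool.Agent.R988.Loc1

/-! Lower bound for the localisation length on the torus. -/

set_option autoImplicit false
set_option linter.unusedSectionVars false
set_option linter.unusedVariables false

open scoped BigOperators ComplexConjugate Topology
open Set MeasureTheory Filter

namespace Pool.Agent.R988.Tor

open Pool.Agent.R988.LA
open Pool.Agent.H4R2.LO (Zd)
open Pool.Agent.TH794.HK (ph Tg)
open Pool.Agent.TH794.QE (Rs rs_exists RegE)
open Pool.Agent.TH794.QD (GF F0 F1)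

theorem ev1 (A p : ℝ) (hp : 0 < p) : ∀ᶠ t : ℝ in 𝓝[>] 0, A * t ^ p ≤ 1 := by
  have h1 : Tendsto (fun t : ℝ => A * t ^ p) (𝓝[>] 0) (𝓝 (A * 0)) := by
    refine Tendsto.const_mul A ?_
    have h2 := (Real.continuousAt_rpow_const 0 p (Or.inr hp.le)).tendsto
    rw [Real.zero_rpow hp.ne'] at h2
    exact h2.mono_left nhdsWithin_le_nhds
  rw [mul_zero] at h1
  exact h1.eventually (ge_mem_nhds one_pos) |>.mono fun t ht => ht

theorem ev_extract {P : ℝ → Prop} (h : ∀ᶠ t : ℝ in 𝓝[>] 0, P t) :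
    ∃ t0 : ℝ, 0 < t0 ∧ t0 ≤ 1 ∧ ∀ t, 0 < t → t ≤ t0 → P t := by
  obtain ⟨u, hu, h1⟩ := mem_nhdsGT_iff_exists_Ioo_subset.1 h
  have hu' : (0 : ℝ) < u := hu
  refine ⟨min (u / 2) 1, lt_min (by linarith) one_pos, min_le_right _ _, fun t ht ht1 => ?_⟩
  have h2 : t ≤ u / 2 := ht1.trans (min_le_left _ _)
  exact h1 ⟨ht, by linarith⟩

/-- **deterministic part**: the law of the resolvent on the torus at the scales `w` and `w / 8`
gives many eigenvalues and few localised eigenvectors -/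
theorem det {d L : ℕ} [NeZero L] (hd : 0 < d) {ω : Zd d → ℝ} (lam b : ℝ) (hlam : 0 < lam)
    (hω : ∀ x, |ω x| ≤ b) (c : Zd d) (ρ : ℝ) (hρ : 1 ≤ ρ) (hc : ∀ i, ρ ≤ c i ∧ ρ + 1 ≤ L - c i)
    (e w s2 : ℝ) (hw : 0 < w) (hw1 : w ≤ 1) (hs : 0 < s2) (γ0 γ1 : ℝ → ℂ) (Ee C0 m1 K δ1 : ℝ)
    (hm1 : 0 < m1) (h0 : (γ0 Ee).im ≤ C0) (h1 : m1 ≤ (γ1 Ee).im) (h10 : (γ1 Ee).im ≤ (γ0 Ee).im)
    (hK : 0 < K)
    (hlaw : ∀ η, η = w ∨ η = w / 8 → ∀ (s : TT d L) (u : Zd d → ℂ),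
      Rs d (fun x => 2 * d + lam * ω (cycE s x)) c e η u →
      ∀ p : Fin d → ℝ, ∑ i, p i ^ 2 ≤ K * (η * s2) →
      ‖((η : ℝ) : ℂ) * ∑' x, ph p (x - c) * ((‖u x‖ ^ 2 : ℝ) : ℂ) -
        ((Tg γ0 γ1 η s2 Ee p : ℝ) : ℂ)‖ ≤ δ1)
    (ε θ τ ℓ : ℝ) (hε : 0 < ε) (hθ : 0 < θ) (hτ : 0 < τ) (hθC : 16 * C0 * θ ≤ τ)
    (hKK : 16 * C0 ^ 3 ≤ τ * (θ ^ 2 * K * m1))
    (hδ1 : δ1 + 10240 * d * (w⁻¹) ^ 3 / ρ ≤ τ / 4)
    (hδ2 : δ1 + 10240 * d * (w⁻¹) ^ 3 / ρ ≤ m1 / 5)
    (hℓ : K * (w * s2) * (2 * ℓ) ^ 2 ≤ 1)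
    (hB : (2 * Real.pi) ^ 2 * (1 + 4 * C0 / τ) ^ 2 ≤ L ^ 2 * (K * (w * s2)))
    {ι : Type} [Fintype ι] [DecidableEq ι] {ψ : ι → TT d L → ℂ} {E : ι → ℝ}
    (h : EB (fun x => 2 * d + lam * ω (em x)) ψ E) :
    m1 / 16 * w * (Fintype.card (TT d L)) ≤
      ((Finset.univ.filter fun j => |E j - e| ≤ w).card : ℝ) ∧
    ∀ i : Fin d, (((Finset.univ.filter fun j => |E j - e| ≤ w ∧ ∃ y : ZMod L,
      ε ≤ ∑ x : TT d L, if |((x i - y).valMinAbs : ℝ)| ≤ ℓ then ‖ψ j x‖ ^ 2 else 0).card : ℝ)) *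
      ε ^ 2 ≤ 16 * w * (Fintype.card (TT d L)) * τ := by
  have hG0 : 0 < (γ0 Ee).im := by linarith
  have hC0 : 0 < C0 := by linarith
  have hρ0 : 0 < ρ := by linarith
  have hL0 : (0 : ℝ) < L := by
    exact_mod_cast Nat.pos_of_ne_zero (NeZero.ne L)
  have hpi := Real.pi_pos
  have hdR : (0 : ℝ) < d := by exact_mod_cast hd
  have hwi : 0 < w⁻¹ := inv_pos.2 hw
  have herr : ∀ η, η = w ∨ η = w / 8 → 20 * d * (η⁻¹) ^ 3 / ρ ≤ 10240 * d * (w⁻¹) ^ 3 / ρ := by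
    intro η hη
    rcases hη with hη | hη
    · rw [hη]
      gcongr
      norm_num
    · rw [hη]
      have e1 : (w / 8)⁻¹ = 8 * w⁻¹ := by
        rw [inv_div, div_eq_mul_inv]
      rw [e1]
      gcongr ?_ / ρ
      nlinarith [pow_pos hwi 3, mul_pos hdR (pow_pos hwi 3)]
  have htl : ∀ η, η = w ∨ η = w / 8 → ∀ (a : TT d L) (p : Fin d → ℝ),
      ∑ i, p i ^ 2 ≤ K * (η * s2) → ∀ χ : TT d L → ℂ,
      (∀ x, χ x = ph p (em (x - (a - pr L c)) - c)) →
      ‖(η : ℂ) * ∑ x, χ x * ((‖G ψ E e η x a‖ ^ 2 : ℝ) : ℂ) - ((Tg γ0 γ1 η s2 Ee p : ℝ) : ℂ)‖ ≤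
      δ1 + 10240 * d * (w⁻¹) ^ 3 / ρ := by
    intro η hη a p hp χ hχ
    have hη0 : 0 < η := by rcases hη with hη | hη <;> rw [hη] <;> positivity
    have hη1 : η ≤ 1 := by
      rcases hη with hη | hη
      · rw [hη]
        exact hw1
      · rw [hη]
        linarith
    have h2 := torus_law hd lam b hlam hω c ρ hρ hc e η hη0 hη1 (fun p => Tg γ0 γ1 η s2 Ee p)
      (fun p => ∑ i, p i ^ 2 ≤ K * (η * s2)) δ1 (hlaw η hη) h a p hp χ hχ
    have := herr η hη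
    linarith
  -- zero momentum
  have hz : ∀ η, η = w ∨ η = w / 8 → |∑ j, η / ((E j - e) ^ 2 + η ^ 2) -
      (Fintype.card (TT d L) : ℝ) * (γ0 Ee).im| ≤
      (Fintype.card (TT d L) : ℝ) * (δ1 + 10240 * d * (w⁻¹) ^ 3 / ρ) := by
    intro η hη
    have hη0 : 0 < η := by rcases hη with hη | hη <;> rw [hη] <;> positivity
    rw [← h.norm_sum e η hη0]
    have h3 : ∀ a : TT d L, |η * ∑ x, ‖G ψ E e η x a‖ ^ 2 - (γ0 Ee).im| ≤
        δ1 + 10240 * d * (w⁻¹) ^ 3 / ρ := by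
      intro a
      have h4 := htl η hη a 0 (by
        simp only [Pi.zero_apply, ne_eq, OfNat.ofNat_ne_zero, not_false_eq_true, zero_pow,
          Finset.sum_const_zero]
        positivity) (fun _ => 1) (fun x => by
          unfold ph
          simp)
      rw [Tg_zero] at h4
      simp only [one_mul] at h4
      rw [← Complex.ofReal_sum, ← Complex.ofReal_mul, ← Complex.ofReal_sub, Complex.norm_real,
        Real.norm_eq_abs] at h4
      exact h4
    have h5 : η * ∑ a, ∑ x, ‖G ψ E e η x a‖ ^ 2 - (Fintype.card (TT d L) : ℝ) * (γ0 Ee).im =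
        ∑ a : TT d L, (η * ∑ x, ‖G ψ E e η x a‖ ^ 2 - (γ0 Ee).im) := by
      rw [Finset.sum_sub_distrib, Finset.mul_sum, Finset.sum_const, Finset.card_univ,
        nsmul_eq_mul]
    rw [h5]
    refine (Finset.abs_sum_le_sum_abs _ _).trans ((Finset.sum_le_sum fun a _ => h3 a).trans
      (le_of_eq ?_))
    rw [Finset.sum_const, Finset.card_univ, nsmul_eq_mul]
  obtain ⟨N, hN⟩ : ∃ N : ℝ, N = (Fintype.card (TT d L) : ℝ) := ⟨_, rfl⟩
  obtain ⟨δ, hδ⟩ : ∃ δ, δ = δ1 + 10240 * d * (w⁻¹) ^ 3 / ρ := ⟨_, rfl⟩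
  rw [← hδ] at hδ1 hδ2 htl hz
  rw [← hN] at hz ⊢
  have hN0 : 0 ≤ N := by rw [hN]; positivity
  constructor
  · have z1 := abs_le.1 (hz w (Or.inl rfl))
    have z2 := abs_le.1 (hz (w / 8) (Or.inr rfl))
    have h6 := h.window e w (γ0 Ee).im δ hw (by linarith) N hN0 (by linarith [z1.2])
      (by linarith [z2.1])
    refine le_trans ?_ h6
    have : m1 ≤ (γ0 Ee).im := by linarith
    gcongr
  · intro i
    -- the number of momenta
    obtain ⟨Q, hQ⟩ : ∃ Q, Q = K * (w * s2) := ⟨_, rfl⟩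
    have hQ0 : 0 < Q := by rw [hQ]; positivity
    rw [← hQ] at hℓ hB
    obtain ⟨r, hr⟩ : ∃ r, r = L * Real.sqrt Q / (2 * Real.pi) := ⟨_, rfl⟩
    have hsq : Real.sqrt Q ^ 2 = Q := Real.sq_sqrt hQ0.le
    have hr0 : 0 < r := by
      rw [hr]
      have := Real.sqrt_pos.2 hQ0
      positivity
    have hrB : 1 + 4 * C0 / τ ≤ r := by
      have h7 : (1 + 4 * C0 / τ) ^ 2 ≤ r ^ 2 := by
        rw [hr, div_pow, mul_pow, hsq, le_div_iff₀ (by positivity)]
        linarith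
      exact (pow_le_pow_iff_left₀ (by positivity) hr0.le two_ne_zero).1 h7
    obtain ⟨m, hm⟩ : ∃ m : ℕ, m = ⌊r⌋₊ := ⟨_, rfl⟩
    have hmr : (m : ℝ) ≤ r := by
      rw [hm]
      exact Nat.floor_le hr0.le
    have hmr2 : r < m + 1 := by
      rw [hm]
      exact Nat.lt_floor_add_one r
    have hm1' : (1 : ℝ) ≤ m := by
      have h8 : 1 ≤ m := by
        rw [hm]
        refine Nat.le_floor ?_
        have : 0 ≤ 4 * C0 / τ := by positivity
        push_cast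
        linarith
      exact_mod_cast h8
    have hm2 : r ≤ 2 * m := by linarith
    have hmL : 2 * Real.pi * m / L ≤ Real.sqrt Q := by
      rw [div_le_iff₀ hL0]
      rw [hr, le_div_iff₀ (by positivity)] at hmr
      linarith
    have hmL2 : Real.sqrt Q ≤ 2 * (2 * Real.pi * m / L) := by
      rw [hr, div_le_iff₀ (by positivity)] at hm2
      rw [← mul_div_assoc, le_div_iff₀ hL0]
      linarith
    have hmℓ : 2 * Real.pi * m / L * (2 * ℓ) ≤ Real.pi / 3 := by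
      rcases le_or_gt ℓ 0 with hl | hl
      · have h9 : 2 * Real.pi * m / L * (2 * ℓ) ≤ 0 :=
          mul_nonpos_of_nonneg_of_nonpos (by positivity) (by linarith)
        linarith
      · have h9 : (Real.sqrt Q * (2 * ℓ)) ^ 2 ≤ 1 ^ 2 := by
          rw [mul_pow, hsq, one_pow]
          exact hℓ
        have h10 : Real.sqrt Q * (2 * ℓ) ≤ 1 :=
          (pow_le_pow_iff_left₀ (by positivity) one_pos.le two_ne_zero).1 h9
        have h11 := Real.pi_gt_three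
        calc 2 * Real.pi * m / L * (2 * ℓ) ≤ Real.sqrt Q * (2 * ℓ) := by gcongr
          _ ≤ 1 := h10
          _ ≤ Real.pi / 3 := by linarith
    obtain ⟨P, hP⟩ : ∃ P : ℤ → Fin d → ℝ, P = fun n : ℤ =>
      (Pi.single i (2 * Real.pi * (n : ℝ) / L) : Fin d → ℝ) := ⟨_, rfl⟩
    have hPn : ∀ n : ℤ, P n = (Pi.single i (2 * Real.pi * (n : ℝ) / L) : Fin d → ℝ) := fun n => by
      rw [hP]
    have hPs : ∀ n : ℤ, ∑ j, P n j ^ 2 = (2 * Real.pi * n / L) ^ 2 := by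
      intro n
      rw [hPn n, Finset.sum_eq_single i]
      · rw [Pi.single_eq_same]
      · intro j _ hj
        rw [Pi.single_eq_of_ne hj]
        ring
      · intro hi
        exact absurd (Finset.mem_univ i) hi
    have habs : ∀ n : ℤ, |n| ≤ m → |(n : ℝ)| ≤ m := fun n hn => by exact_mod_cast hn
    have hPK : ∀ n : ℤ, |n| ≤ m → ∑ j, P n j ^ 2 ≤ K * (w * s2) := by
      intro n hn
      rw [hPs, ← hQ, ← hsq, ← sq_abs (2 * Real.pi * n / L)]
      have h12 : |2 * Real.pi * n / L| ≤ Real.sqrt Q := by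
        rw [abs_div, abs_mul, abs_of_pos hL0, abs_of_pos (by positivity : 0 < 2 * Real.pi)]
        refine le_trans ?_ hmL
        gcongr
        exact habs n hn
      gcongr
    have hcount := h.count e w hw i m ℓ ε hε.le hmℓ (fun n => Tg γ0 γ1 w s2 Ee (P n)) δ
      (fun n hn a => by
        refine htl w (Or.inl rfl) a (P n) (hPK n hn) _ fun x => ?_
        have h13 := char_ph i n c (a - pr L c) x
        rw [sub_add_cancel] at h13
        rw [h13, hPn])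
    have havg := avg_le m (fun n => Tg γ0 γ1 w s2 Ee (P n)) C0 (θ * m) (τ / 4) (by positivity)
      hC0.le (by positivity)
      (fun n _ => Tg_le γ0 γ1 w s2 Ee C0 (P n) hw hs h0 (by linarith) h10)
      (fun n hn hn2 => by
        have h14 : θ ^ 2 * K / 4 ≤ (∑ j, P n j ^ 2) / (w * s2) := by
          rw [hPs, le_div_iff₀ (by positivity)]
          have h15 : θ * (Real.sqrt Q / 2) ≤ |2 * Real.pi * n / L| := by
            rw [abs_div, abs_mul, abs_of_pos hL0, abs_of_pos (by positivity : 0 < 2 * Real.pi)]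
            calc θ * (Real.sqrt Q / 2) ≤ θ * (2 * Real.pi * m / L) :=
                  mul_le_mul_of_nonneg_left (by linarith only [hmL2]) hθ.le
              _ = 2 * Real.pi * (θ * m) / L := by ring
              _ ≤ _ := by gcongr
          have h16 : (θ * (Real.sqrt Q / 2)) ^ 2 ≤ |2 * Real.pi * n / L| ^ 2 := by
            gcongr
          rw [sq_abs, mul_pow, div_pow, hsq, hQ] at h16
          linarith
        refine (Tg_small γ0 γ1 w s2 Ee C0 m1 (θ ^ 2 * K / 4) (P n) hm1 h0 h1 h10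
          (by positivity) h14).trans ?_
        rw [div_le_iff₀ (by positivity)]
        linarith)
    have hfrac : C0 * ((2 * (θ * m) + 1) / (m + 1)) ≤ τ / 8 + τ / 4 := by
      have h17 : (2 * (θ * m) + 1) / ((m : ℝ) + 1) ≤ 2 * θ + 1 / ((m : ℝ) + 1) := by
        have h21 : 2 * (θ * m) / ((m : ℝ) + 1) ≤ 2 * θ := by
          rw [div_le_iff₀ (by positivity)]
          nlinarith
        rw [add_div]
        linarith
      have h18 : C0 * (1 / ((m : ℝ) + 1)) ≤ τ / 4 := by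
        have h19 : 4 * C0 / τ ≤ (m : ℝ) + 1 := by linarith
        rw [mul_one_div, div_le_iff₀ (by positivity)]
        rw [div_le_iff₀ hτ] at h19
        linarith
      calc C0 * ((2 * (θ * m) + 1) / (m + 1)) ≤ C0 * (2 * θ + 1 / ((m : ℝ) + 1)) := by gcongr
        _ = 2 * C0 * θ + C0 * (1 / ((m : ℝ) + 1)) := by ring
        _ ≤ τ / 8 + τ / 4 := by
            have : 2 * C0 * θ ≤ τ / 8 := by linarith
            linarith
    rw [← hN] at hcount
    refine hcount.trans ?_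
    have h20 : (1 / ((m : ℝ) + 1)) ^ 2 * ∑ t : Fin (m + 1), ∑ s : Fin (m + 1),
          Tg γ0 γ1 w s2 Ee (P ((t : ℤ) - (s : ℤ))) + δ ≤ τ := by
      linarith
    exact mul_le_mul_of_nonneg_left h20 (by positivity)

end Pool.Agent.R988.Tor
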