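import Pool.Agent.R988.Loc2

/-! Lower bound for the localisation length on the torus: the theorem in every dimension. -/

set_option autoImplicit false
set_option linter.unusedSectionVars false
set_option linter.unusedVariables false

open scoped BigOperators ComplexConjugate Topology
open Set MeasureTheory Filter

namespace Pool.Agent.R988.Tor

open Pool.Agent.R988.LA
open Pool.Agent.H4R2.LO (Zd)
open Pool.Agent.TH794.HK (ph Tg)
open Pool.Agent.TH794.QE (Rs rs_exists RegE)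
open Pool.Agent.TH794.QD (GF F0 F1)

/-- the numerical conditions on the coupling -/
theorem nums (d : ℕ) (K b v δ0 B : ℝ) (hK : 0 < K) (hb : 0 < b) (hv : 0 < v) (hδ0 : 0 < δ0)
    (hB : 0 < B) : ∃ l0 : ℝ, 0 < l0 ∧ l0 ≤ 1 ∧ ∀ lam : ℝ, 0 < lam → lam ≤ l0 →
      lam ^ (81 / 40 : ℝ) ≤ lam ^ (83 / 41 : ℝ) / 8 ∧
      lam ^ (83 / 41 : ℝ) ≤ lam ^ (161 / 80 : ℝ) ∧
      lam ^ (83 / 41 : ℝ) ≤ 1 ∧
      4 ≤ lam ^ (-7 : ℝ) ∧
      (∀ L : ℝ, lam ^ (-7 : ℝ) ≤ L → lam ^ (1 / 200 : ℝ) +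
        10240 * d * ((lam ^ (83 / 41 : ℝ))⁻¹) ^ 3 / (L / 2 - 1) ≤ δ0) ∧
      (∀ V : ℝ, V ≤ 4 * b ^ 2 → K * (lam ^ (83 / 41 : ℝ) * (lam ^ 2 * V)) *
        (2 * lam ^ (-(167 / 83) : ℝ)) ^ 2 ≤ 1) ∧
      (∀ V L : ℝ, v ≤ V → lam ^ (-7 : ℝ) ≤ L →
        B ≤ L ^ 2 * (K * (lam ^ (83 / 41 : ℝ) * (lam ^ 2 * V)))) ∧
      Real.exp (lam ^ (-(1 / 102) : ℝ)) ≤ Real.exp (lam ^ (-(1 / 101) : ℝ)) ∧
      (((⌊Real.exp (lam ^ (-(1 / 102) : ℝ))⌋₊ : ℝ)) + 1) ^ (d + 1) *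
        Real.exp (-lam ^ (-(1 / 101) : ℝ)) ≤ Real.exp (-lam ^ (-(1 / 102) : ℝ)) := by
  obtain ⟨l0, hl0, hl1, hl⟩ := ev_extract
    ((ev1 8 (1 / 1640) (by norm_num)).and ((ev1 4 7 (by norm_num)).and
    ((ev1 (2 / δ0) (1 / 200) (by norm_num)).and
    ((ev1 (2 / δ0 * (40960 * d)) (38 / 41) (by norm_num)).and
    ((ev1 (16 * K * b ^ 2) (1 / 3403) (by norm_num)).and
    ((ev1 (B / (K * v)) (409 / 41) (by norm_num)).and
    (ev1 (2 * d + 3) (1 / 10302) (by norm_num))))))))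
  refine ⟨l0, hl0, hl1, fun lam h0 hle => ?_⟩
  obtain ⟨n1, n2, n3, n4, n5, n6, n7⟩ := hl lam h0 hle
  have hlam1 : lam ≤ 1 := hle.trans hl1
  have hadd : ∀ p q : ℝ, lam ^ p * lam ^ q = lam ^ (p + q) := fun p q => (Real.rpow_add h0 p q).symm
  have hpos : ∀ p : ℝ, 0 < lam ^ p := fun p => Real.rpow_pos_of_pos h0 p
  have hle1 : ∀ p : ℝ, 0 ≤ p → lam ^ p ≤ 1 := fun p hp => Real.rpow_le_one h0.le hlam1 hp
  have hanti : ∀ p q : ℝ, p ≤ q → lam ^ q ≤ lam ^ p := fun p q hpq =>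
    Real.rpow_le_rpow_of_exponent_ge h0 hlam1 hpq
  have e7 : (4 : ℝ) ≤ lam ^ (-7 : ℝ) := by
    have h1 : lam ^ (-7 : ℝ) * lam ^ (7 : ℝ) = 1 := by
      rw [hadd]
      norm_num
    have h2 := mul_le_mul_of_nonneg_left n2 (hpos (-7)).le
    nlinarith [hpos 7, hpos (-7)]
  have h102 : (1 : ℝ) ≤ lam ^ (-(1 / 102) : ℝ) := by
    have := hanti (-(1 / 102)) 0 (by norm_num)
    rwa [Real.rpow_zero] at this
  refine ⟨?_, hanti _ _ (by norm_num), hle1 _ (by norm_num), e7, ?_, ?_, ?_, ?_, ?_⟩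
  · have h1 : lam ^ (81 / 40 : ℝ) = lam ^ (83 / 41 : ℝ) * lam ^ (1 / 1640 : ℝ) := by
      rw [hadd]
      norm_num
    rw [h1]
    have := hpos (83 / 41)
    nlinarith
  · intro L hL
    have hL4 : 4 ≤ L := e7.trans hL
    have h1 : lam ^ (1 / 200 : ℝ) ≤ δ0 / 2 := by
      have h2 : 2 / δ0 * lam ^ (1 / 200 : ℝ) = lam ^ (1 / 200 : ℝ) / (δ0 / 2) := by
        field_simp
      rw [h2, div_le_one (by positivity)] at n3
      exact n3
    have h3 : 10240 * d * ((lam ^ (83 / 41 : ℝ))⁻¹) ^ 3 / (L / 2 - 1) ≤ δ0 / 2 := by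
      have h4 : lam ^ (-7 : ℝ) / 4 ≤ L / 2 - 1 := by linarith
      have h5 : ((lam ^ (83 / 41 : ℝ))⁻¹) ^ 3 = lam ^ (-(249 / 41) : ℝ) := by
        rw [← Real.rpow_neg h0.le, ← Real.rpow_natCast, ← Real.rpow_mul h0.le]
        norm_num
      calc 10240 * d * ((lam ^ (83 / 41 : ℝ))⁻¹) ^ 3 / (L / 2 - 1) ≤
          10240 * d * ((lam ^ (83 / 41 : ℝ))⁻¹) ^ 3 / (lam ^ (-7 : ℝ) / 4) := by
            have := hpos (-7)
            gcongr
        _ = 40960 * d * lam ^ (38 / 41 : ℝ) := by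
            rw [h5]
            have h6 : lam ^ (-(249 / 41) : ℝ) = lam ^ (38 / 41 : ℝ) * lam ^ (-7 : ℝ) := by
              rw [hadd]
              norm_num
            rw [h6]
            have := (hpos (-7)).ne'
            field_simp
            ring
        _ ≤ δ0 / 2 := by
            have h7 : 2 / δ0 * (40960 * d) * lam ^ (38 / 41 : ℝ) =
                (40960 * d * lam ^ (38 / 41 : ℝ)) / (δ0 / 2) := by
              field_simp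
            rw [h7, div_le_one (by positivity)] at n4
            exact n4
    linarith
  · intro V hV
    have h1 : lam ^ (83 / 41 : ℝ) * lam ^ 2 * (lam ^ (-(167 / 83) : ℝ)) ^ 2 = lam ^ (1 / 3403 : ℝ) := by
      rw [← Real.rpow_natCast lam 2, ← Real.rpow_natCast (lam ^ (-(167 / 83) : ℝ)) 2,
        ← Real.rpow_mul h0.le, hadd, hadd]
      norm_num
    calc K * (lam ^ (83 / 41 : ℝ) * (lam ^ 2 * V)) * (2 * lam ^ (-(167 / 83) : ℝ)) ^ 2 =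
        4 * K * V * (lam ^ (83 / 41 : ℝ) * lam ^ 2 * (lam ^ (-(167 / 83) : ℝ)) ^ 2) := by ring
      _ ≤ 4 * K * (4 * b ^ 2) * (lam ^ (83 / 41 : ℝ) * lam ^ 2 * (lam ^ (-(167 / 83) : ℝ)) ^ 2) := by
          have := hpos (83 / 41)
          gcongr
      _ = 16 * K * b ^ 2 * lam ^ (1 / 3403 : ℝ) := by
          rw [h1]
          ring
      _ ≤ 1 := n5
  · intro V L hV hL
    have hV0 : 0 < V := hv.trans_le hV
    have h1 : B ≤ K * v * lam ^ (-(409 / 41) : ℝ) := by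
      have h2 : lam ^ (409 / 41 : ℝ) * lam ^ (-(409 / 41) : ℝ) = 1 := by
        rw [hadd]
        norm_num
      have h3 := mul_le_mul_of_nonneg_right n6 (hpos (-(409 / 41))).le
      rw [mul_assoc, h2, mul_one, one_mul, div_le_iff₀ (by positivity)] at h3
      linarith
    have h4 : (lam ^ (-7 : ℝ)) ^ 2 * (lam ^ (83 / 41 : ℝ) * lam ^ 2) = lam ^ (-(409 / 41) : ℝ) := by
      rw [← Real.rpow_natCast lam 2, ← Real.rpow_natCast (lam ^ (-7 : ℝ)) 2,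
        ← Real.rpow_mul h0.le, hadd, hadd]
      norm_num
    calc B ≤ K * v * lam ^ (-(409 / 41) : ℝ) := h1
      _ = (lam ^ (-7 : ℝ)) ^ 2 * (K * (lam ^ (83 / 41 : ℝ) * (lam ^ 2 * v))) := by
          rw [← h4]
          ring
      _ ≤ L ^ 2 * (K * (lam ^ (83 / 41 : ℝ) * (lam ^ 2 * V))) := by
          have := hpos (83 / 41)
          have := hpos (-7)
          gcongr
  · exact Real.exp_le_exp.2 (hanti _ _ (by norm_num))
  · have h1 : ((⌊Real.exp (lam ^ (-(1 / 102) : ℝ))⌋₊ : ℝ)) + 1 ≤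
        Real.exp (lam ^ (-(1 / 102) : ℝ) + 1) := by
      have h2 := Nat.floor_le (Real.exp_pos (lam ^ (-(1 / 102) : ℝ))).le
      rw [Real.exp_add]
      have h3 : 1 ≤ Real.exp (lam ^ (-(1 / 102) : ℝ)) := Real.one_le_exp (by linarith)
      have h4 := Real.add_one_le_exp (1 : ℝ)
      nlinarith
    have h5 : (2 * d + 3) * lam ^ (-(1 / 102) : ℝ) ≤ lam ^ (-(1 / 101) : ℝ) := by
      have h6 : lam ^ (-(1 / 102) : ℝ) = lam ^ (1 / 10302 : ℝ) * lam ^ (-(1 / 101) : ℝ) := by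
        rw [hadd]
        norm_num
      rw [h6, ← mul_assoc]
      have := hpos (-(1 / 101))
      nlinarith
    calc (((⌊Real.exp (lam ^ (-(1 / 102) : ℝ))⌋₊ : ℝ)) + 1) ^ (d + 1) *
        Real.exp (-lam ^ (-(1 / 101) : ℝ)) ≤
        (Real.exp (lam ^ (-(1 / 102) : ℝ) + 1)) ^ (d + 1) * Real.exp (-lam ^ (-(1 / 101) : ℝ)) := by
          gcongr
      _ = Real.exp ((d + 1) * (lam ^ (-(1 / 102) : ℝ) + 1) + -lam ^ (-(1 / 101) : ℝ)) := by
          rw [← Real.exp_nat_mul, ← Real.exp_add]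
          push_cast
          ring_nf
      _ ≤ _ := by
          rw [Real.exp_le_exp]
          have h7 : (0 : ℝ) ≤ d := Nat.cast_nonneg d
          nlinarith

/-- **lower bound for the localisation length** -/
theorem loc (d : ℕ) (hd : 2 ≤ d) (κ : ℝ) (hκ : 0 < κ) (hκ1 : κ ≤ 1) :
    ∃ c : ℝ, 0 < c ∧ ∀ b v ε : ℝ, 0 < b → 0 < v → 0 < ε → ∃ lam0 : ℝ, 0 < lam0 ∧
    ∀ (μ : Measure ℝ), IsProbabilityMeasure μ → (∀ᵐ s ∂μ, |s| ≤ b) →
    ∀ M V : ℝ, ∫ s, s ∂μ = M → ∫ s, (s - M) ^ 2 ∂μ = V → v ≤ V →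
    ∀ lam : ℝ, 0 < lam → lam ≤ lam0 →
    ∃ G : Set (Zd d → ℝ), MeasurableSet G ∧
      1 - Real.exp (-lam ^ (-(1 / 102) : ℝ)) ≤ (Measure.infinitePi fun _ : Zd d => μ).real G ∧
      ∀ ω ∈ G, ∀ (L : ℕ) [NeZero L], lam ^ (-7 : ℝ) ≤ L → L ≤ Real.exp (lam ^ (-(1 / 102) : ℝ)) →
      ∀ (ι : Type) [Fintype ι] [DecidableEq ι] (ψ : ι → TT d L → ℂ) (E : ι → ℝ),
      EB (fun x => 2 * d + lam * ω (em x)) ψ E →
      ∀ e : ℝ, (RegE d κ (2 * d + lam * M - e) ∧ |2 * (d : ℝ) + lam * M - e| ≤ 2 * d - κ) →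
        c * lam ^ (83 / 41 : ℝ) * (L : ℝ) ^ d ≤
          ((Finset.univ.filter fun j => |E j - e| ≤ lam ^ (83 / 41 : ℝ)).card : ℝ) ∧
        ((Finset.univ.filter fun j => |E j - e| ≤ lam ^ (83 / 41 : ℝ) ∧ ∃ (i : Fin d) (y : ZMod L),
          ε ≤ ∑ x : TT d L, if |((x i - y).valMinAbs : ℝ)| ≤ lam ^ (-(167 / 83) : ℝ)
            then ‖ψ j x‖ ^ 2 else 0).card : ℝ) ≤
          ε * ((Finset.univ.filter fun j => |E j - e| ≤ lam ^ (83 / 41 : ℝ)).card : ℝ) := by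
  have hd0 : 0 < d := by omega
  have hdR : (0 : ℝ) < d := by exact_mod_cast hd0
  obtain ⟨γ0, γ1, hbase⟩ := base d hd
  obtain ⟨h1, ⟨m1, hm1, h2⟩, h3⟩ := hbase κ hκ hκ1
  obtain ⟨C0, hC0, hup⟩ := up d hd κ hκ hκ1
  refine ⟨m1 / 16, by positivity, fun b v ε hb hv hε => ?_⟩
  obtain ⟨τ, hτ⟩ : ∃ τ, τ = ε ^ 3 * m1 / (256 * d) := ⟨_, rfl⟩
  have hτ0 : 0 < τ := by rw [hτ]; positivity
  obtain ⟨θ, hθ⟩ : ∃ θ, θ = τ / (16 * C0) := ⟨_, rfl⟩
  have hθ0 : 0 < θ := by rw [hθ]; positivity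
  obtain ⟨K, hK⟩ : ∃ K, K = 16 * C0 ^ 3 / (τ * θ ^ 2 * m1) := ⟨_, rfl⟩
  have hK0 : 0 < K := by rw [hK]; positivity
  obtain ⟨c0, hc0, hlaw⟩ := h3 b v K hb hv hK0.le
  obtain ⟨l0, hl0, hl1, hnum⟩ := nums d K b v (min (τ / 4) (m1 / 5))
    ((2 * Real.pi) ^ 2 * (1 + 4 * C0 / τ) ^ 2) hK0 hb hv (lt_min (by positivity) (by positivity))
    (by positivity)
  refine ⟨min c0 l0, lt_min hc0 hl0, fun μ hμ hμb M V hM hV hvV lam hlam hlam0 => ?_⟩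
  obtain ⟨G0, hG0, hP0, hL0⟩ := hlaw lam hlam (hlam0.trans (min_le_left _ _)) μ hμ hμb M V hM hV hvV
  obtain ⟨k1, k2, k3, k4, k5, k6, k7, k8, k9⟩ := hnum lam hlam (hlam0.trans (min_le_right _ _))
  obtain ⟨G, hG, hP, hGG⟩ := union μ G0 hG0 (Real.exp (-lam ^ (-(1 / 101) : ℝ)))
    (Real.exp_pos _).le hP0 ⌊Real.exp (lam ^ (-(1 / 102) : ℝ))⌋₊
  refine ⟨G, hG, by linarith, fun ω hω L hLz hL1 hL2 ι _ _ ψ E hEB e he => ?_⟩
  obtain ⟨hω0, hωs⟩ := hGG ω hω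
  have hωb := (hL0 ω hω0).1
  have hV0 : 0 < V := hv.trans_le hvV
  have hV4 : V ≤ 4 * b ^ 2 := by
    have hMb : |M| ≤ b := by
      rw [← hM, ← Real.norm_eq_abs]
      refine (norm_integral_le_of_norm_le_const (C := b) ?_).trans (le_of_eq ?_)
      · filter_upwards [hμb] with s hs
        exact hs
      · rw [probReal_univ, mul_one]
    rw [← hV]
    have h5 : ∀ᵐ s ∂μ, ‖(s - M) ^ 2‖ ≤ 4 * b ^ 2 := by
      filter_upwards [hμb] with s hs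
      rw [Real.norm_eq_abs, abs_of_nonneg (sq_nonneg _)]
      have h6 : |s - M| ≤ 2 * b := (abs_sub _ _).trans (by linarith)
      rw [← sq_abs]
      calc |s - M| ^ 2 ≤ (2 * b) ^ 2 := by gcongr
        _ = _ := by ring
    have h7 := norm_integral_le_of_norm_le_const h5
    rw [probReal_univ, mul_one, Real.norm_eq_abs] at h7
    exact (le_abs_self _).trans h7
  obtain ⟨w, hw⟩ : ∃ w, w = lam ^ (83 / 41 : ℝ) := ⟨_, rfl⟩
  obtain ⟨ℓ, hℓ⟩ : ∃ ℓ, ℓ = lam ^ (-(167 / 83) : ℝ) := ⟨_, rfl⟩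
  rw [← hw] at k1 k2 k3 k5 k6 k7 ⊢
  rw [← hℓ] at k6 ⊢
  have hw0 : 0 < w := by rw [hw]; exact Real.rpow_pos_of_pos hlam _
  have hL4 : (4 : ℝ) ≤ L := k4.trans hL1
  have hLN : L ≤ ⌊Real.exp (lam ^ (-(1 / 102) : ℝ))⌋₊ := Nat.le_floor hL2
  obtain ⟨c, hc⟩ : ∃ c : Zd d, c = fun _ => ((L / 2 : ℕ) : ℤ) := ⟨_, rfl⟩
  have hci : ∀ i, ((c i : ℤ) : ℝ) = ((L / 2 : ℕ) : ℝ) := fun i => by
    rw [hc]
    exact Int.cast_natCast _
  have hhalf1 : (L : ℝ) / 2 - 1 ≤ ((L / 2 : ℕ) : ℝ) := by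
    have h8 : L ≤ 2 * (L / 2) + 1 := by omega
    have h9 : (L : ℝ) ≤ 2 * ((L / 2 : ℕ) : ℝ) + 1 := by exact_mod_cast h8
    linarith
  have hhalf2 : ((L / 2 : ℕ) : ℝ) ≤ (L : ℝ) / 2 := by
    have h8 : 2 * (L / 2) ≤ L := by omega
    have h9 : 2 * ((L / 2 : ℕ) : ℝ) ≤ (L : ℝ) := by exact_mod_cast h8
    linarith
  have hcn : ‖c‖ ≤ Real.exp (lam ^ (-(1 / 101) : ℝ)) := by
    refine le_trans ?_ (hL2.trans k8)
    rw [pi_norm_le_iff_of_nonneg (by positivity)]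
    intro i
    rw [Int.norm_eq_abs, hci, abs_of_nonneg (by positivity)]
    linarith
  have hδmin := k5 L hL1
  obtain ⟨hI, hJ⟩ := det (L := L) hd0 lam b hlam hωb c ((L : ℝ) / 2 - 1) (by linarith)
    (fun i => by
      rw [hci]
      constructor <;> linarith) e w (lam ^ 2 * V) hw0 k3 (by positivity) γ0 γ1
    (2 * d + lam * M - e) C0 m1 K (lam ^ (1 / 200 : ℝ)) hm1
    ((Complex.im_le_norm _).trans (hup _ _ he.1 (h1 _ he.1).1))
    (h2 _ he.1 he.2) (h1 _ he.1).2.2.2 hK0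
    (fun η hη s u hu p hp => by
      have hη1 : lam ^ (81 / 40 : ℝ) ≤ η := by
        rcases hη with hη | hη <;> rw [hη]
        · linarith
        · exact k1
      have hη2 : η ≤ lam ^ (161 / 80 : ℝ) := by
        rcases hη with hη | hη <;> rw [hη]
        · exact k2
        · linarith
      exact (hL0 _ (hωs L hLN s)).2 c hcn e he η hη1 hη2 u hu p hp)
    ε θ τ ℓ hε hθ0 hτ0 (by
      rw [hθ]
      have := hC0.ne'
      field_simp
      exact le_refl _) (by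
      rw [hK]
      have := hC0.ne'
      have := hθ0.ne'
      have := hτ0.ne'
      have := hm1.ne'
      have e9 : τ * (θ ^ 2 * (16 * C0 ^ 3 / (τ * θ ^ 2 * m1)) * m1) = 16 * C0 ^ 3 := by
        field_simp
      rw [e9])
    (hδmin.trans (min_le_left _ _)) (hδmin.trans (min_le_right _ _)) (k6 V hV4)
    (k7 V L hvV hL1) hEB
  have hcard : (Fintype.card (TT d L) : ℝ) = (L : ℝ) ^ d := by
    rw [Fintype.card_fun, ZMod.card, Fintype.card_fin]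
    push_cast
    rfl
  rw [hcard] at hI hJ
  refine ⟨hI, ?_⟩
  obtain ⟨J, hJd⟩ : ∃ J : Fin d → Finset ι, J = fun i => Finset.univ.filter fun j =>
    |E j - e| ≤ w ∧ ∃ y : ZMod L,
      ε ≤ ∑ x : TT d L, if |((x i - y).valMinAbs : ℝ)| ≤ ℓ then ‖ψ j x‖ ^ 2 else 0 := ⟨_, rfl⟩
  have hJc : ∀ i, ((J i).card : ℝ) * ε ^ 2 ≤ 16 * w * (L : ℝ) ^ d * τ := fun i => by
    rw [hJd]
    exact hJ i
  have hsub : (Finset.univ.filter fun j => |E j - e| ≤ w ∧ ∃ (i : Fin d) (y : ZMod L),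
      ε ≤ ∑ x : TT d L, if |((x i - y).valMinAbs : ℝ)| ≤ ℓ then ‖ψ j x‖ ^ 2 else 0) ⊆
      Finset.univ.biUnion J := by
    intro j hj
    rw [Finset.mem_filter] at hj
    obtain ⟨-, hj1, i, y, hy⟩ := hj
    rw [Finset.mem_biUnion]
    refine ⟨i, Finset.mem_univ i, ?_⟩
    rw [hJd, Finset.mem_filter]
    exact ⟨Finset.mem_univ j, hj1, y, hy⟩
  have hcle : ((Finset.univ.filter fun j => |E j - e| ≤ w ∧ ∃ (i : Fin d) (y : ZMod L),
      ε ≤ ∑ x : TT d L, if |((x i - y).valMinAbs : ℝ)| ≤ ℓ then ‖ψ j x‖ ^ 2 else 0).card : ℝ) ≤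
      ∑ i, ((J i).card : ℝ) := by
    have h10 := (Finset.card_le_card hsub).trans Finset.card_biUnion_le
    exact_mod_cast h10
  have hsum : (∑ i, ((J i).card : ℝ)) * ε ^ 2 ≤ d * (16 * w * (L : ℝ) ^ d * τ) := by
    rw [Finset.sum_mul]
    refine (Finset.sum_le_sum fun i _ => hJc i).trans (le_of_eq ?_)
    rw [Finset.sum_const, Finset.card_univ, Fintype.card_fin, nsmul_eq_mul]
  have hfin : (∑ i, ((J i).card : ℝ)) ≤ ε * (m1 / 16 * w * (L : ℝ) ^ d) := by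
    have h11 : (d : ℝ) * (16 * w * (L : ℝ) ^ d * τ) = ε * (m1 / 16 * w * (L : ℝ) ^ d) * ε ^ 2 := by
      rw [hτ]
      field_simp
      ring
    rw [h11] at hsum
    exact le_of_mul_le_mul_right hsum (by positivity)
  exact hcle.trans (hfin.trans (mul_le_mul_of_nonneg_left hI hε.le))

end Pool.Agent.R988.Tor
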