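import Pool.Agent.R988.Up
import Pool.Agent.R988.Loc2

/-! The second moment of the resolvent, for laws on `[-b, b]`. -/

set_option autoImplicit false
set_option linter.unusedVariables false

open scoped BigOperators Topology
open MeasureTheory Filter Set

namespace Pool.Agent.R988

open Pool.Agent.H4R2.LO (Zd)
open Pool.Agent.TH794.QD
open Pool.Agent.TH794.QE
open Pool.Agent.R988.Tor (ev1 ev_extract)

theorem numM (b v : ℝ) (hb : 0 < b) (hv : 0 < v) (c0 : ℝ) (hc0 : 0 < c0) :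
    ∃ l0 : ℝ, 0 < l0 ∧ l0 ≤ 1 ∧ ∀ lam : ℝ, 0 < lam → lam ≤ l0 →
      2 * b * lam ≤ c0 ∧ (2 * b * lam) ^ (81 / 40 : ℝ) ≤ lam ^ (83 / 41 : ℝ) ∧
      lam ^ (-(1 / 102) : ℝ) ≤ (2 * b * lam) ^ (-(1 / 101) : ℝ) ∧
      (2 * b * lam) ^ (1 / 300 : ℝ) ≤ lam ^ (1 / 301 : ℝ) := by
  obtain ⟨l0, hl0, hl1, hl⟩ := ev_extract
    ((ev1 (2 * b / c0) 1 one_pos).and
    ((ev1 ((2 * b) ^ (81 / 40 : ℝ)) (1 / 1640) (by norm_num)).and
    ((ev1 ((2 * b) ^ (1 / 101 : ℝ)) (1 / 10302) (by norm_num)).and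
    (ev1 ((2 * b) ^ (1 / 300 : ℝ)) (1 / 90300) (by norm_num)))))
  refine ⟨l0, hl0, hl1, fun lam h0 hle => ?_⟩
  obtain ⟨n1, n2, n3, n4⟩ := hl lam h0 hle
  have hpos : ∀ p : ℝ, 0 < lam ^ p := fun p => Real.rpow_pos_of_pos h0 p
  have h2b : 0 < 2 * b := by positivity
  have hadd : ∀ p q : ℝ, lam ^ p * lam ^ q = lam ^ (p + q) := fun p q => (Real.rpow_add h0 p q).symm
  refine ⟨?_, ?_, ?_, ?_⟩
  · rw [Real.rpow_one] at n1
    have : 2 * b / c0 * lam = (2 * b * lam) / c0 := by ring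
    rw [this, div_le_one hc0] at n1
    exact n1
  · rw [Real.mul_rpow h2b.le h0.le]
    have e1 : lam ^ (81 / 40 : ℝ) = lam ^ (1 / 1640 : ℝ) * lam ^ (83 / 41 : ℝ) := by
      rw [hadd]
      norm_num
    rw [e1, ← mul_assoc]
    have := hpos (83 / 41)
    nlinarith
  · rw [Real.mul_rpow h2b.le h0.le, Real.rpow_neg h2b.le]
    have e1 : lam ^ (-(1 / 102) : ℝ) = lam ^ (1 / 10302 : ℝ) * lam ^ (-(1 / 101) : ℝ) := by
      rw [hadd]
      norm_num
    rw [e1]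
    have hp : 0 < (2 * b) ^ (1 / 101 : ℝ) := Real.rpow_pos_of_pos h2b _
    refine mul_le_mul_of_nonneg_right ?_ (hpos _).le
    rw [← one_div, le_div_iff₀ hp, mul_comm]
    exact n3
  · rw [Real.mul_rpow h2b.le h0.le]
    have e1 : lam ^ (1 / 300 : ℝ) = lam ^ (1 / 90300 : ℝ) * lam ^ (1 / 301 : ℝ) := by
      rw [hadd]
      norm_num
    rw [e1, ← mul_assoc]
    have := hpos (1 / 301)
    nlinarith

/-- **the second moment of the resolvent, laws on `[-b, b]`** -/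
theorem msd1 (d : ℕ) (hd : 2 ≤ d) : ∃ γ0 γ1 : ℝ → ℂ, ∀ κ : ℝ, 0 < κ → κ ≤ 1 →
    (∀ E, RegE d κ E →
      Tendsto (fun t : ℝ => GF (F0 d) ((E : ℂ) + (t : ℂ) * Complex.I)) (𝓝[>] 0) (𝓝 (γ0 E)) ∧
      Tendsto (fun t : ℝ => GF (F1 d) ((E : ℂ) + (t : ℂ) * Complex.I)) (𝓝[>] 0) (𝓝 (γ1 E)) ∧
      0 ≤ (γ1 E).im ∧ (γ1 E).im ≤ (γ0 E).im) ∧
    (∃ m : ℝ, 0 < m ∧ ∀ E, RegE d κ E → |E| ≤ 2 * d - κ → m ≤ (γ1 E).im) ∧
    ∀ b v : ℝ, 0 < b → 0 < v → ∃ lam0 : ℝ, 0 < lam0 ∧ lam0 ≤ 1 ∧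
    ∀ lam : ℝ, 0 < lam → lam ≤ lam0 →
    ∀ (μ : Measure ℝ), IsProbabilityMeasure μ → (∀ᵐ s ∂μ, |s| ≤ b) →
    ∀ M V : ℝ, ∫ s, s ∂μ = M → ∫ s, (s - M) ^ 2 ∂μ = V → v ≤ V →
      ∃ G : Set (Zd d → ℝ), MeasurableSet G ∧
        1 - Real.exp (-lam ^ (-(1 / 102) : ℝ)) ≤
          (Measure.infinitePi fun _ : Zd d => μ).real G ∧
        ∀ ω ∈ G, (∀ x, |ω x| ≤ b) ∧
          ∀ a : Zd d, ‖a‖ ≤ Real.exp (lam ^ (-(1 / 102) : ℝ)) →
          ∀ e : ℝ, RegE d κ (2 * d + lam * M - e) → ∀ η : ℝ, lam ^ (83 / 41 : ℝ) ≤ η →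
          η ≤ lam ^ 2 * V →
          ∀ u : Zd d → ℂ, Rs d (fun x => 2 * d + lam * ω x) a e η u → ∀ j : Fin d,
            (Summable fun x => ((x j : ℝ) - a j) ^ 2 * ‖u x‖ ^ 2) ∧
            |η ^ 2 * (lam ^ 2 * V) * (∑' x, ((x j : ℝ) - a j) ^ 2 * ‖u x‖ ^ 2) -
              2 * ((γ1 (2 * d + lam * M - e)).im /
                (η / (lam ^ 2 * V) + (γ0 (2 * d + lam * M - e)).im))| ≤ lam ^ (1 / 301 : ℝ) := by
  obtain ⟨γ0, γ1, h⟩ := finF Pool.Agent.W193.BK.ES.es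
    (Pool.Agent.W261.BK.third Pool.Agent.W540.BK.fac)
    (Pool.Agent.W240.BK.fluct (Pool.Agent.W240.BK.var Pool.Agent.W193.BK.ES.es))
    Pool.Agent.W475.BK.inv Pool.Agent.W975.BK.sup
    (Pool.Agent.W465.BK.qb (Pool.Agent.W240.BK.two Pool.Agent.W918.BK.Osc.osc))
    Pool.Agent.W475.BK.low Pool.Agent.W790.BK.ADM.adm Pool.Agent.W540.BK.fac
    Pool.Agent.W918.BK.Osc.osc d hd
  refine ⟨γ0, γ1, fun κ hκ hκ1 => ?_⟩
  obtain ⟨h1, h2, h3⟩ := h κ hκ hκ1
  refine ⟨h1, h2, fun b v hb hv => ?_⟩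
  obtain ⟨c0, hc0, h4⟩ := h3 (v / (4 * b ^ 2)) (by positivity)
  obtain ⟨l0, hl0, hl1, hnum⟩ := numM b v hb hv c0 hc0
  refine ⟨l0, hl0, hl1, fun lam hlam hle μ hμ hμb M V hM hV hvV => ?_⟩
  obtain ⟨n1, n2, n3, n4⟩ := hnum lam hlam hle
  obtain ⟨c, hc⟩ : ∃ c, c = 2 * b * lam := ⟨_, rfl⟩
  rw [← hc] at n1 n2 n3 n4
  have hc0' : 0 < c := by rw [hc]; positivity
  have hMb : |M| ≤ b := by
    rw [← hM, ← Real.norm_eq_abs]
    refine (norm_integral_le_of_norm_le_const (C := b) ?_).trans (le_of_eq ?_)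
    · filter_upwards [hμb] with s hs
      exact hs
    · rw [probReal_univ, mul_one]
  have hmm : Measurable fun s : ℝ => lam * (s - M) := by fun_prop
  obtain ⟨ν, hνdef⟩ : ∃ ν, ν = μ.map fun s => lam * (s - M) := ⟨_, rfl⟩
  have hνp : IsProbabilityMeasure ν := by
    rw [hνdef]
    exact Measure.isProbabilityMeasure_map hmm.aemeasurable
  have hνb : ∀ᵐ s ∂ν, |s| ≤ c := by
    rw [hνdef, ae_map_iff hmm.aemeasurable (measurableSet_le (by fun_prop) (by fun_prop))]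
    filter_upwards [hμb] with s hs
    rw [abs_mul, abs_of_pos hlam, hc]
    have h5 : |s - M| ≤ 2 * b := (abs_sub _ _).trans (by linarith)
    nlinarith
  have hint : Integrable (fun s : ℝ => s) μ := by
    refine Integrable.mono' (integrable_const b) (by fun_prop) ?_
    filter_upwards [hμb] with s hs
    exact hs
  have hν0 : ∫ s, s ∂ν = 0 := by
    rw [hνdef, integral_map hmm.aemeasurable (by fun_prop), integral_const_mul,
      integral_sub hint (integrable_const _), hM, integral_const, probReal_univ, one_smul, sub_self,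
      mul_zero]
  have hν2 : ∫ s, s ^ 2 ∂ν = lam ^ 2 * V := by
    rw [hνdef, integral_map hmm.aemeasurable (by fun_prop), ← hV, ← integral_const_mul]
    refine integral_congr_ae (Filter.Eventually.of_forall fun s => ?_)
    ring
  obtain ⟨G, hG, hP, hL⟩ := h4 c hc0' n1 ν hνp hνb hν0 (lam ^ 2 * V) hν2 (by
    rw [hc]
    have e1 : v / (4 * b ^ 2) * (2 * b * lam) ^ 2 = lam ^ 2 * v := by
      field_simp
      ring
    rw [e1]
    gcongr)
  -- the bounded configurations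
  obtain ⟨Bd, hBd⟩ : ∃ Bd : Set (Zd d → ℝ), Bd = ⋂ x : Zd d, {ω | |ω x| ≤ b} := ⟨_, rfl⟩
  have hBm : MeasurableSet Bd := by
    rw [hBd]
    refine MeasurableSet.iInter fun x => ?_
    exact measurableSet_le (by fun_prop) measurable_const
  have hBae : ∀ᵐ ω ∂(Measure.infinitePi fun _ : Zd d => μ), ω ∈ Bd := by
    rw [hBd]
    simp only [mem_iInter, mem_ofPred_eq]
    rw [ae_all_iff]
    intro x
    have h1 : (Measure.infinitePi fun _ : Zd d => μ).map (fun ω : Zd d → ℝ => ω x) = μ :=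
      Measure.infinitePi_map_eval (fun _ : Zd d => μ) x
    have h2 : ∀ᵐ s ∂((Measure.infinitePi fun _ : Zd d => μ).map (fun ω : Zd d → ℝ => ω x)),
        |s| ≤ b := by
      rw [h1]
      exact hμb
    exact ae_of_ae_map (measurable_pi_apply x).aemeasurable h2
  have hTm : Measurable (fun (ω : Zd d → ℝ) x => lam * (ω x - M)) := by fun_prop
  have hlaw : (Measure.infinitePi fun _ : Zd d => μ).map (fun ω x => lam * (ω x - M)) =
      Measure.infinitePi fun _ : Zd d => ν := by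
    rw [hνdef]
    exact Measure.infinitePi_map_pi (μ := fun _ : Zd d => μ)
      (f := fun _ (s : ℝ) => lam * (s - M)) (fun _ => by fun_prop)
  refine ⟨(fun ω x => lam * (ω x - M)) ⁻¹' G ∩ Bd, (hTm hG).inter hBm, ?_, ?_⟩
  · have h1 : (Measure.infinitePi fun _ : Zd d => μ).real ((fun ω x => lam * (ω x - M)) ⁻¹' G) =
        (Measure.infinitePi fun _ : Zd d => ν).real G := by
      rw [← hlaw, map_measureReal_apply hTm hG]
    have h2 : (Measure.infinitePi fun _ : Zd d => μ).real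
        ((fun ω x => lam * (ω x - M)) ⁻¹' G ∩ Bd) =
        (Measure.infinitePi fun _ : Zd d => μ).real ((fun ω x => lam * (ω x - M)) ⁻¹' G) := by
      apply measureReal_congr
      filter_upwards [hBae] with ω hω
      apply propext
      constructor
      · intro h
        exact h.1
      · intro h
        exact ⟨h, hω⟩
    rw [h2, h1]
    refine le_trans ?_ hP
    have : Real.exp (-c ^ (-(1 / 101) : ℝ)) ≤ Real.exp (-lam ^ (-(1 / 102) : ℝ)) :=
      Real.exp_le_exp.2 (by linarith)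
    linarith
  · intro ω hω
    have hωb : ∀ x, |ω x| ≤ b := by
      have := hω.2
      rw [hBd] at this
      exact fun x => mem_iInter.1 this x
    have hωΓ : (fun x => lam * (ω x - M)) ∈ G := hω.1
    refine ⟨hωb, fun a ha e he η hηl hηu u hu j => ?_⟩
    have hu' : Rs d (fun x => 2 * d + lam * (ω x - M)) a (e - lam * M) η u := by
      refine ⟨hu.sq, fun x => ?_⟩
      rw [← hu.eq x]
      push_cast
      ring
    have e3 : 2 * (d : ℝ) - (e - lam * M) = 2 * d + lam * M - e := by ring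
    obtain ⟨q1, q2⟩ := (hL _ hωΓ).2 a (ha.trans (Real.exp_le_exp.2 n3)) (e - lam * M)
      (by rw [e3]; exact he) η (n2.trans hηl) hηu u hu' j
    refine ⟨q1, ?_⟩
    rw [e3] at q2
    exact q2.trans n4

end Pool.Agent.R988
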