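import Pool.Agent.R988.Far

/-! The mean square displacement as an integral over the energies. -/

set_option autoImplicit false
set_option linter.unusedVariables false
set_option linter.unusedSectionVars false

open scoped BigOperators Topology ENNReal
open MeasureTheory Filter Set

namespace Pool.Agent.R988

open Pool.Agent.H4R2.LO (Zd)
open Pool.Agent.TH794.QD
open Pool.Agent.TH794.QE

variable {d : ℕ}

theorem sym_abs (k : Fin d → ℝ) : |sym k| ≤ 2 * d := by
  unfold sym
  refine (Finset.abs_sum_le_sum_abs _ _).trans ?_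
  have h1 : ∀ i ∈ (Finset.univ : Finset (Fin d)), |2 * Real.cos (2 * Real.pi * k i)| ≤ 2 := by
    intro i _
    rw [abs_mul, abs_of_pos (by norm_num : (0 : ℝ) < 2)]
    have := Real.abs_cos_le_one (2 * Real.pi * k i)
    linarith
  refine (Finset.sum_le_sum h1).trans (le_of_eq ?_)
  rw [Finset.sum_const, Finset.card_univ, Fintype.card_fin, nsmul_eq_mul]
  ring

/-- outside of the band the weighted density of states vanishes -/
theorem g1_out (hd : 3 ≤ d) (E : ℝ) (hE : 2 * (d : ℝ) < |E|) : (GF (F1 d) (E : ℂ)).im = 0 := by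
  obtain ⟨n, rfl⟩ : ∃ n, d = n + 1 := ⟨d - 1, by omega⟩
  have hlim := lim3 _ _ (hol1 Pool.Agent.W918.BK.Osc.osc (n + 1) hd) E
  have l1 := (Complex.continuous_im.tendsto _).comp hlim
  obtain ⟨D, hD⟩ : ∃ D, D = |E| - 2 * ((n + 1 : ℕ) : ℝ) := ⟨_, rfl⟩
  have hD0 : 0 < D := by rw [hD]; linarith
  have hb : ∀ t : ℝ, 0 < t → |(GF (F1 (n + 1)) ((E : ℂ) + (t : ℂ) * Complex.I)).im| ≤
      t * (D⁻¹ ^ 2 * (cube (n + 1)).real Set.univ) := by
    intro t ht
    have hz : 0 < ((E : ℂ) + (t : ℂ) * Complex.I).im := by simpa using ht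
    rw [GF1_cube n _ hz]
    have hm : Measurable fun k : Fin (n + 1) → ℝ => ((Real.sin (2 * Real.pi * k 0) ^ 2 : ℝ) : ℂ) := by
      fun_prop
    have h1 := GF_mixi (cube (n + 1)) (fun k => ((Real.sin (2 * Real.pi * k 0) ^ 2 : ℝ) : ℂ)) sym
      hm (sym_cont _).measurable
      (fun k => by
        rw [Complex.norm_real, Real.norm_of_nonneg (sq_nonneg _)]
        exact Real.sin_sq_le_one _) _ bampOne _ hz
    have h2 : ∀ k : Fin (n + 1) → ℝ, GF (fun _ => (1 : ℂ))
        ((E : ℂ) + (t : ℂ) * Complex.I - ((sym k : ℝ) : ℂ)) =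
        ((sym k : ℂ) - ((E : ℂ) + (t : ℂ) * Complex.I))⁻¹ := by
      intro k
      rw [GF_one _ (by simpa using hz), ← inv_neg, neg_sub]
    simp only [h2] at h1
    have h3 := Complex.imCLM.integral_comp_comm h1
    simp only [Complex.imCLM_apply] at h3
    rw [← h3, ← Real.norm_eq_abs]
    refine (norm_integral_le_of_norm_le_const (C := t * D⁻¹ ^ 2)
      (Eventually.of_forall fun k => ?_)).trans (le_of_eq (by ring))
    rw [Complex.im_ofReal_mul, Complex.inv_im, norm_mul, Real.norm_of_nonneg (sq_nonneg _)]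
    have h4 : (-((sym k : ℂ) - ((E : ℂ) + (t : ℂ) * Complex.I)).im) = t := by
      simp
    have h5 : Complex.normSq ((sym k : ℂ) - ((E : ℂ) + (t : ℂ) * Complex.I)) =
        (sym k - E) ^ 2 + t ^ 2 := by
      rw [Complex.normSq_apply]
      simp
      ring
    rw [h4, h5]
    have h6 : D ^ 2 ≤ (sym k - E) ^ 2 + t ^ 2 := by
      have h7 : D ≤ |sym k - E| := by
        have h8 := sym_abs k
        have h9 := abs_sub_abs_le_abs_sub E (sym k)
        rw [abs_sub_comm E] at h9
        rw [hD]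
        linarith
      have h10 := pow_le_pow_left₀ hD0.le h7 2
      rw [sq_abs] at h10
      nlinarith [sq_nonneg t]
    have h11 : 0 < (sym k - E) ^ 2 + t ^ 2 := by positivity
    rw [Real.norm_of_nonneg (by positivity)]
    calc Real.sin (2 * Real.pi * k 0) ^ 2 * (t / ((sym k - E) ^ 2 + t ^ 2)) ≤
        1 * (t / D ^ 2) := by
          gcongr
          exact Real.sin_sq_le_one _
      _ = t * D⁻¹ ^ 2 := by
          rw [one_mul, div_eq_mul_inv, inv_pow]
  have l2 : Tendsto (fun t : ℝ => t * (D⁻¹ ^ 2 * (cube (n + 1)).real Set.univ)) (𝓝[>] 0) (𝓝 0) := by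
    have : Tendsto (fun t : ℝ => t * (D⁻¹ ^ 2 * (cube (n + 1)).real Set.univ)) (𝓝 0)
        (𝓝 (0 * (D⁻¹ ^ 2 * (cube (n + 1)).real Set.univ))) := by
      exact (continuous_id.mul continuous_const).tendsto 0
    rw [zero_mul] at this
    exact this.mono_left nhdsWithin_le_nhds
  have l2n := l2.neg
  rw [neg_zero] at l2n
  have l3 := tendsto_of_tendsto_of_tendsto_of_le_of_le' l2n l2
    (f := fun t : ℝ => (GF (F1 (n + 1)) ((E : ℂ) + (t : ℂ) * Complex.I)).im)
    (by
      filter_upwards [self_mem_nhdsWithin] with t ht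
      exact (abs_le.1 (hb t ht)).1)
    (by
      filter_upwards [self_mem_nhdsWithin] with t ht
      exact (abs_le.1 (hb t ht)).2)
  exact tendsto_nhds_unique l1 l3

/-- **the mean square displacement is the mean of the second moment of the resolvent over the
energies** -/
theorem msdsum {V : Zd d → ℝ} {a : Zd d} {ψ : ℝ → Zd d → ℂ} (h : Sol d V a ψ) (η : ℝ)
    (hη : 0 < η) (hη1 : η ≤ 1) (j : Fin d) (g : ℝ → ℝ) (hg : Integrable g)
    (hb : ∀ e, ∑' x : Zd d, ((x j : ℝ) - a j) ^ 2 * ‖Complex.I * La ψ e η x‖ ^ 2 ≤ g e) :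
    Integrable (fun e => ∑' x : Zd d, ((x j : ℝ) - a j) ^ 2 * ‖Complex.I * La ψ e η x‖ ^ 2) ∧
    HasSum (fun x : Zd d => ((x j : ℝ) - a j) ^ 2 *
      (2 * η * ∫ s in Ioi (0 : ℝ), Real.exp (-(2 * η) * s) * ‖ψ s x‖ ^ 2))
      (η / Real.pi * ∫ e, ∑' x : Zd d, ((x j : ℝ) - a j) ^ 2 * ‖Complex.I * La ψ e η x‖ ^ 2) := by
  obtain ⟨W, hW⟩ : ∃ W : Zd d → ℝ, W = fun x => ((x j : ℝ) - a j) ^ 2 := ⟨_, rfl⟩
  have hW0 : ∀ x, 0 ≤ W x := fun x => by rw [hW]; positivity
  obtain ⟨F, hF⟩ : ∃ F : Zd d → ℝ → ℝ, F = fun x e => W x * ‖Complex.I * La ψ e η x‖ ^ 2 := ⟨_, rfl⟩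
  have hF0 : ∀ x e, 0 ≤ F x e := fun x e => by
    rw [hF]
    exact mul_nonneg (hW0 x) (sq_nonneg _)
  have hFs : ∀ e, Summable fun x => F x e := fun e => by
    have hR : Rs d V a e η (fun x => Complex.I * La ψ e η x) := ⟨La_sum h e η hη, La_eq h e η hη⟩
    have := (Tor.rs_qm hR hη hη1 j).1
    rw [hF, hW]
    exact this
  have hFc : ∀ x, Continuous (F x) := fun x => by
    rw [hF]
    exact continuous_const.mul ((continuous_const.mul (La_contE h η hη x)).norm.pow 2)
  obtain ⟨q, hq⟩ : ∃ q : ℝ → ℝ, q = fun e => ∑' x, F x e := ⟨_, rfl⟩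
  have hq0 : ∀ e, 0 ≤ q e := fun e => by
    rw [hq]
    exact tsum_nonneg fun x => hF0 x e
  have hqA : ∀ e, ENNReal.ofReal (q e) = ∑' x, ENNReal.ofReal (F x e) := fun e => by
    rw [hq]
    exact ENNReal.ofReal_tsum_of_nonneg (fun x => hF0 x e) (hFs e)
  have hAm : Measurable fun e => ∑' x, ENNReal.ofReal (F x e) :=
    Measurable.ennreal_tsum fun x => (hFc x).measurable.ennreal_ofReal
  have hqm : Measurable q := by
    have h1 : q = fun e => (∑' x, ENNReal.ofReal (F x e)).toReal := by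
      funext e
      rw [← hqA, ENNReal.toReal_ofReal (hq0 e)]
    rw [h1]
    exact hAm.ennreal_toReal
  have hqg : ∀ e, q e ≤ g e := fun e => by
    rw [hq, hF, hW]
    exact hb e
  have hqi : Integrable q := Integrable.mono' hg hqm.aestronglyMeasurable
    (Eventually.of_forall fun e => by
      rw [Real.norm_of_nonneg (hq0 e)]
      exact hqg e)
  have hqe : (fun e => ∑' x : Zd d, ((x j : ℝ) - a j) ^ 2 * ‖Complex.I * La ψ e η x‖ ^ 2) = q := by
    rw [hq, hF, hW]
  rw [hqe]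
  refine ⟨hqi, ?_⟩
  -- the time integrals
  obtain ⟨J, hJ⟩ : ∃ J : Zd d → ℝ, J = fun x =>
    ∫ s in Ioi (0 : ℝ), Real.exp (-(2 * η) * s) * ‖ψ s x‖ ^ 2 := ⟨_, rfl⟩
  have hJi : ∀ x, IntegrableOn (fun s => Real.exp (-(2 * η) * s) * ‖ψ s x‖ ^ 2) (Ioi (0 : ℝ)) := by
    intro x
    refine Integrable.mono' (exp_int (2 * η) (by positivity)) ?_ ?_
    · exact (Continuous.mul (by fun_prop) ((h.cont x).norm.pow 2)).aestronglyMeasurable
    · refine Eventually.of_forall fun s => ?_
      rw [Real.norm_of_nonneg (by positivity)]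
      refine mul_le_of_le_one_right (Real.exp_pos _).le ?_
      exact pow_le_one₀ (norm_nonneg _) (h.le_one s x)
  have hJ0 : ∀ x, 0 ≤ J x := fun x => by
    rw [hJ]
    exact integral_nonneg fun s => by positivity
  have hJe : ∀ x, ∫⁻ s in Ioi (0 : ℝ), ENNReal.ofReal (Real.exp (-(2 * η) * s) * ‖ψ s x‖ ^ 2) =
      ENNReal.ofReal (J x) := fun x => by
    rw [hJ]
    exact (ofReal_integral_eq_lintegral_ofReal (hJi x)
      (Eventually.of_forall fun s => by positivity)).symm
  have h2 : ENNReal.ofReal (∫ e, q e) = ∑' x, ENNReal.ofReal (2 * Real.pi * (W x * J x)) := by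
    rw [ofReal_integral_eq_lintegral_ofReal hqi (Eventually.of_forall hq0)]
    simp only [hqA]
    rw [lintegral_tsum fun x => (hFc x).measurable.ennreal_ofReal.aemeasurable]
    refine tsum_congr fun x => ?_
    have h3 : ∀ e, ENNReal.ofReal (F x e) = ENNReal.ofReal (W x) * ‖La ψ e η x‖ₑ ^ 2 := by
      intro e
      rw [hF]
      simp only
      rw [norm_mul, Complex.norm_I, one_mul, ENNReal.ofReal_mul (hW0 x),
        ENNReal.ofReal_pow (norm_nonneg _), ofReal_norm]
    simp only [h3]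
    rw [lintegral_const_mul _ ((La_contE h η hη x).measurable.enorm.pow_const 2),
      planchLa h η hη x, hJe, ← ENNReal.ofReal_mul (by positivity), ← ENNReal.ofReal_mul (hW0 x)]
    congr 1
    ring
  have hb0 : ∀ x, 0 ≤ 2 * Real.pi * (W x * J x) := fun x => by
    have := hW0 x
    have := hJ0 x
    positivity
  have hsum : Summable fun x => 2 * Real.pi * (W x * J x) := by
    have h4 : ∑' x, ENNReal.ofReal (2 * Real.pi * (W x * J x)) ≠ ⊤ := by
      rw [← h2]
      exact ENNReal.ofReal_ne_top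
    have h5 := ENNReal.summable_toReal h4
    refine h5.congr fun x => ?_
    rw [ENNReal.toReal_ofReal (hb0 x)]
  have h6 : ∑' x, 2 * Real.pi * (W x * J x) = ∫ e, q e := by
    rw [← ENNReal.ofReal_tsum_of_nonneg hb0 hsum] at h2
    have h7 : 0 ≤ ∫ e, q e := integral_nonneg hq0
    have h8 : 0 ≤ ∑' x, 2 * Real.pi * (W x * J x) := tsum_nonneg hb0
    exact ((ENNReal.ofReal_eq_ofReal_iff h7 h8).1 h2).symm
  have h9 := (hsum.hasSum.mul_left (η / Real.pi))
  rw [h6] at h9
  refine h9.congr_fun ?_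
  intro x
  rw [hW, hJ]
  have := Real.pi_ne_zero
  simp only
  field_simp

end Pool.Agent.R988
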