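import Pool.Agent.R988.Perm
import Pool.Agent.R988.Far
import Pool.Agent.W788.MFP.Cut

/-! The evolution on a torus and the evolution on the lattice. -/

set_option autoImplicit false
set_option linter.unusedSectionVars false
set_option linter.unusedVariables false

open scoped BigOperators ComplexConjugate InnerProductSpace
open Set

namespace Pool.Agent.R988.Tor

open Pool.Agent.W788.LD.Spec (S)
open Pool.Agent.H4R2.LO (Zd)
open Pool.Agent.TH794.QD (Sol)
open Pool.Agent.W788.MFP.Cut (φ φ_nonneg φ_le_one φ_one φ_zero φ_lip norm_single)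

variable {d L : ℕ} [NeZero L]

/-- the evolution on the torus -/
structure TSol (W : TT d L → ℝ) (a : TT d L) (g : ℝ → TT d L → ℂ) : Prop where
  init : ∀ x, g 0 x = if x = a then 1 else 0
  ode : ∀ s x, HasDerivAt (fun s => g s x) (-Complex.I * (-TS (g s) x + (W x : ℂ) * g s x)) s

/-- the derivative of the norm -/
theorem nd (W : TT d L → ℝ) (w r : ℝ → TT d L → ℂ)
    (hode : ∀ s x, HasDerivAt (fun s => w s x)
      (-Complex.I * (-TS (w s) x + (W x : ℂ) * w s x) + r s x) s) (s : ℝ) :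
    HasDerivAt (fun s => ∑ x, ‖w s x‖ ^ 2) (∑ x, 2 * (conj (w s x) * r s x).re) s := by
  have h1 : ∀ x, HasDerivAt (fun s => ‖w s x‖ ^ 2) (2 * ⟪w s x,
      -Complex.I * (-TS (w s) x + (W x : ℂ) * w s x) + r s x⟫_ℝ) s := fun x =>
    (hode s x).norm_sq
  have h2 := HasDerivAt.fun_sum (u := Finset.univ) fun x _ => h1 x
  refine h2.congr_deriv ?_
  have h3 : ∀ x, 2 * ⟪w s x, -Complex.I * (-TS (w s) x + (W x : ℂ) * w s x) + r s x⟫_ℝ =
      2 * (Complex.I * (conj (w s x) * TS (w s) x)).re +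
      2 * (conj (w s x) * r s x).re := by
    intro x
    rw [Complex.inner]
    have e1 : (-Complex.I * (-TS (w s) x + (W x : ℂ) * w s x) + r s x) * conj (w s x) =
        Complex.I * (conj (w s x) * TS (w s) x) +
        (-(Complex.I * (W x * (w s x * conj (w s x)))) + conj (w s x) * r s x) := by ring
    rw [e1, Complex.add_re, Complex.add_re, Complex.mul_conj]
    have e2 : (-(Complex.I * (↑(W x) * (Complex.normSq (w s x) : ℂ)))).re = 0 := by
      simp
    rw [e2]
    ring
  rw [Finset.sum_congr rfl fun x _ => h3 x, Finset.sum_add_distrib]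
  have h4 : ∑ x, 2 * (Complex.I * (conj (w s x) * TS (w s) x)).re = 0 := by
    rw [← Finset.mul_sum, ← Complex.re_sum, ← Finset.mul_sum]
    have h2 := ts_symm (w s) (w s)
    have h3 : ∑ x, conj (TS (w s) x) * w s x = conj (∑ x, conj (w s x) * TS (w s) x) := by
      rw [map_sum]
      refine Finset.sum_congr rfl fun x _ => ?_
      rw [map_mul, Complex.conj_conj, mul_comm]
    rw [h3] at h2
    have h5 := Complex.conj_eq_iff_im.1 h2.symm
    rw [Complex.I_mul_re, h5]
    simp
  rw [h4, zero_add]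

/-- the energy estimate for the evolution -/
theorem duh (W : TT d L → ℝ) (w r : ℝ → TT d L → ℂ) (R : ℝ) (hR : 0 ≤ R) (F0 : ℝ)
    (hF0 : 0 ≤ F0) (h0 : ∑ x, ‖w 0 x‖ ^ 2 ≤ F0 ^ 2)
    (hode : ∀ s x, HasDerivAt (fun s => w s x)
      (-Complex.I * (-TS (w s) x + (W x : ℂ) * w s x) + r s x) s)
    (hr : ∀ s, ∑ x, ‖r s x‖ ^ 2 ≤ R ^ 2) (t : ℝ) (ht : 0 ≤ t) :
    ∑ x, ‖w t x‖ ^ 2 ≤ (F0 + R * t) ^ 2 := by
  obtain ⟨f, hf⟩ : ∃ f : ℝ → ℝ, f = fun s => ∑ x, ‖w s x‖ ^ 2 := ⟨_, rfl⟩
  have hf0 : ∀ s, 0 ≤ f s := fun s => by rw [hf]; positivity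
  obtain ⟨f', hf'⟩ : ∃ f' : ℝ → ℝ, f' = fun s => ∑ x, 2 * (conj (w s x) * r s x).re := ⟨_, rfl⟩
  have hder : ∀ s, HasDerivAt f (f' s) s := by
    intro s
    rw [hf, hf']
    exact nd W w r hode s
  have hf'b : ∀ s, f' s ≤ 2 * (Real.sqrt (f s) * R) := by
    intro s
    have h1 : f' s ≤ ∑ x, 2 * (‖w s x‖ * ‖r s x‖) := by
      rw [hf']
      refine Finset.sum_le_sum fun x _ => ?_
      have h2 := Complex.re_le_norm (conj (w s x) * r s x)
      rw [norm_mul, RCLike.norm_conj] at h2
      linarith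
    refine h1.trans ?_
    rw [← Finset.mul_sum]
    have h3 : ∑ x, ‖w s x‖ * ‖r s x‖ ≤ Real.sqrt (f s) * R := by
      have h4 := Finset.sum_mul_sq_le_sq_mul_sq Finset.univ (fun x => ‖w s x‖) (fun x => ‖r s x‖)
      have h5 : (∑ x, ‖w s x‖ * ‖r s x‖) ^ 2 ≤ (Real.sqrt (f s) * R) ^ 2 := by
        rw [mul_pow, Real.sq_sqrt (hf0 s)]
        refine h4.trans ?_
        rw [hf]
        exact mul_le_mul_of_nonneg_left (hr s) (by positivity)
      exact (pow_le_pow_iff_left₀ (by positivity) (by positivity) two_ne_zero).1 h5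
    linarith
  have key : ∀ δ : ℝ, 0 < δ → Real.sqrt (f t) ≤ F0 + R * t + δ := by
    intro δ hδ
    obtain ⟨F, hF⟩ : ∃ F : ℝ → ℝ, F = fun s => Real.sqrt (f s + δ ^ 2) - R * s := ⟨_, rfl⟩
    have hpos : ∀ s, 0 < f s + δ ^ 2 := fun s => by
      have := hf0 s
      positivity
    have hFd : ∀ s, HasDerivAt F (f' s / (2 * Real.sqrt (f s + δ ^ 2)) - R) s := by
      intro s
      rw [hF]
      have h1 := ((hder s).add_const (δ ^ 2)).sqrt (hpos s).ne'
      have h2 := (hasDerivAt_id s).const_mul R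
      rw [mul_one] at h2
      exact h1.sub h2
    have hFa : AntitoneOn F (Ici 0) := by
      refine antitoneOn_of_deriv_nonpos (convex_Ici 0)
        (fun s _ => (hFd s).continuousAt.continuousWithinAt)
        (fun s _ => (hFd s).differentiableAt.differentiableWithinAt) fun s _ => ?_
      rw [(hFd s).deriv]
      have h1 : f' s / (2 * Real.sqrt (f s + δ ^ 2)) ≤ R := by
        have hsq : 0 < Real.sqrt (f s + δ ^ 2) := Real.sqrt_pos.2 (hpos s)
        rw [div_le_iff₀ (by positivity)]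
        refine (hf'b s).trans ?_
        have h2 : Real.sqrt (f s) ≤ Real.sqrt (f s + δ ^ 2) :=
          Real.sqrt_le_sqrt (by nlinarith [sq_nonneg δ])
        nlinarith
      linarith
    have h1 := hFa (mem_Ici.2 le_rfl) (mem_Ici.2 ht) ht
    rw [hF] at h1
    simp only at h1
    have h2 : Real.sqrt (f 0 + δ ^ 2) ≤ F0 + δ := by
      rw [Real.sqrt_le_left (by positivity)]
      have h3 : f 0 ≤ F0 ^ 2 := by
        rw [hf]
        exact h0
      nlinarith
    have h4 : Real.sqrt (f t) ≤ Real.sqrt (f t + δ ^ 2) :=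
      Real.sqrt_le_sqrt (by nlinarith [sq_nonneg δ])
    linarith
  have h1 : Real.sqrt (f t) ≤ F0 + R * t := le_of_forall_pos_le_add fun δ hδ => by
    have := key δ hδ
    linarith
  have h2 := pow_le_pow_left₀ (Real.sqrt_nonneg _) h1 2
  rw [Real.sq_sqrt (hf0 t), hf] at h2
  exact h2

theorem TSol.norm {W : TT d L → ℝ} {a : TT d L} {g : ℝ → TT d L → ℂ} (h : TSol W a g) (t : ℝ) :
    ∑ x, ‖g t x‖ ^ 2 = 1 := by
  have hi : ∑ x, ‖g 0 x‖ ^ 2 = 1 := by
    simp only [h.init]
    rw [Finset.sum_eq_single a]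
    · simp
    · intro x _ hx
      simp [hx]
    · intro hx
      exact absurd (Finset.mem_univ _) hx
  have h1 : ∀ s, HasDerivAt (fun s => ∑ x, ‖g s x‖ ^ 2) 0 s := by
    intro s
    have h2 := nd W g (fun _ _ => 0) (fun s x => by
      rw [add_zero]
      exact h.ode s x) s
    simpa using h2
  have h2 := is_const_of_deriv_eq_zero (fun s => (h1 s).differentiableAt) (fun s => (h1 s).deriv)
    t 0
  rw [← hi]
  exact h2

theorem TSol.cont {W : TT d L → ℝ} {a : TT d L} {g : ℝ → TT d L → ℂ} (h : TSol W a g)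
    (x : TT d L) : Continuous fun s => g s x :=
  continuous_iff_continuousAt.2 fun s => (h.ode s x).continuousAt

theorem TSol.unique {W : TT d L → ℝ} {a : TT d L} {g g' : ℝ → TT d L → ℂ} (h : TSol W a g)
    (h' : TSol W a g') (t : ℝ) (ht : 0 ≤ t) (x : TT d L) : g t x = g' t x := by
  have h1 := duh W (fun s x => g s x - g' s x) (fun _ _ => 0) 0 le_rfl 0 le_rfl
    (by simp [h.init, h'.init]) (fun s x => by
      have h2 := (h.ode s x).sub (h'.ode s x)
      refine h2.congr_deriv ?_
      have h3 : TS (fun x => g s x - g' s x) x = TS (g s) x - TS (g' s) x := by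
        unfold TS
        rw [← Finset.sum_sub_distrib]
        exact Finset.sum_congr rfl fun i _ => by ring
      rw [h3]
      ring) (fun s => by simp) t ht
  have h2 : ∑ x, ‖g t x - g' t x‖ ^ 2 ≤ 0 := by simpa using h1
  have h3 : ‖g t x - g' t x‖ ^ 2 ≤ 0 :=
    (Finset.single_le_sum (f := fun x => ‖g t x - g' t x‖ ^ 2) (fun x _ => by positivity)
      (Finset.mem_univ x)).trans h2
  have h4 : ‖g t x - g' t x‖ = 0 := by
    have := norm_nonneg (g t x - g' t x)
    nlinarith
  exact sub_eq_zero.1 (norm_eq_zero.1 h4)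

/-! ### Cutting off -/

theorem chi_zero (ρ : ℝ) (hρ : 0 < ρ) (c z : Zd d) (i : Fin d) (h : ρ ≤ |(z i : ℝ) - c i|) :
    φ (ρ / 2) (z - c) = 0 := by
  refine φ_zero (ρ / 2) (by positivity) _ ?_
  have h1 := norm_le_pi_norm (z - c) i
  rw [Int.norm_eq_abs, Pi.sub_apply, Int.cast_sub] at h1
  linarith

/-- the cut-off function does not see the wrapping -/
theorem chi_wrap (ρ : ℝ) (hρ : 1 ≤ ρ) (c : Zd d) (hc : ∀ i, ρ ≤ c i ∧ ρ + 1 ≤ L - c i) (i : Fin d)
    (y : Zd d) (hy : ∀ j, j ≠ i → 0 ≤ y j ∧ y j < L) (h1 : -1 ≤ y i) (h2 : y i ≤ L)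
    (u : Zd d → ℂ) : (φ (ρ / 2) (em (pr L y) - c) : ℂ) * u (em (pr L y)) =
      (φ (ρ / 2) (y - c) : ℂ) * u y := by
  by_cases hin : 0 ≤ y i ∧ y i < L
  · have : em (pr L y) = y := em_pr y fun j => by
      by_cases hj : j = i
      · rw [hj]
        exact hin
      · exact hy j hj
    rw [this]
  · have hcase : y i = -1 ∨ y i = L := by
      by_contra hcon
      push Not at hcon
      apply hin
      constructor
      · omega
      · omega
    obtain ⟨hc1, hc2⟩ := hc i
    have hL : (0 : ℤ) < L := by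
      have := NeZero.ne L
      omega
    have hval : (em (pr L y) : Zd d) i = y i % L := by
      unfold em pr
      rw [ZMod.val_intCast]
    have hρ0 : 0 < ρ := by linarith
    have hA : φ (ρ / 2) (y - c) = 0 := by
      refine chi_zero ρ hρ0 c y i ?_
      rcases hcase with h | h
      · rw [h, abs_of_nonpos (by push_cast; linarith)]
        push_cast
        linarith
      · rw [h, abs_of_nonneg (by push_cast; linarith)]
        push_cast
        linarith
    have hB : φ (ρ / 2) (em (pr L y) - c) = 0 := by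
      refine chi_zero ρ hρ0 c _ i ?_
      rw [hval]
      rcases hcase with h | h
      · have : y i % L = L - 1 := by
          rw [h, ← Int.add_emod_right]
          refine Int.emod_eq_of_lt ?_ ?_ <;> omega
        rw [this, abs_of_nonneg (by push_cast; linarith)]
        push_cast
        linarith
      · have : y i % L = 0 := by
          rw [h, Int.emod_self]
        rw [this, abs_of_nonpos (by push_cast; linarith)]
        push_cast
        linarith
    rw [hA, hB]
    simp

end Pool.Agent.R988.Tor
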