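import Pool.Agent.R988.TE

/-! Comparison of the evolution on a torus with the evolution on the lattice. -/

set_option autoImplicit false
set_option linter.unusedSectionVars false
set_option linter.unusedVariables false

open scoped BigOperators ComplexConjugate InnerProductSpace
open Set

namespace Pool.Agent.R988.Tor

open Pool.Agent.W788.LD.Spec (S)
open Pool.Agent.H4R2.LO (Zd)
open Pool.Agent.TH794.QD (Sol)
open Pool.Agent.W788.MFP.Cut (φ φ_nonneg φ_le_one φ_one φ_zero φ_lip norm_single)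

variable {d L : ℕ} [NeZero L]

/-- the wave function on the lattice, cut off, as a function on the torus -/
noncomputable def hcut (ρ : ℝ) (c : Zd d) (s : TT d L) (u : Zd d → ℂ) (x : TT d L) : ℂ :=
  (φ (ρ / 2) (em (x - s) - c) : ℂ) * u (em (x - s))

/-- the error of the cut-off -/
noncomputable def rcut (ρ : ℝ) (c : Zd d) (s : TT d L) (u : Zd d → ℂ) (x : TT d L) : ℂ :=
  -Complex.I * ∑ i : Fin d,
    (((φ (ρ / 2) (em (x - s) + Pi.single i 1 - c) - φ (ρ / 2) (em (x - s) - c) : ℝ) : ℂ) *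
      u (em (x - s) + Pi.single i 1) +
    ((φ (ρ / 2) (em (x - s) - Pi.single i 1 - c) - φ (ρ / 2) (em (x - s) - c) : ℝ) : ℂ) *
      u (em (x - s) - Pi.single i 1))

theorem hcut_TS (ρ : ℝ) (hρ : 1 ≤ ρ) (c : Zd d) (hc : ∀ i, ρ ≤ c i ∧ ρ + 1 ≤ L - c i)
    (s : TT d L) (u : Zd d → ℂ) (x : TT d L) :
    -Complex.I * (-TS (hcut ρ c s u) x) =
      (φ (ρ / 2) (em (x - s) - c) : ℂ) * (-Complex.I * (-S u (em (x - s)))) -
        rcut ρ c s u x := by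
  have hp : ∀ i : Fin d, hcut ρ c s u (x + Pi.single i 1) =
      (φ (ρ / 2) (em (x - s) + Pi.single i 1 - c) : ℂ) * u (em (x - s) + Pi.single i 1) := by
    intro i
    unfold hcut
    have e1 : x + Pi.single i 1 - s = pr L (em (x - s) + Pi.single i 1) := by
      rw [pr_add, pr_em, pr_single]
      abel
    rw [e1]
    refine chi_wrap ρ hρ c hc i _ (fun j hj => ?_) ?_ ?_ u
    · rw [Pi.add_apply, Pi.single_eq_of_ne hj, add_zero]
      exact ⟨em_nonneg _ j, em_lt _ j⟩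
    · rw [Pi.add_apply, Pi.single_eq_same]
      have := em_nonneg (x - s) i
      omega
    · rw [Pi.add_apply, Pi.single_eq_same]
      have := em_lt (x - s) i
      omega
  have hm : ∀ i : Fin d, hcut ρ c s u (x - Pi.single i 1) =
      (φ (ρ / 2) (em (x - s) - Pi.single i 1 - c) : ℂ) * u (em (x - s) - Pi.single i 1) := by
    intro i
    unfold hcut
    have e1 : x - Pi.single i 1 - s = pr L (em (x - s) - Pi.single i 1) := by
      rw [pr_sub, pr_em, pr_single]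
      abel
    rw [e1]
    refine chi_wrap ρ hρ c hc i _ (fun j hj => ?_) ?_ ?_ u
    · rw [Pi.sub_apply, Pi.single_eq_of_ne hj, sub_zero]
      exact ⟨em_nonneg _ j, em_lt _ j⟩
    · rw [Pi.sub_apply, Pi.single_eq_same]
      have := em_nonneg (x - s) i
      omega
    · rw [Pi.sub_apply, Pi.single_eq_same]
      have := em_lt (x - s) i
      omega
  have h1 : TS (hcut ρ c s u) x = (φ (ρ / 2) (em (x - s) - c) : ℂ) * S u (em (x - s)) +
      ∑ i : Fin d,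
    (((φ (ρ / 2) (em (x - s) + Pi.single i 1 - c) - φ (ρ / 2) (em (x - s) - c) : ℝ) : ℂ) *
      u (em (x - s) + Pi.single i 1) +
    ((φ (ρ / 2) (em (x - s) - Pi.single i 1 - c) - φ (ρ / 2) (em (x - s) - c) : ℝ) : ℂ) *
      u (em (x - s) - Pi.single i 1)) := by
    unfold TS S
    rw [Finset.mul_sum, ← Finset.sum_add_distrib]
    refine Finset.sum_congr rfl fun i _ => ?_
    rw [hp, hm]
    push_cast
    ring
  rw [h1]
  unfold rcut
  ring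

theorem rcut_le (ρ : ℝ) (hρ : 1 ≤ ρ) (c : Zd d) (s : TT d L) (u : Zd d → ℂ)
    (hu : HasSum (fun x => ‖u x‖ ^ 2) 1) :
    ∑ x, ‖rcut ρ c s u x‖ ^ 2 ≤ (4 * d / ρ) ^ 2 := by
  have hρ0 : 0 < ρ / 2 := by linarith
  have hlip : ∀ (z e : Zd d), ‖e‖ ≤ 1 → |φ (ρ / 2) (z + e - c) - φ (ρ / 2) (z - c)| ≤ 2 / ρ := by
    intro z e he
    have h1 := φ_lip (ρ / 2) hρ0 (z + e - c) (z - c) (by
      have : z + e - c - (z - c) = e := by abel
      rw [this]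
      exact he)
    refine h1.trans (le_of_eq ?_)
    field_simp
  have hlip' : ∀ (z e : Zd d), ‖e‖ ≤ 1 → |φ (ρ / 2) (z - e - c) - φ (ρ / 2) (z - c)| ≤ 2 / ρ := by
    intro z e he
    have := hlip z (-e) (by rwa [norm_neg])
    rwa [← sub_eq_add_neg] at this
  have hpt : ∀ x, ‖rcut ρ c s u x‖ ^ 2 ≤ d * ∑ i : Fin d, 2 * (2 / ρ) ^ 2 *
      (‖u (em (x - s) + Pi.single i 1)‖ ^ 2 + ‖u (em (x - s) - Pi.single i 1)‖ ^ 2) := by
    intro x
    unfold rcut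
    rw [norm_mul, norm_neg, Complex.norm_I, one_mul]
    have h1 : ∀ i : Fin d,
      ‖((φ (ρ / 2) (em (x - s) + Pi.single i 1 - c) - φ (ρ / 2) (em (x - s) - c) : ℝ) : ℂ) *
        u (em (x - s) + Pi.single i 1) +
      ((φ (ρ / 2) (em (x - s) - Pi.single i 1 - c) - φ (ρ / 2) (em (x - s) - c) : ℝ) : ℂ) *
        u (em (x - s) - Pi.single i 1)‖ ≤ 2 / ρ * (‖u (em (x - s) + Pi.single i 1)‖ +
          ‖u (em (x - s) - Pi.single i 1)‖) := by
      intro i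
      refine (norm_add_le _ _).trans ?_
      rw [norm_mul, norm_mul, Complex.norm_real, Complex.norm_real, Real.norm_eq_abs,
        Real.norm_eq_abs, mul_add]
      have a1 := hlip (em (x - s)) (Pi.single i 1) (norm_single i)
      have a2 := hlip' (em (x - s)) (Pi.single i 1) (norm_single i)
      gcongr
    have h2 : ‖∑ i : Fin d,
      (((φ (ρ / 2) (em (x - s) + Pi.single i 1 - c) - φ (ρ / 2) (em (x - s) - c) : ℝ) : ℂ) *
        u (em (x - s) + Pi.single i 1) +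
      ((φ (ρ / 2) (em (x - s) - Pi.single i 1 - c) - φ (ρ / 2) (em (x - s) - c) : ℝ) : ℂ) *
        u (em (x - s) - Pi.single i 1))‖ ≤ ∑ i : Fin d, 2 / ρ *
          (‖u (em (x - s) + Pi.single i 1)‖ + ‖u (em (x - s) - Pi.single i 1)‖) :=
      (norm_sum_le _ _).trans (Finset.sum_le_sum fun i _ => h1 i)
    refine (pow_le_pow_left₀ (norm_nonneg _) h2 2).trans ?_
    refine sq_sum_le_card_mul_sum_sq.trans ?_
    rw [Finset.card_univ, Fintype.card_fin]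
    refine mul_le_mul_of_nonneg_left (Finset.sum_le_sum fun i _ => ?_) (by positivity)
    rw [mul_pow]
    have h3 : ∀ a b : ℝ, (a + b) ^ 2 ≤ 2 * (a ^ 2 + b ^ 2) := fun a b => add_sq_le
    have h4 := h3 ‖u (em (x - s) + Pi.single i 1)‖ ‖u (em (x - s) - Pi.single i 1)‖
    have h5 : 0 ≤ (2 / ρ) ^ 2 := sq_nonneg _
    nlinarith
  have i1 : ∀ e : Zd d, ∑ x : TT d L, ‖u (em (x - s) + e)‖ ^ 2 ≤ 1 := by
    intro e
    have hinj : Function.Injective fun x : TT d L => em (x - s) + e := fun x y h => by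
      have h1 : em (x - s) = em (y - s) := add_right_cancel h
      exact sub_left_injective (em_inj h1)
    have := inj_sum (fun z => ‖u z‖ ^ 2) (fun z => sq_nonneg _) hu.summable _ hinj
    rw [hu.tsum_eq] at this
    exact this
  refine (Finset.sum_le_sum fun x _ => hpt x).trans ?_
  rw [← Finset.mul_sum, Finset.sum_comm]
  have h6 : ∀ i : Fin d, ∑ x : TT d L, 2 * (2 / ρ) ^ 2 *
      (‖u (em (x - s) + Pi.single i 1)‖ ^ 2 + ‖u (em (x - s) - Pi.single i 1)‖ ^ 2) ≤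
      4 * (2 / ρ) ^ 2 := by
    intro i
    rw [← Finset.mul_sum, Finset.sum_add_distrib]
    have b1 := i1 (Pi.single i 1)
    have b2 := i1 (-Pi.single i 1)
    simp only [← sub_eq_add_neg] at b2
    have h5 : 0 ≤ (2 / ρ) ^ 2 := sq_nonneg _
    nlinarith
  calc (d : ℝ) * ∑ i : Fin d, ∑ x : TT d L, 2 * (2 / ρ) ^ 2 *
      (‖u (em (x - s) + Pi.single i 1)‖ ^ 2 + ‖u (em (x - s) - Pi.single i 1)‖ ^ 2) ≤
      d * ∑ i : Fin d, 4 * (2 / ρ) ^ 2 := by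
        refine mul_le_mul_of_nonneg_left (Finset.sum_le_sum fun i _ => h6 i) (by positivity)
    _ = _ := by
        rw [Finset.sum_const, Finset.card_univ, Fintype.card_fin, nsmul_eq_mul]
        ring

theorem hcut_ode {V : Zd d → ℝ} {c : Zd d} {ψ : ℝ → Zd d → ℂ}
    (h : ∀ s x, HasDerivAt (fun s => ψ s x) (-Complex.I * (-S (ψ s) x + (V x : ℂ) * ψ s x)) s)
    (W : TT d L → ℝ) (s : TT d L) (hW : ∀ x, V (em (x - s)) = W x)
    (ρ : ℝ) (hρ : 1 ≤ ρ) (hc : ∀ i, ρ ≤ c i ∧ ρ + 1 ≤ L - c i) (t : ℝ) (x : TT d L) :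
    HasDerivAt (fun t => hcut ρ c s (ψ t) x)
      (-Complex.I * (-TS (hcut ρ c s (ψ t)) x + (W x : ℂ) * hcut ρ c s (ψ t) x) +
        rcut ρ c s (ψ t) x) t := by
  have h1 := (h t (em (x - s))).const_mul (φ (ρ / 2) (em (x - s) - c) : ℂ)
  have h2 : (fun t => hcut ρ c s (ψ t) x) =
      fun t => (φ (ρ / 2) (em (x - s) - c) : ℂ) * ψ t (em (x - s)) := rfl
  rw [h2]
  refine h1.congr_deriv ?_
  have e1 : -Complex.I * (-TS (hcut ρ c s (ψ t)) x + (W x : ℂ) * hcut ρ c s (ψ t) x) =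
      -Complex.I * (-TS (hcut ρ c s (ψ t)) x) + -Complex.I * ((W x : ℂ) * hcut ρ c s (ψ t) x) :=
    mul_add _ _ _
  rw [e1, hcut_TS ρ hρ c hc, hW]
  have h3 : hcut ρ c s (ψ t) x = (φ (ρ / 2) (em (x - s) - c) : ℂ) * ψ t (em (x - s)) := rfl
  rw [h3]
  ring

/-- the torus sees the cut-off wave function -/
theorem hcut_cmp {V : Zd d → ℝ} {c : Zd d} {ψ : ℝ → Zd d → ℂ} (h : Sol d V c ψ)
    (W : TT d L → ℝ) (s : TT d L) (hW : ∀ x, V (em (x - s)) = W x)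
    (ρ : ℝ) (hρ : 1 ≤ ρ) (hc : ∀ i, ρ ≤ c i ∧ ρ + 1 ≤ L - c i)
    (g : ℝ → TT d L → ℂ) (hg : TSol W (s + pr L c) g) (t : ℝ) (ht : 0 ≤ t) :
    ∑ x, ‖g t x - hcut ρ c s (ψ t) x‖ ^ 2 ≤ (4 * d / ρ * t) ^ 2 := by
  have hcb : ∀ i, 0 ≤ c i ∧ c i < L := by
    intro i
    have h1 := hc i
    constructor
    · have : (0 : ℝ) ≤ c i := by linarith
      exact_mod_cast this
    · have : (c i : ℝ) < L := by linarith
      exact_mod_cast this
  have hT : ∀ (f k : TT d L → ℂ) (x : TT d L), TS (fun y => f y - k y) x = TS f x - TS k x := by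
    intro f k x
    unfold TS
    rw [← Finset.sum_sub_distrib]
    exact Finset.sum_congr rfl fun i _ => by ring
  have h1 := duh W (fun t x => g t x - hcut ρ c s (ψ t) x) (fun t x => -rcut ρ c s (ψ t) x)
    (4 * d / ρ) (by positivity) 0 le_rfl ?_ (fun t x => ?_) (fun t => ?_) t ht
  · rw [zero_add] at h1
    exact h1
  · have h2 : ∀ x, g 0 x - hcut ρ c s (ψ 0) x = 0 := by
      intro x
      rw [hg.init]
      unfold hcut
      rw [h.init]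
      by_cases hx : x = s + pr L c
      · have : em (x - s) = c := by
          rw [hx, add_sub_cancel_left, em_pr c hcb]
        rw [if_pos hx, this, if_pos rfl, sub_self, φ_one (ρ / 2) (by linarith) 0 (by
          rw [norm_zero]
          linarith)]
        simp
      · have : em (x - s) ≠ c := by
          intro hh
          apply hx
          rw [← hh, pr_em]
          abel
        rw [if_neg hx, if_neg this]
        simp
    simp [h2]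
  · have h2 := (hg.ode t x).sub (hcut_ode h.ode W s hW ρ hρ hc t x)
    refine h2.congr_deriv ?_
    rw [hT]
    ring
  · simp only [norm_neg]
    exact rcut_le ρ hρ c s (ψ t) (h.norm t)

/-- **comparison** -/
theorem cmpT {V : Zd d → ℝ} {c : Zd d} {ψ : ℝ → Zd d → ℂ} (h : Sol d V c ψ)
    (W : TT d L → ℝ) (s : TT d L) (hW : ∀ x, V (em (x - s)) = W x)
    (ρ : ℝ) (hρ : 1 ≤ ρ) (hc : ∀ i, ρ ≤ c i ∧ ρ + 1 ≤ L - c i)
    (g : ℝ → TT d L → ℂ) (hg : TSol W (s + pr L c) g) (t : ℝ) (ht : 0 ≤ t)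
    (θ : Zd d → ℝ) (hθ : ∀ z, |θ z| ≤ 1) :
    |∑ x, θ (em (x - s)) * ‖g t x‖ ^ 2 - ∑' z, θ z * ‖ψ t z‖ ^ 2| ≤ 16 * d / ρ * t := by
  have hb := hcut_cmp h W s hW ρ hρ hc g hg t ht
  have hgn := hg.norm t
  obtain ⟨k, hk⟩ : ∃ k : TT d L → ℂ, k = hcut ρ c s (ψ t) := ⟨_, rfl⟩
  rw [← hk] at hb
  obtain ⟨D, hD⟩ : ∃ D, D = 4 * d / ρ * t := ⟨_, rfl⟩
  have hρ0 : 0 < ρ := by linarith
  have hD0 : 0 ≤ D := by rw [hD]; positivity
  rw [← hD] at hb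
  have i1 : Function.Injective fun x : TT d L => em (x - s) := fun x y h => by
    have := em_inj h
    exact sub_left_injective this
  have hψ := h.norm t
  have hchi : ∀ z : Zd d, 0 ≤ φ (ρ / 2) (z - c) ∧ φ (ρ / 2) (z - c) ≤ 1 := fun z =>
    ⟨φ_nonneg _ _, φ_le_one _ _⟩
  have hkx : ∀ x, ‖k x‖ ^ 2 = φ (ρ / 2) (em (x - s) - c) ^ 2 * ‖ψ t (em (x - s))‖ ^ 2 := by
    intro x
    rw [hk]
    unfold hcut
    rw [norm_mul, mul_pow, Complex.norm_real, Real.norm_eq_abs, sq_abs]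
  have hkn : ∑ x, ‖k x‖ ^ 2 ≤ 1 := by
    have h1 := inj_sum (fun z => ‖ψ t z‖ ^ 2) (fun z => sq_nonneg _) hψ.summable _ i1
    rw [hψ.tsum_eq] at h1
    refine le_trans (Finset.sum_le_sum fun x _ => ?_) h1
    rw [hkx]
    obtain ⟨h2, h3⟩ := hchi (em (x - s))
    exact mul_le_of_le_one_left (sq_nonneg _) (pow_le_one₀ h2 h3)
  -- first part
  have hA : |∑ x, θ (em (x - s)) * ‖g t x‖ ^ 2 - ∑ x, θ (em (x - s)) * ‖k x‖ ^ 2| ≤ 2 * D := by
    rw [← Finset.sum_sub_distrib]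
    have h1 : ∀ x, |θ (em (x - s)) * ‖g t x‖ ^ 2 - θ (em (x - s)) * ‖k x‖ ^ 2| ≤
        ‖g t x - k x‖ * ‖g t x‖ + ‖g t x - k x‖ * ‖k x‖ := by
      intro x
      rw [← mul_sub, abs_mul]
      have h2 : |‖g t x‖ ^ 2 - ‖k x‖ ^ 2| = |‖g t x‖ - ‖k x‖| * (‖g t x‖ + ‖k x‖) := by
        rw [sq_sub_sq, abs_mul, abs_of_nonneg (by positivity : 0 ≤ ‖g t x‖ + ‖k x‖), mul_comm]
      have h3 : |‖g t x‖ - ‖k x‖| ≤ ‖g t x - k x‖ := abs_norm_sub_norm_le _ _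
      calc |θ (em (x - s))| * |‖g t x‖ ^ 2 - ‖k x‖ ^ 2| ≤ 1 * |‖g t x‖ ^ 2 - ‖k x‖ ^ 2| := by
            gcongr
            exact hθ _
        _ = |‖g t x‖ - ‖k x‖| * (‖g t x‖ + ‖k x‖) := by rw [one_mul, h2]
        _ ≤ ‖g t x - k x‖ * (‖g t x‖ + ‖k x‖) := by gcongr
        _ = _ := by ring
    have h4 : ∀ f : TT d L → ℂ, ∑ x, ‖f x‖ ^ 2 ≤ 1 → ∑ x, ‖g t x - k x‖ * ‖f x‖ ≤ D := by
      intro f hf
      have h5 : (∑ x, ‖g t x - k x‖ * ‖f x‖) ^ 2 ≤ D ^ 2 := by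
        calc (∑ x, ‖g t x - k x‖ * ‖f x‖) ^ 2 ≤
            (∑ x, ‖g t x - k x‖ ^ 2) * ∑ x, ‖f x‖ ^ 2 := Finset.sum_mul_sq_le_sq_mul_sq _ _ _
          _ ≤ D ^ 2 * 1 := by gcongr
          _ = _ := by ring
      exact (pow_le_pow_iff_left₀ (by positivity) hD0 two_ne_zero).1 h5
    refine (Finset.abs_sum_le_sum_abs _ _).trans ((Finset.sum_le_sum fun x _ => h1 x).trans ?_)
    rw [Finset.sum_add_distrib]
    have := h4 (g t) hgn.le
    have := h4 k hkn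
    linarith
  -- the mass of the cut-off function
  have hmass : 1 - 2 * D ≤ ∑ x, ‖k x‖ ^ 2 := by
    have h1 : ∀ x, ‖g t x‖ ^ 2 - ‖k x‖ ^ 2 ≤ 2 * (‖g t x - k x‖ * ‖g t x‖) := by
      intro x
      have h3 : ‖g t x‖ - ‖k x‖ ≤ ‖g t x - k x‖ := norm_sub_norm_le _ _
      have h4 := norm_nonneg (g t x)
      have h5 := norm_nonneg (k x)
      nlinarith [sq_nonneg (‖g t x‖ - ‖k x‖)]
    have h6 : ∑ x, ‖g t x - k x‖ * ‖g t x‖ ≤ D := by
      have h5 : (∑ x, ‖g t x - k x‖ * ‖g t x‖) ^ 2 ≤ D ^ 2 := by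
        calc (∑ x, ‖g t x - k x‖ * ‖g t x‖) ^ 2 ≤
            (∑ x, ‖g t x - k x‖ ^ 2) * ∑ x, ‖g t x‖ ^ 2 := Finset.sum_mul_sq_le_sq_mul_sq _ _ _
          _ ≤ D ^ 2 * 1 := by gcongr; exact hgn.le
          _ = _ := by ring
      exact (pow_le_pow_iff_left₀ (by positivity) hD0 two_ne_zero).1 h5
    have h7 := Finset.sum_le_sum fun x (_ : x ∈ Finset.univ) => h1 x
    rw [Finset.sum_sub_distrib, ← Finset.mul_sum, hgn] at h7
    linarith
  -- the second part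
  have hcv : ∀ z : Zd d, (∀ x : TT d L, em (x - s) ≠ z) → φ (ρ / 2) (z - c) = 0 := by
    intro z hz
    have h1 : ∃ i, ¬(0 ≤ z i ∧ z i < L) := by
      by_contra hcon
      push Not at hcon
      apply hz (pr L z + s)
      rw [add_sub_cancel_right, em_pr z hcon]
    obtain ⟨i, hi⟩ := h1
    obtain ⟨hc1, hc2⟩ := hc i
    refine chi_zero ρ hρ0 c z i ?_
    have h2 : z i < 0 ∨ (L : ℤ) ≤ z i := by
      by_contra hcon
      push Not at hcon
      exact hi ⟨hcon.1, hcon.2⟩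
    rcases h2 with h2 | h2
    · have h3 : (z i : ℝ) < 0 := by exact_mod_cast h2
      rw [abs_of_nonpos (by linarith)]
      linarith
    · have h3 : (L : ℝ) ≤ z i := by exact_mod_cast h2
      rw [abs_of_nonneg (by linarith)]
      linarith
  have hsum : ∀ f : Zd d → ℝ, ∑ x : TT d L, f (em (x - s)) *
      (φ (ρ / 2) (em (x - s) - c) ^ 2 * ‖ψ t (em (x - s))‖ ^ 2) =
      ∑' z, f z * (φ (ρ / 2) (z - c) ^ 2 * ‖ψ t z‖ ^ 2) := by
    intro f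
    classical
    have h1 : ∑' z, f z * (φ (ρ / 2) (z - c) ^ 2 * ‖ψ t z‖ ^ 2) =
        ∑ z ∈ Finset.univ.image (fun x : TT d L => em (x - s)),
          f z * (φ (ρ / 2) (z - c) ^ 2 * ‖ψ t z‖ ^ 2) := by
      refine tsum_eq_sum fun z hz => ?_
      rw [hcv z fun x hx => hz (Finset.mem_image.2 ⟨x, Finset.mem_univ _, hx⟩)]
      ring
    rw [h1, Finset.sum_image fun a _ b _ hab => i1 hab]
  have hs1 : Summable fun z => θ z * ‖ψ t z‖ ^ 2 := by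
    refine Summable.of_norm_bounded hψ.summable fun z => ?_
    rw [Real.norm_eq_abs, abs_mul, abs_of_nonneg (sq_nonneg ‖ψ t z‖)]
    exact mul_le_of_le_one_left (sq_nonneg _) (hθ z)
  have hs2 : ∀ f : Zd d → ℝ, (∀ z, |f z| ≤ 1) →
      Summable fun z => f z * (φ (ρ / 2) (z - c) ^ 2 * ‖ψ t z‖ ^ 2) := by
    intro f hf
    refine Summable.of_norm_bounded hψ.summable fun z => ?_
    rw [Real.norm_eq_abs, abs_mul, abs_mul, abs_of_nonneg (sq_nonneg ‖ψ t z‖),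
      abs_of_nonneg (sq_nonneg (φ (ρ / 2) (z - c)))]
    obtain ⟨h2, h3⟩ := hchi z
    have h4 : φ (ρ / 2) (z - c) ^ 2 ≤ 1 := pow_le_one₀ h2 h3
    calc |f z| * (φ (ρ / 2) (z - c) ^ 2 * ‖ψ t z‖ ^ 2) ≤ 1 * (1 * ‖ψ t z‖ ^ 2) := by
          gcongr
          exact hf z
      _ = _ := by ring
  have hB : |∑ x, θ (em (x - s)) * ‖k x‖ ^ 2 - ∑' z, θ z * ‖ψ t z‖ ^ 2| ≤ 2 * D := by
    have e1 : ∑ x, θ (em (x - s)) * ‖k x‖ ^ 2 =
        ∑' z, θ z * (φ (ρ / 2) (z - c) ^ 2 * ‖ψ t z‖ ^ 2) := by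
      rw [← hsum θ]
      exact Finset.sum_congr rfl fun x _ => by rw [hkx]
    have e2 : ∑ x, ‖k x‖ ^ 2 = ∑' z, 1 * (φ (ρ / 2) (z - c) ^ 2 * ‖ψ t z‖ ^ 2) := by
      rw [← hsum fun _ => 1]
      exact Finset.sum_congr rfl fun x _ => by rw [hkx, one_mul]
    rw [e1, ← (hs2 θ hθ).tsum_sub hs1]
    have h1 : ∀ z, ‖θ z * (φ (ρ / 2) (z - c) ^ 2 * ‖ψ t z‖ ^ 2) - θ z * ‖ψ t z‖ ^ 2‖ ≤
        ‖ψ t z‖ ^ 2 - 1 * (φ (ρ / 2) (z - c) ^ 2 * ‖ψ t z‖ ^ 2) := by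
      intro z
      rw [← mul_sub, norm_mul, Real.norm_eq_abs, Real.norm_eq_abs]
      obtain ⟨h2, h3⟩ := hchi z
      have h4 : φ (ρ / 2) (z - c) ^ 2 ≤ 1 := pow_le_one₀ h2 h3
      have h5 : φ (ρ / 2) (z - c) ^ 2 * ‖ψ t z‖ ^ 2 ≤ ‖ψ t z‖ ^ 2 :=
        mul_le_of_le_one_left (sq_nonneg _) h4
      have e0 : |φ (ρ / 2) (z - c) ^ 2 * ‖ψ t z‖ ^ 2 - ‖ψ t z‖ ^ 2| =
          -(φ (ρ / 2) (z - c) ^ 2 * ‖ψ t z‖ ^ 2 - ‖ψ t z‖ ^ 2) := abs_of_nonpos (by linarith)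
      rw [e0]
      calc |θ z| * -(φ (ρ / 2) (z - c) ^ 2 * ‖ψ t z‖ ^ 2 - ‖ψ t z‖ ^ 2) ≤
          1 * -(φ (ρ / 2) (z - c) ^ 2 * ‖ψ t z‖ ^ 2 - ‖ψ t z‖ ^ 2) := by
            have h6 : 0 ≤ -(φ (ρ / 2) (z - c) ^ 2 * ‖ψ t z‖ ^ 2 - ‖ψ t z‖ ^ 2) := by linarith
            exact mul_le_mul_of_nonneg_right (hθ z) h6
        _ = _ := by ring
    have h2 : HasSum (fun z => ‖ψ t z‖ ^ 2 - 1 * (φ (ρ / 2) (z - c) ^ 2 * ‖ψ t z‖ ^ 2))
        (1 - ∑ x, ‖k x‖ ^ 2) := by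
      rw [e2]
      exact hψ.sub (hs2 (fun _ => 1) (by simp)).hasSum
    have h3 := tsum_of_norm_bounded h2 h1
    rw [Real.norm_eq_abs] at h3
    linarith
  have e3 : ∑ x, θ (em (x - s)) * ‖g t x‖ ^ 2 - ∑' z, θ z * ‖ψ t z‖ ^ 2 =
      (∑ x, θ (em (x - s)) * ‖g t x‖ ^ 2 - ∑ x, θ (em (x - s)) * ‖k x‖ ^ 2) +
      (∑ x, θ (em (x - s)) * ‖k x‖ ^ 2 - ∑' z, θ z * ‖ψ t z‖ ^ 2) := by ring
  rw [e3]
  refine (abs_add_le _ _).trans ((add_le_add hA hB).trans (le_of_eq ?_))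
  rw [hD]
  ring

end Pool.Agent.R988.Tor
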