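import Pool.Agent.R988.TF
import Pool.Agent.R988.Eig

/-! Monotonicity in time of the characteristic function on the torus. -/

set_option autoImplicit false
set_option linter.unusedSectionVars false
set_option linter.unusedVariables false

open scoped BigOperators ComplexConjugate InnerProductSpace
open Set MeasureTheory

namespace Pool.Agent.R988.Tor

open Pool.Agent.R988.LA
open Pool.Agent.H4R2.LO (Zd)

section fin

variable {T ι : Type} [Fintype T] [Fintype ι]

theorem quad (ψ : ι → T → ℂ) (w : ι → ℂ) (X : T → ℂ) :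
    ∑ x, ∑ a, X x * conj (X a) * ((‖K ψ w x a‖ ^ 2 : ℝ) : ℂ) =
      ∑ j, ∑ k, w j * conj (w k) * ((‖∑ x, X x * (ψ j x * conj (ψ k x))‖ ^ 2 : ℝ) : ℂ) := by
  have h1 : ∀ z : ℂ, ((‖z‖ ^ 2 : ℝ) : ℂ) = z * conj z := by
    intro z
    rw [Complex.mul_conj, Complex.normSq_eq_norm_sq]
  obtain ⟨M, hM⟩ : ∃ M : ι → ι → ℂ, M = fun j k => ∑ x, X x * (ψ j x * conj (ψ k x)) := ⟨_, rfl⟩
  have e1 : ∀ x a, X x * conj (X a) * ((‖K ψ w x a‖ ^ 2 : ℝ) : ℂ) =
      ∑ j, ∑ k, w j * conj (w k) * ((X x * (ψ j x * conj (ψ k x))) *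
        (conj (X a) * (conj (ψ j a) * ψ k a))) := by
    intro x a
    rw [h1]
    unfold K
    rw [map_sum, Finset.sum_mul_sum, Finset.mul_sum]
    refine Finset.sum_congr rfl fun j _ => ?_
    rw [Finset.mul_sum]
    refine Finset.sum_congr rfl fun k _ => ?_
    simp only [map_mul, Complex.conj_conj]
    ring
  simp only [e1]
  calc ∑ x, ∑ a, ∑ j, ∑ k, w j * conj (w k) * ((X x * (ψ j x * conj (ψ k x))) *
        (conj (X a) * (conj (ψ j a) * ψ k a))) =
      ∑ j, ∑ k, ∑ x, ∑ a, w j * conj (w k) * ((X x * (ψ j x * conj (ψ k x))) *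
        (conj (X a) * (conj (ψ j a) * ψ k a))) := by
        rw [Finset.sum_congr rfl fun x _ => Finset.sum_comm]
        rw [Finset.sum_comm]
        refine Finset.sum_congr rfl fun j _ => ?_
        rw [Finset.sum_congr rfl fun x _ => Finset.sum_comm]
        rw [Finset.sum_comm]
    _ = _ := by
        refine Finset.sum_congr rfl fun j _ => Finset.sum_congr rfl fun k _ => ?_
        have e2 : ∑ x, X x * (ψ j x * conj (ψ k x)) = M j k := by rw [hM]
        have e3 : ∑ a, conj (X a) * (conj (ψ j a) * ψ k a) = conj (M j k) := by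
          rw [hM]
          simp only
          rw [map_sum]
          refine Finset.sum_congr rfl fun a _ => ?_
          simp only [map_mul, Complex.conj_conj]
        rw [e2, h1, ← e3, ← e2, Finset.sum_mul_sum, Finset.mul_sum]
        refine Finset.sum_congr rfl fun x _ => ?_
        rw [Finset.mul_sum]

/-- the time integral -/
theorem cos_int (η Δ : ℝ) (hη : 0 < η) :
    IntegrableOn (fun t => Real.exp (-(2 * η) * t) * Real.cos (Δ * t)) (Ioi (0 : ℝ)) ∧
    2 * η * ∫ t in Ioi (0 : ℝ), Real.exp (-(2 * η) * t) * Real.cos (Δ * t) =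
      4 * η ^ 2 / (4 * η ^ 2 + Δ ^ 2) := by
  obtain ⟨a, ha⟩ : ∃ a : ℂ, a = -(2 * η : ℝ) + (Δ : ℝ) * Complex.I := ⟨_, rfl⟩
  have hare : a.re = -(2 * η) := by rw [ha]; simp
  have haim : a.im = Δ := by rw [ha]; simp
  have h0 : a.re < 0 := by rw [hare]; linarith
  have h1 := integrableOn_exp_mul_complex_Ioi h0 0
  have h2 := integral_exp_mul_complex_Ioi h0 0
  have h3 : ∀ t : ℝ, (Complex.exp (a * t)).re = Real.exp (-(2 * η) * t) * Real.cos (Δ * t) := by
    intro t
    rw [Complex.exp_re]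
    simp [hare, haim]
  have h4 : IntegrableOn (fun t : ℝ => (Complex.exp (a * t)).re) (Ioi (0 : ℝ)) := h1.re
  simp only [h3] at h4
  refine ⟨h4, ?_⟩
  have h5 := Complex.reCLM.integral_comp_comm h1
  simp only [Complex.reCLM_apply, h3] at h5
  rw [h5, h2]
  have h7 : Complex.normSq a = 4 * η ^ 2 + Δ ^ 2 := by
    rw [Complex.normSq_apply, hare, haim]
    ring
  have h8 : (-Complex.exp (a * ((0 : ℝ) : ℂ)) / a).re = 2 * η / (4 * η ^ 2 + Δ ^ 2) := by
    rw [Complex.ofReal_zero, mul_zero, Complex.exp_zero, Complex.div_re, h7, hare]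
    simp
  rw [h8]
  ring

theorem mono1 (η η' Δ : ℝ) (hη : 0 < η) (h : η ≤ η') :
    4 * η ^ 2 / (4 * η ^ 2 + Δ ^ 2) ≤ 4 * η' ^ 2 / (4 * η' ^ 2 + Δ ^ 2) := by
  have hη' : 0 < η' := hη.trans_le h
  rw [div_le_div_iff₀ (by positivity) (by positivity)]
  have h1 : η ^ 2 ≤ η' ^ 2 := pow_le_pow_left₀ hη.le h 2
  nlinarith [mul_le_mul_of_nonneg_right h1 (sq_nonneg Δ)]

theorem mono2 (η η' Δ : ℝ) (hη : 0 < η) (h : η ≤ η') :
    (1 - 4 * η ^ 2 / (4 * η ^ 2 + Δ ^ 2)) * η ^ 2 ≤
      (1 - 4 * η' ^ 2 / (4 * η' ^ 2 + Δ ^ 2)) * η' ^ 2 := by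
  have hη' : 0 < η' := hη.trans_le h
  have h1 : η ^ 2 ≤ η' ^ 2 := pow_le_pow_left₀ hη.le h 2
  have e1 : ∀ x : ℝ, 0 < x → (1 - 4 * x ^ 2 / (4 * x ^ 2 + Δ ^ 2)) * x ^ 2 =
      Δ ^ 2 * x ^ 2 / (4 * x ^ 2 + Δ ^ 2) := by
    intro x hx
    field_simp
    ring
  rw [e1 η hη, e1 η' hη', div_le_div_iff₀ (by positivity) (by positivity)]
  have h2 : 0 ≤ Δ ^ 2 * Δ ^ 2 := by positivity
  nlinarith [mul_le_mul_of_nonneg_left h1 h2]

end fin

variable {d L : ℕ} [NeZero L]

/-- the matrix of the Hamiltonian -/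
noncomputable def HM (W : TT d L → ℝ) : Matrix (TT d L) (TT d L) ℂ :=
  Matrix.of fun x y => (if x = y then (W x : ℂ) else 0) -
    ∑ i : Fin d, ((if y = x + Pi.single i 1 then 1 else 0) +
      (if y = x - Pi.single i 1 then 1 else 0))

theorem HM_mulVec (W : TT d L → ℝ) (u : TT d L → ℂ) (x : TT d L) :
    (HM W).mulVec u x = -TS u x + (W x : ℂ) * u x := by
  have h1 : (HM W).mulVec u x = ∑ y, ((if x = y then (W x : ℂ) else 0) -
    ∑ i : Fin d, ((if y = x + Pi.single i 1 then 1 else 0) +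
      (if y = x - Pi.single i 1 then 1 else 0))) * u y := rfl
  rw [h1]
  simp only [sub_mul, Finset.sum_sub_distrib, Finset.sum_mul, add_mul, ite_mul, zero_mul, one_mul]
  rw [Finset.sum_comm]
  simp only [Finset.sum_add_distrib, Finset.sum_ite_eq, Finset.sum_ite_eq', Finset.mem_univ,
    if_true]
  unfold TS
  rw [Finset.sum_add_distrib]
  ring

theorem HM_herm (W : TT d L → ℝ) : (HM W).IsHermitian := by
  ext x y
  rw [Matrix.conjTranspose_apply]
  unfold HM
  simp only [Matrix.of_apply]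
  rw [star_sub, star_sum]
  have h1 : star (if y = x then (W y : ℂ) else 0) = if x = y then (W x : ℂ) else 0 := by
    by_cases h : x = y
    · rw [if_pos h, if_pos h.symm, h]
      simp
    · rw [if_neg h, if_neg (Ne.symm h)]
      simp
  rw [h1]
  congr 1
  refine Finset.sum_congr rfl fun i _ => ?_
  rw [star_add]
  have h2 : ∀ a b : TT d L, (a = b + Pi.single i 1) ↔ (b = a - Pi.single i 1) := fun a b =>
    ⟨fun h => by rw [h]; abel, fun h => by rw [h]; abel⟩
  have h3 : ∀ P : Prop, ∀ [Decidable P], star (if P then (1 : ℂ) else 0) = if P then 1 else 0 := by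
    intro P _
    split_ifs <;> simp
  rw [h3, h3, add_comm]
  congr 1
  · congr 1
    rw [h2 y x]
  · congr 1
    rw [h2 x y]

/-- orthonormal bases of eigenvectors exist -/
theorem eb_exists (W : TT d L → ℝ) : ∃ (ψ : TT d L → TT d L → ℂ) (E : TT d L → ℝ), EB W ψ E := by
  have hA := HM_herm W
  refine ⟨fun j x => hA.eigenvectorBasis j x, hA.eigenvalues, ?_, rfl, ?_⟩
  · intro i j
    have h1 := orthonormal_iff_ite.1 hA.eigenvectorBasis.orthonormal i j
    rw [EuclideanSpace.inner_eq_star_dotProduct] at h1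
    rw [← h1]
    unfold dotProduct
    refine Finset.sum_congr rfl fun x _ => ?_
    rw [mul_comm]
    rfl
  · intro j x
    have h1 := congrFun (hA.mulVec_eigenvectorBasis j) x
    rw [HM_mulVec] at h1
    rw [h1]
    simp

theorem tsol_eb {W : TT d L → ℝ} {ψ : TT d L → TT d L → ℂ} {E : TT d L → ℝ} (h : EB W ψ E)
    (a : TT d L) : TSol W a fun t x => K ψ (fun j => Complex.exp (-Complex.I * E j * t)) x a := by
  constructor
  · intro x
    unfold K
    simp only [Complex.ofReal_zero, mul_zero, Complex.exp_zero, one_mul]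
    exact complete ψ h.ho h.hc x a
  · intro s x
    have h1 : ∀ j, HasDerivAt (fun t : ℝ => Complex.exp (-Complex.I * E j * t))
        (-Complex.I * E j * Complex.exp (-Complex.I * E j * s)) s := by
      intro j
      have h2 : HasDerivAt (fun t : ℝ => -Complex.I * (E j : ℂ) * (t : ℂ))
          (-Complex.I * E j) s := by
        simpa using (Complex.ofRealCLM.hasDerivAt (x := s)).const_mul (-Complex.I * (E j : ℂ))
      have h3 := h2.cexp
      refine h3.congr_deriv ?_
      ring
    have h4 := HasDerivAt.fun_sum (u := Finset.univ) fun j _ =>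
      (h1 j).mul_const (ψ j x * conj (ψ j a))
    unfold K
    refine h4.congr_deriv ?_
    have hT : TS (fun y => ∑ j, Complex.exp (-Complex.I * E j * s) * (ψ j y * conj (ψ j a))) x =
        ∑ j, Complex.exp (-Complex.I * E j * s) * (TS (ψ j) x * conj (ψ j a)) := by
      unfold TS
      simp only [Finset.sum_mul, Finset.mul_sum, ← Finset.sum_add_distrib]
      rw [Finset.sum_comm]
      refine Finset.sum_congr rfl fun j _ => Finset.sum_congr rfl fun i _ => ?_
      ring
    rw [hT, Finset.mul_sum, ← Finset.sum_neg_distrib, ← Finset.sum_add_distrib, Finset.mul_sum]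
    refine Finset.sum_congr rfl fun j _ => ?_
    have h5 := h.eq j x
    linear_combination (-Complex.I * Complex.exp (-Complex.I * E j * s) * conj (ψ j a)) * (-h5)

/-- the time average on the torus -/
noncomputable def TQ (η : ℝ) (θ : TT d L → ℝ) (g : ℝ → TT d L → ℂ) : ℝ :=
  2 * η * ∫ t in Ioi (0 : ℝ), Real.exp (-(2 * η) * t) * ∑ x, θ x * ‖g t x‖ ^ 2

theorem TQ_congr (η : ℝ) (θ : TT d L → ℝ) (g g' : ℝ → TT d L → ℂ)
    (h : ∀ t, 0 < t → ∀ x, g t x = g' t x) : TQ η θ g = TQ η θ g' := by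
  unfold TQ
  congr 1
  refine setIntegral_congr_fun measurableSet_Ioi fun t ht => ?_
  congr 1
  exact Finset.sum_congr rfl fun x _ => by rw [h t ht x]

/-- the sum over the starting points -/
theorem TQ_sum (W : TT d L → ℝ) (X : TT d L → ℂ) (g : TT d L → ℝ → TT d L → ℂ)
    (hg : ∀ a, TSol W a (g a)) :
    ∃ (M : TT d L → TT d L → ℝ) (E : TT d L → ℝ), (∀ j k, 0 ≤ M j k) ∧
      (∑ j, ∑ k, M j k = ∑ a, ‖X a‖ ^ 2) ∧
      ∀ η : ℝ, 0 < η → ∑ a, TQ η (fun x => (X x * conj (X a)).re) (g a) =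
        ∑ j, ∑ k, M j k * (4 * η ^ 2 / (4 * η ^ 2 + (E k - E j) ^ 2)) := by
  obtain ⟨ψ, E, hE⟩ := eb_exists W
  obtain ⟨M, hM⟩ : ∃ M : TT d L → TT d L → ℝ, M = fun j k =>
    ‖∑ x, X x * (ψ j x * conj (ψ k x))‖ ^ 2 := ⟨_, rfl⟩
  have hC : ∀ t : ℝ, ∑ a, ∑ x, (X x * conj (X a)).re *
      ‖K ψ (fun j => Complex.exp (-Complex.I * E j * t)) x a‖ ^ 2 =
      ∑ j, ∑ k, M j k * Real.cos ((E k - E j) * t) := by
    intro t
    have h1 := congrArg Complex.re (quad ψ (fun j => Complex.exp (-Complex.I * E j * t)) X)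
    rw [Finset.sum_comm]
    simp only [Complex.re_sum] at h1
    have h2 : ∀ x a, (X x * conj (X a) *
        ((‖K ψ (fun j => Complex.exp (-Complex.I * E j * t)) x a‖ ^ 2 : ℝ) : ℂ)).re =
        (X x * conj (X a)).re * ‖K ψ (fun j => Complex.exp (-Complex.I * E j * t)) x a‖ ^ 2 :=
      fun x a => Complex.re_mul_ofReal _ _
    simp only [h2] at h1
    rw [h1]
    refine Finset.sum_congr rfl fun j _ => Finset.sum_congr rfl fun k _ => ?_
    rw [Complex.re_mul_ofReal, mul_comm]
    congr 1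
    · rw [hM]
    · rw [← Complex.exp_conj, ← Complex.exp_add]
      have h3 : -Complex.I * (E j : ℂ) * (t : ℂ) + conj (-Complex.I * (E k : ℂ) * (t : ℂ)) =
          (((E k - E j) * t : ℝ) : ℂ) * Complex.I := by
        simp only [map_mul, map_neg, Complex.conj_I, Complex.conj_ofReal]
        push_cast
        ring
      rw [h3, Complex.exp_ofReal_mul_I_re]
  refine ⟨M, E, fun j k => by rw [hM]; positivity, ?_, fun η hη => ?_⟩
  · have h1 := hC 0
    simp only [mul_zero, Real.cos_zero, mul_one] at h1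
    rw [← h1]
    refine Finset.sum_congr rfl fun a _ => ?_
    have h2 := (tsol_eb hE a).init
    simp only [h2]
    rw [Finset.sum_eq_single a]
    · rw [if_pos rfl, norm_one, one_pow, mul_one, Complex.mul_conj, Complex.ofReal_re,
        Complex.normSq_eq_norm_sq]
    · intro x _ hx
      rw [if_neg hx]
      simp
    · intro h
      exact absurd (Finset.mem_univ _) h
  · have h1 : ∀ a, TQ η (fun x => (X x * conj (X a)).re) (g a) =
        TQ η (fun x => (X x * conj (X a)).re)
          (fun t x => K ψ (fun j => Complex.exp (-Complex.I * E j * t)) x a) := fun a =>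
      TQ_congr η _ _ _ fun t ht x => (hg a).unique (tsol_eb hE a) t ht.le x
    simp only [h1]
    unfold TQ
    have hint : ∀ a, IntegrableOn (fun t => Real.exp (-(2 * η) * t) *
        ∑ x, (X x * conj (X a)).re *
          ‖K ψ (fun j => Complex.exp (-Complex.I * E j * t)) x a‖ ^ 2) (Ioi (0 : ℝ)) := by
      intro a
      have hn := (tsol_eb hE a).norm
      have hc := (tsol_eb hE a).cont
      obtain ⟨B, hB⟩ : ∃ B : ℝ, B = ∑ x, |(X x * conj (X a)).re| := ⟨_, rfl⟩
      refine Integrable.mono' ((Pool.Agent.TH794.QD.exp_int (2 * η) (by positivity)).mul_const B)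
        ?_ ?_
      · refine Continuous.aestronglyMeasurable ?_
        refine Continuous.mul (by fun_prop) ?_
        exact continuous_finsetSum _ fun x _ => continuous_const.mul ((hc x).norm.pow 2)
      · refine Filter.Eventually.of_forall fun t => ?_
        rw [norm_mul, Real.norm_of_nonneg (Real.exp_pos _).le]
        refine mul_le_mul_of_nonneg_left ?_ (Real.exp_pos _).le
        rw [hB]
        refine (norm_sum_le _ _).trans (Finset.sum_le_sum fun x _ => ?_)
        rw [norm_mul, Real.norm_eq_abs, Real.norm_of_nonneg (sq_nonneg _)]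
        refine mul_le_of_le_one_right (abs_nonneg _) ?_
        have h2 := hn t
        rw [← h2]
        exact Finset.single_le_sum (f := fun x =>
          ‖K ψ (fun j => Complex.exp (-Complex.I * E j * t)) x a‖ ^ 2)
          (fun x _ => by positivity) (Finset.mem_univ x)
    rw [← Finset.mul_sum, ← integral_finsetSum _ fun a _ => hint a]
    simp only [← Finset.mul_sum, hC]
    have h3 : ∀ t : ℝ, Real.exp (-(2 * η) * t) * ∑ j, ∑ k, M j k * Real.cos ((E k - E j) * t) =
        ∑ j, ∑ k, M j k * (Real.exp (-(2 * η) * t) * Real.cos ((E k - E j) * t)) := by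
      intro t
      simp only [Finset.mul_sum]
      refine Finset.sum_congr rfl fun j _ => Finset.sum_congr rfl fun k _ => by ring
    simp only [h3]
    rw [integral_finsetSum _ fun j _ => integrable_finsetSum _ fun k _ =>
      (cos_int η (E k - E j) hη).1.const_mul _, Finset.mul_sum]
    refine Finset.sum_congr rfl fun j _ => ?_
    rw [integral_finsetSum _ fun k _ => (cos_int η (E k - E j) hη).1.const_mul _, Finset.mul_sum]
    refine Finset.sum_congr rfl fun k _ => ?_
    rw [integral_const_mul, ← (cos_int η (E k - E j) hη).2]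
    ring

/-- **monotonicity on the torus** -/
theorem TQ_mono (W : TT d L → ℝ) (X : TT d L → ℂ) (g : TT d L → ℝ → TT d L → ℂ)
    (hg : ∀ a, TSol W a (g a)) (η η' : ℝ) (hη : 0 < η) (h : η ≤ η') :
    ∑ a, TQ η (fun x => (X x * conj (X a)).re) (g a) ≤
      ∑ a, TQ η' (fun x => (X x * conj (X a)).re) (g a) ∧
    (∑ a, (‖X a‖ ^ 2 - TQ η (fun x => (X x * conj (X a)).re) (g a))) * η ^ 2 ≤
      (∑ a, (‖X a‖ ^ 2 - TQ η' (fun x => (X x * conj (X a)).re) (g a))) * η' ^ 2 := by
  obtain ⟨M, E, hM, h0, h1⟩ := TQ_sum W X g hg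
  have hη' : 0 < η' := hη.trans_le h
  constructor
  · rw [h1 η hη, h1 η' hη']
    refine Finset.sum_le_sum fun j _ => Finset.sum_le_sum fun k _ => ?_
    exact mul_le_mul_of_nonneg_left (mono1 η η' _ hη h) (hM j k)
  · rw [Finset.sum_sub_distrib, Finset.sum_sub_distrib, h1 η hη, h1 η' hη', ← h0,
      ← Finset.sum_sub_distrib, ← Finset.sum_sub_distrib, Finset.sum_mul, Finset.sum_mul]
    refine Finset.sum_le_sum fun j _ => ?_
    rw [← Finset.sum_sub_distrib, ← Finset.sum_sub_distrib, Finset.sum_mul, Finset.sum_mul]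
    refine Finset.sum_le_sum fun k _ => ?_
    have h2 := mul_le_mul_of_nonneg_left (mono2 η η' (E k - E j) hη h) (hM j k)
    linarith

end Pool.Agent.R988.Tor
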