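import Pool.Agent.R988.TG

/-! Measurability of the evolution on the torus. -/

set_option autoImplicit false
set_option linter.unusedSectionVars false
set_option linter.unusedVariables false

open scoped BigOperators ComplexConjugate InnerProductSpace
open Set MeasureTheory

namespace Pool.Agent.R988.Tor

open Pool.Agent.H4R2.LO (Zd)
open Pool.Agent.TH794.QD (Sol)

variable {d L : ℕ} [NeZero L]

/-- the kinetic part -/
noncomputable def A0 : (TT d L → ℂ) →L[ℂ] (TT d L → ℂ) :=
  LinearMap.toContinuousLinearMap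
    { toFun := fun u x => -TS u x
      map_add' := fun u v => by
        funext x
        simp only [Pi.add_apply]
        unfold TS
        rw [← neg_add, ← Finset.sum_add_distrib]
        congr 1
        refine Finset.sum_congr rfl fun i _ => ?_
        simp only [Pi.add_apply]
        ring
      map_smul' := fun c u => by
        funext x
        simp only [Pi.smul_apply, smul_eq_mul, RingHom.id_apply]
        unfold TS
        rw [mul_neg, Finset.mul_sum]
        congr 1
        refine Finset.sum_congr rfl fun i _ => ?_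
        simp only [Pi.smul_apply, smul_eq_mul]
        ring }

theorem A0_apply (u : TT d L → ℂ) (x : TT d L) : A0 u x = -TS u x := rfl

/-- the projection onto a site -/
noncomputable def Ex (y : TT d L) : (TT d L → ℂ) →L[ℂ] (TT d L → ℂ) :=
  LinearMap.toContinuousLinearMap
    { toFun := fun u x => if x = y then u x else 0
      map_add' := fun u v => by
        funext x
        simp only [Pi.add_apply]
        split_ifs <;> simp
      map_smul' := fun c u => by
        funext x
        simp only [Pi.smul_apply, smul_eq_mul, RingHom.id_apply]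
        split_ifs <;> simp }

theorem Ex_apply (y : TT d L) (u : TT d L → ℂ) (x : TT d L) :
    Ex y u x = if x = y then u x else 0 := rfl

/-- the generator -/
noncomputable def Ag (W : TT d L → ℝ) : (TT d L → ℂ) →L[ℂ] (TT d L → ℂ) :=
  (-Complex.I) • (A0 + ∑ y, (W y : ℂ) • Ex y)

theorem Ag_apply (W : TT d L → ℝ) (u : TT d L → ℂ) (x : TT d L) :
    Ag W u x = -Complex.I * (-TS u x + (W x : ℂ) * u x) := by
  unfold Ag
  rw [ContinuousLinearMap.smul_apply, ContinuousLinearMap.add_apply,
    ContinuousLinearMap.sum_apply, Pi.smul_apply, Pi.add_apply, Finset.sum_apply, A0_apply,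
    smul_eq_mul]
  congr 2
  rw [Finset.sum_eq_single x]
  · rw [ContinuousLinearMap.smul_apply, Pi.smul_apply, Ex_apply, if_pos rfl, smul_eq_mul]
  · intro y _ hy
    rw [ContinuousLinearMap.smul_apply, Pi.smul_apply, Ex_apply, if_neg (Ne.symm hy), smul_zero]
  · intro h
    exact absurd (Finset.mem_univ _) h

theorem Ag_cont : Continuous fun W : TT d L → ℝ => Ag W := by
  unfold Ag
  have h1 : Continuous fun W : TT d L → ℝ => ∑ y, (W y : ℂ) • Ex (d := d) (L := L) y :=
    continuous_finsetSum _ fun y _ =>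
      (Complex.continuous_ofReal.comp (continuous_apply y)).smul continuous_const
  exact (continuous_const.add h1).const_smul (-Complex.I)

/-- the evolution -/
noncomputable def tg (W : TT d L → ℝ) (a : TT d L) (t : ℝ) (x : TT d L) : ℂ :=
  NormedSpace.exp ((t : ℂ) • Ag W) (fun y => if y = a then 1 else 0) x

theorem tsol_tg (W : TT d L → ℝ) (a : TT d L) : TSol W a (tg W a) := by
  constructor
  · intro x
    unfold tg
    have e0 : ((0 : ℝ) : ℂ) • Ag W = 0 := by
      refine ContinuousLinearMap.ext fun u => funext fun y => ?_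
      rw [ContinuousLinearMap.smul_apply, Pi.smul_apply, Complex.ofReal_zero, smul_eq_mul,
        zero_mul]
      rfl
    rw [e0, NormedSpace.exp_zero]
    rfl
  · intro s x
    have h1 := hasDerivAt_exp_smul_const' (𝕂 := ℂ) (Ag W) (s : ℂ)
    obtain ⟨δ, hδ⟩ : ∃ δ : TT d L → ℂ, δ = fun y => if y = a then 1 else 0 := ⟨_, rfl⟩
    have h2 := (((ContinuousLinearMap.proj (R := ℂ) (φ := fun _ : TT d L => ℂ) x).comp
      (ContinuousLinearMap.apply ℂ (TT d L → ℂ) δ)).hasFDerivAt.comp_hasDerivAt (s : ℂ) h1)
    have h3 := h2.comp_ofReal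
    have e1 : ∀ M : (TT d L → ℂ) →L[ℂ] (TT d L → ℂ),
        ((ContinuousLinearMap.proj (R := ℂ) (φ := fun _ : TT d L => ℂ) x).comp
        (ContinuousLinearMap.apply ℂ (TT d L → ℂ) δ)) M = M δ x := fun M => rfl
    have h4 : HasDerivAt (fun t : ℝ => NormedSpace.exp ((t : ℂ) • Ag W) δ x)
        ((Ag W * NormedSpace.exp ((s : ℂ) • Ag W)) δ x) s := h3
    have h5 : (fun s : ℝ => tg W a s x) = fun t : ℝ => NormedSpace.exp ((t : ℂ) • Ag W) δ x := by
      rw [hδ]
      rfl
    rw [h5]
    refine h4.congr_deriv ?_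
    rw [ContinuousLinearMap.mul_apply, Ag_apply, hδ]
    rfl

theorem tg_cont (a x : TT d L) : Continuous fun p : (TT d L → ℝ) × ℝ => tg p.1 a p.2 x := by
  obtain ⟨δ, hδ⟩ : ∃ δ : TT d L → ℂ, δ = fun y => if y = a then 1 else 0 := ⟨_, rfl⟩
  have h1 : Continuous fun p : (TT d L → ℝ) × ℝ =>
      NormedSpace.exp ((p.2 : ℂ) • Ag p.1) := by
    let +nondep : NormedAlgebra ℚ ((TT d L → ℂ) →L[ℂ] (TT d L → ℂ)) :=
      NormedAlgebra.restrictScalars ℚ ℂ _
    exact NormedSpace.exp_continuous.comp
      ((Complex.continuous_ofReal.comp continuous_snd).smul (Ag_cont.comp continuous_fst))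
  have h2 : Continuous fun p : (TT d L → ℝ) × ℝ =>
      ((ContinuousLinearMap.proj (R := ℂ) (φ := fun _ : TT d L => ℂ) x).comp
        (ContinuousLinearMap.apply ℂ (TT d L → ℂ) δ)) (NormedSpace.exp ((p.2 : ℂ) • Ag p.1)) :=
    (ContinuousLinearMap.continuous _).comp h1
  rw [hδ] at h2
  exact h2

/-- the time averages are measurable functions of the potential -/
theorem TQ_meas (η : ℝ) (θ : TT d L → ℝ) (a : TT d L) :
    StronglyMeasurable fun W : TT d L → ℝ => TQ η θ (tg W a) := by
  unfold TQ
  have h1 : Continuous fun p : (TT d L → ℝ) × ℝ =>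
      Real.exp (-(2 * η) * p.2) * ∑ x, θ x * ‖tg p.1 a p.2 x‖ ^ 2 := by
    refine Continuous.mul (by fun_prop) ?_
    exact continuous_finsetSum _ fun x _ => continuous_const.mul ((tg_cont a x).norm.pow 2)
  exact (h1.stronglyMeasurable.integral_prod_right).const_mul _

theorem TQ_int {W : TT d L → ℝ} {a : TT d L} {g : ℝ → TT d L → ℂ} (h : TSol W a g) (η : ℝ)
    (hη : 0 < η) (θ : TT d L → ℝ) (hθ : ∀ x, |θ x| ≤ 1) :
    IntegrableOn (fun t => Real.exp (-(2 * η) * t) * ∑ x, θ x * ‖g t x‖ ^ 2) (Ioi (0 : ℝ)) ∧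
    |TQ η θ g| ≤ 1 := by
  have hn := h.norm
  have hc := h.cont
  have hb : ∀ t, ‖Real.exp (-(2 * η) * t) * ∑ x, θ x * ‖g t x‖ ^ 2‖ ≤ Real.exp (-(2 * η) * t) := by
    intro t
    rw [norm_mul, Real.norm_of_nonneg (Real.exp_pos _).le]
    refine mul_le_of_le_one_right (Real.exp_pos _).le ?_
    rw [← hn t]
    refine (norm_sum_le _ _).trans (Finset.sum_le_sum fun x _ => ?_)
    rw [norm_mul, Real.norm_eq_abs, Real.norm_of_nonneg (sq_nonneg _)]
    exact mul_le_of_le_one_left (sq_nonneg _) (hθ x)
  have h0 := Pool.Agent.TH794.QD.exp_int (2 * η) (by positivity)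
  constructor
  · refine Integrable.mono' h0 ?_ (Filter.Eventually.of_forall hb)
    refine Continuous.aestronglyMeasurable ?_
    refine Continuous.mul (by fun_prop) ?_
    exact continuous_finsetSum _ fun x _ => continuous_const.mul ((hc x).norm.pow 2)
  · unfold TQ
    rw [abs_mul, abs_of_pos (by positivity : 0 < 2 * η)]
    have h1 := norm_integral_le_of_norm_le h0 (Filter.Eventually.of_forall hb)
    rw [Pool.Agent.TH794.QD.exp_val (2 * η) (by positivity), Real.norm_eq_abs] at h1
    calc 2 * η * _ ≤ 2 * η * (2 * η)⁻¹ := by gcongr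
      _ = 1 := by field_simp

end Pool.Agent.R988.Tor
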