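import Pool.Agent.R988.TJ

/-! The averaged characteristic function is monotone in time. -/

set_option autoImplicit false
set_option linter.unusedSectionVars false
set_option linter.unusedVariables false

open scoped BigOperators ComplexConjugate InnerProductSpace Topology ENNReal
open Set MeasureTheory Filter

namespace Pool.Agent.R988.Tor

open Pool.Agent.H4R2.LO (Zd)
open Pool.Agent.TH794.QD (Sol exp_int exp_val)

/-- the character -/
noncomputable def ee (k : ℤ) (Λ : ℕ) (u : ℤ) : ℂ :=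
  Complex.exp (((2 * Real.pi * k * u / Λ : ℝ) : ℂ) * Complex.I)

theorem ee_add (k : ℤ) (Λ : ℕ) (u v : ℤ) : ee k Λ (u + v) = ee k Λ u * ee k Λ v := by
  unfold ee
  rw [← Complex.exp_add]
  congr 1
  push_cast
  ring

theorem ee_per (k : ℤ) (Λ : ℕ) (hΛ : 0 < Λ) (w : ℤ) : ee k Λ (Λ * w) = 1 := by
  unfold ee
  have hΛ' : (Λ : ℂ) ≠ 0 := by exact_mod_cast hΛ.ne'
  have h1 : ((2 * Real.pi * k * ((Λ * w : ℤ) : ℝ) / Λ : ℝ) : ℂ) * Complex.I =
      ((k * w : ℤ) : ℂ) * (2 * Real.pi * Complex.I) := by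
    push_cast
    field_simp
  rw [h1, Complex.exp_int_mul_two_pi_mul_I]

theorem ee_norm (k : ℤ) (Λ : ℕ) (u : ℤ) : ‖ee k Λ u‖ = 1 := Complex.norm_exp_ofReal_mul_I _

theorem ee_conj (k : ℤ) (Λ : ℕ) (u : ℤ) : conj (ee k Λ u) = ee k Λ (-u) := by
  unfold ee
  rw [← Complex.exp_conj]
  congr 1
  simp only [map_mul, Complex.conj_ofReal, Complex.conj_I]
  push_cast
  ring

theorem ee_re (k : ℤ) (Λ : ℕ) (u : ℤ) : (ee k Λ u).re = Real.cos (2 * Real.pi * k * u / Λ) :=
  Complex.exp_ofReal_mul_I_re _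

variable {d L : ℕ} [NeZero L]

theorem ee_pr (k : ℤ) (Λ : ℕ) (hΛ : 0 < Λ) (hL : Λ ∣ L) (i : Fin d) (z : Zd d) :
    ee k Λ (em (pr L z) i) = ee k Λ (z i) := by
  obtain ⟨m, hm⟩ := hL
  have h1 : (em (pr L z) : Zd d) i = z i % L := by
    unfold em pr
    rw [ZMod.val_intCast]
  have h2 : z i = z i % L + Λ * (m * (z i / L)) := by
    have h3 := Int.emod_add_mul_ediv (z i) L
    have h4 : (L : ℤ) = Λ * m := by exact_mod_cast hm
    rw [← mul_assoc, ← h4]
    exact h3.symm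
  rw [h1]
  conv_rhs => rw [h2, ee_add, ee_per k Λ hΛ, mul_one]

/-- the character on the torus -/
noncomputable def Xk (i : Fin d) (k : ℤ) (Λ : ℕ) (x : TT d L) : ℂ := ee k Λ (em x i)

theorem Xk_pair (i : Fin d) (k : ℤ) (Λ : ℕ) (hΛ : 0 < Λ) (hL : Λ ∣ L) (x a : TT d L) (c : Zd d) :
    (Xk i k Λ x * conj (Xk i k Λ a)).re =
      Real.cos (2 * Real.pi * k * ((em (x - (a - pr L c)) i - c i : ℤ) : ℝ) / Λ) := by
  unfold Xk
  rw [ee_conj, ← ee_add, ← ee_re]
  congr 1
  have h1 : x - (a - pr L c) = pr L (em x - em a + c) := by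
    rw [pr_add, pr_sub, pr_em, pr_em]
    abel
  rw [h1, sub_eq_add_neg (em (pr L (em x - em a + c)) i),
    ee_add k Λ (em (pr L (em x - em a + c)) i) (-c i), ee_pr k Λ hΛ hL, ← ee_add]
  congr 1
  simp only [Pi.add_apply, Pi.sub_apply]
  ring

/-- the weight -/
noncomputable def wt (i : Fin d) (k : ℤ) (Λ : ℕ) (c z : Zd d) : ℝ :=
  Real.cos (2 * Real.pi * k * ((z i - c i : ℤ) : ℝ) / Λ)

theorem wt_abs (i : Fin d) (k : ℤ) (Λ : ℕ) (c z : Zd d) : |wt i k Λ c z| ≤ 1 :=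
  Real.abs_cos_le_one _

section main

variable {d : ℕ} (μ : Measure ℝ) [IsProbabilityMeasure μ] (f : ℝ → ℝ) (hf : Measurable f)
  (Ψ : (Zd d → ℝ) → Zd d → ℝ → Zd d → ℂ) (hΨ : ∀ ω c, Sol d (fun x => f (ω x)) c (Ψ ω c))

include hf hΨ

theorem S_meas (η : ℝ) (hη : 0 < η) (θ : Zd d → ℝ) (hθ : ∀ z, |θ z| ≤ 1) (c : Zd d) :
    Measurable fun ω => ∑' z, θ z * pb η (Ψ ω c) z := by
  refine measurable_of_tendsto_metrizable (f := fun n ω => Qn η θ c n fun x => f (ω x))
    (fun n => ?_) ?_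
  · exact (Qn_meas η θ c n).comp (measurable_pi_lambda _ fun x => hf.comp (measurable_pi_apply x))
  · rw [tendsto_pi_nhds]
    exact fun ω => Qn_lim (hΨ ω c) η hη θ hθ

omit μ [IsProbabilityMeasure μ] hf in
theorem S_shift (η : ℝ) (hη : 0 < η) (i : Fin d) (k : ℤ) (Λ : ℕ) (c : Zd d) (ω : Zd d → ℝ) :
    ∑' z, wt i k Λ c z * pb η (Ψ ω c) z =
      ∑' z, wt i k Λ 0 z * pb η (Ψ (fun x => ω (x + c)) 0) z := by
  have h1 := sol_shift (hΨ ω c) c
  rw [sub_self] at h1
  have h2 := pb_unique (hΨ (fun x => ω (x + c)) 0) h1 η hη (wt i k Λ 0) (wt_abs i k Λ 0)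
  rw [h2]
  have h3 := (Equiv.addRight c).tsum_eq fun z => wt i k Λ c z * pb η (Ψ ω c) z
  rw [← h3]
  refine tsum_congr fun z => ?_
  have h4 : wt i k Λ c ((Equiv.addRight c) z) = wt i k Λ 0 z := by
    unfold wt
    simp
  rw [h4]
  rfl

theorem S_mean (η : ℝ) (hη : 0 < η) (i : Fin d) (k : ℤ) (Λ : ℕ) (c : Zd d) (σ : Zd d ≃ Zd d) :
    ∫ ω, ∑' z, wt i k Λ c z * pb η (Ψ (fun x => ω (σ x)) c) z
      ∂(Measure.infinitePi fun _ : Zd d => μ) =
    ∫ ω, ∑' z, wt i k Λ 0 z * pb η (Ψ ω 0) z ∂(Measure.infinitePi fun _ : Zd d => μ) := by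
  have h0 := S_meas f hf Ψ hΨ η hη (wt i k Λ 0) (wt_abs i k Λ 0) 0
  have h1 : ∀ ω : Zd d → ℝ, ∑' z, wt i k Λ c z * pb η (Ψ (fun x => ω (σ x)) c) z =
      (fun ω => ∑' z, wt i k Λ 0 z * pb η (Ψ ω 0) z)
        (fun x => ω (((Equiv.addRight c).trans σ) x)) := by
    intro ω
    rw [S_shift f Ψ hΨ η hη i k Λ c]
    rfl
  simp only [h1]
  have h2 := perm_law μ ((Equiv.addRight c).trans σ)
  conv_rhs => rw [← h2]
  rw [integral_map (perm_meas _).aemeasurable h0.aestronglyMeasurable]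

/-- **the averaged characteristic function is monotone in time** -/
theorem phi_mono (i : Fin d) (k : ℤ) (Λ : ℕ) (hΛ : 0 < Λ) (η η' : ℝ) (hη : 0 < η)
    (hηη : η ≤ η') :
    ∫ ω, ∑' z, wt i k Λ 0 z * pb η (Ψ ω 0) z ∂(Measure.infinitePi fun _ : Zd d => μ) ≤
      ∫ ω, ∑' z, wt i k Λ 0 z * pb η' (Ψ ω 0) z ∂(Measure.infinitePi fun _ : Zd d => μ) ∧
    (1 - ∫ ω, ∑' z, wt i k Λ 0 z * pb η (Ψ ω 0) z ∂(Measure.infinitePi fun _ : Zd d => μ)) *
        η ^ 2 ≤
      (1 - ∫ ω, ∑' z, wt i k Λ 0 z * pb η' (Ψ ω 0) z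
        ∂(Measure.infinitePi fun _ : Zd d => μ)) * η' ^ 2 := by
  have hη' : 0 < η' := hη.trans_le hηη
  obtain ⟨A, hA⟩ : ∃ A : ℝ → ℝ, A = fun η =>
    ∫ ω, ∑' z, wt i k Λ 0 z * pb η (Ψ ω 0) z ∂(Measure.infinitePi fun _ : Zd d => μ) := ⟨_, rfl⟩
  have hAη : ∀ η, A η = ∫ ω, ∑' z, wt i k Λ 0 z * pb η (Ψ ω 0) z
      ∂(Measure.infinitePi fun _ : Zd d => μ) := fun η => by rw [hA]
  rw [← hAη, ← hAη]
  obtain ⟨P, hP⟩ : ∃ P, P = Measure.infinitePi fun _ : Zd d => μ := ⟨_, rfl⟩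
  have hPp : IsProbabilityMeasure P := by rw [hP]; infer_instance
  have hd0 : (0 : ℝ) ≤ d := Nat.cast_nonneg d
  -- the finite volume inequalities
  have key : ∀ n : ℕ, 1 ≤ n → A η ≤ A η' + (32 * d / n / η + 32 * d / n / η') ∧
      (1 - A η) * η ^ 2 ≤ (1 - A η') * η' ^ 2 +
        (32 * d / n / η * η ^ 2 + 32 * d / n / η' * η' ^ 2) := by
    intro n hn
    have hn' : (1 : ℝ) ≤ n := by exact_mod_cast hn
    obtain ⟨L, hL⟩ : ∃ L : ℕ, L = Λ * (2 * n + 2) := ⟨_, rfl⟩
    have hL0 : 0 < L := by rw [hL]; positivity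
    have hLne : NeZero L := ⟨hL0.ne'⟩
    have hΛL : Λ ∣ L := ⟨_, hL⟩
    have hLn : 2 * (n : ℝ) + 2 ≤ L := by
      rw [hL]
      push_cast
      have : (1 : ℝ) ≤ Λ := by exact_mod_cast hΛ
      exact le_mul_of_one_le_left (by positivity) this
    have hc : ∀ j : Fin d, (n : ℝ) ≤ (mid d n j : ℤ) ∧ (n : ℝ) + 1 ≤ L - (mid d n j : ℤ) := by
      intro j
      unfold mid
      push_cast
      constructor
      · exact le_rfl
      · linarith
    -- the finite volume quantity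
    obtain ⟨B, hB⟩ : ∃ B : ℝ → TT d L → (Zd d → ℝ) → ℝ, B = fun η a ω =>
      TQ η (fun x => (Xk i k Λ x * conj (Xk i k Λ a)).re)
        (tg (fun x => f (ω (em x))) a) := ⟨_, rfl⟩
    have hBm : ∀ η a, Measurable (B η a) := by
      intro η a
      rw [hB]
      refine (TQ_meas η _ a).measurable.comp ?_
      exact measurable_pi_lambda _ fun x => hf.comp (measurable_pi_apply _)
    have hBb : ∀ η, 0 < η → ∀ a ω, |B η a ω| ≤ 1 := by
      intro η hη a ω
      rw [hB]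
      refine (TQ_int (tsol_tg _ _) η hη _ fun x => ?_).2
      rw [Xk_pair i k Λ hΛ hΛL x a 0]
      exact Real.abs_cos_le_one _
    have hBi : ∀ η, 0 < η → ∀ a, Integrable (B η a) P := fun η hη a =>
      Integrable.of_bound (C := 1) (hBm η a).aestronglyMeasurable
        (Eventually.of_forall fun ω => by
          rw [Real.norm_eq_abs]
          exact hBb η hη a ω)
    have hBA : ∀ η, 0 < η → ∀ a, |∫ ω, B η a ω ∂P - A η| ≤ 32 * d / n / η := by
      intro η hη a
      have h1 := S_mean μ f hf Ψ hΨ η hη i k Λ (mid d n) (cycE (a - pr L (mid d n)))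
      rw [hAη, ← h1, ← hP]
      have hm : Measurable fun ω : Zd d → ℝ => ∑' z, wt i k Λ (mid d n) z *
          pb η (Ψ (fun x => ω (cycE (a - pr L (mid d n)) x)) (mid d n)) z :=
        (S_meas f hf Ψ hΨ η hη (wt i k Λ (mid d n)) (wt_abs i k Λ _) (mid d n)).comp
          (perm_meas _)
      have hi : Integrable (fun ω : Zd d → ℝ => ∑' z, wt i k Λ (mid d n) z *
          pb η (Ψ (fun x => ω (cycE (a - pr L (mid d n)) x)) (mid d n)) z) P :=
        Integrable.of_bound (C := 1) hm.aestronglyMeasurable (Eventually.of_forall fun ω => by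
          rw [Real.norm_eq_abs]
          exact pb_abs (hΨ _ _) η hη _ (wt_abs i k Λ _))
      rw [← integral_sub (hBi η hη a) hi, ← Real.norm_eq_abs]
      refine (norm_integral_le_of_norm_le_const (C := 32 * d / n / η)
        (Eventually.of_forall fun ω => ?_)).trans (le_of_eq (by
          rw [probReal_univ, mul_one]))
      rw [Real.norm_eq_abs, hB]
      have h2 := cmpQ (hΨ (fun x => ω (cycE (a - pr L (mid d n)) x)) (mid d n))
        (fun x => f (ω (em x))) (a - pr L (mid d n)) (fun x => by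
          rw [cycE_em]) (n : ℝ) hn' hc (tg (fun x => f (ω (em x))) a) (by
          rw [sub_add_cancel]
          exact tsol_tg _ _) η hη (wt i k Λ (mid d n)) (wt_abs i k Λ _)
      have h3 : (fun x : TT d L => wt i k Λ (mid d n) (em (x - (a - pr L (mid d n))))) =
          fun x => (Xk i k Λ x * conj (Xk i k Λ a)).re := by
        funext x
        rw [Xk_pair i k Λ hΛ hΛL x a (mid d n)]
        rfl
      rw [h3] at h2
      exact h2
    obtain ⟨N, hN⟩ : ∃ N : ℝ, N = Fintype.card (TT d L) := ⟨_, rfl⟩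
    have hN0 : 0 < N := by
      rw [hN]
      exact_mod_cast Fintype.card_pos
    have hsum : ∀ η, 0 < η → |∑ a : TT d L, ∫ ω, B η a ω ∂P - N * A η| ≤
        N * (32 * d / n / η) := by
      intro η hη
      have h1 : N * A η = ∑ _a : TT d L, A η := by
        rw [Finset.sum_const, Finset.card_univ, nsmul_eq_mul, hN]
      rw [h1, ← Finset.sum_sub_distrib]
      refine (Finset.abs_sum_le_sum_abs _ _).trans ((Finset.sum_le_sum fun a _ =>
        hBA η hη a).trans (le_of_eq ?_))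
      rw [Finset.sum_const, Finset.card_univ, nsmul_eq_mul, hN]
    have hmono := fun ω : Zd d → ℝ => TQ_mono (fun x => f (ω (em x))) (Xk (L := L) i k Λ)
      (fun a => tg (fun x => f (ω (em x))) a) (fun a => tsol_tg _ a) η η' hη hηη
    have hX : ∀ a : TT d L, ‖Xk i k Λ a‖ ^ 2 = 1 := fun a => by
      unfold Xk
      rw [ee_norm, one_pow]
    have hs1 := hsum η hη
    have hs2 := hsum η' hη'
    rw [abs_le] at hs1 hs2
    have m1 : ∑ a : TT d L, ∫ ω, B η a ω ∂P ≤ ∑ a : TT d L, ∫ ω, B η' a ω ∂P := by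
      rw [← integral_finsetSum _ fun a _ => hBi η hη a,
        ← integral_finsetSum _ fun a _ => hBi η' hη' a]
      refine integral_mono (integrable_finsetSum _ fun a _ => hBi η hη a)
        (integrable_finsetSum _ fun a _ => hBi η' hη' a) fun ω => ?_
      rw [hB]
      exact (hmono ω).1
    have m2 : (N - ∑ a : TT d L, ∫ ω, B η a ω ∂P) * η ^ 2 ≤
        (N - ∑ a : TT d L, ∫ ω, B η' a ω ∂P) * η' ^ 2 := by
      have hi2 : ∀ η, 0 < η → ∀ a : TT d L,
          Integrable (fun ω => ‖Xk i k Λ a‖ ^ 2 - B η a ω) P := fun η hη a =>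
        (integrable_const _).sub (hBi η hη a)
      have e1 : ∀ η, 0 < η → N - ∑ a : TT d L, ∫ ω, B η a ω ∂P =
          ∫ ω, ∑ a : TT d L, (‖Xk i k Λ a‖ ^ 2 - B η a ω) ∂P := by
        intro η hη
        rw [integral_finsetSum _ fun a _ => hi2 η hη a]
        have e2 : ∀ a : TT d L, ∫ ω, (‖Xk i k Λ a‖ ^ 2 - B η a ω) ∂P = 1 - ∫ ω, B η a ω ∂P := by
          intro a
          rw [integral_sub (integrable_const _) (hBi η hη a), hX, integral_const, probReal_univ,
            one_smul]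
        rw [Finset.sum_congr rfl fun a _ => e2 a, Finset.sum_sub_distrib, Finset.sum_const,
          Finset.card_univ, nsmul_eq_mul, mul_one, hN]
      rw [e1 η hη, e1 η' hη', ← integral_mul_const, ← integral_mul_const]
      refine integral_mono ((integrable_finsetSum _ fun a _ => hi2 η hη a).mul_const _)
        ((integrable_finsetSum _ fun a _ => hi2 η' hη' a).mul_const _) fun ω => ?_
      rw [hB]
      exact (hmono ω).2
    obtain ⟨x1, hx1⟩ : ∃ x, x = ∑ a : TT d L, ∫ ω, B η a ω ∂P := ⟨_, rfl⟩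
    obtain ⟨x2, hx2⟩ : ∃ x, x = ∑ a : TT d L, ∫ ω, B η' a ω ∂P := ⟨_, rfl⟩
    rw [← hx1] at hs1 m1 m2
    rw [← hx2] at hs2 m1 m2
    constructor
    · have h1 : N * A η ≤ N * (A η' + (32 * d / n / η + 32 * d / n / η')) := by
        have := hs1.1
        have := hs2.2
        nlinarith
      exact le_of_mul_le_mul_left h1 hN0
    · have h1 : N * ((1 - A η) * η ^ 2) ≤ N * ((1 - A η') * η' ^ 2 +
          (32 * d / n / η * η ^ 2 + 32 * d / n / η' * η' ^ 2)) := by
        have a1 : (N - x1) * η ^ 2 ≥ (N * (1 - A η) - N * (32 * d / n / η)) * η ^ 2 := by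
          refine mul_le_mul_of_nonneg_right ?_ (sq_nonneg _)
          have := hs1.2
          linarith
        have a2 : (N - x2) * η' ^ 2 ≤ (N * (1 - A η') + N * (32 * d / n / η')) * η' ^ 2 := by
          refine mul_le_mul_of_nonneg_right ?_ (sq_nonneg _)
          have := hs2.1
          linarith
        nlinarith
      exact le_of_mul_le_mul_left h1 hN0
  have hlim : ∀ C : ℝ, Tendsto (fun n : ℕ => 32 * d / (n : ℝ) / C) atTop (𝓝 0) := by
    intro C
    have h1 : Tendsto (fun n : ℕ => 32 * d / (n : ℝ)) atTop (𝓝 0) :=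
      tendsto_const_div_atTop_nhds_zero_nat (32 * (d : ℝ))
    have h2 := h1.div_const C
    rwa [zero_div] at h2
  constructor
  · have h1 : Tendsto (fun n : ℕ => A η' + (32 * d / (n : ℝ) / η + 32 * d / n / η')) atTop
        (𝓝 (A η' + (0 + 0))) := ((hlim η).add (hlim η')).const_add _
    rw [add_zero, add_zero] at h1
    exact ge_of_tendsto h1 ((eventually_ge_atTop 1).mono fun n hn => (key n hn).1)
  · have h1 : Tendsto (fun n : ℕ => (1 - A η') * η' ^ 2 +
        (32 * d / (n : ℝ) / η * η ^ 2 + 32 * d / n / η' * η' ^ 2)) atTop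
        (𝓝 ((1 - A η') * η' ^ 2 + (0 * η ^ 2 + 0 * η' ^ 2))) :=
      (((hlim η).mul_const _).add ((hlim η').mul_const _)).const_add _
    rw [zero_mul, zero_mul, add_zero, add_zero] at h1
    exact ge_of_tendsto h1 ((eventually_ge_atTop 1).mono fun n hn => (key n hn).2)

end main

end Pool.Agent.R988.Tor
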