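import Pool.Agent.R988.Up

/-! The free density of states: the energies away from the edges and from the centre of the band
carry almost all of the mass. -/

set_option autoImplicit false
set_option linter.unusedVariables false

open scoped BigOperators Topology
open MeasureTheory Filter Set

namespace Pool.Agent.R988

open Pool.Agent.H4R2.LO (Zd)
open Pool.Agent.TH794.QD
open Pool.Agent.TH794.QE
open Pool.Agent.TH794.HK

/-- a bound for the free resolvent on the regular energies -/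
theorem upt (d : ℕ) (hd : 2 ≤ d) (κ : ℝ) (hκ : 0 < κ) (hκ1 : κ ≤ 1) : ∃ C : ℝ, 0 < C ∧
    ∀ (E t : ℝ), RegE d κ E → 0 < t → t ≤ 1 →
      ‖GF (F0 d) ((E : ℂ) + (t : ℂ) * Complex.I)‖ ≤ C := by
  obtain ⟨C, hC, h⟩ : ∃ C : ℝ, 0 ≤ C ∧ ∀ (E t : ℝ), RegE d κ E → 0 < t → t ≤ 1 →
      ‖GF (F0 d) ((E : ℂ) + (t : ℂ) * Complex.I) - GF (F0 d) ((E : ℂ) + Complex.I)‖ ≤ C := by
    by_cases h2 : d = 2
    · subst h2
      have hCH := Pool.Agent.TH311.LL2D.CH_ge κ
      refine ⟨2 * Pool.Agent.TH311.LL2D.CH κ * 1, by linarith, fun E t hE ht ht1 => ?_⟩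
      have hB : Pool.Agent.TH311.LL2D.Bu κ E := by
        rcases hE with h | h
        · exact h.2
        · exact absurd h.1 (by norm_num)
      have h1 := holS0 κ hκ hκ1 ((E : ℂ) + (t : ℂ) * Complex.I) ((E : ℂ) + Complex.I)
        (by simpa using hB) (by simpa using hB) (by simpa using ht) (by simpa using ht1)
        (by simp) (by simp)
      refine h1.trans ?_
      refine mul_le_mul_of_nonneg_left ?_ (by linarith)
      refine Real.rpow_le_one (norm_nonneg _) ?_ (by norm_num)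
      have e1 : ((E : ℂ) + (t : ℂ) * Complex.I) - ((E : ℂ) + Complex.I) =
          ((t - 1 : ℝ) : ℂ) * Complex.I := by
        push_cast
        ring
      rw [e1, norm_mul, Complex.norm_I, mul_one, Complex.norm_real, Real.norm_eq_abs, abs_le]
      constructor <;> linarith
    · have hd3 : 3 ≤ d := by omega
      refine ⟨Pool.Agent.TH794.QD.CH d * 1, by
        rw [mul_one]
        exact CH_nonneg d, fun E t hE ht ht1 => ?_⟩
      have h1 := hol0 Pool.Agent.W918.BK.Osc.osc d hd3 ((E : ℂ) + (t : ℂ) * Complex.I)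
        ((E : ℂ) + Complex.I) (by simpa using ht.le) (by simp)
      refine h1.trans ?_
      refine mul_le_mul_of_nonneg_left ?_ (CH_nonneg d)
      refine Real.rpow_le_one (norm_nonneg _) ?_ (by norm_num)
      have e1 : ((E : ℂ) + (t : ℂ) * Complex.I) - ((E : ℂ) + Complex.I) =
          ((t - 1 : ℝ) : ℂ) * Complex.I := by
        push_cast
        ring
      rw [e1, norm_mul, Complex.norm_I, mul_one, Complex.norm_real, Real.norm_eq_abs, abs_le]
      constructor <;> linarith
  refine ⟨C + 1, by linarith, fun E t hE ht ht1 => ?_⟩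
  have h1 := h E t hE ht ht1
  have h2 := GF_le_one (bamp0 d) E
  calc ‖GF (F0 d) ((E : ℂ) + (t : ℂ) * Complex.I)‖ =
      ‖(GF (F0 d) ((E : ℂ) + (t : ℂ) * Complex.I) - GF (F0 d) ((E : ℂ) + Complex.I)) +
        GF (F0 d) ((E : ℂ) + Complex.I)‖ := by
        congr 1
        ring
    _ ≤ _ := norm_add_le _ _
    _ ≤ C + 1 := add_le_add h1 h2

/-- the bulk of the band -/
def CK (d : ℕ) (κ : ℝ) : Set ℝ := {E | κ ≤ |E| ∧ |E| ≤ 2 * d - κ}

theorem CK_meas (d : ℕ) (κ : ℝ) : MeasurableSet (CK d κ) := by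
  unfold CK
  exact (measurableSet_le measurable_const continuous_abs.measurable).inter
    (measurableSet_le continuous_abs.measurable measurable_const)

theorem CK_reg {d : ℕ} (hd : 2 ≤ d) {κ : ℝ} (hκ : 0 < κ) {E : ℝ} (hE : E ∈ CK d κ) :
    RegE d κ E ∧ |E| ≤ 2 * d - κ := by
  refine ⟨?_, hE.2⟩
  by_cases h2 : d = 2
  · left
    refine ⟨h2, hE.1, ?_⟩
    have := hE.2
    rw [h2] at this
    push_cast at this
    linarith
  · right
    refine ⟨by omega, hE.2.trans ?_⟩
    have : (0 : ℝ) ≤ d := by positivity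
    linarith

theorem CK_fin (d : ℕ) (κ : ℝ) : volume (CK d κ) < ⊤ := by
  refine lt_of_le_of_lt (measure_mono (t := Icc (-(2 * (d : ℝ) - κ)) (2 * (d : ℝ) - κ)) ?_) ?_
  · intro E hE
    exact abs_le.1 hE.2
  · rw [Real.volume_Icc]
    exact ENNReal.ofReal_lt_top

theorem cube_one (d : ℕ) : (cube d).real univ = 1 := by
  have h1 := F0_cube d 0
  unfold F0 at h1
  have h2 : pp 0 = 1 := by
    have h3 := F0_cube 1 0
    unfold F0 cube at h3
    simp only [pow_one, neg_zero, zero_mul, Complex.ofReal_zero, mul_zero, Complex.exp_zero,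
      mul_one, integral_const, Measure.real, Measure.pi_univ, Measure.restrict_apply_univ,
      Real.volume_Icc] at h3
    rw [h3]
    simp
  rw [h2, one_pow] at h1
  simp only [neg_zero, zero_mul, Complex.ofReal_zero, mul_zero, Complex.exp_zero, mul_one,
    integral_const] at h1
  rw [Complex.real_smul, mul_one] at h1
  exact_mod_cast h1.symm

theorem sym_abs {d : ℕ} (k : Fin d → ℝ) : |sym k| ≤ 2 * d := by
  unfold sym
  refine (Finset.abs_sum_le_sum_abs _ _).trans ?_
  refine (Finset.sum_le_sum (g := fun _ => (2 : ℝ)) fun i _ => ?_).trans (le_of_eq ?_)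
  · rw [abs_mul, abs_two]
    have := Real.abs_cos_le_one (2 * Real.pi * k i)
    linarith
  · rw [Finset.sum_const, Finset.card_univ, Fintype.card_fin, nsmul_eq_mul]
    ring

/-- the Poisson kernel -/
theorem inv_im (s E t : ℝ) (ht : 0 < t) :
    (((s : ℂ) - ((E : ℂ) + (t : ℂ) * Complex.I))⁻¹).im = t / ((s - E) ^ 2 + t ^ 2) := by
  rw [Complex.inv_im, Complex.normSq_apply]
  simp
  congr 1
  ring

theorem pk_cont {d : ℕ} (E t : ℝ) (ht : 0 < t) :
    Continuous fun k : Fin d → ℝ => t / ((sym k - E) ^ 2 + t ^ 2) := by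
  have := sym_cont d
  refine Continuous.div continuous_const (by fun_prop) fun k => ?_
  positivity

theorem pk_le (x t : ℝ) (ht : 0 < t) : t / (x ^ 2 + t ^ 2) ≤ 1 / t := by
  rw [div_le_div_iff₀ (by positivity) ht]
  nlinarith [sq_nonneg x]

theorem im_GF (d : ℕ) (E t : ℝ) (ht : 0 < t) :
    (GF (F0 d) ((E : ℂ) + (t : ℂ) * Complex.I)).im =
      ∫ k, t / ((sym k - E) ^ 2 + t ^ 2) ∂(cube d) := by
  have hz : 0 < ((E : ℂ) + (t : ℂ) * Complex.I).im := by simpa using ht
  rw [GF0_cube d _ hz]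
  have hc : Continuous fun k : Fin d → ℝ =>
      ((sym k : ℂ) - ((E : ℂ) + (t : ℂ) * Complex.I))⁻¹ := by
    have h1 := sym_cont d
    refine Continuous.inv₀ (by fun_prop) fun k h0 => ?_
    have h2 := congrArg Complex.im h0
    simp at h2
    exact ht.ne' h2
  have hi : Integrable (fun k : Fin d → ℝ =>
      ((sym k : ℂ) - ((E : ℂ) + (t : ℂ) * Complex.I))⁻¹) (cube d) := by
    refine Integrable.of_bound hc.aestronglyMeasurable (1 / t)
      (Eventually.of_forall fun k => ?_)
    rw [norm_inv, ← one_div]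
    refine one_div_le_one_div_of_le ht ?_
    have h3 := Complex.abs_im_le_norm ((sym k : ℂ) - ((E : ℂ) + (t : ℂ) * Complex.I))
    simp at h3
    rwa [abs_of_pos ht] at h3
  have h4 := Complex.imCLM.integral_comp_comm hi
  change ∫ k, (((sym k : ℂ) - ((E : ℂ) + (t : ℂ) * Complex.I))⁻¹).im ∂(cube d) = _ at h4
  rw [show (∫ k, ((sym k : ℂ) - ((E : ℂ) + (t : ℂ) * Complex.I))⁻¹ ∂(cube d)).im =
    Complex.imCLM (∫ k, ((sym k : ℂ) - ((E : ℂ) + (t : ℂ) * Complex.I))⁻¹ ∂(cube d)) from rfl,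
    ← h4]
  refine integral_congr_ae (Eventually.of_forall fun k => ?_)
  exact inv_im (sym k) E t ht

/-- the free resolvent grows slowly -/
theorem GF_half (d : ℕ) (hd : 1 ≤ d) (E t : ℝ) (ht : 0 < t) :
    ‖GF (F0 d) ((E : ℂ) + (t : ℂ) * Complex.I)‖ ≤
      10 ^ d * (Real.Gamma (1 / 2) * (1 / t) ^ (1 / 2 : ℝ)) := by
  have h0 := Real.integral_rpow_mul_exp_neg_mul_Ioi (a := 1 / 2) (r := t) (by norm_num) ht
  have hi := integrableOn_rpow_mul_exp_neg_mul_rpow (s := (1 / 2 : ℝ) - 1) (p := 1) (b := t)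
    (by norm_num) one_pos ht
  have hi' : IntegrableOn (fun s : ℝ => s ^ ((1 / 2 : ℝ) - 1) * Real.exp (-(t * s))) (Ioi 0) := by
    refine hi.congr_fun (fun s hs => ?_) measurableSet_Ioi
    simp only [Real.rpow_one]
    ring_nf
  unfold GF
  rw [norm_mul, Complex.norm_I, one_mul]
  have hb : ∫ s in Ioi (0 : ℝ), (10 : ℝ) ^ d * (s ^ ((1 / 2 : ℝ) - 1) * Real.exp (-(t * s))) =
      10 ^ d * (Real.Gamma (1 / 2) * (1 / t) ^ (1 / 2 : ℝ)) := by
    rw [integral_const_mul, h0]
    ring
  rw [← hb]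
  refine norm_integral_le_of_norm_le (hi'.const_mul _) ?_
  rw [ae_restrict_iff' measurableSet_Ioi]
  refine Eventually.of_forall fun s hs => ?_
  have hs0 : 0 < s := hs
  have h1 : ‖F0 d s‖ ≤ 10 ^ d * s ^ ((1 / 2 : ℝ) - 1) := by
    unfold F0
    rw [norm_pow]
    refine (pp_pow Pool.Agent.W918.BK.Osc.osc s hs0.le d).trans ?_
    have h2 : (s + 1) ^ (-(d / 2) : ℝ) ≤ (s + 1) ^ ((1 / 2 : ℝ) - 1) := by
      apply Real.rpow_le_rpow_of_exponent_le (by linarith)
      have : (1 : ℝ) ≤ d := by exact_mod_cast hd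
      linarith
    have h3 : (s + 1) ^ ((1 / 2 : ℝ) - 1) ≤ s ^ ((1 / 2 : ℝ) - 1) :=
      Real.rpow_le_rpow_of_nonpos hs0 (by linarith) (by norm_num)
    have := h2.trans h3
    gcongr
  rw [norm_mul, Complex.norm_exp]
  have h4 : (Complex.I * ((E : ℂ) + (t : ℂ) * Complex.I) * (s : ℂ)).re = -(t * s) := by
    simp
  rw [h4]
  calc ‖F0 d s‖ * Real.exp (-(t * s)) ≤ (10 ^ d * s ^ ((1 / 2 : ℝ) - 1)) * Real.exp (-(t * s)) :=
        mul_le_mul_of_nonneg_right h1 (Real.exp_pos _).le
    _ = _ := by ring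

/-- small windows have small mass -/
theorem cube_small (d : ℕ) (hd : 1 ≤ d) (E δ : ℝ) (hδ : 0 < δ) :
    (cube d).real {k | |sym k - E| ≤ δ} ≤ 2 * 10 ^ d * Real.Gamma (1 / 2) * δ ^ (1 / 2 : ℝ) := by
  have hms : MeasurableSet {k : Fin d → ℝ | |sym k - E| ≤ δ} :=
    (isClosed_le (by
      have := sym_cont d
      fun_prop) continuous_const).measurableSet
  have h1 : (cube d).real {k | |sym k - E| ≤ δ} ≤
      2 * δ * (GF (F0 d) ((E : ℂ) + (δ : ℂ) * Complex.I)).im := by
    rw [im_GF d E δ hδ, ← integral_const_mul, ← integral_indicator_one hms]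
    refine integral_mono ?_ ?_ fun k => ?_
    · exact (integrable_const (1 : ℝ)).indicator hms
    · refine Integrable.const_mul ?_ _
      refine Integrable.of_bound (pk_cont E δ hδ).aestronglyMeasurable (1 / δ)
        (Eventually.of_forall fun k => ?_)
      rw [Real.norm_of_nonneg (by positivity)]
      exact pk_le _ _ hδ
    · by_cases hk : k ∈ {k : Fin d → ℝ | |sym k - E| ≤ δ}
      · rw [indicator_of_mem hk]
        have hk' : |sym k - E| ≤ δ := hk
        have h2 : (sym k - E) ^ 2 ≤ δ ^ 2 := by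
          rw [← sq_abs]
          exact pow_le_pow_left₀ (abs_nonneg _) hk' 2
        simp only [Pi.one_apply]
        rw [← mul_div_assoc, le_div_iff₀ (by positivity)]
        nlinarith
      · rw [indicator_of_notMem hk]
        positivity
  refine h1.trans ?_
  have h3 := (Complex.im_le_norm (GF (F0 d) ((E : ℂ) + (δ : ℂ) * Complex.I))).trans
    (GF_half d hd E δ hδ)
  have h4 : δ * (1 / δ) ^ (1 / 2 : ℝ) = δ ^ (1 / 2 : ℝ) := by
    rw [one_div, Real.inv_rpow hδ.le, ← Real.rpow_neg hδ.le]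
    nth_rewrite 1 [← Real.rpow_one δ]
    rw [← Real.rpow_add hδ]
    norm_num
  calc 2 * δ * (GF (F0 d) ((E : ℂ) + (δ : ℂ) * Complex.I)).im ≤
      2 * δ * (10 ^ d * (Real.Gamma (1 / 2) * (1 / δ) ^ (1 / 2 : ℝ))) := by gcongr
    _ = 2 * 10 ^ d * Real.Gamma (1 / 2) * (δ * (1 / δ) ^ (1 / 2 : ℝ)) := by ring
    _ = _ := by rw [h4]

/-- the mass of the Poisson kernel -/
theorem pk_mass (s κ t : ℝ) (ht : 0 < t) (hκ : 0 < κ) (A : Set ℝ) (hA : MeasurableSet A)
    (hf : volume A < ⊤) (hs : ∀ E, |s - E| ≤ κ → E ∈ A) :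
    2 * Real.arctan (κ / t) ≤ ∫ E in A, t / ((s - E) ^ 2 + t ^ 2) := by
  have hc : Continuous fun E : ℝ => t / ((s - E) ^ 2 + t ^ 2) := by
    refine Continuous.div continuous_const (by fun_prop) fun k => ?_
    positivity
  have h1 : ∫ E in Icc (s - κ) (s + κ), t / ((s - E) ^ 2 + t ^ 2) ≤
      ∫ E in A, t / ((s - E) ^ 2 + t ^ 2) := by
    refine setIntegral_mono_set ?_ ?_ ?_
    · haveI : IsFiniteMeasure (volume.restrict A) := ⟨by
        rw [Measure.restrict_apply_univ]
        exact hf⟩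
      refine Integrable.of_bound hc.aestronglyMeasurable (1 / t)
        (Eventually.of_forall fun E => ?_)
      rw [Real.norm_of_nonneg (by positivity)]
      exact pk_le _ _ ht
    · exact Eventually.of_forall fun E => by
        simp only [Pi.zero_apply]
        positivity
    · refine HasSubset.Subset.eventuallyLE fun E hE => hs E ?_
      rw [abs_le]
      have h1 := hE.1
      have h2 := hE.2
      constructor <;> linarith
  refine le_trans (le_of_eq ?_) h1
  rw [integral_Icc_eq_integral_Ioc, ← intervalIntegral.integral_of_le (by linarith)]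
  have h2 : ∀ E : ℝ, t / ((s - E) ^ 2 + t ^ 2) = t⁻¹ * (1 + ((E - s) / t) ^ 2)⁻¹ := by
    intro E
    have : (s - E) ^ 2 + t ^ 2 ≠ 0 := by positivity
    have : 1 + ((E - s) / t) ^ 2 ≠ 0 := by positivity
    field_simp
    ring
  simp only [h2]
  rw [intervalIntegral.integral_const_mul,
    intervalIntegral.integral_comp_sub_right (fun E => (1 + (E / t) ^ 2)⁻¹) s,
    intervalIntegral.integral_comp_div (fun E => (1 + E ^ 2)⁻¹) ht.ne',
    integral_inv_one_add_sq]
  have h3 : (s - κ - s) / t = -(κ / t) := by ring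
  have h4 : (s + κ - s) / t = κ / t := by ring
  rw [h3, h4, Real.arctan_neg, smul_eq_mul]
  field_simp
  ring

theorem pk_int {d : ℕ} (κ t : ℝ) (ht : 0 < t) : Integrable
    (fun p : ℝ × (Fin d → ℝ) => t / ((sym p.2 - p.1) ^ 2 + t ^ 2))
    ((volume.restrict (CK d κ)).prod (cube d)) := by
  haveI : IsFiniteMeasure (volume.restrict (CK d κ)) := ⟨by
    rw [Measure.restrict_apply_univ]
    exact CK_fin d κ⟩
  refine Integrable.of_bound ?_ (1 / t) (Eventually.of_forall fun p => ?_)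
  · refine Continuous.aestronglyMeasurable ?_
    have := sym_cont d
    refine Continuous.div continuous_const (by fun_prop) fun k => ?_
    positivity
  · rw [Real.norm_of_nonneg (by positivity)]
    exact pk_le _ _ ht

/-- the mass of the bulk, before the limit -/
theorem mass_t (d : ℕ) (hd : 1 ≤ d) (κ t : ℝ) (hκ : 0 < κ) (ht : 0 < t) :
    2 * Real.arctan (κ / t) * (1 - 6 * 10 ^ d * Real.Gamma (1 / 2) * (2 * κ) ^ (1 / 2 : ℝ)) ≤
      ∫ E in CK d κ, (GF (F0 d) ((E : ℂ) + (t : ℂ) * Complex.I)).im := by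
  haveI : IsFiniteMeasure (volume.restrict (CK d κ)) := ⟨by
    rw [Measure.restrict_apply_univ]
    exact CK_fin d κ⟩
  have h1 : ∫ E in CK d κ, (GF (F0 d) ((E : ℂ) + (t : ℂ) * Complex.I)).im =
      ∫ k, (∫ E in CK d κ, t / ((sym k - E) ^ 2 + t ^ 2)) ∂(cube d) := by
    rw [setIntegral_congr_fun (CK_meas d κ) fun E _ => im_GF d E t ht]
    exact integral_integral_swap (pk_int κ t ht)
  rw [h1]
  have hsc := sym_cont d
  obtain ⟨B, hB⟩ : ∃ B : Set (Fin d → ℝ), B = {k | |sym k - 0| ≤ 2 * κ} ∪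
    ({k | |sym k - (2 * d : ℝ)| ≤ 2 * κ} ∪ {k | |sym k - (-(2 * d : ℝ))| ≤ 2 * κ}) := ⟨_, rfl⟩
  have hm : ∀ E : ℝ, MeasurableSet {k : Fin d → ℝ | |sym k - E| ≤ 2 * κ} := fun E =>
    (isClosed_le (by fun_prop) continuous_const).measurableSet
  have hBm : MeasurableSet B := by
    rw [hB]
    exact (hm _).union ((hm _).union (hm _))
  have hBs : (cube d).real B ≤ 6 * 10 ^ d * Real.Gamma (1 / 2) * (2 * κ) ^ (1 / 2 : ℝ) := by
    rw [hB]
    refine (measureReal_union_le _ _).trans ?_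
    have h2 := measureReal_union_le (μ := cube d) {k : Fin d → ℝ | |sym k - (2 * d : ℝ)| ≤ 2 * κ}
      {k | |sym k - (-(2 * d : ℝ))| ≤ 2 * κ}
    have h3 := cube_small d hd 0 (2 * κ) (by positivity)
    have h4 := cube_small d hd (2 * d) (2 * κ) (by positivity)
    have h5 := cube_small d hd (-(2 * d)) (2 * κ) (by positivity)
    linarith
  have hBc : (cube d).real Bᶜ = 1 - (cube d).real B := by
    have := measureReal_compl (μ := cube d) hBm
    rw [cube_one] at this
    exact this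
  have ha : 0 ≤ 2 * Real.arctan (κ / t) := by
    have : 0 ≤ Real.arctan (κ / t) := by
      rw [← Real.arctan_zero]
      exact Real.arctan_strictMono.monotone (by positivity)
    linarith
  have h6 : ∀ k ∈ Bᶜ, 2 * Real.arctan (κ / t) ≤ ∫ E in CK d κ, t / ((sym k - E) ^ 2 + t ^ 2) := by
    intro k hk
    rw [hB] at hk
    simp only [mem_compl_iff, mem_union, mem_setOf_eq, not_or, not_le, sub_zero] at hk
    obtain ⟨k1, k2, k3⟩ := hk
    have k4 := abs_le.1 (sym_abs k)
    have k5 : |sym k| < 2 * d - 2 * κ := by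
      rw [abs_of_nonpos (by linarith)] at k2
      rw [abs_of_nonneg (by linarith)] at k3
      rw [abs_lt]
      constructor <;> linarith
    refine pk_mass (sym k) κ t ht hκ (CK d κ) (CK_meas d κ) (CK_fin d κ) fun E hE => ?_
    have k6 : |sym k| ≤ |E| + κ := by
      calc |sym k| = |E + (sym k - E)| := by ring_nf
        _ ≤ |E| + |sym k - E| := abs_add_le _ _
        _ ≤ _ := by linarith
    have k7 : |E| ≤ |sym k| + κ := by
      calc |E| = |sym k - (sym k - E)| := by ring_nf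
        _ ≤ |sym k| + |sym k - E| := abs_sub _ _
        _ ≤ _ := by linarith
    exact ⟨by linarith, by linarith⟩
  have hii : Integrable (fun k => ∫ E in CK d κ, t / ((sym k - E) ^ 2 + t ^ 2)) (cube d) :=
    (pk_int κ t ht).integral_prod_right
  calc 2 * Real.arctan (κ / t) * (1 - 6 * 10 ^ d * Real.Gamma (1 / 2) * (2 * κ) ^ (1 / 2 : ℝ)) ≤
      2 * Real.arctan (κ / t) * (cube d).real Bᶜ := by
        refine mul_le_mul_of_nonneg_left ?_ ha
        rw [hBc]
        linarith
    _ = ∫ k in Bᶜ, 2 * Real.arctan (κ / t) ∂(cube d) := by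
        rw [setIntegral_const, smul_eq_mul]
        ring
    _ ≤ ∫ k in Bᶜ, (∫ E in CK d κ, t / ((sym k - E) ^ 2 + t ^ 2)) ∂(cube d) := by
        refine setIntegral_mono_on (integrable_const _).integrableOn hii.integrableOn hBm.compl h6
    _ ≤ _ := by
        refine setIntegral_le_integral hii (Eventually.of_forall fun k => ?_)
        simp only [Pi.zero_apply]
        exact integral_nonneg fun E => by positivity

/-- **the mass of the bulk** -/
theorem mass (d : ℕ) (hd : 2 ≤ d) (κ : ℝ) (hκ : 0 < κ) (hκ1 : κ ≤ 1) (γ : ℝ → ℂ)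
    (h : ∀ E, RegE d κ E → Tendsto (fun t : ℝ => GF (F0 d) ((E : ℂ) + (t : ℂ) * Complex.I))
      (𝓝[>] 0) (𝓝 (γ E))) :
    IntegrableOn (fun E => (γ E).im) (CK d κ) ∧
    Real.pi * (1 - 6 * 10 ^ d * Real.Gamma (1 / 2) * (2 * κ) ^ (1 / 2 : ℝ)) ≤
      ∫ E in CK d κ, (γ E).im := by
  haveI : IsFiniteMeasure (volume.restrict (CK d κ)) := ⟨by
    rw [Measure.restrict_apply_univ]
    exact CK_fin d κ⟩
  obtain ⟨C, hC, hC2⟩ := upt d hd κ hκ hκ1
  have hmem : Set.Ioc (0 : ℝ) 1 ∈ 𝓝[>] (0 : ℝ) := Ioc_mem_nhdsGT one_pos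
  have hmeas : ∀ t : ℝ, 0 < t → AEStronglyMeasurable
      (fun E : ℝ => (GF (F0 d) ((E : ℂ) + (t : ℂ) * Complex.I)).im)
      (volume.restrict (CK d κ)) := by
    intro t ht
    have h1 : (fun E : ℝ => (GF (F0 d) ((E : ℂ) + (t : ℂ) * Complex.I)).im) =
        fun E => ∫ k, t / ((sym k - E) ^ 2 + t ^ 2) ∂(cube d) := by
      funext E
      exact im_GF d E t ht
    rw [h1]
    exact (pk_int κ t ht).1.integral_prod_right'
  have hlim : ∀ᵐ E : ℝ ∂(volume.restrict (CK d κ)), Tendsto
      (fun t : ℝ => (GF (F0 d) ((E : ℂ) + (t : ℂ) * Complex.I)).im) (𝓝[>] 0) (𝓝 (γ E).im) := by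
    rw [ae_restrict_iff' (CK_meas d κ)]
    refine Eventually.of_forall fun E hE => ?_
    exact (Complex.continuous_im.tendsto _).comp (h E (CK_reg hd hκ hE).1)
  have hbd : ∀ᶠ t : ℝ in 𝓝[>] 0, ∀ᵐ E : ℝ ∂(volume.restrict (CK d κ)),
      ‖(GF (F0 d) ((E : ℂ) + (t : ℂ) * Complex.I)).im‖ ≤ C := by
    filter_upwards [hmem] with t ht
    rw [ae_restrict_iff' (CK_meas d κ)]
    refine Eventually.of_forall fun E hE => ?_
    rw [Real.norm_eq_abs]
    exact (Complex.abs_im_le_norm _).trans (hC2 E t (CK_reg hd hκ hE).1 ht.1 ht.2)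
  have hme : ∀ᶠ t : ℝ in 𝓝[>] 0, AEStronglyMeasurable
      (fun E : ℝ => (GF (F0 d) ((E : ℂ) + (t : ℂ) * Complex.I)).im)
      (volume.restrict (CK d κ)) := by
    filter_upwards [hmem] with t ht
    exact hmeas t ht.1
  have h2 := tendsto_integral_filter_of_dominated_convergence (fun _ => C) hme hbd
    (integrable_const _) hlim
  refine ⟨?_, ?_⟩
  · have hms : AEStronglyMeasurable (fun E => (γ E).im) (volume.restrict (CK d κ)) :=
      aestronglyMeasurable_of_tendsto_ae (𝓝[>] (0 : ℝ)) (f := fun (t : ℝ) (E : ℝ) =>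
        if 0 < t then (GF (F0 d) ((E : ℂ) + (t : ℂ) * Complex.I)).im else 0) (fun t => by
          by_cases ht : 0 < t
          · simp only [if_pos ht]
            exact hmeas t ht
          · simp only [if_neg ht]
            exact aestronglyMeasurable_const) (by
          filter_upwards [hlim] with E hE
          refine hE.congr' ?_
          filter_upwards [self_mem_nhdsWithin] with t ht
          have : 0 < t := ht
          rw [if_pos this])
    refine Integrable.of_bound hms C ?_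
    filter_upwards [hlim, (ae_restrict_iff' (CK_meas d κ)).2
      (Eventually.of_forall fun E hE => hE)] with E hE hE2
    refine le_of_tendsto hE.norm ?_
    filter_upwards [hmem] with t ht
    rw [Real.norm_eq_abs]
    exact (Complex.abs_im_le_norm _).trans (hC2 E t (CK_reg hd hκ hE2).1 ht.1 ht.2)
  · have h3 : Tendsto (fun t : ℝ => 2 * Real.arctan (κ / t) *
        (1 - 6 * 10 ^ d * Real.Gamma (1 / 2) * (2 * κ) ^ (1 / 2 : ℝ))) (𝓝[>] 0)
        (𝓝 (2 * (Real.pi / 2) *
          (1 - 6 * 10 ^ d * Real.Gamma (1 / 2) * (2 * κ) ^ (1 / 2 : ℝ)))) := by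
      refine Tendsto.mul_const _ (Tendsto.const_mul _ ?_)
      have h4 : Tendsto (fun t : ℝ => κ / t) (𝓝[>] 0) atTop := by
        simp only [div_eq_mul_inv]
        exact tendsto_inv_nhdsGT_zero.const_mul_atTop hκ
      exact (tendsto_nhds_of_tendsto_nhdsWithin Real.tendsto_arctan_atTop).comp h4
    have h5 : 2 * (Real.pi / 2) = Real.pi := by ring
    rw [h5] at h3
    refine le_of_tendsto_of_tendsto h3 h2 ?_
    filter_upwards [hmem] with t ht
    exact mass_t d (by omega) κ t hκ ht.1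

end Pool.Agent.R988
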