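import Pool.Agent.R988.TK
import Pool.Agent.R988.Far
import Pool.Agent.R988.TL

/-! Weighted sums of the position probabilities as integrals over the energies. -/

set_option autoImplicit false
set_option linter.unusedSectionVars false
set_option linter.unusedVariables false

open scoped BigOperators ComplexConjugate InnerProductSpace Topology ENNReal
open Set MeasureTheory Filter

namespace Pool.Agent.R988.Tor

open Pool.Agent.H4R2.LO (Zd)
open Pool.Agent.TH794.QD (Sol exp_int exp_val La La_sum La_eq)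
open Pool.Agent.TH794.QE (Rs)

variable {d : ℕ}

/-- Plancherel's identity with weights -/
theorem plw {V : Zd d → ℝ} {a : Zd d} {ψ : ℝ → Zd d → ℂ} (h : Sol d V a ψ) (η : ℝ)
    (hη : 0 < η) (W : Zd d → ℝ) (hW0 : ∀ x, 0 ≤ W x) (hW1 : ∀ x, W x ≤ 1) :
    Integrable (fun e => ∑' x : Zd d, W x * ‖La ψ e η x‖ ^ 2) ∧
    ∑' x : Zd d, W x * pb η ψ x =
      η / Real.pi * ∫ e, ∑' x : Zd d, W x * ‖La ψ e η x‖ ^ 2 := by
  obtain ⟨F, hF⟩ : ∃ F : Zd d → ℝ → ℝ, F = fun x e => W x * ‖La ψ e η x‖ ^ 2 := ⟨_, rfl⟩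
  have hF0 : ∀ x e, 0 ≤ F x e := fun x e => by
    rw [hF]
    exact mul_nonneg (hW0 x) (sq_nonneg _)
  have hLs : ∀ e, Summable fun x => ‖La ψ e η x‖ ^ 2 := fun e => by
    refine (La_sum h e η hη).congr fun x => ?_
    rw [norm_mul, Complex.norm_I, one_mul]
  have hFs : ∀ e, Summable fun x => F x e := fun e => by
    rw [hF]
    exact Summable.of_nonneg_of_le (fun x => mul_nonneg (hW0 x) (sq_nonneg _))
      (fun x => mul_le_of_le_one_left (sq_nonneg _) (hW1 x)) (hLs e)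
  have hFc : ∀ x, Continuous (F x) := fun x => by
    rw [hF]
    exact continuous_const.mul ((Pool.Agent.R988.La_contE h η hη x).norm.pow 2)
  obtain ⟨q, hq⟩ : ∃ q : ℝ → ℝ, q = fun e => ∑' x, F x e := ⟨_, rfl⟩
  have hq0 : ∀ e, 0 ≤ q e := fun e => by
    rw [hq]
    exact tsum_nonneg fun x => hF0 x e
  have hqA : ∀ e, ENNReal.ofReal (q e) = ∑' x, ENNReal.ofReal (F x e) := fun e => by
    rw [hq]
    exact ENNReal.ofReal_tsum_of_nonneg (fun x => hF0 x e) (hFs e)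
  have hAm : Measurable fun e => ∑' x, ENNReal.ofReal (F x e) :=
    Measurable.ennreal_tsum fun x => (hFc x).measurable.ennreal_ofReal
  have hqm : Measurable q := by
    have h1 : q = fun e => (∑' x, ENNReal.ofReal (F x e)).toReal := by
      funext e
      rw [← hqA, ENNReal.toReal_ofReal (hq0 e)]
    rw [h1]
    exact hAm.ennreal_toReal
  have hJe : ∀ x, ∫⁻ s in Ioi (0 : ℝ), ENNReal.ofReal (Real.exp (-(2 * η) * s) * ‖ψ s x‖ ^ 2) =
      ENNReal.ofReal (pb η ψ x / (2 * η)) := fun x => by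
    have h1 := (ofReal_integral_eq_lintegral_ofReal (pb_int h η hη x)
      (Eventually.of_forall fun s => by positivity)).symm
    rw [h1]
    congr 1
    unfold pb
    field_simp
  have hb0 : ∀ x, 0 ≤ Real.pi / η * (W x * pb η ψ x) := fun x => by
    have := hW0 x
    have := pb_nonneg η hη ψ x
    positivity
  have hsum : Summable fun x => Real.pi / η * (W x * pb η ψ x) := by
    refine Summable.mul_left _ (pb_sum h η hη W fun z => ?_).2.summable
    rw [abs_of_nonneg (hW0 z)]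
    exact hW1 z
  have h2 : ∫⁻ e, ENNReal.ofReal (q e) = ENNReal.ofReal (∑' x, Real.pi / η * (W x * pb η ψ x)) := by
    rw [ENNReal.ofReal_tsum_of_nonneg hb0 hsum]
    simp only [hqA]
    rw [lintegral_tsum fun x => (hFc x).measurable.ennreal_ofReal.aemeasurable]
    refine tsum_congr fun x => ?_
    have h3 : ∀ e, ENNReal.ofReal (F x e) = ENNReal.ofReal (W x) * ‖La ψ e η x‖ₑ ^ 2 := by
      intro e
      rw [hF]
      simp only
      rw [ENNReal.ofReal_mul (hW0 x), ENNReal.ofReal_pow (norm_nonneg _), ofReal_norm]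
    simp only [h3]
    rw [lintegral_const_mul _ ((Pool.Agent.R988.La_contE h η hη x).measurable.enorm.pow_const 2),
      Pool.Agent.R988.planchLa h η hη x, hJe, ← ENNReal.ofReal_mul (by positivity),
      ← ENNReal.ofReal_mul (hW0 x)]
    congr 1
    field_simp
  have hqi : Integrable q := by
    refine ⟨hqm.aestronglyMeasurable, ?_⟩
    rw [hasFiniteIntegral_iff_ofReal (Eventually.of_forall hq0), h2]
    exact ENNReal.ofReal_lt_top
  have hqe : (fun e => ∑' x : Zd d, W x * ‖La ψ e η x‖ ^ 2) = q := by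
    rw [hq, hF]
  rw [hqe]
  refine ⟨hqi, ?_⟩
  have h4 : ∑' x, Real.pi / η * (W x * pb η ψ x) = ∫ e, q e := by
    rw [← ofReal_integral_eq_lintegral_ofReal hqi (Eventually.of_forall hq0)] at h2
    exact ((ENNReal.ofReal_eq_ofReal_iff (integral_nonneg hq0) (tsum_nonneg hb0)).1 h2).symm
  rw [tsum_mul_left] at h4
  rw [← h4]
  have := Real.pi_ne_zero
  field_simp

/-- the total mass is one -/
theorem pb_one {V : Zd d → ℝ} {a : Zd d} {ψ : ℝ → Zd d → ℂ} (h : Sol d V a ψ) (η : ℝ)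
    (hη : 0 < η) : HasSum (fun x : Zd d => pb η ψ x) 1 := by
  have h1 := (pb_sum h η hη (fun _ => 1) fun _ => by simp).2
  simp only [one_mul] at h1
  have h2 : ∀ t, ∑' z, ‖ψ t z‖ ^ 2 = 1 := fun t => (h.norm t).tsum_eq
  simp only [h2, mul_one] at h1
  rw [exp_val (2 * η) (by positivity), mul_inv_cancel₀ (by positivity)] at h1
  exact h1

/-- energies in `A` are controlled pointwise, the others by their total mass -/
theorem split {V : Zd d → ℝ} {a : Zd d} {ψ : ℝ → Zd d → ℂ} (h : Sol d V a ψ) (η : ℝ)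
    (hη : 0 < η) (W : Zd d → ℝ) (hW0 : ∀ x, 0 ≤ W x) (hW1 : ∀ x, W x ≤ 1) (A : Set ℝ)
    (hA : MeasurableSet A) (B : ℝ) (hB : volume A < ⊤) (hB2 : volume.real A ≤ B) (g : ℝ → ℝ)
    (hg : IntegrableOn g A) (ε δ M : ℝ) (hδ : 0 ≤ δ) (hM : 0 ≤ M)
    (hgA : Real.pi * (1 - ε) ≤ ∫ e in A, g e)
    (h1 : ∀ e ∈ A, g e - δ ≤ η * ∑' x : Zd d, ‖La ψ e η x‖ ^ 2)
    (h2 : ∀ e ∈ A, η * ∑' x : Zd d, W x * ‖La ψ e η x‖ ^ 2 ≤ M) :
    ∑' x : Zd d, W x * pb η ψ x ≤ ε + B * (M + δ) / Real.pi := by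
  have hpi := Real.pi_pos
  obtain ⟨i1, e1⟩ := plw h η hη (fun _ => 1) (fun _ => zero_le_one) fun _ => le_rfl
  obtain ⟨i2, e2⟩ := plw h η hη W hW0 hW1
  simp only [one_mul] at i1 e1
  rw [(pb_one h η hη).tsum_eq] at e1
  have hLs : ∀ e, Summable fun x => ‖La ψ e η x‖ ^ 2 := fun e => by
    refine (La_sum h e η hη).congr fun x => ?_
    rw [norm_mul, Complex.norm_I, one_mul]
  haveI : IsFiniteMeasure (volume.restrict A) := ⟨by
    rw [Measure.restrict_apply_univ]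
    exact hB⟩
  have s1 : Real.pi = (∫ e in A, η * ∑' x : Zd d, ‖La ψ e η x‖ ^ 2) +
      ∫ e in Aᶜ, η * ∑' x : Zd d, ‖La ψ e η x‖ ^ 2 := by
    rw [integral_add_compl hA (i1.const_mul η), integral_const_mul]
    field_simp at e1
    linarith
  have s2 : Real.pi * ∑' x : Zd d, W x * pb η ψ x =
      (∫ e in A, η * ∑' x : Zd d, W x * ‖La ψ e η x‖ ^ 2) +
      ∫ e in Aᶜ, η * ∑' x : Zd d, W x * ‖La ψ e η x‖ ^ 2 := by
    rw [integral_add_compl hA (i2.const_mul η), integral_const_mul, e2]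
    field_simp
  have s3 : ∫ e in Aᶜ, η * ∑' x : Zd d, W x * ‖La ψ e η x‖ ^ 2 ≤
      ∫ e in Aᶜ, η * ∑' x : Zd d, ‖La ψ e η x‖ ^ 2 := by
    refine integral_mono (i2.const_mul η).integrableOn (i1.const_mul η).integrableOn fun e => ?_
    refine mul_le_mul_of_nonneg_left ?_ hη.le
    refine Summable.tsum_le_tsum (fun x => mul_le_of_le_one_left (sq_nonneg _) (hW1 x)) ?_ (hLs e)
    exact Summable.of_nonneg_of_le (fun x => mul_nonneg (hW0 x) (sq_nonneg _))
      (fun x => mul_le_of_le_one_left (sq_nonneg _) (hW1 x)) (hLs e)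
  have s4 : ∫ e in A, η * ∑' x : Zd d, W x * ‖La ψ e η x‖ ^ 2 ≤ B * M := by
    refine (setIntegral_mono_on (i2.const_mul η).integrableOn
      (show IntegrableOn (fun _ : ℝ => M) A from integrable_const M) hA h2).trans ?_
    rw [setIntegral_const, smul_eq_mul]
    gcongr
  have s5 : (∫ e in A, g e) - B * δ ≤ ∫ e in A, η * ∑' x : Zd d, ‖La ψ e η x‖ ^ 2 := by
    have h3 : ∫ e in A, (g e - δ) ≤ ∫ e in A, η * ∑' x : Zd d, ‖La ψ e η x‖ ^ 2 :=
      setIntegral_mono_on (hg.sub (integrable_const δ)) (i1.const_mul η).integrableOn hA h1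
    rw [integral_sub hg (integrable_const δ), setIntegral_const, smul_eq_mul] at h3
    have h4 : volume.real A * δ ≤ B * δ := mul_le_mul_of_nonneg_right hB2 hδ
    linarith
  have s6 : Real.pi * ∑' x : Zd d, W x * pb η ψ x ≤ Real.pi * (ε + B * (M + δ) / Real.pi) := by
    have e3 : Real.pi * (ε + B * (M + δ) / Real.pi) = Real.pi * ε + B * (M + δ) := by
      field_simp
    rw [e3, s2]
    nlinarith
  exact le_of_mul_le_mul_left s6 hpi

/-! ### the Fejer weight -/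

/-- the Fejer weight -/
noncomputable def fw (i : Fin d) (m Λ : ℕ) (z : Zd d) : ℝ :=
  (1 / ((m : ℝ) + 1)) ^ 2 * ∑ t : Fin (m + 1), ∑ s : Fin (m + 1), wt i ((t : ℤ) - (s : ℤ)) Λ 0 z

theorem fw_nonneg (i : Fin d) (m Λ : ℕ) (z : Zd d) : 0 ≤ fw i m Λ z := by
  unfold fw
  refine mul_nonneg (sq_nonneg _) ?_
  have h1 : ∑ t : Fin (m + 1), ∑ s : Fin (m + 1), wt i ((t : ℤ) - (s : ℤ)) Λ 0 z =
      (∑ t : Fin (m + 1), Real.cos (2 * Real.pi * t * (z i) / Λ)) ^ 2 +
      (∑ t : Fin (m + 1), Real.sin (2 * Real.pi * t * (z i) / Λ)) ^ 2 := by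
    rw [sq, sq, Finset.sum_mul_sum, Finset.sum_mul_sum, ← Finset.sum_add_distrib]
    refine Finset.sum_congr rfl fun t _ => ?_
    rw [← Finset.sum_add_distrib]
    refine Finset.sum_congr rfl fun s _ => ?_
    rw [← Real.cos_sub]
    unfold wt
    congr 1
    push_cast
    simp
    ring
  rw [h1]
  positivity

theorem fw_le (i : Fin d) (m Λ : ℕ) (z : Zd d) : fw i m Λ z ≤ 1 := by
  unfold fw
  calc (1 / ((m : ℝ) + 1)) ^ 2 * ∑ t : Fin (m + 1), ∑ s : Fin (m + 1),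
        wt i ((t : ℤ) - (s : ℤ)) Λ 0 z ≤
      (1 / ((m : ℝ) + 1)) ^ 2 * ∑ t : Fin (m + 1), ∑ s : Fin (m + 1), 1 := by
        gcongr with t _ s _
        exact Real.cos_le_one _
    _ = 1 := by
        simp only [Finset.sum_const, Finset.card_univ, Fintype.card_fin, nsmul_eq_mul, mul_one]
        push_cast
        field_simp

theorem fw_half (i : Fin d) (m Λ : ℕ) (hΛ : 0 < Λ) (z : Zd d)
    (hz : |(z i : ℝ)| * (24 * (m + 1)) ≤ Λ) : 1 / 2 ≤ fw i m Λ z := by
  have hΛ' : (0 : ℝ) < Λ := by exact_mod_cast hΛ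
  have hpi := Real.pi_pos
  have hpi2 := Real.pi_lt_d2
  unfold fw
  have h1 : ∀ t s : Fin (m + 1), 1 / 2 ≤ wt i ((t : ℤ) - (s : ℤ)) Λ 0 z := by
    intro t s
    unfold wt
    refine le_trans ?_ (Real.one_sub_sq_div_two_le_cos)
    have hts : |(((t : ℤ) - (s : ℤ) : ℤ) : ℝ)| ≤ m + 1 := by
      have ht := t.2
      have hs := s.2
      have : |(t : ℤ) - (s : ℤ)| ≤ m + 1 := by
        rw [abs_le]
        constructor <;> omega
      exact_mod_cast this
    have h2 : |2 * Real.pi * (((t : ℤ) - (s : ℤ) : ℤ) : ℝ) * ((z i - (0 : Zd d) i : ℤ) : ℝ) / Λ| ≤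
        1 := by
      rw [abs_div, abs_mul, abs_mul, abs_of_pos (by positivity : 0 < 2 * Real.pi),
        abs_of_pos hΛ', div_le_one hΛ']
      simp only [Pi.zero_apply, sub_zero]
      calc 2 * Real.pi * |(((t : ℤ) - (s : ℤ) : ℤ) : ℝ)| * |(z i : ℝ)| ≤
          24 * (m + 1) * |(z i : ℝ)| := by
            gcongr
            linarith
        _ ≤ Λ := by linarith
    have h3 := pow_le_pow_left₀ (abs_nonneg _) h2 2
    rw [sq_abs, one_pow] at h3
    linarith
  calc (1 : ℝ) / 2 = (1 / ((m : ℝ) + 1)) ^ 2 * ∑ t : Fin (m + 1), ∑ s : Fin (m + 1), (1 / 2) := by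
        simp only [Finset.sum_const, Finset.card_univ, Fintype.card_fin, nsmul_eq_mul]
        push_cast
        field_simp
    _ ≤ _ := by
        gcongr with t _ s _
        exact h1 t s

/-- sums against the Fejer weight -/
theorem fw_sum (i : Fin d) (m Λ : ℕ) (u : Zd d → ℝ)
    (hu : ∀ k : ℤ, Summable fun z => wt i k Λ 0 z * u z) :
    ∑' z, fw i m Λ z * u z = (1 / ((m : ℝ) + 1)) ^ 2 * ∑ t : Fin (m + 1), ∑ s : Fin (m + 1),
      ∑' z, wt i ((t : ℤ) - (s : ℤ)) Λ 0 z * u z := by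
  have h1 : ∀ z, fw i m Λ z * u z = (1 / ((m : ℝ) + 1)) ^ 2 * ∑ t : Fin (m + 1),
      ∑ s : Fin (m + 1), wt i ((t : ℤ) - (s : ℤ)) Λ 0 z * u z := by
    intro z
    unfold fw
    rw [mul_assoc, Finset.sum_mul]
    congr 1
    refine Finset.sum_congr rfl fun t _ => ?_
    rw [Finset.sum_mul]
  rw [tsum_congr h1, tsum_mul_left, Summable.tsum_finsetSum fun t _ => ?_]
  · congr 1
    refine Finset.sum_congr rfl fun t _ => ?_
    rw [Summable.tsum_finsetSum fun s _ => hu _]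
  · exact summable_sum fun s _ => hu _

section main

variable {d : ℕ} (μ : Measure ℝ) [IsProbabilityMeasure μ] (f : ℝ → ℝ) (hf : Measurable f)
  (Ψ : (Zd d → ℝ) → Zd d → ℝ → Zd d → ℂ) (hΨ : ∀ ω c, Sol d (fun x => f (ω x)) c (Ψ ω c))

include hf hΨ

/-- **the averaged Fejer mass is monotone in time** -/
theorem fw_mono (i : Fin d) (m Λ : ℕ) (hΛ : 0 < Λ) (η η' : ℝ) (hη : 0 < η) (hηη : η ≤ η') :
    ∫ ω, ∑' z, fw i m Λ z * pb η (Ψ ω 0) z ∂(Measure.infinitePi fun _ : Zd d => μ) ≤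
      ∫ ω, ∑' z, fw i m Λ z * pb η' (Ψ ω 0) z ∂(Measure.infinitePi fun _ : Zd d => μ) := by
  have h1 : ∀ η : ℝ, 0 < η → ∫ ω, ∑' z, fw i m Λ z * pb η (Ψ ω 0) z
      ∂(Measure.infinitePi fun _ : Zd d => μ) = (1 / ((m : ℝ) + 1)) ^ 2 *
        ∑ t : Fin (m + 1), ∑ s : Fin (m + 1), ∫ ω, ∑' z, wt i ((t : ℤ) - (s : ℤ)) Λ 0 z *
          pb η (Ψ ω 0) z ∂(Measure.infinitePi fun _ : Zd d => μ) := by
    intro η hη
    have hi : ∀ k : ℤ, Integrable (fun ω => ∑' z, wt i k Λ 0 z * pb η (Ψ ω 0) z)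
        (Measure.infinitePi fun _ : Zd d => μ) := fun k =>
      Integrable.of_bound (C := 1) (S_meas f hf Ψ hΨ η hη (wt i k Λ 0)
        (wt_abs i k Λ 0) 0).aestronglyMeasurable (Eventually.of_forall fun ω => by
          rw [Real.norm_eq_abs]
          exact pb_abs (hΨ _ _) η hη _ (wt_abs i k Λ _))
    have h2 : ∀ ω : Zd d → ℝ, ∑' z, fw i m Λ z * pb η (Ψ ω 0) z = (1 / ((m : ℝ) + 1)) ^ 2 *
        ∑ t : Fin (m + 1), ∑ s : Fin (m + 1), ∑' z, wt i ((t : ℤ) - (s : ℤ)) Λ 0 z *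
          pb η (Ψ ω 0) z := fun ω => fw_sum i m Λ _ fun k =>
        (pb_sum (hΨ ω 0) η hη _ (wt_abs i k Λ 0)).2.summable
    simp only [h2]
    rw [integral_const_mul, integral_finsetSum _ fun t _ => integrable_finsetSum _ fun s _ => hi _]
    congr 1
    refine Finset.sum_congr rfl fun t _ => ?_
    rw [integral_finsetSum _ fun s _ => hi _]
  rw [h1 η hη, h1 η' (hη.trans_le hηη)]
  refine mul_le_mul_of_nonneg_left (Finset.sum_le_sum fun t _ => Finset.sum_le_sum fun s _ => ?_)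
    (sq_nonneg _)
  exact (phi_mono μ f hf Ψ hΨ i _ Λ hΛ η η' hη hηη).1

end main

end Pool.Agent.R988.Tor
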