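import Pool.Agent.R988.TM
import Pool.Agent.R988.Loc2

/-! Spreading at all times. -/

set_option autoImplicit false
set_option linter.unusedSectionVars false
set_option linter.unusedVariables false

open scoped BigOperators ComplexConjugate InnerProductSpace Topology ENNReal
open Set MeasureTheory Filter

namespace Pool.Agent.R988.Tor

open Pool.Agent.H4R2.LO (Zd)
open Pool.Agent.TH794.QD (Sol exp_int exp_val La La_sum La_eq)
open Pool.Agent.TH794.QE (Rs RegE)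
open Pool.Agent.TH794.HK (ph Tg ph_norm)

variable {d : ℕ}

/-- the momenta -/
noncomputable def pk (i : Fin d) (k : ℤ) (Λ : ℕ) : Fin d → ℝ :=
  Pi.single i (2 * Real.pi * k / Λ)

theorem pk_sq (i : Fin d) (k : ℤ) (Λ : ℕ) : ∑ j, pk i k Λ j ^ 2 = (2 * Real.pi * k / Λ) ^ 2 := by
  unfold pk
  rw [Finset.sum_eq_single i]
  · rw [Pi.single_eq_same]
  · intro j _ hj
    rw [Pi.single_eq_of_ne hj]
    simp
  · intro h
    exact absurd (Finset.mem_univ i) h

theorem ph_re (i : Fin d) (k : ℤ) (Λ : ℕ) (x : Zd d) :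
    (ph (pk i k Λ) (x - 0)).re = wt i k Λ 0 x := by
  unfold ph wt pk
  have h1 : ∑ j, (Pi.single i (2 * Real.pi * k / Λ) : Fin d → ℝ) j * (((x - 0) j : ℤ) : ℝ) =
      2 * Real.pi * k * ((x i - (0 : Zd d) i : ℤ) : ℝ) / Λ := by
    rw [Finset.sum_eq_single i]
    · rw [Pi.single_eq_same]
      simp
      ring
    · intro j _ hj
      rw [Pi.single_eq_of_ne hj]
      simp
    · intro h
      exact absurd (Finset.mem_univ i) h
  rw [h1, mul_comm, Complex.exp_ofReal_mul_I_re]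

/-- one energy in the bulk -/
theorem enl {V : Zd d → ℝ} {ψ : ℝ → Zd d → ℂ} (h : Sol d V 0 ψ) (η e : ℝ) (hη : 0 < η)
    (γ0 γ1 : ℝ → ℂ) (s2 E δ K C0 m1 X0 : ℝ) (hs : 0 < s2) (hK : 0 ≤ K)
    (g1 : (γ0 E).im ≤ C0) (g2 : m1 ≤ (γ1 E).im) (g3 : (γ1 E).im ≤ (γ0 E).im) (hm1 : 0 < m1)
    (hδ : 0 ≤ δ) (i : Fin d) (m Λ : ℕ) (hΛ : 0 < Λ) (hX : 0 < X0)
    (hΛ1 : X0 * (η * s2) ≤ (2 * Real.pi / Λ) ^ 2)
    (hΛ2 : (2 * Real.pi * m / Λ) ^ 2 ≤ K * (η * s2))
    (hp : ∀ p : Fin d → ℝ, ∑ i, p i ^ 2 ≤ K * (η * s2) →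
      ‖((η : ℝ) : ℂ) * ∑' x, ph p (x - 0) * ((‖Complex.I * La ψ e η x‖ ^ 2 : ℝ) : ℂ) -
        ((Tg γ0 γ1 η s2 E p : ℝ) : ℂ)‖ ≤ δ) :
    (γ0 E).im - δ ≤ η * ∑' x : Zd d, ‖La ψ e η x‖ ^ 2 ∧
    η * ∑' x : Zd d, fw i m Λ x * ‖La ψ e η x‖ ^ 2 ≤
      (C0 + δ) * (3 / (m + 1)) + (C0 ^ 3 / (X0 * m1) + δ) := by
  have hC0 : 0 ≤ C0 := by linarith
  have hLs : Summable fun x => ‖La ψ e η x‖ ^ 2 := by
    refine (La_sum h e η hη).congr fun x => ?_
    rw [norm_mul, Complex.norm_I, one_mul]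
  have hws : ∀ k : ℤ, Summable fun x => wt i k Λ 0 x * ‖La ψ e η x‖ ^ 2 := fun k =>
    Summable.of_norm_bounded hLs fun x => by
      rw [norm_mul, Real.norm_eq_abs, Real.norm_of_nonneg (sq_nonneg _)]
      exact mul_le_of_le_one_left (sq_nonneg _) (wt_abs i k Λ 0 x)
  have key : ∀ k : ℤ, (2 * Real.pi * k / Λ) ^ 2 ≤ K * (η * s2) →
      |η * ∑' x, wt i k Λ 0 x * ‖La ψ e η x‖ ^ 2 - Tg γ0 γ1 η s2 E (pk i k Λ)| ≤ δ := by
    intro k hk
    have h1 := hp (pk i k Λ) (by rw [pk_sq]; exact hk)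
    have h2 := (Complex.abs_re_le_norm _).trans h1
    rw [Complex.sub_re, Complex.ofReal_re, Complex.re_ofReal_mul] at h2
    have hcs : Summable fun x : Zd d => ph (pk i k Λ) (x - 0) *
        ((‖Complex.I * La ψ e η x‖ ^ 2 : ℝ) : ℂ) := by
      refine Summable.of_norm_bounded hLs fun x => ?_
      rw [norm_mul, ph_norm, one_mul, Complex.norm_real, Real.norm_of_nonneg (sq_nonneg _),
        norm_mul, Complex.norm_I, one_mul]
    rw [Complex.re_tsum hcs] at h2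
    have h3 : ∀ x : Zd d, (ph (pk i k Λ) (x - 0) *
        ((‖Complex.I * La ψ e η x‖ ^ 2 : ℝ) : ℂ)).re = wt i k Λ 0 x * ‖La ψ e η x‖ ^ 2 := by
      intro x
      rw [Complex.re_mul_ofReal, ph_re, norm_mul, Complex.norm_I, one_mul]
    rw [tsum_congr h3] at h2
    exact h2
  have hKw : 0 ≤ K * (η * s2) := by positivity
  constructor
  · have h1 := key 0 (by simpa using hKw)
    have h2 : ∀ x : Zd d, wt i 0 Λ 0 x * ‖La ψ e η x‖ ^ 2 = ‖La ψ e η x‖ ^ 2 := by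
      intro x
      unfold wt
      simp
    rw [tsum_congr h2] at h1
    have h3 : pk i 0 Λ = (0 : Fin d → ℝ) := by
      unfold pk
      simp
    rw [h3, Tg_zero] at h1
    linarith [(abs_le.1 h1).1]
  · rw [fw_sum i m Λ _ hws, ← mul_assoc, mul_comm η, mul_assoc, Finset.mul_sum]
    have hΛ' : (0 : ℝ) < Λ := by exact_mod_cast hΛ
    have hmono : ∀ k : ℤ, |k| ≤ m → (2 * Real.pi * k / Λ) ^ 2 ≤ K * (η * s2) := by
      intro k hk
      refine le_trans ?_ hΛ2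
      have hk' : |(k : ℝ)| ≤ m := by exact_mod_cast hk
      have h2 : (k : ℝ) ^ 2 ≤ (m : ℝ) ^ 2 := by
        rw [← sq_abs]
        exact pow_le_pow_left₀ (abs_nonneg _) hk' 2
      have e1 : ∀ y : ℝ, (2 * Real.pi * y / Λ) ^ 2 = (2 * Real.pi / Λ) ^ 2 * y ^ 2 := by
        intro y
        ring
      rw [e1, e1]
      gcongr
    have h4 := avg_le m (fun k : ℤ => η * ∑' x, wt i k Λ 0 x * ‖La ψ e η x‖ ^ 2) (C0 + δ) 1
      (C0 ^ 3 / (X0 * m1) + δ) zero_le_one (by linarith) (by positivity)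
      (fun k hk => by
        have h5 := (abs_le.1 (key k (hmono k hk))).2
        have h6 := Tg_le (d := d) γ0 γ1 η s2 E C0 (pk i k Λ) hη hs g1 (hm1.trans_le g2) g3
        beta_reduce
        linarith)
      (fun k hk hk1 => by
        have h5 := (abs_le.1 (key k (hmono k hk))).2
        have h6 : X0 ≤ (∑ j, pk i k Λ j ^ 2) / (η * s2) := by
          rw [pk_sq, le_div_iff₀ (by positivity)]
          refine hΛ1.trans ?_
          have h7 : (1 : ℝ) ≤ (k : ℝ) ^ 2 := by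
            rw [← sq_abs]
            exact one_le_pow₀ hk1
          have e1 : (2 * Real.pi * (k : ℝ) / Λ) ^ 2 = (2 * Real.pi / Λ) ^ 2 * (k : ℝ) ^ 2 := by
            ring
          rw [e1]
          exact le_mul_of_one_le_right (sq_nonneg _) h7
        have h8 := Tg_small (d := d) γ0 γ1 η s2 E C0 m1 X0 (pk i k Λ) hm1 g1 g2 g3 hX h6
        beta_reduce
        linarith)
    have e2 : (2 * (1 : ℝ) + 1) = 3 := by norm_num
    rw [e2] at h4
    refine le_trans (le_of_eq ?_) h4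
    congr 1
    refine Finset.sum_congr rfl fun t _ => ?_
    rw [Finset.mul_sum]

theorem var_le (μ : Measure ℝ) [IsProbabilityMeasure μ] (b M V : ℝ) (hμb : ∀ᵐ s ∂μ, |s| ≤ b)
    (hM : ∫ s, s ∂μ = M) (hV : ∫ s, (s - M) ^ 2 ∂μ = V) : V ≤ 4 * b ^ 2 ∧ |M| ≤ b := by
  have hMb : |M| ≤ b := by
    rw [← hM, ← Real.norm_eq_abs]
    refine (norm_integral_le_of_norm_le_const (C := b) ?_).trans (le_of_eq ?_)
    · filter_upwards [hμb] with s hs
      exact hs
    · rw [probReal_univ, mul_one]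
  refine ⟨?_, hMb⟩
  rw [← hV]
  have h5 : ∀ᵐ s ∂μ, ‖(s - M) ^ 2‖ ≤ 4 * b ^ 2 := by
    filter_upwards [hμb] with s hs
    rw [Real.norm_eq_abs, abs_of_nonneg (sq_nonneg _)]
    have h6 : |s - M| ≤ 2 * b := (abs_sub _ _).trans (by linarith)
    rw [← sq_abs]
    calc |s - M| ^ 2 ≤ (2 * b) ^ 2 := by gcongr
      _ = _ := by ring
  have h7 := norm_integral_le_of_norm_le_const h5
  rw [probReal_univ, mul_one, Real.norm_eq_abs] at h7
  exact (le_abs_self _).trans h7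

/-- the shifted bulk -/
theorem bulk_shift (κ s0 : ℝ) (γ : ℝ → ℂ)
    (hi : IntegrableOn (fun E => (γ E).im) (Pool.Agent.R988.CK d κ)) :
    MeasurableSet {e : ℝ | s0 - e ∈ Pool.Agent.R988.CK d κ} ∧
    volume {e : ℝ | s0 - e ∈ Pool.Agent.R988.CK d κ} < ⊤ ∧
    (0 ≤ κ → volume.real {e : ℝ | s0 - e ∈ Pool.Agent.R988.CK d κ} ≤ 4 * d) ∧
    IntegrableOn (fun e => (γ (s0 - e)).im) {e : ℝ | s0 - e ∈ Pool.Agent.R988.CK d κ} ∧
    ∫ e in {e : ℝ | s0 - e ∈ Pool.Agent.R988.CK d κ}, (γ (s0 - e)).im =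
      ∫ E in Pool.Agent.R988.CK d κ, (γ E).im := by
  have hmp : MeasurePreserving (fun e : ℝ => s0 - e) :=
    Measure.measurePreserving_sub_left volume s0
  have hme : MeasurableEmbedding (fun e : ℝ => s0 - e) :=
    (MeasurableEquiv.subLeft s0).measurableEmbedding
  have hCm := Pool.Agent.R988.CK_meas d κ
  have hset : {e : ℝ | s0 - e ∈ Pool.Agent.R988.CK d κ} =
      (fun e : ℝ => s0 - e) ⁻¹' Pool.Agent.R988.CK d κ := rfl
  rw [hset]
  have hvol := hmp.measure_preimage hCm.nullMeasurableSet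
  refine ⟨hmp.measurable hCm, ?_, ?_, ?_, ?_⟩
  · rw [hvol]
    exact Pool.Agent.R988.CK_fin d κ
  · intro hκ
    rw [Measure.real, hvol]
    have h1 : volume (Pool.Agent.R988.CK d κ) ≤ ENNReal.ofReal (4 * d) := by
      refine (measure_mono (t := Icc (-(2 * (d : ℝ))) (2 * (d : ℝ))) ?_).trans ?_
      · intro E hE
        have h2 : |E| ≤ 2 * d := by linarith [hE.2]
        exact abs_le.1 h2
      · rw [Real.volume_Icc]
        refine ENNReal.ofReal_le_ofReal ?_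
        linarith
    exact ENNReal.toReal_le_of_le_ofReal (by positivity) h1
  · exact (hmp.integrableOn_comp_preimage hme).2 hi
  · exact hmp.setIntegral_preimage_emb hme (fun E => (γ E).im) _

end Pool.Agent.R988.Tor
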