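import Pool.Agent.R988.TP

/-! Spreading at all times: almost sure solutions. -/

set_option autoImplicit false
set_option linter.unusedSectionVars false
set_option linter.unusedVariables false

open scoped BigOperators ComplexConjugate InnerProductSpace Topology ENNReal
open Set MeasureTheory Filter

namespace Pool.Agent.R988.Tor

open Pool.Agent.H4R2.LO (Zd)
open Pool.Agent.TH794.QD (Sol exists_sol)

variable {d : ℕ}

theorem ae_box (μ : Measure ℝ) [IsProbabilityMeasure μ] (b : ℝ) (h : ∀ᵐ s ∂μ, |s| ≤ b) :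
    ∀ᵐ ω ∂(Measure.infinitePi fun _ : Zd d => μ), ∀ x, |ω x| ≤ b := by
  rw [ae_all_iff]
  intro x
  have h5 : (Measure.infinitePi fun _ : Zd d => μ).map (fun ω => ω x) = μ :=
    Measure.infinitePi_map_eval (fun _ : Zd d => μ) x
  have h6 : ∀ᵐ s ∂((Measure.infinitePi fun _ : Zd d => μ).map (fun ω : Zd d → ℝ => ω x)),
      |s| ≤ b := by
    rw [h5]
    exact h
  exact ae_of_ae_map (measurable_pi_apply x).aemeasurable h6

/-- clipping to `[-b, b]` -/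
noncomputable def cb (b s : ℝ) : ℝ := max (-b) (min b s)

theorem cb_meas (b : ℝ) : Measurable (cb b) := by
  unfold cb
  fun_prop

theorem cb_abs (b s : ℝ) (hb : 0 ≤ b) : |cb b s| ≤ b := by
  unfold cb
  rw [abs_le]
  refine ⟨le_max_left _ _, max_le (by linarith) (min_le_left _ _)⟩

theorem cb_eq (b s : ℝ) (hs : |s| ≤ b) : cb b s = s := by
  unfold cb
  rw [abs_le] at hs
  rw [min_eq_right hs.2, max_eq_right hs.1]

/-- a measurable modification with solutions for every configuration -/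
theorem modif (b c : ℝ) (hb : 0 ≤ b) (hc : 0 ≤ c) :
    ∃ Ψ : (Zd d → ℝ) → Zd d → ℝ → Zd d → ℂ,
      ∀ ω a, Sol d (fun x => 2 * (d : ℝ) + c * cb b (ω x)) a (Ψ ω a) := by
  have h : ∀ (ω : Zd d → ℝ) (a : Zd d), ∃ ψ : ℝ → Zd d → ℂ,
      Sol d (fun x => 2 * (d : ℝ) + c * cb b (ω x)) a ψ := by
    intro ω a
    refine exists_sol _ (2 * d + c * b) (fun x => ?_) a
    refine (abs_add_le _ _).trans ?_
    rw [abs_of_nonneg (by positivity : (0 : ℝ) ≤ 2 * d), abs_mul, abs_of_nonneg hc]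
    have := mul_le_mul_of_nonneg_left (cb_abs b (ω x) hb) hc
    linarith
  choose Ψ hΨ using h
  exact ⟨Ψ, hΨ⟩

theorem S1w (d : ℕ) (hd : 2 ≤ d) (b v ε : ℝ) (hb : 0 < b) (hv : 0 < v) (hε : 0 < ε) :
    ∃ c0 : ℝ, 0 < c0 ∧ c0 ≤ 1 ∧ ∀ c : ℝ, 0 < c → c ≤ c0 →
    ∀ (μ : Measure ℝ) (_ : IsProbabilityMeasure μ), (∀ᵐ s ∂μ, |s| ≤ b) →
    ∀ Mn V : ℝ, ∫ s, s ∂μ = Mn → ∫ s, (s - Mn) ^ 2 ∂μ = V → v ≤ V →
    (∀ᵐ ω ∂(Measure.infinitePi fun _ : Zd d => μ), ∃ ψ,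
      Sol d (fun x => 2 * (d : ℝ) + c * ω x) 0 ψ) ∧
    ∀ ψ : (Zd d → ℝ) → ℝ → Zd d → ℂ, (∀ᵐ ω ∂(Measure.infinitePi fun _ : Zd d => μ),
      Sol d (fun x => 2 * (d : ℝ) + c * ω x) 0 (ψ ω)) →
    ∀ (i : Fin d) (η : ℝ), 0 < η → η ≤ c ^ (83 / 41 : ℝ) →
      AEMeasurable (fun ω => ∑' z : Zd d,
        (if |(z i : ℝ)| ≤ c ^ (-(167 / 83) : ℝ) then (1 : ℝ) else 0) * pb η (ψ ω) z)
        (Measure.infinitePi fun _ : Zd d => μ) ∧
      ∫ ω, ∑' z : Zd d, (if |(z i : ℝ)| ≤ c ^ (-(167 / 83) : ℝ) then (1 : ℝ) else 0) *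
        pb η (ψ ω) z ∂(Measure.infinitePi fun _ : Zd d => μ) ≤ ε := by
  obtain ⟨c0, hc0, hc01, h⟩ := S1 d hd b v ε hb hv hε
  refine ⟨c0, hc0, hc01, fun c hc hcc μ hμ hμb Mn V hM hV hvV => ?_⟩
  obtain ⟨Ψ, hΨ⟩ := modif (d := d) b c hb.le hc.le
  have hbox := ae_box (d := d) μ b hμb
  have hpot : ∀ ω : Zd d → ℝ, (∀ x, |ω x| ≤ b) →
      (fun x => 2 * (d : ℝ) + c * cb b (ω x)) = fun x => 2 * (d : ℝ) + c * ω x := by
    intro ω hω
    funext x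
    rw [cb_eq b _ (hω x)]
  refine ⟨?_, fun ψ hψ i η hη hηη => ?_⟩
  · filter_upwards [hbox] with ω hω
    have h1 := hΨ ω 0
    rw [hpot ω hω] at h1
    exact ⟨_, h1⟩
  · have hf : Measurable fun s : ℝ => 2 * (d : ℝ) + c * cb b s :=
      measurable_const.add (measurable_const.mul (cb_meas b))
    have h2 := h c hc hcc μ hμ hμb Mn V hM hV hvV (fun s => 2 * (d : ℝ) + c * cb b s) hf
      (fun s hs => by rw [cb_eq b s hs]) Ψ hΨ i η hη hηη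
    have hθ : ∀ z : Zd d, |(if |(z i : ℝ)| ≤ c ^ (-(167 / 83) : ℝ) then (1 : ℝ) else 0)| ≤ 1 := by
      intro z
      split_ifs <;> simp
    have h3 := S_meas (fun s => 2 * (d : ℝ) + c * cb b s) hf Ψ hΨ η hη _ hθ 0
    have h4 : (fun ω => ∑' z : Zd d, (if |(z i : ℝ)| ≤ c ^ (-(167 / 83) : ℝ) then (1 : ℝ) else 0) *
        pb η (ψ ω) z) =ᵐ[Measure.infinitePi fun _ : Zd d => μ]
        fun ω => ∑' z : Zd d, (if |(z i : ℝ)| ≤ c ^ (-(167 / 83) : ℝ) then (1 : ℝ) else 0) *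
        pb η (Ψ ω 0) z := by
      filter_upwards [hbox, hψ] with ω hω hω2
      have h1 := hΨ ω 0
      rw [hpot ω hω] at h1
      exact pb_unique hω2 h1 η hη _ hθ
    refine ⟨⟨_, h3, h4⟩, ?_⟩
    rw [integral_congr_ae h4]
    exact h2

end Pool.Agent.R988.Tor
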