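import Pool.Agent.R988.TR
import Pool.Agent.R988.Msd3

/-! The mean square displacement at all times. -/

set_option autoImplicit false
set_option linter.unusedSectionVars false
set_option linter.unusedVariables false

open scoped BigOperators ComplexConjugate InnerProductSpace Topology ENNReal
open Set MeasureTheory Filter

namespace Pool.Agent.R988.Tor

open Pool.Agent.H4R2.LO (Zd)
open Pool.Agent.TH794.QD (Sol exp_int exp_val La La_sum La_eq HS hs_sum hmk hmk_apply Tr Tr_apply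
  Hop Hop_apply Hop_symm evl evl_apply)
open Pool.Agent.TH794.QE (Rs RegE)
open Pool.Agent.W788.LD.Spec (S)

variable {d : ℕ}

/-- distance to the real axis -/
theorem gap (V : Zd d → ℝ) (B : ℝ) (hB : 0 ≤ B) (hV : ∀ x, |V x| ≤ B) (e η : ℝ) (hη : 0 < η)
    (f g : HS d)
    (h : ∀ x, -S (fun y => f y) x + (V x : ℂ) * f x - ((e : ℂ) + (η : ℂ) * Complex.I) * f x = g x) :
    η * ‖f‖ ≤ ‖g‖ := by
  have h1 : g = Hop V B hB hV f - ((e : ℂ) + (η : ℂ) * Complex.I) • f := by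
    ext x
    have h2 : (Hop V B hB hV f - ((e : ℂ) + (η : ℂ) * Complex.I) • f : HS d) x =
        Hop V B hB hV f x - ((e : ℂ) + (η : ℂ) * Complex.I) * f x := by
      have h3 : evl x (Hop V B hB hV f - ((e : ℂ) + (η : ℂ) * Complex.I) • f) =
        Hop V B hB hV f x - ((e : ℂ) + (η : ℂ) * Complex.I) * f x := by
        rw [map_sub, map_smul, evl_apply, evl_apply, smul_eq_mul]
      exact h3
    rw [h2, Hop_apply, ← h x]
  have h4 : (⟪f, g⟫_ℂ).im = -(η * ‖f‖ ^ 2) := by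
    have h5 : (⟪f, Hop V B hB hV f⟫_ℂ).im = 0 := by
      have h6 := Hop_symm V B hB hV f f
      have h7 := inner_conj_symm (𝕜 := ℂ) f (Hop V B hB hV f)
      rw [h6] at h7
      exact Complex.conj_eq_iff_im.1 h7
    rw [h1, inner_sub_right, inner_smul_right, inner_self_eq_norm_sq_to_K, Complex.sub_im, h5]
    have h8 : (((e : ℂ) + (η : ℂ) * Complex.I) * ((‖f‖ : ℂ)) ^ 2).im = η * ‖f‖ ^ 2 := by
      rw [← Complex.ofReal_pow, Complex.im_mul_ofReal]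
      simp
    change 0 - (((e : ℂ) + (η : ℂ) * Complex.I) * ((‖f‖ : ℂ)) ^ 2).im = _
    rw [h8]
    ring
  have h9 : η * ‖f‖ ^ 2 ≤ ‖f‖ * ‖g‖ := by
    have h10 := (Complex.abs_im_le_norm (⟪f, g⟫_ℂ)).trans (norm_inner_le_norm f g)
    rw [h4, abs_neg, abs_of_nonneg (by positivity)] at h10
    exact h10
  rcases (norm_nonneg f).eq_or_lt with h0 | h0
  · rw [← h0, mul_zero]
    exact norm_nonneg g
  · have h11 : ‖f‖ * (η * ‖f‖) ≤ ‖f‖ * ‖g‖ := by
      calc ‖f‖ * (η * ‖f‖) = η * ‖f‖ ^ 2 := by ring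
        _ ≤ _ := h9
    exact le_of_mul_le_mul_left h11 h0

/-- the second moment is bounded by the mass -/
theorem qmr {V : Zd d → ℝ} {B : ℝ} (hV : ∀ x, |V x| ≤ B) {a : Zd d} {e η : ℝ} {u : Zd d → ℂ}
    (h : Rs d V a e η u) (hη : 0 < η) (hη1 : η ≤ 1) (j : Fin d) :
    ∑' x, ((x j : ℝ) - a j) ^ 2 * ‖u x‖ ^ 2 ≤ 4 / η ^ 2 * ∑' x, ‖u x‖ ^ 2 := by
  have hB : 0 ≤ B := (abs_nonneg _).trans (hV 0)
  obtain ⟨U, hU⟩ : ∃ U : HS d, U = hmk u h.sq := ⟨_, rfl⟩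
  have hUx : ∀ x, U x = u x := fun x => by rw [hU, hmk_apply]
  have hq := (rs_qm h hη hη1 j).1
  have hq' : Summable fun x : Zd d => ‖(((x j : ℝ) - a j : ℝ) : ℂ) * u x‖ ^ 2 := by
    refine hq.congr fun x => ?_
    rw [norm_mul, mul_pow, Complex.norm_real, Real.norm_eq_abs, sq_abs]
  obtain ⟨F, hF⟩ : ∃ F : HS d, F = hmk (fun x => (((x j : ℝ) - a j : ℝ) : ℂ) * u x) hq' := ⟨_, rfl⟩
  have hFx : ∀ x, F x = (((x j : ℝ) - a j : ℝ) : ℂ) * u x := fun x => by rw [hF, hmk_apply]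
  have h5 : η * ‖F‖ ≤ ‖Tr (-Pi.single j 1) U - Tr (Pi.single j 1) U‖ := by
    refine gap V B hB hV e η hη F _ fun x => ?_
    have h6 : (Tr (-Pi.single j 1) U - Tr (Pi.single j 1) U : HS d) x =
        u (x - Pi.single j 1) - u (x + Pi.single j 1) := by
      have h7 : evl x (Tr (-Pi.single j 1) U - Tr (Pi.single j 1) U) =
        u (x - Pi.single j 1) - u (x + Pi.single j 1) := by
        rw [map_sub, evl_apply, evl_apply, Tr_apply, Tr_apply, hUx, hUx, ← sub_eq_add_neg]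
      exact h7
    rw [h6]
    have h8 : S (fun y => F y) x = (((x j : ℝ) - a j : ℝ) : ℂ) * S u x +
        (u (x + Pi.single j 1) - u (x - Pi.single j 1)) := by
      unfold S
      have h9 : ∀ i : Fin d, F (x + Pi.single i 1) + F (x - Pi.single i 1) =
          (((x j : ℝ) - a j : ℝ) : ℂ) * (u (x + Pi.single i 1) + u (x - Pi.single i 1)) +
          (if i = j then (u (x + Pi.single j 1) - u (x - Pi.single j 1)) else 0) := by
        intro i
        rw [hFx, hFx]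
        by_cases hij : i = j
        · rw [if_pos hij, hij]
          simp only [Pi.add_apply, Pi.sub_apply, Pi.single_eq_same]
          push_cast
          ring
        · rw [if_neg hij]
          simp only [Pi.add_apply, Pi.sub_apply]
          rw [Pi.single_eq_of_ne (fun hh => hij hh.symm)]
          push_cast
          ring
      rw [Finset.sum_congr rfl fun i _ => h9 i, Finset.sum_add_distrib, ← Finset.mul_sum,
        Finset.sum_ite_eq' Finset.univ j, if_pos (Finset.mem_univ j)]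
    rw [h8, hFx]
    have h10 := h.eq x
    have h11 : (((x j : ℝ) - a j : ℝ) : ℂ) * (if x = a then (1 : ℂ) else 0) = 0 := by
      by_cases hx : x = a
      · rw [hx, sub_self]
        simp
      · rw [if_neg hx, mul_zero]
    rw [← h10] at h11
    linear_combination h11
  have h12 : ‖Tr (-Pi.single j 1) U - Tr (Pi.single j 1) U‖ ≤ 2 * ‖U‖ := by
    refine (norm_sub_le _ _).trans ?_
    rw [Pool.Agent.R988.tr_norm, Pool.Agent.R988.tr_norm]
    linarith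
  have h14 : ∑' x, ((x j : ℝ) - a j) ^ 2 * ‖u x‖ ^ 2 = ‖F‖ ^ 2 := by
    rw [← (hs_sum F).tsum_eq]
    refine tsum_congr fun x => ?_
    rw [hFx, norm_mul, mul_pow, Complex.norm_real, Real.norm_eq_abs, sq_abs]
  have h15 : ∑' x, ‖u x‖ ^ 2 = ‖U‖ ^ 2 := by
    rw [← (hs_sum U).tsum_eq]
    exact tsum_congr fun x => by rw [hUx]
  rw [h14, h15, div_mul_eq_mul_div, le_div_iff₀ (by positivity)]
  have h16 := pow_le_pow_left₀ (by positivity) (h5.trans h12) 2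
  nlinarith

/-- the mean square displacement, energies in `A` controlled -/
theorem msd_split {V : Zd d → ℝ} {B0 : ℝ} (hV : ∀ x, |V x| ≤ B0) {a : Zd d} {ψ : ℝ → Zd d → ℂ}
    (h : Sol d V a ψ) (η : ℝ) (hη : 0 < η) (hη1 : η ≤ 1) (j : Fin d) (A : Set ℝ)
    (hA : MeasurableSet A) (B : ℝ) (hB : volume A < ⊤) (hB2 : volume.real A ≤ B) (g : ℝ → ℝ)
    (hg : IntegrableOn g A) (ε δ M : ℝ) (hδ : 0 ≤ δ) (hM : 0 ≤ M)
    (hgA : Real.pi * (1 - ε) ≤ ∫ e in A, g e)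
    (h1 : ∀ e ∈ A, g e - δ ≤ η * ∑' x : Zd d, ‖La ψ e η x‖ ^ 2)
    (h2 : ∀ e ∈ A, η * ∑' x : Zd d, ((x j : ℝ) - a j) ^ 2 * ‖La ψ e η x‖ ^ 2 ≤ M) :
    (Summable fun x : Zd d => ((x j : ℝ) - a j) ^ 2 * pb η ψ x) ∧
    Real.pi * ∑' x : Zd d, ((x j : ℝ) - a j) ^ 2 * pb η ψ x ≤
      B * M + 4 / η ^ 2 * (Real.pi * ε + B * δ) := by
  have hpi := Real.pi_pos
  obtain ⟨i1, e1⟩ := plw h η hη (fun _ => 1) (fun _ => zero_le_one) fun _ => le_rfl
  simp only [one_mul] at i1 e1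
  rw [(pb_one h η hη).tsum_eq] at e1
  have hR : ∀ e, Rs d V a e η (fun x => Complex.I * La ψ e η x) := fun e =>
    ⟨La_sum h e η hη, La_eq h e η hη⟩
  have hn : ∀ e x, ‖Complex.I * La ψ e η x‖ ^ 2 = ‖La ψ e η x‖ ^ 2 := fun e x => by
    rw [norm_mul, Complex.norm_I, one_mul]
  have hqm : ∀ e, ∑' x : Zd d, ((x j : ℝ) - a j) ^ 2 * ‖La ψ e η x‖ ^ 2 ≤
      4 / η ^ 2 * ∑' x : Zd d, ‖La ψ e η x‖ ^ 2 := fun e => by
    have h3 := qmr hV (hR e) hη hη1 j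
    simp only [hn] at h3
    exact h3
  obtain ⟨i2, e2⟩ := Pool.Agent.R988.msdsum h η hη hη1 j
    (fun e => 4 / η ^ 2 * ∑' x : Zd d, ‖La ψ e η x‖ ^ 2) (i1.const_mul _) (fun e => by
      simp only [hn]
      exact hqm e)
  simp only [hn] at i2 e2
  have e2' : HasSum (fun x : Zd d => ((x j : ℝ) - a j) ^ 2 * pb η ψ x)
      (η / Real.pi * ∫ e, ∑' x : Zd d, ((x j : ℝ) - a j) ^ 2 * ‖La ψ e η x‖ ^ 2) := e2
  refine ⟨e2'.summable, ?_⟩
  rw [e2'.tsum_eq]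
  haveI : IsFiniteMeasure (volume.restrict A) := ⟨by
    rw [Measure.restrict_apply_univ]
    exact hB⟩
  have s1 : Real.pi = (∫ e in A, η * ∑' x : Zd d, ‖La ψ e η x‖ ^ 2) +
      ∫ e in Aᶜ, η * ∑' x : Zd d, ‖La ψ e η x‖ ^ 2 := by
    rw [integral_add_compl hA (i1.const_mul η), integral_const_mul]
    field_simp at e1
    linarith
  have s2 : Real.pi * (η / Real.pi *
      ∫ e, ∑' x : Zd d, ((x j : ℝ) - a j) ^ 2 * ‖La ψ e η x‖ ^ 2) =
      (∫ e in A, η * ∑' x : Zd d, ((x j : ℝ) - a j) ^ 2 * ‖La ψ e η x‖ ^ 2) +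
      ∫ e in Aᶜ, η * ∑' x : Zd d, ((x j : ℝ) - a j) ^ 2 * ‖La ψ e η x‖ ^ 2 := by
    rw [integral_add_compl hA (i2.const_mul η), integral_const_mul]
    field_simp
  have s3 : ∫ e in Aᶜ, η * ∑' x : Zd d, ((x j : ℝ) - a j) ^ 2 * ‖La ψ e η x‖ ^ 2 ≤
      4 / η ^ 2 * ∫ e in Aᶜ, η * ∑' x : Zd d, ‖La ψ e η x‖ ^ 2 := by
    rw [← integral_const_mul]
    refine integral_mono (i2.const_mul η).integrableOn
      ((i1.const_mul η).const_mul _).integrableOn fun e => ?_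
    calc η * ∑' x : Zd d, ((x j : ℝ) - a j) ^ 2 * ‖La ψ e η x‖ ^ 2 ≤
        η * (4 / η ^ 2 * ∑' x : Zd d, ‖La ψ e η x‖ ^ 2) :=
          mul_le_mul_of_nonneg_left (hqm e) hη.le
      _ = 4 / η ^ 2 * (η * ∑' x : Zd d, ‖La ψ e η x‖ ^ 2) := by ring
  have s4 : ∫ e in A, η * ∑' x : Zd d, ((x j : ℝ) - a j) ^ 2 * ‖La ψ e η x‖ ^ 2 ≤ B * M := by
    refine (setIntegral_mono_on (i2.const_mul η).integrableOn
      (show IntegrableOn (fun _ : ℝ => M) A from integrable_const M) hA h2).trans ?_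
    rw [setIntegral_const, smul_eq_mul]
    gcongr
  have s5 : (∫ e in A, g e) - B * δ ≤ ∫ e in A, η * ∑' x : Zd d, ‖La ψ e η x‖ ^ 2 := by
    have h3 : ∫ e in A, (g e - δ) ≤ ∫ e in A, η * ∑' x : Zd d, ‖La ψ e η x‖ ^ 2 :=
      setIntegral_mono_on (hg.sub (integrable_const δ)) (i1.const_mul η).integrableOn hA h1
    rw [integral_sub hg (integrable_const δ), setIntegral_const, smul_eq_mul] at h3
    have h4 : volume.real A * δ ≤ B * δ := mul_le_mul_of_nonneg_right hB2 hδ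
    linarith
  rw [s2]
  have s6 : ∫ e in Aᶜ, η * ∑' x : Zd d, ‖La ψ e η x‖ ^ 2 ≤ Real.pi * ε + B * δ := by
    nlinarith
  have s7 := mul_le_mul_of_nonneg_left s6 (by positivity : 0 ≤ 4 / η ^ 2)
  linarith

/-- the ballistic bound -/
theorem msd_bal {V : Zd d → ℝ} {B0 : ℝ} (hV : ∀ x, |V x| ≤ B0) {a : Zd d} {ψ : ℝ → Zd d → ℂ}
    (h : Sol d V a ψ) (η : ℝ) (hη : 0 < η) (hη1 : η ≤ 1) (j : Fin d) :
    (Summable fun x : Zd d => ((x j : ℝ) - a j) ^ 2 * pb η ψ x) ∧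
    η ^ 2 * ∑' x : Zd d, ((x j : ℝ) - a j) ^ 2 * pb η ψ x ≤ 4 := by
  have hpi := Real.pi_pos
  obtain ⟨h1, h2⟩ := msd_split hV h η hη hη1 j ∅ MeasurableSet.empty 0 (by simp) (by simp)
    (fun _ => 0) (by simp) 1 0 0 le_rfl le_rfl (by simp) (by simp) (by simp)
  refine ⟨h1, ?_⟩
  have h3 : Real.pi * (η ^ 2 * ∑' x : Zd d, ((x j : ℝ) - a j) ^ 2 * pb η ψ x) ≤ Real.pi * 4 := by
    have h4 := mul_le_mul_of_nonneg_left h2 (sq_nonneg η)
    have h5 : η ^ 2 * (0 * 0 + 4 / η ^ 2 * (Real.pi * 1 + 0 * 0)) = Real.pi * 4 := by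
      field_simp
      ring
    rw [h5] at h4
    linarith
  exact le_of_mul_le_mul_left h3 hpi

section main

variable {d : ℕ} (μ : Measure ℝ) [IsProbabilityMeasure μ] (f : ℝ → ℝ) (hf : Measurable f)
  (Ψ : (Zd d → ℝ) → Zd d → ℝ → Zd d → ℂ) (hΨ : ∀ ω c, Sol d (fun x => f (ω x)) c (Ψ ω c))

include hf hΨ

omit μ [IsProbabilityMeasure μ] in
theorem pb_meas (η : ℝ) (hη : 0 < η) (z : Zd d) : Measurable fun ω => pb η (Ψ ω 0) z := by
  have h1 := S_meas f hf Ψ hΨ η hη (fun y => if y = z then 1 else 0) (fun y => by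
    split_ifs <;> simp) 0
  have h2 : ∀ ω : Zd d → ℝ, ∑' y, (if y = z then (1 : ℝ) else 0) * pb η (Ψ ω 0) y =
      pb η (Ψ ω 0) z := by
    intro ω
    rw [tsum_eq_single z fun y hy => by rw [if_neg hy, zero_mul], if_pos rfl, one_mul]
  simp only [h2] at h1
  exact h1

/-- the averaged probabilities -/
theorem mz (η : ℝ) (hη : 0 < η) (θ : Zd d → ℝ) (hθ : ∀ z, |θ z| ≤ 1) :
    HasSum (fun z => θ z * ∫ ω, pb η (Ψ ω 0) z ∂(Measure.infinitePi fun _ : Zd d => μ))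
      (∫ ω, ∑' z, θ z * pb η (Ψ ω 0) z ∂(Measure.infinitePi fun _ : Zd d => μ)) := by
  obtain ⟨P, hP⟩ : ∃ P, P = Measure.infinitePi fun _ : Zd d => μ := ⟨_, rfl⟩
  have hPp : IsProbabilityMeasure P := by rw [hP]; infer_instance
  rw [← hP]
  have hpb1 : ∀ ω z, |pb η (Ψ ω 0) z| ≤ 1 := fun ω z => by
    rw [abs_of_nonneg (pb_nonneg η hη _ _)]
    have h1 := pb_one (hΨ ω 0) η hη
    rw [← h1.tsum_eq]
    exact h1.summable.le_tsum z fun y _ => pb_nonneg η hη _ _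
  have hpi : ∀ z, Integrable (fun ω => pb η (Ψ ω 0) z) P := fun z =>
    Integrable.of_bound (C := 1) (pb_meas f hf Ψ hΨ η hη z).aestronglyMeasurable
      (Eventually.of_forall fun ω => by
        rw [Real.norm_eq_abs]
        exact hpb1 ω z)
  have hF : ∀ z, Integrable (fun ω => θ z * pb η (Ψ ω 0) z) P := fun z => (hpi z).const_mul _
  have hS : Summable fun z => ∫ ω, ‖θ z * pb η (Ψ ω 0) z‖ ∂P := by
    refine summable_of_sum_le (c := 1) (fun z => integral_nonneg fun t => norm_nonneg _)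
      fun u => ?_
    rw [← integral_finsetSum _ fun z _ => (hF z).norm]
    refine (integral_mono (integrable_finsetSum _ fun z _ => (hF z).norm)
      (integrable_const (1 : ℝ)) fun ω => ?_).trans (by
        rw [integral_const, probReal_univ, one_smul])
    simp only
    have h1 := pb_one (hΨ ω 0) η hη
    calc ∑ z ∈ u, ‖θ z * pb η (Ψ ω 0) z‖ ≤ ∑ z ∈ u, pb η (Ψ ω 0) z := by
          refine Finset.sum_le_sum fun z _ => ?_
          rw [norm_mul, Real.norm_eq_abs, Real.norm_of_nonneg (pb_nonneg η hη _ _)]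
          exact mul_le_of_le_one_left (pb_nonneg η hη _ _) (hθ z)
      _ ≤ 1 := by
          rw [← h1.tsum_eq]
          exact h1.summable.sum_le_tsum u fun z _ => pb_nonneg η hη _ _
  have h4 := hasSum_integral_of_summable_integral_norm hF hS
  simp only [integral_const_mul] at h4
  exact h4

end main

theorem sq_wt (i : Fin d) (z : Zd d) :
    Tendsto (fun Λ : ℕ => (Λ : ℝ) ^ 2 / (2 * Real.pi ^ 2) * (1 - wt i 1 Λ 0 z)) atTop
      (𝓝 ((z i : ℝ) ^ 2)) := by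
  have hpi := Real.pi_pos
  -- squeeze
  obtain ⟨u, hu⟩ : ∃ u : ℝ, u = z i := ⟨_, rfl⟩
  rw [← hu]
  have hw : ∀ Λ : ℕ, wt i 1 Λ 0 z = Real.cos (2 * Real.pi * u / Λ) := by
    intro Λ
    unfold wt
    rw [hu]
    simp
  simp only [hw]
  have hlow : ∀ Λ : ℕ, 0 < Λ → (Λ : ℝ) ^ 2 / (2 * Real.pi ^ 2) *
      (1 - Real.cos (2 * Real.pi * u / Λ)) ≤ u ^ 2 := by
    intro Λ hΛ
    have hΛ' : (0 : ℝ) < Λ := by exact_mod_cast hΛ
    have h1 := Real.one_sub_sq_div_two_le_cos (x := 2 * Real.pi * u / Λ)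
    calc (Λ : ℝ) ^ 2 / (2 * Real.pi ^ 2) * (1 - Real.cos (2 * Real.pi * u / Λ)) ≤
        (Λ : ℝ) ^ 2 / (2 * Real.pi ^ 2) * ((2 * Real.pi * u / Λ) ^ 2 / 2) := by
          gcongr
          linarith
      _ = u ^ 2 := by
          field_simp
  have hup : ∀ᶠ Λ : ℕ in atTop, u ^ 2 - (Λ : ℝ) ^ 2 / (2 * Real.pi ^ 2) *
      ((2 * Real.pi * u / Λ) ^ 4 * (5 / 96)) ≤ (Λ : ℝ) ^ 2 / (2 * Real.pi ^ 2) *
      (1 - Real.cos (2 * Real.pi * u / Λ)) := by
    have h1 : Tendsto (fun Λ : ℕ => 2 * Real.pi * u / (Λ : ℝ)) atTop (𝓝 0) :=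
      tendsto_const_div_atTop_nhds_zero_nat _
    have h2 : ∀ᶠ Λ : ℕ in atTop, |2 * Real.pi * u / (Λ : ℝ)| ≤ 1 := by
      have h3 := h1.abs
      rw [abs_zero] at h3
      exact (h3.eventually (gt_mem_nhds one_pos)).mono fun Λ h => h.le
    filter_upwards [h2, eventually_gt_atTop 0] with Λ h4 hΛ
    have hΛ' : (0 : ℝ) < Λ := by exact_mod_cast hΛ
    have h5 := (abs_le.1 (Real.cos_bound h4)).2
    have h6 : |2 * Real.pi * u / (Λ : ℝ)| ^ 4 = (2 * Real.pi * u / Λ) ^ 4 := by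
      rw [← abs_pow, abs_of_nonneg (by positivity)]
    rw [h6] at h5
    have h7 : u ^ 2 = (Λ : ℝ) ^ 2 / (2 * Real.pi ^ 2) * ((2 * Real.pi * u / Λ) ^ 2 / 2) := by
      field_simp
    rw [h7, ← mul_sub]
    have h8 : 0 ≤ (Λ : ℝ) ^ 2 / (2 * Real.pi ^ 2) := by positivity
    refine mul_le_mul_of_nonneg_left ?_ h8
    linarith
  have hl : Tendsto (fun Λ : ℕ => u ^ 2 - (Λ : ℝ) ^ 2 / (2 * Real.pi ^ 2) *
      ((2 * Real.pi * u / Λ) ^ 4 * (5 / 96))) atTop (𝓝 (u ^ 2)) := by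
    have h1 : Tendsto (fun Λ : ℕ => (2 * Real.pi * u / (Λ : ℝ))) atTop (𝓝 0) :=
      tendsto_const_div_atTop_nhds_zero_nat _
    have h2 : Tendsto (fun Λ : ℕ => u ^ 2 - 2 * u ^ 2 * (5 / 96) *
        (2 * Real.pi * u / (Λ : ℝ)) ^ 2) atTop (𝓝 (u ^ 2 - 2 * u ^ 2 * (5 / 96) * 0 ^ 2)) :=
      ((h1.pow 2).const_mul _).const_sub _
    have h3 : u ^ 2 - 2 * u ^ 2 * (5 / 96) * 0 ^ 2 = u ^ 2 := by ring
    rw [h3] at h2
    refine h2.congr' ?_
    filter_upwards [eventually_gt_atTop 0] with Λ hΛ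
    have hΛ' : (0 : ℝ) < Λ := by exact_mod_cast hΛ
    field_simp
  refine tendsto_of_tendsto_of_tendsto_of_le_of_le' hl tendsto_const_nhds hup ?_
  filter_upwards [eventually_gt_atTop 0] with Λ hΛ
  exact hlow Λ hΛ

end Pool.Agent.R988.Tor
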