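import Pool.Agent.R988.TS

/-! The mean square displacement at all times: from one scale to all later ones. -/

set_option autoImplicit false
set_option linter.unusedSectionVars false
set_option linter.unusedVariables false

open scoped BigOperators ComplexConjugate InnerProductSpace Topology ENNReal
open Set MeasureTheory Filter

namespace Pool.Agent.R988.Tor

open Pool.Agent.H4R2.LO (Zd)
open Pool.Agent.TH794.QD (Sol exp_int exp_val La La_sum La_eq)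
open Pool.Agent.TH794.QE (Rs RegE)
open Pool.Agent.TH794.HK (ph Tg ph_norm)

variable {d : ℕ}

theorem sq_wt_le (i : Fin d) (z : Zd d) (Λ : ℕ) (hΛ : 0 < Λ) :
    (Λ : ℝ) ^ 2 / (2 * Real.pi ^ 2) * (1 - wt i 1 Λ 0 z) ≤ (z i : ℝ) ^ 2 := by
  have hpi := Real.pi_pos
  have hΛ' : (0 : ℝ) < Λ := by exact_mod_cast hΛ
  have hw : wt i 1 Λ 0 z = Real.cos (2 * Real.pi * (z i : ℝ) / Λ) := by
    unfold wt
    simp
  rw [hw]
  have h1 := Real.one_sub_sq_div_two_le_cos (x := 2 * Real.pi * (z i : ℝ) / Λ)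
  calc (Λ : ℝ) ^ 2 / (2 * Real.pi ^ 2) * (1 - Real.cos (2 * Real.pi * (z i : ℝ) / Λ)) ≤
      (Λ : ℝ) ^ 2 / (2 * Real.pi ^ 2) * ((2 * Real.pi * (z i : ℝ) / Λ) ^ 2 / 2) := by
        gcongr
        linarith
    _ = (z i : ℝ) ^ 2 := by
        field_simp

section main

variable {d : ℕ} (μ : Measure ℝ) [IsProbabilityMeasure μ] (f : ℝ → ℝ) (hf : Measurable f)
  (Ψ : (Zd d → ℝ) → Zd d → ℝ → Zd d → ℂ) (hΨ : ∀ ω c, Sol d (fun x => f (ω x)) c (Ψ ω c))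

include hf hΨ

/-- **the mean square displacement grows at most quadratically from any time on** -/
theorem msd_mono (i : Fin d) (η η' : ℝ) (hη : 0 < η) (hηη : η ≤ η')
    (hs : Summable fun z : Zd d => (z i : ℝ) ^ 2 *
      ∫ ω, pb η' (Ψ ω 0) z ∂(Measure.infinitePi fun _ : Zd d => μ)) :
    (Summable fun z : Zd d => (z i : ℝ) ^ 2 *
      ∫ ω, pb η (Ψ ω 0) z ∂(Measure.infinitePi fun _ : Zd d => μ)) ∧
    η ^ 2 * ∑' z : Zd d, (z i : ℝ) ^ 2 *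
      ∫ ω, pb η (Ψ ω 0) z ∂(Measure.infinitePi fun _ : Zd d => μ) ≤
    η' ^ 2 * ∑' z : Zd d, (z i : ℝ) ^ 2 *
      ∫ ω, pb η' (Ψ ω 0) z ∂(Measure.infinitePi fun _ : Zd d => μ) := by
  have hη' : 0 < η' := hη.trans_le hηη
  obtain ⟨m, hm⟩ : ∃ m : ℝ → Zd d → ℝ, m = fun η z =>
    ∫ ω, pb η (Ψ ω 0) z ∂(Measure.infinitePi fun _ : Zd d => μ) := ⟨_, rfl⟩
  have hmz : ∀ η z, ∫ ω, pb η (Ψ ω 0) z ∂(Measure.infinitePi fun _ : Zd d => μ) = m η z :=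
    fun η z => by rw [hm]
  simp only [hmz] at hs ⊢
  have hm0 : ∀ η, 0 < η → ∀ z, 0 ≤ m η z := fun η hη z => by
    rw [hm]
    exact integral_nonneg fun ω => pb_nonneg η hη _ _
  have hm1 : ∀ η, 0 < η → HasSum (fun z => m η z) 1 := by
    intro η hη
    have h1 := mz μ f hf Ψ hΨ η hη (fun _ => 1) fun _ => by simp
    simp only [one_mul, hmz] at h1
    have h2 : ∀ ω : Zd d → ℝ, ∑' z, pb η (Ψ ω 0) z = 1 := fun ω => (pb_one (hΨ ω 0) η hη).tsum_eq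
    simp only [h2, integral_const, probReal_univ, one_smul] at h1
    exact h1
  have hD : ∀ η, 0 < η → ∀ Λ : ℕ, HasSum (fun z => (1 - wt i 1 Λ 0 z) * m η z)
      (1 - ∫ ω, ∑' z, wt i 1 Λ 0 z * pb η (Ψ ω 0) z ∂(Measure.infinitePi fun _ : Zd d => μ)) := by
    intro η hη Λ
    have h1 := mz μ f hf Ψ hΨ η hη (wt i 1 Λ 0) (wt_abs i 1 Λ 0)
    simp only [hmz] at h1
    have h2 := (hm1 η hη).sub h1
    refine h2.congr_fun fun z => ?_
    ring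
  have hw1 : ∀ (Λ : ℕ) z, 0 ≤ 1 - wt i 1 Λ 0 z := fun Λ z => by
    have := (abs_le.1 (wt_abs i 1 Λ 0 z)).2
    linarith
  have key : ∀ s : Finset (Zd d), ∑ z ∈ s, (z i : ℝ) ^ 2 * m η z ≤
      (η' ^ 2 * ∑' z : Zd d, (z i : ℝ) ^ 2 * m η' z) / η ^ 2 := by
    intro s
    have h1 : Tendsto (fun Λ : ℕ => ∑ z ∈ s,
        ((Λ : ℝ) ^ 2 / (2 * Real.pi ^ 2) * (1 - wt i 1 Λ 0 z)) * m η z) atTop
        (𝓝 (∑ z ∈ s, (z i : ℝ) ^ 2 * m η z)) :=
      tendsto_finset_sum _ fun z _ => (sq_wt i z).mul_const _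
    refine le_of_tendsto h1 ?_
    filter_upwards [eventually_gt_atTop 0] with Λ hΛ
    rw [le_div_iff₀ (by positivity)]
    obtain ⟨cΛ, hcΛ⟩ : ∃ cΛ : ℝ, cΛ = (Λ : ℝ) ^ 2 / (2 * Real.pi ^ 2) := ⟨_, rfl⟩
    have hc0 : 0 ≤ cΛ := by rw [hcΛ]; positivity
    rw [← hcΛ]
    have h2 := (phi_mono μ f hf Ψ hΨ i 1 Λ hΛ η η' hη hηη).2
    have h3 := hD η hη Λ
    have h4 := hD η' hη' Λ
    rw [← h3.tsum_eq, ← h4.tsum_eq] at h2
    have h5 : ∑ z ∈ s, cΛ * (1 - wt i 1 Λ 0 z) * m η z ≤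
        cΛ * ∑' z, (1 - wt i 1 Λ 0 z) * m η z := by
      have e1 : ∑ z ∈ s, cΛ * (1 - wt i 1 Λ 0 z) * m η z =
          cΛ * ∑ z ∈ s, (1 - wt i 1 Λ 0 z) * m η z := by
        rw [Finset.mul_sum]
        refine Finset.sum_congr rfl fun z _ => by ring
      rw [e1]
      refine mul_le_mul_of_nonneg_left ?_ hc0
      exact h3.summable.sum_le_tsum s fun z _ => mul_nonneg (hw1 Λ z) (hm0 η hη z)
    have h6 : cΛ * ∑' z, (1 - wt i 1 Λ 0 z) * m η' z ≤ ∑' z : Zd d, (z i : ℝ) ^ 2 * m η' z := by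
      rw [← tsum_mul_left]
      refine Summable.tsum_le_tsum (fun z => ?_) (h4.summable.mul_left cΛ) hs
      rw [← mul_assoc, hcΛ]
      exact mul_le_mul_of_nonneg_right (sq_wt_le i z Λ hΛ) (hm0 η' hη' z)
    calc (∑ z ∈ s, cΛ * (1 - wt i 1 Λ 0 z) * m η z) * η ^ 2 ≤
        (cΛ * ∑' z, (1 - wt i 1 Λ 0 z) * m η z) * η ^ 2 := by gcongr
      _ = cΛ * ((∑' z, (1 - wt i 1 Λ 0 z) * m η z) * η ^ 2) := by ring
      _ ≤ cΛ * ((∑' z, (1 - wt i 1 Λ 0 z) * m η' z) * η' ^ 2) :=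
          mul_le_mul_of_nonneg_left h2 hc0
      _ = η' ^ 2 * (cΛ * ∑' z, (1 - wt i 1 Λ 0 z) * m η' z) := by ring
      _ ≤ _ := mul_le_mul_of_nonneg_left h6 (sq_nonneg _)
  have h0 : ∀ z : Zd d, 0 ≤ (z i : ℝ) ^ 2 * m η z := fun z => mul_nonneg (sq_nonneg _) (hm0 η hη z)
  have hsum : Summable fun z : Zd d => (z i : ℝ) ^ 2 * m η z := summable_of_sum_le h0 key
  refine ⟨hsum, ?_⟩
  have h7 := hsum.tsum_le_of_sum_le key
  rw [le_div_iff₀ (by positivity)] at h7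
  linarith

theorem msd_lint (η : ℝ) (hη : 0 < η) (i : Fin d) :
    ∫⁻ ω, ∑' z : Zd d, ENNReal.ofReal ((z i : ℝ) ^ 2 * pb η (Ψ ω 0) z)
      ∂(Measure.infinitePi fun _ : Zd d => μ) =
    ∑' z : Zd d, ENNReal.ofReal ((z i : ℝ) ^ 2 *
      ∫ ω, pb η (Ψ ω 0) z ∂(Measure.infinitePi fun _ : Zd d => μ)) := by
  have hpm := pb_meas f hf Ψ hΨ η hη
  rw [lintegral_tsum fun z => ((hpm z).const_mul _).ennreal_ofReal.aemeasurable]
  refine tsum_congr fun z => ?_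
  have hpb1 : ∀ ω z, |pb η (Ψ ω 0) z| ≤ 1 := fun ω z => by
    rw [abs_of_nonneg (pb_nonneg η hη _ _)]
    have h1 := pb_one (hΨ ω 0) η hη
    rw [← h1.tsum_eq]
    exact h1.summable.le_tsum z fun y _ => pb_nonneg η hη _ _
  have hi : Integrable (fun ω => (z i : ℝ) ^ 2 * pb η (Ψ ω 0) z)
      (Measure.infinitePi fun _ : Zd d => μ) :=
    (Integrable.of_bound (C := 1) (hpm z).aestronglyMeasurable
      (Eventually.of_forall fun ω => by
        rw [Real.norm_eq_abs]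
        exact hpb1 ω z)).const_mul _
  rw [← integral_const_mul, ofReal_integral_eq_lintegral_ofReal hi
    (Eventually.of_forall fun ω => mul_nonneg (sq_nonneg _) (pb_nonneg η hη _ _))]

/-- **from a good event at one scale to all later times** -/
theorem fromGood (i : Fin d) (η η0 : ℝ) (hη : 0 < η) (hηη : η ≤ η0) (hη1 : η0 ≤ 1) (B0 : ℝ)
    (hfB : ∀ s, |f s| ≤ B0) (G : Set (Zd d → ℝ)) (hG : MeasurableSet G) (p β : ℝ)
    (hp : 1 - p ≤ (Measure.infinitePi fun _ : Zd d => μ).real G) (hβ : 0 ≤ β)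
    (hgood : ∀ ω ∈ G, η0 ^ 2 * ∑' z : Zd d, (z i : ℝ) ^ 2 * pb η0 (Ψ ω 0) z ≤ β) :
    ∫⁻ ω, ∑' z : Zd d, ENNReal.ofReal ((z i : ℝ) ^ 2 * pb η (Ψ ω 0) z)
      ∂(Measure.infinitePi fun _ : Zd d => μ) ≤ ENNReal.ofReal ((β + 4 * p) / η ^ 2) := by
  have hη0 : 0 < η0 := hη.trans_le hηη
  obtain ⟨P, hP⟩ : ∃ P, P = Measure.infinitePi fun _ : Zd d => μ := ⟨_, rfl⟩
  have hPp : IsProbabilityMeasure P := by rw [hP]; infer_instance
  have hPc : P.real Gᶜ ≤ p := by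
    rw [measureReal_compl hG, probReal_univ]
    rw [← hP] at hp
    linarith
  have hp0 : 0 ≤ p := measureReal_nonneg.trans hPc
  have hbal : ∀ ω, (Summable fun x : Zd d => (x i : ℝ) ^ 2 * pb η0 (Ψ ω 0) x) ∧
      η0 ^ 2 * ∑' x : Zd d, (x i : ℝ) ^ 2 * pb η0 (Ψ ω 0) x ≤ 4 := by
    intro ω
    have h1 := msd_bal (fun x => hfB (ω x)) (hΨ ω 0) η0 hη0 hη1 i
    simp only [Pi.zero_apply, Int.cast_zero, sub_zero] at h1
    exact h1
  have h1 : ∀ ω, ∑' z : Zd d, ENNReal.ofReal ((z i : ℝ) ^ 2 * pb η0 (Ψ ω 0) z) ≤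
      ENNReal.ofReal (β / η0 ^ 2) +
        Gᶜ.indicator (fun _ => ENNReal.ofReal (4 / η0 ^ 2)) ω := by
    intro ω
    obtain ⟨s1, s2⟩ := hbal ω
    rw [← ENNReal.ofReal_tsum_of_nonneg (fun z => mul_nonneg (sq_nonneg _)
      (pb_nonneg η0 hη0 _ _)) s1]
    by_cases hω : ω ∈ G
    · rw [indicator_of_notMem (by simpa using hω), add_zero]
      refine ENNReal.ofReal_le_ofReal ?_
      rw [le_div_iff₀ (by positivity)]
      have := hgood ω hω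
      linarith
    · rw [indicator_of_mem (by simpa using hω)]
      refine le_trans (ENNReal.ofReal_le_ofReal ?_) le_add_self
      rw [le_div_iff₀ (by positivity)]
      linarith
  have h2 : ∫⁻ ω, ∑' z : Zd d, ENNReal.ofReal ((z i : ℝ) ^ 2 * pb η0 (Ψ ω 0) z) ∂P ≤
      ENNReal.ofReal ((β + 4 * p) / η0 ^ 2) := by
    refine (lintegral_mono h1).trans ?_
    rw [lintegral_add_left measurable_const, lintegral_const, measure_univ, mul_one,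
      lintegral_indicator_const hG.compl]
    have h3 : P Gᶜ = ENNReal.ofReal (P.real Gᶜ) := (ofReal_measureReal).symm
    rw [h3, ← ENNReal.ofReal_mul (by positivity), ← ENNReal.ofReal_add (by positivity)
      (by positivity)]
    refine ENNReal.ofReal_le_ofReal ?_
    rw [div_mul_eq_mul_div, ← add_div]
    gcongr
  rw [hP, msd_lint μ f hf Ψ hΨ η0 hη0 i] at h2
  have hm0 : ∀ η, 0 < η → ∀ z : Zd d, 0 ≤ (z i : ℝ) ^ 2 *
      ∫ ω, pb η (Ψ ω 0) z ∂(Measure.infinitePi fun _ : Zd d => μ) := fun η hη z =>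
    mul_nonneg (sq_nonneg _) (integral_nonneg fun ω => pb_nonneg η hη _ _)
  have h4 : Summable fun z : Zd d => (z i : ℝ) ^ 2 *
      ∫ ω, pb η0 (Ψ ω 0) z ∂(Measure.infinitePi fun _ : Zd d => μ) := by
    have h5 := ENNReal.summable_toReal (ne_top_of_le_ne_top ENNReal.ofReal_ne_top h2)
    refine h5.congr fun z => ?_
    rw [ENNReal.toReal_ofReal (hm0 η0 hη0 z)]
  rw [← ENNReal.ofReal_tsum_of_nonneg (hm0 η0 hη0) h4] at h2
  have hb0 : 0 ≤ (β + 4 * p) / η0 ^ 2 := by positivity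
  have h6 := (ENNReal.ofReal_le_ofReal_iff hb0).1 h2
  obtain ⟨h7, h8⟩ := msd_mono μ f hf Ψ hΨ i η η0 hη hηη h4
  rw [msd_lint μ f hf Ψ hΨ η hη i, ← ENNReal.ofReal_tsum_of_nonneg (hm0 η hη) h7]
  refine ENNReal.ofReal_le_ofReal ?_
  rw [le_div_iff₀ (by positivity)]
  rw [le_div_iff₀ (by positivity)] at h6
  linarith

end main

/-- one energy in the bulk, total mass -/
theorem enl0 {V : Zd d → ℝ} {ψ : ℝ → Zd d → ℂ} (h : Sol d V 0 ψ) (η e : ℝ) (hη : 0 < η)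
    (γ0 γ1 : ℝ → ℂ) (s2 E δ K : ℝ) (hs : 0 < s2) (hK : 0 ≤ K)
    (hp : ∀ p : Fin d → ℝ, ∑ i, p i ^ 2 ≤ K * (η * s2) →
      ‖((η : ℝ) : ℂ) * ∑' x, ph p (x - 0) * ((‖Complex.I * La ψ e η x‖ ^ 2 : ℝ) : ℂ) -
        ((Tg γ0 γ1 η s2 E p : ℝ) : ℂ)‖ ≤ δ) :
    (γ0 E).im - δ ≤ η * ∑' x : Zd d, ‖La ψ e η x‖ ^ 2 := by
  have hLs : Summable fun x => ‖La ψ e η x‖ ^ 2 := by
    refine (La_sum h e η hη).congr fun x => ?_
    rw [norm_mul, Complex.norm_I, one_mul]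
  have h1 := hp 0 (by
    simp only [Pi.zero_apply]
    have : 0 ≤ K * (η * s2) := by positivity
    simpa using this)
  rw [Tg_zero] at h1
  have h2 := (Complex.abs_re_le_norm _).trans h1
  rw [Complex.sub_re, Complex.ofReal_re, Complex.re_ofReal_mul] at h2
  have h3 : ∀ x : Zd d, ph (0 : Fin d → ℝ) (x - 0) *
      ((‖Complex.I * La ψ e η x‖ ^ 2 : ℝ) : ℂ) = ((‖La ψ e η x‖ ^ 2 : ℝ) : ℂ) := by
    intro x
    unfold ph
    rw [norm_mul, Complex.norm_I, one_mul]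
    simp
  rw [tsum_congr h3, ← Complex.ofReal_tsum, Complex.ofReal_re] at h2
  linarith [(abs_le.1 h2).1]

end Pool.Agent.R988.Tor
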