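import Pool.Agent.R988.TT

/-! The mean square displacement at all times: the theorems. -/

set_option autoImplicit false
set_option linter.unusedSectionVars false
set_option linter.unusedVariables false

open scoped BigOperators ComplexConjugate InnerProductSpace Topology ENNReal
open Set MeasureTheory Filter

namespace Pool.Agent.R988.Tor

open Pool.Agent.H4R2.LO (Zd)
open Pool.Agent.TH794.QD (Sol exp_int exp_val La La_sum La_eq)
open Pool.Agent.TH794.QE (Rs RegE)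
open Pool.Agent.TH794.HK (ph Tg ph_norm)

variable {d : ℕ}

/-- **no ballistic motion at any time, `d ≥ 2`** -/
theorem S2 (d : ℕ) (hd : 2 ≤ d) (b v ε : ℝ) (hb : 0 < b) (hv : 0 < v) (hε : 0 < ε) :
    ∃ c0 : ℝ, 0 < c0 ∧ c0 ≤ 1 ∧ ∀ c : ℝ, 0 < c → c ≤ c0 →
    ∀ (μ : Measure ℝ) (_ : IsProbabilityMeasure μ), (∀ᵐ s ∂μ, |s| ≤ b) →
    ∀ Mn V : ℝ, ∫ s, s ∂μ = Mn → ∫ s, (s - Mn) ^ 2 ∂μ = V → v ≤ V →
    ∀ f : ℝ → ℝ, Measurable f → (∀ s, |s| ≤ b → f s = 2 * d + c * s) →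
    ∀ B0 : ℝ, (∀ s, |f s| ≤ B0) →
    ∀ Ψ : (Zd d → ℝ) → Zd d → ℝ → Zd d → ℂ, (∀ ω a, Sol d (fun x => f (ω x)) a (Ψ ω a)) →
    ∀ (i : Fin d) (η : ℝ), 0 < η → η ≤ c ^ (83 / 41 : ℝ) →
      ∫⁻ ω, ∑' z : Zd d, ENNReal.ofReal ((z i : ℝ) ^ 2 * pb η (Ψ ω 0) z)
        ∂(Measure.infinitePi fun _ : Zd d => μ) ≤ ENNReal.ofReal (ε / η ^ 2) := by
  have hd0 : (0 : ℝ) < d := by exact_mod_cast (by omega : 0 < d)
  have hpi := Real.pi_gt_three
  have hpi0 := Real.pi_pos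
  obtain ⟨γ0, γ1, h⟩ := Pool.Agent.R988.base d hd
  obtain ⟨γ0', γ1', h'⟩ := Pool.Agent.R988.msd1 d hd
  obtain ⟨κ, hκ, hκ1, hκε⟩ : ∃ κ : ℝ, 0 < κ ∧ κ ≤ 1 ∧
      6 * 10 ^ d * Real.Gamma (1 / 2) * (2 * κ) ^ (1 / 2 : ℝ) ≤ ε / 20 := by
    obtain ⟨t0, h1, h2, h3⟩ := ev_extract
      (ev1 (120 * 10 ^ d * Real.Gamma (1 / 2) * 2 ^ (1 / 2 : ℝ) / ε) (1 / 2) (by norm_num))
    refine ⟨t0, h1, h2, ?_⟩
    have h4 := h3 t0 h1 le_rfl
    rw [div_mul_eq_mul_div, div_le_one hε] at h4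
    rw [Real.mul_rpow (by norm_num) h1.le]
    have h5 : 6 * 10 ^ d * Real.Gamma (1 / 2) * (2 ^ (1 / 2 : ℝ) * t0 ^ (1 / 2 : ℝ)) =
        (120 * 10 ^ d * Real.Gamma (1 / 2) * 2 ^ (1 / 2 : ℝ) * t0 ^ (1 / 2 : ℝ)) / 20 := by ring
    rw [h5]
    linarith
  obtain ⟨h1, -, h3⟩ := h κ hκ hκ1
  obtain ⟨h1', -, h3'⟩ := h' κ hκ hκ1
  obtain ⟨hγi, hmass⟩ := Pool.Agent.R988.mass d hd κ hκ hκ1 γ0 fun E hE => (h1 E hE).1
  obtain ⟨c1, hc1, hgood⟩ := h3 b v 0 hb hv le_rfl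
  obtain ⟨c3, hc3, hc31, hgood'⟩ := h3' b v hb hv
  obtain ⟨c2, hc2, hc21, hnum⟩ := ev_extract ((ev1 (80 * d / ε) (1 / 200) (by norm_num)).and
    ((ev1 (40 / ε) (1 / 101) (by norm_num)).and ((ev1 (40 / ε) (1 / 102)
    (by norm_num)).and ((ev1 (60 * d / (v * ε)) (1 / 41) (by norm_num)).and
    (ev1 (1 / v) (1 / 41) (by norm_num))))))
  refine ⟨min c1 (min c2 c3), lt_min hc1 (lt_min hc2 hc3),
    (min_le_right _ _).trans ((min_le_left _ _).trans hc21),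
    fun c hc hcc μ hμ hμb Mn V hM hV hvV f hf hfb B0 hfB Ψ hΨ i η hη hηη => ?_⟩
  have hcc1 : c ≤ c1 := hcc.trans (min_le_left _ _)
  have hcc2 : c ≤ c2 := hcc.trans ((min_le_right _ _).trans (min_le_left _ _))
  have hcc3 : c ≤ c3 := hcc.trans ((min_le_right _ _).trans (min_le_right _ _))
  obtain ⟨n1, n2, n3, n4, n5⟩ := hnum c hc hcc2
  have hc1' : c ≤ 1 := hcc2.trans hc21
  obtain ⟨G, hG, hP, hω⟩ := hgood c hc hcc1 μ hμ hμb Mn V hM hV hvV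
  obtain ⟨G', hG', hP', hω'⟩ := hgood' c hc hcc3 μ hμ hμb Mn V hM hV hvV
  have hpos : ∀ p : ℝ, 0 < c ^ p := fun p => Real.rpow_pos_of_pos hc p
  have hadd : ∀ p q : ℝ, c ^ p * c ^ q = c ^ (p + q) := fun p q => (Real.rpow_add hc p q).symm
  have hV0 : 0 < V := hv.trans_le hvV
  obtain ⟨η0, hη0⟩ : ∃ η0, η0 = c ^ (83 / 41 : ℝ) := ⟨_, rfl⟩
  rw [← hη0] at hηη
  have hη0p : 0 < η0 := by rw [hη0]; exact hpos _
  have hη01 : η0 ≤ 1 := by rw [hη0]; exact Real.rpow_le_one hc.le hc1' (by norm_num)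
  obtain ⟨s2, hs2⟩ : ∃ s2, s2 = c ^ 2 * V := ⟨_, rfl⟩
  have hs20 : 0 < s2 := by rw [hs2]; positivity
  have hηs : η0 * v ≤ s2 * c ^ (1 / 41 : ℝ) := by
    have e1 : η0 = c ^ 2 * c ^ (1 / 41 : ℝ) := by
      rw [hη0, ← Real.rpow_natCast c 2, hadd]
      norm_num
    rw [e1, hs2]
    have := hpos (1 / 41)
    calc c ^ 2 * c ^ (1 / 41 : ℝ) * v ≤ c ^ 2 * c ^ (1 / 41 : ℝ) * V := by gcongr
      _ = _ := by ring
  have hηs2 : η0 ≤ s2 := by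
    have h5 : c ^ (1 / 41 : ℝ) ≤ v := by
      rw [one_div, inv_mul_le_iff₀ hv, mul_one] at n5
      exact n5
    have h6 : η0 * v ≤ s2 * v := hηs.trans (by gcongr)
    exact le_of_mul_le_mul_right h6 hv
  have hratio : 12 * d * (η0 / s2) ≤ ε / 5 := by
    rw [mul_div_assoc', div_le_iff₀ hs20]
    have h5 : 60 * d * c ^ (1 / 41 : ℝ) ≤ v * ε := by
      rw [div_mul_eq_mul_div, div_le_one (by positivity)] at n4
      exact n4
    have h6 : (12 * d * η0) * v ≤ (ε / 5 * s2) * v := by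
      calc (12 * d * η0) * v = 12 * d * (η0 * v) := by ring
        _ ≤ 12 * d * (s2 * c ^ (1 / 41 : ℝ)) := by gcongr
        _ = s2 / 5 * (60 * d * c ^ (1 / 41 : ℝ)) := by ring
        _ ≤ s2 / 5 * (v * ε) := by gcongr
        _ = _ := by ring
    exact le_of_mul_le_mul_right h6 hv
  obtain ⟨δ, hδ⟩ : ∃ δ, δ = c ^ (1 / 200 : ℝ) := ⟨_, rfl⟩
  have hδ0 : 0 < δ := by rw [hδ]; exact hpos _
  rw [← hδ] at n1 hω
  have hδε : 16 * d * δ ≤ ε / 5 := by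
    rw [div_mul_eq_mul_div, div_le_one hε] at n1
    linarith
  obtain ⟨sh, hsh⟩ : ∃ sh, sh = 2 * (d : ℝ) + c * Mn := ⟨_, rfl⟩
  obtain ⟨b1, b2, b3, b4, b5⟩ := bulk_shift (d := d) κ sh γ0 hγi
  have hF : ∀ ω ∈ G ∩ G', η0 ^ 2 * ∑' z : Zd d, (z i : ℝ) ^ 2 * pb η0 (Ψ ω 0) z ≤ 3 / 5 * ε := by
    intro ω hωG
    obtain ⟨hωb, hprof⟩ := hω ω hωG.1
    obtain ⟨-, hprof'⟩ := hω' ω hωG.2
    have hS := hΨ ω 0
    have hpot : (fun x => f (ω x)) = fun x => 2 * (d : ℝ) + c * ω x := by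
      funext x
      exact hfb _ (hωb x)
    have hVb : ∀ x, |2 * (d : ℝ) + c * ω x| ≤ B0 := fun x => by
      rw [← hfb _ (hωb x)]
      exact hfB _
    rw [hpot] at hS
    have hmass0 : ∀ e ∈ {e : ℝ | sh - e ∈ Pool.Agent.R988.CK d κ},
        (γ0 (sh - e)).im - δ ≤ η0 * ∑' x : Zd d, ‖La (Ψ ω 0) e η0 x‖ ^ 2 := by
      intro e he
      obtain ⟨r1, r2⟩ := Pool.Agent.R988.CK_reg hd hκ he
      refine enl0 hS η0 e hη0p γ0 γ1 s2 (sh - e) δ 0 hs20 le_rfl fun p hp => ?_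
      have r6 := hprof 0 (by
        rw [norm_zero]
        exact (Real.exp_pos _).le) e (by rw [← hsh]; exact ⟨r1, r2⟩) η0 (by
        rw [hη0]
        exact Real.rpow_le_rpow_of_exponent_ge hc hc1' (by norm_num)) (by
        rw [hη0]
        exact Real.rpow_le_rpow_of_exponent_ge hc hc1' (by norm_num))
        (fun x => Complex.I * La (Ψ ω 0) e η0 x) ⟨La_sum hS e η0 hη0p, La_eq hS e η0 hη0p⟩ p
        (by rw [← hs2]; exact hp)
      rw [← hs2, ← hsh] at r6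
      exact r6
    have hmom : ∀ e ∈ {e : ℝ | sh - e ∈ Pool.Agent.R988.CK d κ},
        η0 * ∑' x : Zd d, ((x i : ℝ) - (0 : Zd d) i) ^ 2 * ‖La (Ψ ω 0) e η0 x‖ ^ 2 ≤
          3 / (η0 * s2) := by
      intro e he
      obtain ⟨r1, r2⟩ := Pool.Agent.R988.CK_reg hd hκ he
      obtain ⟨-, r7⟩ := hprof' 0 (by
        rw [norm_zero]
        exact (Real.exp_pos _).le) e (by rw [← hsh]; exact r1) η0 (by rw [hη0]) (by
        rw [← hs2]
        exact hηs2)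
        (fun x => Complex.I * La (Ψ ω 0) e η0 x) ⟨La_sum hS e η0 hη0p, La_eq hS e η0 hη0p⟩ i
      rw [← hs2, ← hsh] at r7
      have hn : ∀ x, ‖Complex.I * La (Ψ ω 0) e η0 x‖ ^ 2 = ‖La (Ψ ω 0) e η0 x‖ ^ 2 := fun x => by
        rw [norm_mul, Complex.norm_I, one_mul]
      simp only [hn] at r7
      obtain ⟨-, -, r8, r9⟩ := h1' (sh - e) r1
      have r10 : (γ1' (sh - e)).im / (η0 / s2 + (γ0' (sh - e)).im) ≤ 1 := by
        refine div_le_one_of_le₀ ?_ ?_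
        · have : 0 < η0 / s2 := by positivity
          linarith
        · have : 0 < η0 / s2 := by positivity
          linarith
      have r11 := (abs_le.1 r7).2
      have r12 : c ^ (1 / 301 : ℝ) ≤ 1 := Real.rpow_le_one hc.le hc1' (by norm_num)
      rw [le_div_iff₀ (by positivity)]
      calc η0 * (∑' x : Zd d, ((x i : ℝ) - (0 : Zd d) i) ^ 2 * ‖La (Ψ ω 0) e η0 x‖ ^ 2) *
            (η0 * s2) =
          η0 ^ 2 * s2 * ∑' x : Zd d, ((x i : ℝ) - (0 : Zd d) i) ^ 2 *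
            ‖La (Ψ ω 0) e η0 x‖ ^ 2 := by ring
        _ ≤ 3 := by linarith
    obtain ⟨-, h10⟩ := msd_split hVb hS η0 hη0p hη01 i _ b1 (4 * d) b2
      (b3 hκ.le) (fun e => (γ0 (sh - e)).im) b4 (ε / 20) δ (3 / (η0 * s2)) hδ0.le (by positivity)
      (by
        rw [b5]
        refine le_trans ?_ hmass
        gcongr) hmass0 hmom
    simp only [Pi.zero_apply, Int.cast_zero, sub_zero] at h10
    have h11 : Real.pi * (η0 ^ 2 * ∑' z : Zd d, (z i : ℝ) ^ 2 * pb η0 (Ψ ω 0) z) ≤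
        Real.pi * (3 / 5 * ε) := by
      calc Real.pi * (η0 ^ 2 * ∑' z : Zd d, (z i : ℝ) ^ 2 * pb η0 (Ψ ω 0) z) =
          η0 ^ 2 * (Real.pi * ∑' z : Zd d, (z i : ℝ) ^ 2 * pb η0 (Ψ ω 0) z) := by ring
        _ ≤ η0 ^ 2 * (4 * d * (3 / (η0 * s2)) + 4 / η0 ^ 2 * (Real.pi * (ε / 20) + 4 * d * δ)) :=
            mul_le_mul_of_nonneg_left h10 (sq_nonneg _)
        _ = 12 * d * (η0 / s2) + Real.pi * (ε / 5) + 16 * d * δ := by
            field_simp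
            ring
        _ ≤ ε / 5 + Real.pi * (ε / 5) + ε / 5 := by gcongr
        _ ≤ _ := by nlinarith
    exact le_of_mul_le_mul_left h11 hpi0
  obtain ⟨p, hpd⟩ : ∃ p, p = Real.exp (-c ^ (-(1 / 101) : ℝ)) + Real.exp (-c ^ (-(1 / 102) : ℝ)) :=
    ⟨_, rfl⟩
  have hpG : 1 - p ≤ (Measure.infinitePi fun _ : Zd d => μ).real (G ∩ G') := by
    have h5 : (Measure.infinitePi fun _ : Zd d => μ).real (G ∩ G')ᶜ ≤
        (Measure.infinitePi fun _ : Zd d => μ).real Gᶜ +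
          (Measure.infinitePi fun _ : Zd d => μ).real G'ᶜ := by
      rw [compl_inter]
      exact measureReal_union_le _ _
    rw [measureReal_compl (hG.inter hG'), measureReal_compl hG, measureReal_compl hG',
      probReal_univ] at h5
    rw [hpd]
    linarith
  have hp1 : p ≤ ε / 20 := by
    have h5 : Real.exp (-c ^ (-(1 / 101) : ℝ)) ≤ ε / 40 := by
      refine exp_small _ _ (hpos _) ?_
      rw [Real.rpow_neg hc.le, one_div, inv_inv]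
      rw [div_mul_eq_mul_div, div_le_one hε] at n2
      linarith
    have h6 : Real.exp (-c ^ (-(1 / 102) : ℝ)) ≤ ε / 40 := by
      refine exp_small _ _ (hpos _) ?_
      rw [Real.rpow_neg hc.le, one_div, inv_inv]
      rw [div_mul_eq_mul_div, div_le_one hε] at n3
      linarith
    linarith
  refine (fromGood μ f hf Ψ hΨ i η η0 hη hηη hη01 B0 hfB (G ∩ G') (hG.inter hG') p (3 / 5 * ε)
    hpG (by positivity) hF).trans (ENNReal.ofReal_le_ofReal ?_)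
  gcongr
  linarith

/-- **no ballistic motion at any time, with a rate, `d ≥ 3`** -/
theorem S2r (d : ℕ) (hd : 3 ≤ d) (b v : ℝ) (hb : 0 < b) (hv : 0 < v) :
    ∃ c0 : ℝ, 0 < c0 ∧ c0 ≤ 1 ∧ ∀ c : ℝ, 0 < c → c ≤ c0 →
    ∀ (μ : Measure ℝ) (_ : IsProbabilityMeasure μ), (∀ᵐ s ∂μ, |s| ≤ b) →
    ∀ Mn V : ℝ, ∫ s, s ∂μ = Mn → ∫ s, (s - Mn) ^ 2 ∂μ = V → v ≤ V →
    ∀ f : ℝ → ℝ, Measurable f → (∀ s, |s| ≤ b → f s = 2 * d + c * s) →
    ∀ B0 : ℝ, (∀ s, |f s| ≤ B0) →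
    ∀ Ψ : (Zd d → ℝ) → Zd d → ℝ → Zd d → ℂ, (∀ ω a, Sol d (fun x => f (ω x)) a (Ψ ω a)) →
    ∀ (i : Fin d) (η : ℝ), 0 < η → η ≤ c ^ (83 / 41 : ℝ) →
      ∫⁻ ω, ∑' z : Zd d, ENNReal.ofReal ((z i : ℝ) ^ 2 * pb η (Ψ ω 0) z)
        ∂(Measure.infinitePi fun _ : Zd d => μ) ≤
          ENNReal.ofReal ((c ^ (1 / 41 : ℝ) * (5 * (d + 1) / v + 1)) / η ^ 2) := by
  have hd0 : (0 : ℝ) < d := by exact_mod_cast (by omega : 0 < d)
  have hpi := Real.pi_gt_three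
  have hpi4 := Real.pi_lt_d2
  have hpi0 := Real.pi_pos
  obtain ⟨c1, hc1, hc11, hgood⟩ := Pool.Agent.R988.msd3 d hd b v hb hv
  obtain ⟨c2, hc2, hc21, hnum⟩ := ev_extract ((ev1 (1 / v) (1 / 41) (by norm_num)).and
    ((ev1 (164 * b ^ 2) 6 (by norm_num)).and (ev1 24 (3 / 102 - 1 / 41) (by norm_num))))
  refine ⟨min c1 c2, lt_min hc1 hc2,
    (min_le_left _ _).trans hc11,
    fun c hc hcc μ hμ hμb Mn V hM hV hvV f hf hfb B0 hfB Ψ hΨ i η hη hηη => ?_⟩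
  have hcc1 : c ≤ c1 := hcc.trans (min_le_left _ _)
  have hcc2 : c ≤ c2 := hcc.trans (min_le_right _ _)
  obtain ⟨n1, n2, n3⟩ := hnum c hc hcc2
  have hc1' : c ≤ 1 := hcc2.trans hc21
  obtain ⟨G, hG, hP, hω⟩ := hgood c hc hcc1 μ hμ hμb Mn V hM hV hvV
  have hpos : ∀ p : ℝ, 0 < c ^ p := fun p => Real.rpow_pos_of_pos hc p
  have hadd : ∀ p q : ℝ, c ^ p * c ^ q = c ^ (p + q) := fun p q => (Real.rpow_add hc p q).symm
  have hV0 : 0 < V := hv.trans_le hvV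
  have hV4 := (var_le μ b Mn V hμb hM hV).1
  obtain ⟨η0, hη0⟩ : ∃ η0, η0 = c ^ (83 / 41 : ℝ) := ⟨_, rfl⟩
  rw [← hη0] at hηη
  have hη0p : 0 < η0 := by rw [hη0]; exact hpos _
  have hη01 : η0 ≤ 1 := by rw [hη0]; exact Real.rpow_le_one hc.le hc1' (by norm_num)
  obtain ⟨s2, hs2⟩ : ∃ s2, s2 = c ^ 2 * V := ⟨_, rfl⟩
  have hs20 : 0 < s2 := by rw [hs2]; positivity
  have hηs : η0 * v ≤ s2 * c ^ (1 / 41 : ℝ) := by
    have e1 : η0 = c ^ 2 * c ^ (1 / 41 : ℝ) := by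
      rw [hη0, ← Real.rpow_natCast c 2, hadd]
      norm_num
    rw [e1, hs2]
    have := hpos (1 / 41)
    calc c ^ 2 * c ^ (1 / 41 : ℝ) * v ≤ c ^ 2 * c ^ (1 / 41 : ℝ) * V := by gcongr
      _ = _ := by ring
  have hηs2 : η0 ≤ s2 := by
    have h5 : c ^ (1 / 41 : ℝ) ≤ v := by
      rw [one_div, inv_mul_le_iff₀ hv, mul_one] at n1
      exact n1
    have h6 : η0 * v ≤ s2 * v := hηs.trans (by gcongr)
    exact le_of_mul_le_mul_right h6 hv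
  have hF : ∀ ω ∈ G, η0 ^ 2 * ∑' z : Zd d, (z i : ℝ) ^ 2 * pb η0 (Ψ ω 0) z ≤
      c ^ (1 / 41 : ℝ) * (5 * (d + 1) / v) := by
    intro ω hωG
    obtain ⟨hωb, hprof⟩ := hω ω hωG
    have hS := hΨ ω 0
    have hpot : (fun x => f (ω x)) = fun x => 2 * (d : ℝ) + c * ω x := by
      funext x
      exact hfb _ (hωb x)
    rw [hpot] at hS
    obtain ⟨-, h10⟩ := hprof 0 (by
      rw [norm_zero]
      exact (Real.exp_pos _).le) (Ψ ω 0) hS η0 (by rw [hη0]) (by rw [← hs2]; exact hηs2) i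
    rw [← hs2] at h10
    simp only [Pi.zero_apply, Int.cast_zero, sub_zero] at h10
    change |Real.pi * η0 * s2 * (∑' x : Zd d, (x i : ℝ) ^ 2 * pb η0 (Ψ ω 0) x) -
      2 * ∫ E in (-(2 * (d : ℝ)))..(2 * d), Pool.Agent.R988.Pf d (η0 / s2) E| ≤ _ at h10
    have hu : 0 < η0 / s2 := by positivity
    have h11 : ∫ E in (-(2 * (d : ℝ)))..(2 * d), Pool.Agent.R988.Pf d (η0 / s2) E ≤ 4 * d := by
      have h12 := intervalIntegral.integral_mono_on (by linarith : -(2 * (d : ℝ)) ≤ 2 * d)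
        ((Pool.Agent.R988.Pf_cont d hd (η0 / s2) hu).intervalIntegrable _ _)
        (intervalIntegrable_const (μ := volume) (c := (1 : ℝ)))
        (fun E _ => (Pool.Agent.R988.Pf_bd d hd (η0 / s2) E hu).2)
      rw [intervalIntegral.integral_const, smul_eq_mul, mul_one] at h12
      linarith
    have h13 : c ^ (1 / 301 : ℝ) ≤ 1 := Real.rpow_le_one hc.le hc1' (by norm_num)
    have h14 : 13 * Real.pi * (η0 ^ 2 * s2) ≤ 1 := by
      have h15 : η0 ^ 2 * s2 ≤ 4 * b ^ 2 * c ^ (6 : ℝ) := by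
        have h16 : η0 ≤ c ^ (2 : ℝ) := by
          rw [hη0]
          exact Real.rpow_le_rpow_of_exponent_ge hc hc1' (by norm_num)
        have e1 : c ^ (6 : ℝ) = (c ^ (2 : ℝ)) ^ 2 * c ^ 2 := by
          rw [← Real.rpow_natCast (c ^ (2 : ℝ)) 2, ← Real.rpow_mul hc.le,
            ← Real.rpow_natCast c 2, hadd]
          norm_num
        rw [e1, hs2]
        calc η0 ^ 2 * (c ^ 2 * V) ≤ (c ^ (2 : ℝ)) ^ 2 * (c ^ 2 * (4 * b ^ 2)) := by gcongr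
          _ = _ := by ring
      have h17 : 13 * Real.pi ≤ 41 := by linarith
      have h18 : 0 ≤ η0 ^ 2 * s2 := by positivity
      have h19 := hpos 6
      calc 13 * Real.pi * (η0 ^ 2 * s2) ≤ 41 * (4 * b ^ 2 * c ^ (6 : ℝ)) := by gcongr
        _ = 164 * b ^ 2 * c ^ (6 : ℝ) := by ring
        _ ≤ 1 := n2
    have h20 : Real.pi * η0 * s2 * (∑' x : Zd d, (x i : ℝ) ^ 2 * pb η0 (Ψ ω 0) x) ≤
        14 * d + 1 := by
      have h21 := (abs_le.1 h10).2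
      have h22 : 6 * d * c ^ (1 / 301 : ℝ) ≤ 6 * d := mul_le_of_le_one_right (by positivity) h13
      linarith
    have h23 : (η0 ^ 2 * ∑' z : Zd d, (z i : ℝ) ^ 2 * pb η0 (Ψ ω 0) z) * (3 * (s2 * v)) ≤
        (c ^ (1 / 41 : ℝ) * (5 * (d + 1) / v)) * (3 * (s2 * v)) := by
      obtain ⟨Sg, hSg⟩ : ∃ Sg, Sg = ∑' z : Zd d, (z i : ℝ) ^ 2 * pb η0 (Ψ ω 0) z := ⟨_, rfl⟩
      have hSg0 : 0 ≤ Sg := by
        rw [hSg]
        exact tsum_nonneg fun z => mul_nonneg (sq_nonneg _) (pb_nonneg η0 hη0p _ _)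
      rw [← hSg] at h20 ⊢
      have h24 : 3 * η0 * s2 * Sg ≤ 14 * d + 1 := by
        refine le_trans ?_ h20
        gcongr
      calc (η0 ^ 2 * Sg) * (3 * (s2 * v)) = (3 * η0 * s2 * Sg) * (η0 * v) := by ring
        _ ≤ (14 * d + 1) * (s2 * c ^ (1 / 41 : ℝ)) := by gcongr
        _ ≤ (15 * (d + 1)) * (s2 * c ^ (1 / 41 : ℝ)) := by
            have := hpos (1 / 41)
            gcongr
            linarith
        _ = _ := by
            field_simp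
            norm_num
    exact le_of_mul_le_mul_right h23 (by positivity)
  have hp1 : 4 * Real.exp (-c ^ (-(1 / 102) : ℝ)) ≤ c ^ (1 / 41 : ℝ) := by
    have hy := hpos (-(1 / 102))
    have h5 := Real.pow_div_factorial_le_exp (c ^ (-(1 / 102) : ℝ)) hy.le 3
    have e1 : (c ^ (-(1 / 102) : ℝ)) ^ 3 = c ^ (-(3 / 102) : ℝ) := by
      rw [← Real.rpow_natCast (c ^ (-(1 / 102) : ℝ)) 3, ← Real.rpow_mul hc.le]
      norm_num
    rw [e1] at h5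
    have h6 : Real.exp (-c ^ (-(1 / 102) : ℝ)) ≤ 6 * c ^ (3 / 102 : ℝ) := by
      rw [Real.exp_neg, inv_le_comm₀ (Real.exp_pos _) (by
        have := hpos (3 / 102)
        positivity)]
      refine le_trans (le_of_eq ?_) h5
      rw [Real.rpow_neg hc.le, mul_inv]
      norm_num [Nat.factorial]
      ring
    have e2 : c ^ (3 / 102 : ℝ) = c ^ (3 / 102 - 1 / 41 : ℝ) * c ^ (1 / 41 : ℝ) := by
      rw [hadd]
      norm_num
    calc 4 * Real.exp (-c ^ (-(1 / 102) : ℝ)) ≤ 4 * (6 * c ^ (3 / 102 : ℝ)) := by gcongr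
      _ = (24 * c ^ (3 / 102 - 1 / 41 : ℝ)) * c ^ (1 / 41 : ℝ) := by
          rw [e2]
          ring
      _ ≤ 1 * c ^ (1 / 41 : ℝ) := by
          have := hpos (1 / 41)
          gcongr
      _ = _ := one_mul _
  have h41 := hpos (1 / 41)
  refine (fromGood μ f hf Ψ hΨ i η η0 hη hηη hη01 B0 hfB G hG
    (Real.exp (-c ^ (-(1 / 102) : ℝ))) (c ^ (1 / 41 : ℝ) * (5 * (d + 1) / v))
    hP (by positivity) hF).trans (ENNReal.ofReal_le_ofReal ?_)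
  gcongr
  linarith

end Pool.Agent.R988.Tor
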