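import Pool.Agent.R988.TU

/-! The mean square displacement at all times: almost sure solutions. -/

set_option autoImplicit false
set_option linter.unusedSectionVars false
set_option linter.unusedVariables false

open scoped BigOperators ComplexConjugate InnerProductSpace Topology ENNReal
open Set MeasureTheory Filter

namespace Pool.Agent.R988.Tor

open Pool.Agent.H4R2.LO (Zd)
open Pool.Agent.TH794.QD (Sol exists_sol)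

variable {d : ℕ}

/-- two solutions have the same position probabilities -/
theorem pb_eq {V : Zd d → ℝ} {c : Zd d} {ψ ψ' : ℝ → Zd d → ℂ} (h : Sol d V c ψ)
    (h' : Sol d V c ψ') (η : ℝ) (hη : 0 < η) (z : Zd d) : pb η ψ z = pb η ψ' z := by
  have h1 := pb_unique h h' η hη (fun y => if y = z then 1 else 0) (fun y => by
    split_ifs <;> simp)
  have h2 : ∀ φ : ℝ → Zd d → ℂ, ∑' y, (if y = z then (1 : ℝ) else 0) * pb η φ y =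
      pb η φ z := by
    intro φ
    rw [tsum_eq_single z fun y hy => by rw [if_neg hy, zero_mul], if_pos rfl, one_mul]
  rw [h2, h2] at h1
  exact h1

theorem fb_bound (b c : ℝ) (hb : 0 ≤ b) (hc : 0 ≤ c) (s : ℝ) :
    |2 * (d : ℝ) + c * cb b s| ≤ 2 * d + c * b := by
  refine (abs_add_le _ _).trans ?_
  rw [abs_of_nonneg (by positivity : (0 : ℝ) ≤ 2 * d), abs_mul, abs_of_nonneg hc]
  have := mul_le_mul_of_nonneg_left (cb_abs b s hb) hc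
  linarith

theorem lint_modif (b c : ℝ) (hb : 0 ≤ b) (hc : 0 ≤ c) (μ : Measure ℝ) [IsProbabilityMeasure μ]
    (hμb : ∀ᵐ s ∂μ, |s| ≤ b) (Ψ : (Zd d → ℝ) → Zd d → ℝ → Zd d → ℂ)
    (hΨ : ∀ ω a, Sol d (fun x => 2 * (d : ℝ) + c * cb b (ω x)) a (Ψ ω a))
    (ψ : (Zd d → ℝ) → ℝ → Zd d → ℂ) (hψ : ∀ᵐ ω ∂(Measure.infinitePi fun _ : Zd d => μ),
      Sol d (fun x => 2 * (d : ℝ) + c * ω x) 0 (ψ ω)) (i : Fin d) (η : ℝ) (hη : 0 < η) :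
    (fun ω => ∑' z : Zd d, ENNReal.ofReal ((z i : ℝ) ^ 2 * pb η (ψ ω) z))
      =ᵐ[Measure.infinitePi fun _ : Zd d => μ]
      fun ω => ∑' z : Zd d, ENNReal.ofReal ((z i : ℝ) ^ 2 * pb η (Ψ ω 0) z) := by
  filter_upwards [ae_box (d := d) μ b hμb, hψ] with ω hω hω2
  have hpot : (fun x => 2 * (d : ℝ) + c * cb b (ω x)) = fun x => 2 * (d : ℝ) + c * ω x := by
    funext x
    rw [cb_eq b _ (hω x)]
  have h1 := hΨ ω 0
  rw [hpot] at h1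
  exact tsum_congr fun z => by rw [pb_eq hω2 h1 η hη z]

theorem S2w (d : ℕ) (hd : 2 ≤ d) (b v ε : ℝ) (hb : 0 < b) (hv : 0 < v) (hε : 0 < ε) :
    ∃ c0 : ℝ, 0 < c0 ∧ c0 ≤ 1 ∧ ∀ c : ℝ, 0 < c → c ≤ c0 →
    ∀ (μ : Measure ℝ) (_ : IsProbabilityMeasure μ), (∀ᵐ s ∂μ, |s| ≤ b) →
    ∀ Mn V : ℝ, ∫ s, s ∂μ = Mn → ∫ s, (s - Mn) ^ 2 ∂μ = V → v ≤ V →
    ∀ ψ : (Zd d → ℝ) → ℝ → Zd d → ℂ, (∀ᵐ ω ∂(Measure.infinitePi fun _ : Zd d => μ),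
      Sol d (fun x => 2 * (d : ℝ) + c * ω x) 0 (ψ ω)) →
    ∀ (i : Fin d) (η : ℝ), 0 < η → η ≤ c ^ (83 / 41 : ℝ) →
      ∫⁻ ω, ∑' z : Zd d, ENNReal.ofReal ((z i : ℝ) ^ 2 * pb η (ψ ω) z)
        ∂(Measure.infinitePi fun _ : Zd d => μ) ≤ ENNReal.ofReal (ε / η ^ 2) := by
  obtain ⟨c0, hc0, hc01, h⟩ := S2 d hd b v ε hb hv hε
  refine ⟨c0, hc0, hc01, fun c hc hcc μ hμ hμb Mn V hM hV hvV ψ hψ i η hη hηη => ?_⟩
  obtain ⟨Ψ, hΨ⟩ := modif (d := d) b c hb.le hc.le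
  have hf : Measurable fun s : ℝ => 2 * (d : ℝ) + c * cb b s :=
    measurable_const.add (measurable_const.mul (cb_meas b))
  rw [lintegral_congr_ae (lint_modif b c hb.le hc.le μ hμb Ψ hΨ ψ hψ i η hη)]
  exact h c hc hcc μ hμ hμb Mn V hM hV hvV (fun s => 2 * (d : ℝ) + c * cb b s) hf
      (fun s hs => by rw [cb_eq b s hs]) (2 * d + c * b) (fb_bound b c hb.le hc.le) Ψ hΨ i η hη hηη

theorem S2rw (d : ℕ) (hd : 3 ≤ d) (b v : ℝ) (hb : 0 < b) (hv : 0 < v) :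
    ∃ c0 : ℝ, 0 < c0 ∧ c0 ≤ 1 ∧ ∀ c : ℝ, 0 < c → c ≤ c0 →
    ∀ (μ : Measure ℝ) (_ : IsProbabilityMeasure μ), (∀ᵐ s ∂μ, |s| ≤ b) →
    ∀ Mn V : ℝ, ∫ s, s ∂μ = Mn → ∫ s, (s - Mn) ^ 2 ∂μ = V → v ≤ V →
    ∀ ψ : (Zd d → ℝ) → ℝ → Zd d → ℂ, (∀ᵐ ω ∂(Measure.infinitePi fun _ : Zd d => μ),
      Sol d (fun x => 2 * (d : ℝ) + c * ω x) 0 (ψ ω)) →
    ∀ (i : Fin d) (η : ℝ), 0 < η → η ≤ c ^ (83 / 41 : ℝ) →
      ∫⁻ ω, ∑' z : Zd d, ENNReal.ofReal ((z i : ℝ) ^ 2 * pb η (ψ ω) z)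
        ∂(Measure.infinitePi fun _ : Zd d => μ) ≤
          ENNReal.ofReal ((c ^ (1 / 41 : ℝ) * (5 * (d + 1) / v + 1)) / η ^ 2) := by
  obtain ⟨c0, hc0, hc01, h⟩ := S2r d hd b v hb hv
  refine ⟨c0, hc0, hc01, fun c hc hcc μ hμ hμb Mn V hM hV hvV ψ hψ i η hη hηη => ?_⟩
  obtain ⟨Ψ, hΨ⟩ := modif (d := d) b c hb.le hc.le
  have hf : Measurable fun s : ℝ => 2 * (d : ℝ) + c * cb b s :=
    measurable_const.add (measurable_const.mul (cb_meas b))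
  rw [lintegral_congr_ae (lint_modif b c hb.le hc.le μ hμb Ψ hΨ ψ hψ i η hη)]
  exact h c hc hcc μ hμ hμb Mn V hM hV hvV (fun s => 2 * (d : ℝ) + c * cb b s) hf
      (fun s hs => by rw [cb_eq b s hs]) (2 * d + c * b) (fb_bound b c hb.le hc.le) Ψ hΨ i η hη hηη

end Pool.Agent.R988.Tor
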