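import Pool.Agent.TH794.QE.FinA

/-! Comparison of the resolvent on a torus with the resolvent on the lattice. -/

set_option autoImplicit false
set_option linter.unusedSectionVars false
set_option linter.unusedVariables false

open scoped BigOperators ComplexConjugate
open Set

namespace Pool.Agent.R988.Tor

open Pool.Agent.W788.LD.Spec (S)
open Pool.Agent.H4R2.LO (Zd)
open Pool.Agent.TH794.QE (Rs QM QM_eq rs_LS mom_c)
open Pool.Agent.TH794.QD (cj green)
open Pool.Agent.TH794.FG (LS)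

theorem rs_norm {d : ℕ} {V : Zd d → ℝ} {a : Zd d} {e η : ℝ} {u : Zd d → ℂ} (h : Rs d V a e η u)
    (hη : 0 < η) (hη1 : η ≤ 1) (j : Fin d) : ∑' x, ‖u x‖ ^ 2 ≤ (η⁻¹) ^ 2 := by
  have hV : ∀ x, V x = 0 - 1 * (fun x => -V x) x := fun x => by ring
  obtain ⟨h0, -⟩ := mom_c a (rs_LS h _ 0 1 hV) hη hη1 j
  obtain ⟨h1, -⟩ := green h0 hη hη1 j
  have e1 : ∀ x, ‖u x‖ ^ 2 = (-(u x).re) ^ 2 + (u x).im ^ 2 := by
    intro x
    rw [← Complex.normSq_eq_norm_sq, Complex.normSq_apply]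
    ring
  have e2 : ∑' x, ‖u x‖ ^ 2 = ∑' x, ‖u (x + a)‖ ^ 2 :=
    ((Equiv.addRight a).tsum_eq fun x => ‖u x‖ ^ 2).symm
  rw [e2]
  simp only [e1]
  rw [h0.sr.tsum_add h0.si]
  exact h1

theorem rs_qm {d : ℕ} {V : Zd d → ℝ} {a : Zd d} {e η : ℝ} {u : Zd d → ℂ} (h : Rs d V a e η u)
    (hη : 0 < η) (hη1 : η ≤ 1) (j : Fin d) :
    (Summable fun x => ((x j : ℝ) - a j) ^ 2 * ‖u x‖ ^ 2) ∧
    ∑' x, ((x j : ℝ) - a j) ^ 2 * ‖u x‖ ^ 2 ≤ 4 * (η⁻¹) ^ 4 := by
  have hV : ∀ x, V x = 0 - 1 * (fun x => -V x) x := fun x => by ring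
  obtain ⟨-, -, -, -, -, -, -, h8⟩ := mom_c a (rs_LS h _ 0 1 hV) hη hη1 j
  obtain ⟨h1, h2⟩ := QM_eq h _ 0 1 hV hη hη1 j
  refine ⟨h1, ?_⟩
  have h3 : QM a j u = ∑' x, ((x j : ℝ) - a j) ^ 2 * ‖u x‖ ^ 2 := rfl
  rw [← h3, h2]
  refine h8.trans (le_of_eq ?_)
  ring

variable {d L : ℕ} [NeZero L]

/-- the torus -/
abbrev TT (d L : ℕ) : Type := Fin d → ZMod L

/-- the sum over the neighbours -/
noncomputable def TS (u : TT d L → ℂ) (x : TT d L) : ℂ :=
  ∑ i : Fin d, (u (x + Pi.single i 1) + u (x - Pi.single i 1))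

theorem ts_symm (u v : TT d L → ℂ) :
    ∑ x, conj (v x) * TS u x = ∑ x, conj (TS v x) * u x := by
  unfold TS
  simp only [Finset.mul_sum, map_sum, Finset.sum_mul]
  rw [Finset.sum_comm]
  conv_rhs => rw [Finset.sum_comm]
  refine Finset.sum_congr rfl fun i _ => ?_
  simp only [map_add, mul_add, add_mul, Finset.sum_add_distrib]
  have h1 : ∑ x, conj (v x) * u (x + Pi.single i 1) =
      ∑ x, conj (v (x - Pi.single i 1)) * u x := by
    refine Fintype.sum_equiv (Equiv.addRight (Pi.single i 1 : TT d L)) _ _ fun x => ?_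
    simp
  have h2 : ∑ x, conj (v x) * u (x - Pi.single i 1) =
      ∑ x, conj (v (x + Pi.single i 1)) * u x := by
    refine Fintype.sum_equiv (Equiv.subRight (Pi.single i 1 : TT d L)) _ _ fun x => ?_
    simp
  rw [h1, h2, add_comm]

/-- the energy estimate -/
theorem energy (W : TT d L → ℝ) (e η : ℝ) (hη : 0 < η) (v b : TT d L → ℂ)
    (h : ∀ x, -TS v x + (W x : ℂ) * v x - ((e : ℂ) + (η : ℂ) * Complex.I) * v x = b x) :
    η ^ 2 * ∑ x, ‖v x‖ ^ 2 ≤ ∑ x, ‖b x‖ ^ 2 := by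
  have h1 : ∀ z : ℂ, conj z * z = ((‖z‖ ^ 2 : ℝ) : ℂ) := by
    intro z
    rw [mul_comm, Complex.mul_conj, Complex.normSq_eq_norm_sq]
  have e1 : ∑ x, conj (v x) * b x = -∑ x, conj (v x) * TS v x +
      ∑ x, ((W x * ‖v x‖ ^ 2 : ℝ) : ℂ) -
      ((e : ℂ) + (η : ℂ) * Complex.I) * ∑ x, ((‖v x‖ ^ 2 : ℝ) : ℂ) := by
    rw [Finset.mul_sum, ← Finset.sum_neg_distrib, ← Finset.sum_add_distrib,
      ← Finset.sum_sub_distrib]
    refine Finset.sum_congr rfl fun x _ => ?_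
    rw [← h x]
    push_cast
    have := h1 (v x)
    push_cast at this
    linear_combination (W x - (e + η * Complex.I)) * this
  have e2 : (∑ x, conj (v x) * TS v x).im = 0 := by
    have h2 := ts_symm v v
    have h3 : ∑ x, conj (TS v x) * v x = conj (∑ x, conj (v x) * TS v x) := by
      rw [map_sum]
      refine Finset.sum_congr rfl fun x _ => ?_
      rw [map_mul, Complex.conj_conj, mul_comm]
    rw [h3] at h2
    exact Complex.conj_eq_iff_im.1 h2.symm
  have e3 := congrArg Complex.im e1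
  rw [← Complex.ofReal_sum, ← Complex.ofReal_sum, Complex.sub_im, Complex.add_im, Complex.neg_im,
    e2, Complex.ofReal_im, Complex.mul_im, Complex.ofReal_im, Complex.ofReal_re] at e3
  simp only [Complex.add_re, Complex.add_im, Complex.ofReal_re, Complex.ofReal_im, Complex.mul_re,
    Complex.mul_im, Complex.I_re, Complex.I_im] at e3
  obtain ⟨A, hA⟩ : ∃ A, A = ∑ x, ‖v x‖ ^ 2 := ⟨_, rfl⟩
  obtain ⟨B, hB⟩ : ∃ B, B = ∑ x, ‖b x‖ ^ 2 := ⟨_, rfl⟩
  rw [← hA] at e3 ⊢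
  rw [← hB]
  have hA0 : 0 ≤ A := by rw [hA]; positivity
  have h4 : η * A ≤ ‖∑ x, conj (v x) * b x‖ := by
    have h5 : η * A = -(∑ x, conj (v x) * b x).im := by
      rw [e3]
      ring
    rw [h5]
    exact (neg_le_abs _).trans (Complex.abs_im_le_norm _)
  have h6 : ‖∑ x, conj (v x) * b x‖ ≤ ∑ x, ‖v x‖ * ‖b x‖ := by
    refine (norm_sum_le _ _).trans (le_of_eq ?_)
    refine Finset.sum_congr rfl fun x _ => ?_
    rw [norm_mul, RCLike.norm_conj]
  have h7 : (∑ x, ‖v x‖ * ‖b x‖) ^ 2 ≤ A * B := by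
    rw [hA, hB]
    exact Finset.sum_mul_sq_le_sq_mul_sq _ _ _
  have h8 : (η * A) ^ 2 ≤ A * B :=
    (pow_le_pow_left₀ (by positivity) (h4.trans h6) 2).trans h7
  rcases hA0.eq_or_lt with h0 | h0
  · rw [← h0, mul_zero]
    rw [hB]
    positivity
  · have h9 : A * (η ^ 2 * A) ≤ A * B := by
      calc A * (η ^ 2 * A) = (η * A) ^ 2 := by ring
        _ ≤ _ := h8
    exact le_of_mul_le_mul_left h9 h0

/-- the point of the box over a point of the torus -/
def em (x : TT d L) : Zd d := fun i => ((x i).val : ℤ)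

/-- the point of the torus under a point of the lattice -/
def pr (L : ℕ) (z : Zd d) : TT d L := fun i => ((z i : ℤ) : ZMod L)

theorem pr_em (x : TT d L) : pr L (em x) = x := by
  funext i
  simp [pr, em]

theorem em_nonneg (x : TT d L) (i : Fin d) : 0 ≤ em x i := by
  unfold em
  positivity

theorem em_lt (x : TT d L) (i : Fin d) : em x i < L := by
  unfold em
  exact_mod_cast ZMod.val_lt (x i)

theorem em_inj : Function.Injective (em : TT d L → Zd d) := fun x y h => by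
  rw [← pr_em x, h, pr_em]

theorem em_pr (z : Zd d) (h : ∀ i, 0 ≤ z i ∧ z i < L) : em (pr L z) = z := by
  funext i
  unfold em pr
  rw [ZMod.val_intCast]
  exact Int.emod_eq_of_lt (h i).1 (h i).2

theorem pr_add (z w : Zd d) : pr L (z + w) = pr L z + pr L w := by
  funext i
  simp [pr]

theorem pr_sub (z w : Zd d) : pr L (z - w) = pr L z - pr L w := by
  funext i
  simp [pr]

theorem pr_single (i : Fin d) : pr L (Pi.single i 1 : Zd d) = Pi.single i 1 := by
  funext j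
  unfold pr
  by_cases h : j = i
  · subst h
    simp
  · simp [h]

end Pool.Agent.R988.Tor
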